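import Pool.Agent.Lib.MP_44a246_nt.HP.Defs

/-!
# Counting points near hyperplanes, sharp version: definitions
-/

set_option autoImplicit false

open NumberField IsDedekindDomain Height
open Pool.Agent.Lib.MP_4d5ce1_nt (ordv fa nv)
open Pool.Agent.Lib.MP_44a246_nt.HP

namespace Pool.Agent.Lib.MP_44a246_nt.HQ

section defs

variable {K : Type*} [Field K] [NumberField K]

/-- The `2 × 2` minors of two vectors. -/
def mi {m : ℕ} (u z : Fin m → K) (i j : Fin m) : K := u i * z j - u j * z i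

/-- The largest sum of `e` over a subset of `Λ` with `n` elements. -/
def tn {q : ℕ} (n : ℕ) (e : Fin q → ℕ) (Λ : Finset (Fin q)) : ℕ :=
  (Λ.powersetCard n).sup fun s => ∑ l ∈ s, e l

/-- Common part of the exponent `κ v l` and of the congruence `H ≡ α l`, at a prime `v`. -/
noncomputable def hp {q m : ℕ} (α : Fin q → Fin m → K) (H : Fin m → K)
    (κ : HeightOneSpectrum (𝓞 K) →₀ (Fin q → ℕ)) (v : HeightOneSpectrum (𝓞 K)) (l : Fin q) : ℕ :=
  open Classical in
  Nat.findGreatest (fun e => ∀ i j, fa v (mi H (α l) i j) ≤ (nv v ^ e)⁻¹) (κ v l)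

/-- Common part of the exponent `k w l` and of the congruence `H ≡ α l`, at an infinite
place `w`. -/
noncomputable def hi {q m : ℕ} (α : Fin q → Fin m → K) (H : Fin m → K)
    (k : InfinitePlace K → Fin q → ℕ) (w : InfinitePlace K) (l : Fin q) : ℕ :=
  open Classical in
  Nat.findGreatest (fun e => ∀ i j, w (mi H (α l) i j) ≤
    Real.exp (logHeight H / dg K - (e : ℝ) / (w.mult : ℝ))) (k w l)

/-- Deficiency at a prime. -/
noncomputable def jp2 {q m : ℕ} (Λ : Finset (Fin q)) (α : Fin q → Fin m → K) (H : Fin m → K)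
    (κ : HeightOneSpectrum (𝓞 K) →₀ (Fin q → ℕ)) (v : HeightOneSpectrum (𝓞 K)) : ℕ :=
  Λ.sup fun l => κ v l - hp α H κ v l

/-- Deficiency at an infinite place. -/
noncomputable def ji2 {q m : ℕ} (Λ : Finset (Fin q)) (α : Fin q → Fin m → K) (H : Fin m → K)
    (k : InfinitePlace K → Fin q → ℕ) (w : InfinitePlace K) : ℕ :=
  Λ.sup fun l => k w l - hi α H k w l

/-- The size of the hyperplane `H` in the slices with exponents `κ, k`. -/
noncomputable def ell2 {q m : ℕ} (Λ : Finset (Fin q)) (α : Fin q → Fin m → K) (H : Fin m → K)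
    (κ : HeightOneSpectrum (𝓞 K) →₀ (Fin q → ℕ)) (k : InfinitePlace K → Fin q → ℕ) : ℝ :=
  logHeight H + ∑ v ∈ κ.support, (jp2 Λ α H κ v : ℝ) * lnv v + ∑ w, (ji2 Λ α H k w : ℝ)

/-- The index of the slices with exponents `κ, k`. -/
noncomputable def ind2 {q : ℕ} (n : ℕ) (Λ : Finset (Fin q))
    (κ : HeightOneSpectrum (𝓞 K) →₀ (Fin q → ℕ)) (k : InfinitePlace K → Fin q → ℕ) : ℝ :=
  ∑ v ∈ κ.support, (tn n (κ v) Λ : ℝ) * lnv v + ∑ w, (tn n (k w) Λ : ℝ)

/-- The properties of the selected key of a point. -/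
structure KeyOK2 {q : ℕ} (n : ℕ) (F : Finset (Fin q)) (bad : Finset (HeightOneSpectrum (𝓞 K)))
    (A β D₂ : ℝ) (κ : HeightOneSpectrum (𝓞 K) →₀ (Fin q → ℕ))
    (k : InfinitePlace K → Fin q → ℕ) : Prop where
  size : siz κ k ≤ A * (β + 1)
  gain : D₂ * β - A ≤ phi F κ k + ind2 n Fᶜ κ k - code bad κ
  slack : code bad κ - phi F κ k ≤ D₂ * β + A
  useful : ∀ v ∈ gsupp bad κ, Useful (κ v)
  sel : Sel F (gsupp bad κ) lnv (fun v => κ v)

end defs

end Pool.Agent.Lib.MP_44a246_nt.HQ
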