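import Pool.Agent.Lib.MP_44a246_nt.HQ.Defs

set_option autoImplicit false

open NumberField IsDedekindDomain Height
open Pool.Agent.Lib.MP_4d5ce1_nt (ordv fa nv)
open Pool.Agent.Lib.MP_44a246_nt.HP

namespace Pool.Agent.Lib.MP_44a246_nt.HQ

/-! ## HQ-6 -/

private lemma hq6_cell_real (m : ℕ) (x : ℝ) (s : ℝ) (hs : 0 < s) (hx : |x| ≤ m * s) :
    (⌊x / s⌋ + m).toNat < 2 * m + 1 ∧ ((⌊x / s⌋ + m).toNat : ℤ) = ⌊x / s⌋ + m := by
  have h1 : |x / s| ≤ m := by
    rw [abs_div, abs_of_pos hs, div_le_iff₀ hs]; exact hx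
  rw [abs_le] at h1
  have h2 : -(m : ℤ) ≤ ⌊x / s⌋ := by
    rw [Int.le_floor]; push_cast; linarith
  have h3 : ⌊x / s⌋ ≤ m := by
    rw [← Int.cast_le (R := ℝ)]
    exact (Int.floor_le _).trans (by push_cast; linarith)
  omega

private lemma hq6_cell_close {x y s : ℝ} (hs : 0 < s) (h : ⌊x / s⌋ = ⌊y / s⌋) : |x - y| ≤ s := by
  have h1 := Int.abs_sub_lt_one_of_floor_eq_floor h
  rw [← sub_div, abs_div, abs_of_pos hs, div_lt_one hs] at h1
  exact h1.le

/-- Cells of relative side `σ` in the ball of radius `r` at an infinite place. -/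
private lemma hq6_cells {K : Type*} [Field K] [NumberField K] (w : InfinitePlace K) :
    ∃ C : ℝ, 0 < C ∧ ∀ r σ : ℝ, 0 < r → 0 < σ → σ ≤ 1 →
      ∃ N : ℕ, (N : ℝ) ≤ C / σ ^ w.mult ∧ ∃ f : K → Fin N, ∀ z z' : K,
        w z ≤ r → w z' ≤ r → f z = f z' → w (z - z') ≤ σ * r := by
  classical
  refine ⟨7 ^ 2, by positivity, ?_⟩
  intro R σ hR hσ hσ1
  set s : ℝ := σ * R / 2 with hs
  have hspos : 0 < s := by positivity
  set m : ℕ := ⌈2 / σ⌉₊ with hm
  have hm1 : 2 / σ ≤ m := Nat.le_ceil _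
  have hm2 : (m : ℝ) < 2 / σ + 1 := Nat.ceil_lt_add_one (by positivity)
  have hmD : R ≤ m * s := by
    calc R = (2 / σ) * s := by rw [hs]; field_simp
      _ ≤ m * s := mul_le_mul_of_nonneg_right hm1 hspos.le
  have hcount : ((2 * m + 1 : ℕ) : ℝ) ≤ 7 / σ := by
    push_cast
    have h1 : (2 * (m : ℝ) + 1) ≤ 4 / σ + 3 := by
      have : 4 / σ = 2 * (2 / σ) := by ring
      rw [this]; linarith
    have h2 : (3 : ℝ) ≤ 3 / σ := by
      rw [le_div_iff₀ hσ]; nlinarith
    calc (2 * (m : ℝ) + 1) ≤ 4 / σ + 3 := h1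
      _ ≤ 4 / σ + 3 / σ := by linarith
      _ = 7 / σ := by ring
  let dre : K → ℝ := fun z => (w.embedding z).re
  let dim : K → ℝ := fun z => (w.embedding z).im
  have hre : ∀ z, w z ≤ R → |dre z| ≤ m * s := fun z hz => by
    rw [← w.norm_embedding_eq] at hz
    exact (Complex.abs_re_le_norm _).trans (hz.trans hmD)
  have him : ∀ z, w z ≤ R → |dim z| ≤ m * s := fun z hz => by
    rw [← w.norm_embedding_eq] at hz
    exact (Complex.abs_im_le_norm _).trans (hz.trans hmD)
  let code : ℝ → Fin (2 * m + 1) := fun x =>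
    if h : (⌊x / s⌋ + m).toNat < 2 * m + 1 then ⟨(⌊x / s⌋ + m).toNat, h⟩ else ⟨0, by omega⟩
  have hcode : ∀ x y : ℝ, |x| ≤ m * s → |y| ≤ m * s → code x = code y → |x - y| ≤ s := by
    intro x y hx hy hxy
    obtain ⟨h1, h2⟩ := hq6_cell_real m x s hspos hx
    obtain ⟨h3, h4⟩ := hq6_cell_real m y s hspos hy
    simp only [code, h1, h3, dif_pos, Fin.mk.injEq] at hxy
    apply hq6_cell_close hspos
    omega
  by_cases hw : w.IsReal
  · have hmult : w.mult = 1 := by simp [InfinitePlace.mult, hw]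
    refine ⟨2 * m + 1, ?_, ?_⟩
    · rw [hmult, pow_one]
      refine hcount.trans ?_
      apply div_le_div_of_nonneg_right _ hσ.le
      norm_num
    · refine ⟨fun z => code (dre z), ?_⟩
      intro z z' hz hz' h1
      have h2 := hcode _ _ (hre z hz) (hre z' hz') h1
      have him0 : ∀ x : K, (w.embedding x).im = 0 := by
        intro x
        rw [← InfinitePlace.embedding_of_isReal_apply hw]
        exact Complex.ofReal_im _
      have h3 : w.embedding (z - z') = ((dre z - dre z' : ℝ) : ℂ) := by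
        apply Complex.ext
        · simp only [dre, map_sub, Complex.sub_re, Complex.ofReal_re]
        · rw [him0, Complex.ofReal_im]
      rw [← w.norm_embedding_eq, h3, Complex.norm_real, Real.norm_eq_abs]
      refine h2.trans ?_
      rw [hs]
      have : 0 < σ * R := by positivity
      linarith
  · have hmult : w.mult = 2 := by simp [InfinitePlace.mult, hw]
    refine ⟨(2 * m + 1) * (2 * m + 1), ?_, ?_⟩
    · rw [hmult, Nat.cast_mul]
      have h5 : ((2 * m + 1 : ℕ) : ℝ) * ((2 * m + 1 : ℕ) : ℝ) ≤ (7 / σ) * (7 / σ) :=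
        mul_le_mul hcount hcount (Nat.cast_nonneg _) (by positivity)
      calc ((2 * m + 1 : ℕ) : ℝ) * ((2 * m + 1 : ℕ) : ℝ) ≤ (7 / σ) * (7 / σ) := h5
        _ = 7 ^ 2 / σ ^ 2 := by field_simp
    · refine ⟨fun z => finProdFinEquiv (code (dre z), code (dim z)), ?_⟩
      intro z z' hz hz' h
      have h1' := finProdFinEquiv.injective h
      rw [Prod.mk.injEq] at h1'
      have h2 := hcode _ _ (hre z hz) (hre z' hz') h1'.1
      have h3 := hcode _ _ (him z hz) (him z' hz') h1'.2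
      rw [← w.norm_embedding_eq]
      refine (Complex.norm_le_abs_re_add_abs_im _).trans ?_
      have h4 : (w.embedding (z - z')).re = dre z - dre z' := by
        simp only [dre, map_sub, Complex.sub_re]
      have h5 : (w.embedding (z - z')).im = dim z - dim z' := by
        simp only [dim, map_sub, Complex.sub_im]
      rw [h4, h5]
      rw [hs] at h2 h3
      linarith

/-- Existence of the scale `σ`. -/
private lemma hq6_sigma (d : ℕ) (hd : 0 < d) (y : ℝ) (hy : 0 < y) :
    ∃ σ : ℝ, 0 < σ ∧ σ ≤ 1 ∧ σ ^ d * y < 1 ∧ (σ ^ d)⁻¹ ≤ 1 + 2 * y := by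
  set z : ℝ := min 1 (1 / (2 * y)) with hz
  have hz0 : 0 < z := lt_min one_pos (by positivity)
  have hz1 : z ≤ 1 := min_le_left _ _
  refine ⟨z ^ (1 / (d:ℝ)), Real.rpow_pos_of_pos hz0 _, ?_, ?_, ?_⟩
  · exact Real.rpow_le_one hz0.le hz1 (by positivity)
  · rw [← Real.rpow_natCast, ← Real.rpow_mul hz0.le,
      one_div_mul_cancel (by positivity), Real.rpow_one]
    have : z ≤ 1 / (2 * y) := min_le_right _ _
    calc z * y ≤ 1 / (2 * y) * y := mul_le_mul_of_nonneg_right this hy.le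
      _ = 1 / 2 := by field_simp
      _ < 1 := by norm_num
  · rw [← Real.rpow_natCast, ← Real.rpow_mul hz0.le,
      one_div_mul_cancel (by positivity), Real.rpow_one]
    rcases min_cases 1 (1 / (2 * y)) with ⟨h1, _⟩ | ⟨h1, _⟩
    · rw [hz, h1]; simp; positivity
    · rw [hz, h1]; simp

/-- Upper bound for the finite part of the product formula. -/
private lemma hq6_finite_part {K : Type*} [Field K] [NumberField K] {z : K} (hz : z ≠ 0)
    (T : Finset (HeightOneSpectrum (𝓞 K))) (e : HeightOneSpectrum (𝓞 K) → ℝ)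
    (h1 : ∀ v ∈ T, Real.log (fa v z) ≤ - e v) (h2 : ∀ v ∉ T, fa v z ≤ 1) :
    ∑ᶠ v : HeightOneSpectrum (𝓞 K), Real.log (fa v z) ≤ - ∑ v ∈ T, e v := by
  classical
  have hfin := Pool.Agent.Lib.MP_4d5ce1_nt.finite_fa_ne_one hz
  rw [finsum_eq_sum_of_support_subset (s := T ∪ (hfin.toFinset \ T))]
  · rw [Finset.sum_union Finset.disjoint_sdiff, ← Finset.sum_neg_distrib]
    have h3 : ∑ v ∈ T, Real.log (fa v z) ≤ ∑ v ∈ T, - e v := Finset.sum_le_sum h1
    have h4 : ∑ v ∈ hfin.toFinset \ T, Real.log (fa v z) ≤ 0 := by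
      apply Finset.sum_nonpos
      intro v hv
      have hv' : v ∉ T := (Finset.mem_sdiff.mp hv).2
      exact Real.log_nonpos (Pool.Agent.Lib.MP_4d5ce1_nt.fa_nonneg v z) (h2 v hv')
    linarith
  · intro v hv
    have hv1 : fa v z ≠ 1 := by
      intro h
      apply hv
      simp [h]
    by_cases hT : v ∈ T
    · simp [hT]
    · simp [hT, hv1]


/-- Packing with several coordinates and a bounded total exponent. -/
private lemma hq6_packing (K : Type*) [Field K] [NumberField K] (ι : Type*) (m : ℕ) (A E : ℝ)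
    (hA : 1 ≤ A) :
    ∃ C : ℝ, 0 < C ∧ ∀ (X : Finset ι) (Δ : ι → ι → K) (s : InfinitePlace K → ι → Fin m → K)
      (r ρ : InfinitePlace K → ℝ) (T : Finset (HeightOneSpectrum (𝓞 K)))
      (e : HeightOneSpectrum (𝓞 K) → ℝ),
      (∀ w, 0 < r w) → (∀ w, 0 < ρ w) →
      (∀ x ∈ X, ∀ y ∈ X, x ≠ y → Δ x y ≠ 0) →
      (∀ x ∈ X, ∀ w, ∀ i, w (s w x i) ≤ r w) →
      (∀ x ∈ X, ∀ y ∈ X, x ≠ y → ∀ w, ∀ t : ℝ, 0 ≤ t → (∀ i, w (s w x i - s w y i) ≤ t) →
        w (Δ x y) ≤ A * ρ w * t) →
      (∀ x ∈ X, ∀ y ∈ X, x ≠ y → ∀ v ∈ T, Real.log (fa v (Δ x y)) ≤ - e v) →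
      (∀ x ∈ X, ∀ y ∈ X, x ≠ y → ∀ v ∉ T, fa v (Δ x y) ≤ 1) →
      (∑ w : InfinitePlace K, (w.mult : ℝ) * (Real.log (r w) + Real.log (ρ w)) -
          ∑ v ∈ T, e v ≤ E) →
      (X.card : ℝ) ≤ C := by
  classical
  choose Cw hCw hfw using fun w : InfinitePlace K => hq6_cells w
  set d := Module.finrank ℚ K with hd
  have hdpos : 0 < d := Module.finrank_pos
  have hA0 : 0 < A := by linarith
  set R : ℝ := Real.exp E with hR
  have hRpos : 0 < R := Real.exp_pos _
  obtain ⟨σ, hσ0, hσ1, hσ2, hσ3⟩ := hq6_sigma d hdpos (A ^ d * R) (by positivity)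
  have hprodCw : 0 < ∏ w, (Cw w / σ ^ w.mult) ^ m :=
    Finset.prod_pos fun w _ => pow_pos (div_pos (hCw w) (pow_pos hσ0 _)) _
  refine ⟨∏ w, (Cw w / σ ^ w.mult) ^ m, hprodCw, ?_⟩
  intro X Δ s r ρ T e hr hρ hne hs hΔ hT hnT hEb
  choose Nw hNw fw hfw' using fun w : InfinitePlace K => hfw w (r w) σ (hr w) hσ0 hσ1
  have hmult : ∑ w : InfinitePlace K, (w.mult : ℝ) = d := by
    exact_mod_cast InfinitePlace.sum_mult_eq (K := K)
  -- the coding map
  let code : X → (∀ w : InfinitePlace K, Fin m → Fin (Nw w)) := fun x w i => fw w (s w x i)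
  have hinj : Function.Injective code := by
    intro ⟨x, hx⟩ ⟨y, hy⟩ hcode
    by_contra hxy
    have hxy' : x ≠ y := fun h => hxy (Subtype.ext h)
    have hz := hne x hx y hy hxy'
    have hpf := Pool.Agent.Lib.MP_4d5ce1_nt.product_formula hz
    have hfp := hq6_finite_part hz T e (hT x hx y hy hxy') (hnT x hx y hy hxy')
    have harch : ∑ w : InfinitePlace K, (w.mult : ℝ) * Real.log (w (Δ x y)) ≤
        ∑ w : InfinitePlace K, (w.mult : ℝ) *
          (Real.log A + Real.log σ + (Real.log (r w) + Real.log (ρ w))) := by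
      apply Finset.sum_le_sum
      intro w _
      apply mul_le_mul_of_nonneg_left _ (by positivity)
      have h1 : ∀ i, w (s w x i - s w y i) ≤ σ * r w := by
        intro i
        have hc : fw w (s w x i) = fw w (s w y i) := congrFun (congrFun hcode w) i
        exact hfw' w _ _ (hs x hx w i) (hs y hy w i) hc
      have h2 : w (Δ x y) ≤ A * ρ w * (σ * r w) :=
        hΔ x hx y hy hxy' w _ (mul_nonneg hσ0.le (hr w).le) h1
      have h3 : 0 < w (Δ x y) := InfinitePlace.pos_iff.mpr hz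
      have h4 := Real.log_le_log h3 h2
      rw [Real.log_mul (mul_pos hA0 (hρ w)).ne' (mul_pos hσ0 (hr w)).ne',
        Real.log_mul hA0.ne' (hρ w).ne', Real.log_mul hσ0.ne' (hr w).ne'] at h4
      linarith
    have hsplit : ∑ w : InfinitePlace K, (w.mult : ℝ) *
          (Real.log A + Real.log σ + (Real.log (r w) + Real.log (ρ w))) =
        d * Real.log A + d * Real.log σ +
          ∑ w : InfinitePlace K, (w.mult : ℝ) * (Real.log (r w) + Real.log (ρ w)) := by
      simp only [mul_add (_ : ℝ) (Real.log A + Real.log σ) _, Finset.sum_add_distrib]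
      rw [← Finset.sum_mul, hmult]
      ring
    have hlog : Real.log (σ ^ d * (A ^ d * R)) < 0 := Real.log_neg (by positivity) hσ2
    rw [Real.log_mul (by positivity) (by positivity), Real.log_mul (by positivity) (by positivity),
      Real.log_pow, Real.log_pow, hR, Real.log_exp] at hlog
    linarith
  have hcard : X.card ≤ ∏ w, (Nw w) ^ m := by
    have h := Fintype.card_le_of_injective code hinj
    simpa using h
  have hcardR : (X.card : ℝ) ≤ ∏ w, (Nw w : ℝ) ^ m := by exact_mod_cast hcard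
  refine hcardR.trans ?_
  apply Finset.prod_le_prod (fun w _ => by positivity)
  intro w _
  exact pow_le_pow_left₀ (Nat.cast_nonneg _) (hNw w) m

private lemma hq6_id {K : Type*} [Field K] [NumberField K] {m : ℕ} (a u u' : Fin m → K)
    (r i j : Fin m) :
    a r * mi u u' i j = u' j * mi u a i r - u' i * mi u a j r - u r * mi u' a i j := by
  simp only [mi]
  ring

private lemma hq6_id2 {K : Type*} [Field K] [NumberField K] {m : ℕ} (u u' : Fin m → K)
    (r i j : Fin m) (hu : u r ≠ 0) (hu' : u' r ≠ 0) :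
    mi u u' i j = u r * u' r * ((u i / u r - u' i / u' r) * (u' j / u' r) -
      (u j / u r - u' j / u' r) * (u' i / u' r)) := by
  simp only [mi]
  field_simp
  ring

private lemma hq6_sub {K : Type*} [Field K] [NumberField K] (w : InfinitePlace K) (x y : K) :
    w (x - y) ≤ w x + w y := by
  have h := w.1.add_le x (-y)
  have h2 : w.1 (-y) = w.1 y := w.1.map_neg y
  rw [h2, ← sub_eq_add_neg] at h
  exact h

/-- archimedean constants -/
private lemma hq6_G (K : Type*) [Field K] [NumberField K] (q m : ℕ) (α : Fin q → Fin m → K) :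
    ∃ G : ℝ, 1 ≤ G ∧ ∀ (w : InfinitePlace K) l i, α l i ≠ 0 → 1 ≤ G * w (α l i) := by
  obtain ⟨G2, hG2⟩ := Finite.bddAbove_range
    (fun x : InfinitePlace K × Fin q × Fin m => (x.1 (α x.2.1 x.2.2))⁻¹)
  refine ⟨max 1 G2, le_max_left _ _, ?_⟩
  intro w l i hne
  have h1 : 0 < w (α l i) := InfinitePlace.pos_iff.mpr hne
  have h2 : (w (α l i))⁻¹ ≤ max 1 G2 := (hG2 ⟨(w, l, i), rfl⟩).trans (le_max_right _ _)
  calc 1 = (w (α l i))⁻¹ * w (α l i) := by rw [inv_mul_cancel₀ h1.ne']
    _ ≤ _ := mul_le_mul_of_nonneg_right h2 h1.le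

/-- finite constants -/
private lemma hq6_Gf (K : Type*) [Field K] [NumberField K] (q m : ℕ) (α : Fin q → Fin m → K) :
    ∃ (bad : Finset (HeightOneSpectrum (𝓞 K))) (Gf : HeightOneSpectrum (𝓞 K) → ℝ),
      (∀ v, 1 ≤ Gf v) ∧ (∀ v ∉ bad, Gf v = 1) ∧
      ∀ v, ∀ l i, α l i ≠ 0 → 1 ≤ Gf v * fa v (α l i) := by
  classical
  have hfin1 : (⋃ x : Fin q × Fin m,
      {v : HeightOneSpectrum (𝓞 K) | α x.1 x.2 ≠ 0 ∧ fa v (α x.1 x.2) ≠ 1}).Finite := by
    apply Set.finite_iUnion
    intro x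
    by_cases hx : α x.1 x.2 = 0
    · convert Set.finite_empty
      ext v
      simp [hx]
    · exact (Pool.Agent.Lib.MP_4d5ce1_nt.finite_fa_ne_one hx).subset (fun v hv => hv.2)
  have hG : ∀ v : HeightOneSpectrum (𝓞 K), ∃ G : ℝ, 1 ≤ G ∧
      ∀ l i, α l i ≠ 0 → 1 ≤ G * fa v (α l i) := by
    intro v
    obtain ⟨G2, hG2⟩ := Finite.bddAbove_range
      (fun x : Fin q × Fin m => (fa v (α x.1 x.2))⁻¹)
    refine ⟨max 1 G2, le_max_left _ _, ?_⟩
    intro l i hne
    have h1 : 0 < fa v (α l i) := Pool.Agent.Lib.MP_4d5ce1_nt.fa_pos v hne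
    have h2 : (fa v (α l i))⁻¹ ≤ max 1 G2 := (hG2 ⟨(l, i), rfl⟩).trans (le_max_right _ _)
    calc 1 = (fa v (α l i))⁻¹ * fa v (α l i) := by rw [inv_mul_cancel₀ h1.ne']
      _ ≤ _ := mul_le_mul_of_nonneg_right h2 h1.le
  choose g hg1 hg3 using hG
  refine ⟨hfin1.toFinset, fun v => if v ∈ hfin1.toFinset then g v else 1, ?_, ?_, ?_⟩
  · intro v
    dsimp only
    split_ifs
    · exact hg1 v
    · exact le_rfl
  · intro v hv
    dsimp only
    rw [if_neg hv]
  · intro v l i hne
    dsimp only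
    split_ifs with h
    · exact hg3 v l i hne
    · rw [Set.Finite.mem_toFinset, Set.mem_iUnion] at h
      push Not at h
      have h4 := h (l, i)
      simp only [Set.mem_ofPred_eq, not_and, not_not] at h4
      rw [h4 hne, one_mul]

/-- finite places -/
private lemma hq6_fin {K : Type*} [Field K] [NumberField K] {m : ℕ}
    (v : HeightOneSpectrum (𝓞 K)) {u z : Fin m → K} (hu : ∀ i, fa v (u i) ≤ 1)
    (hz : ∀ i, fa v (z i) ≤ 1) (i j : Fin m) : fa v (mi u z i j) ≤ 1 := by
  unfold mi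
  refine (Pool.Agent.Lib.MP_4d5ce1_nt.fa_sub_le v _ _).trans (max_le ?_ ?_)
  · rw [Pool.Agent.Lib.MP_4d5ce1_nt.fa_mul]
    exact mul_le_one₀ (hu i) (Pool.Agent.Lib.MP_4d5ce1_nt.fa_nonneg v _) (hz j)
  · rw [Pool.Agent.Lib.MP_4d5ce1_nt.fa_mul]
    exact mul_le_one₀ (hu j) (Pool.Agent.Lib.MP_4d5ce1_nt.fa_nonneg v _) (hz i)

private lemma hq6_fin2 {K : Type*} [Field K] [NumberField K] {m : ℕ}
    (v : HeightOneSpectrum (𝓞 K)) {a u z : Fin m → K} {G t : ℝ} (hG : 1 ≤ G) (r : Fin m)
    (har : 1 ≤ G * fa v (a r)) (hu : ∀ i, fa v (u i) ≤ 1) (hz : ∀ i, fa v (z i) ≤ 1)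
    (ht0 : 0 ≤ t) (h1 : ∀ i j, fa v (mi u a i j) ≤ t) (h2 : ∀ i j, fa v (mi z a i j) ≤ t)
    (i j : Fin m) : fa v (mi u z i j) ≤ G * t := by
  have hn : ∀ x, 0 ≤ fa v x := fun x => Pool.Agent.Lib.MP_4d5ce1_nt.fa_nonneg v x
  have hb : ∀ x y : K, fa v x ≤ 1 → fa v y ≤ t → fa v (x * y) ≤ t := by
    intro x y hx hy
    rw [Pool.Agent.Lib.MP_4d5ce1_nt.fa_mul]
    calc fa v x * fa v y ≤ 1 * t := mul_le_mul hx hy (hn _) zero_le_one
      _ = t := one_mul t
  have h3 : fa v (a r) * fa v (mi u z i j) ≤ t := by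
    rw [← Pool.Agent.Lib.MP_4d5ce1_nt.fa_mul, hq6_id a u z r i j]
    refine (Pool.Agent.Lib.MP_4d5ce1_nt.fa_sub_le v _ _).trans (max_le ?_ ?_)
    · refine (Pool.Agent.Lib.MP_4d5ce1_nt.fa_sub_le v _ _).trans (max_le ?_ ?_)
      · exact hb _ _ (hz j) (h1 i r)
      · exact hb _ _ (hz i) (h1 j r)
    · exact hb _ _ (hu r) (h2 i j)
  have h4 := hn (mi u z i j)
  calc fa v (mi u z i j) = 1 * fa v (mi u z i j) := (one_mul _).symm
    _ ≤ (G * fa v (a r)) * fa v (mi u z i j) := mul_le_mul_of_nonneg_right har h4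
    _ = G * (fa v (a r) * fa v (mi u z i j)) := by ring
    _ ≤ G * t := mul_le_mul_of_nonneg_left h3 (by linarith)

theorem dir_count2 (K : Type*) [Field K] [NumberField K] (q m : ℕ) (Λ : Finset (Fin q))
    (hΛ : Λ.Nonempty) (α : Fin q → Fin m → K) (hα : ∀ l ∈ Λ, α l ≠ 0) (C₀ A c : ℝ)
    (hC₀ : 1 ≤ C₀) (hA : 1 ≤ A) (hc : 0 ≤ c) :
    ∃ C : ℝ, 0 < C ∧
      ∀ (W : HeightOneSpectrum (𝓞 K) →₀ (Fin q → ℕ)) (k : InfinitePlace K → Fin q → ℕ)
      (U : Finset (Fin m → K)),
      (∀ u ∈ U, Bal C₀ u) →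
      (∀ u ∈ U, ∀ u' ∈ U, u ≠ u' → ∃ i j, mi u u' i j ≠ 0) →
      (∀ u ∈ U, ∀ v ∈ W.support, ∀ l ∈ Λ, W v l ≠ 0 → ∀ i j,
        fa v (mi u (α l) i j) ≤ (nv v ^ (W v l))⁻¹) →
      (∀ u ∈ U, ∀ w : InfinitePlace K, ∀ l ∈ Λ, k w l ≠ 0 → ∀ i j, w (mi u (α l) i j) ≤
        A * Real.exp (logHeight u / dg K - (k w l : ℝ) / (w.mult : ℝ))) →
      (∀ u ∈ U, 2 * logHeight u - c ≤
        ∑ v ∈ W.support, ((Λ.sup (W v) : ℕ) : ℝ) * lnv v + ∑ w, ((Λ.sup (k w) : ℕ) : ℝ)) →
      (U.card : ℝ) ≤ C := by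
  classical
  obtain ⟨G, hG1, hGα⟩ := hq6_G K q m α
  obtain ⟨bad, Gf, hGf1, hGfb, hGfα⟩ := hq6_Gf K q m α
  have hd : 0 < dg K := by
    unfold dg
    exact_mod_cast Module.finrank_pos
  have hG0 : 0 < G := by linarith
  have hC0 : 0 < C₀ := by linarith
  have hA0 : 0 < A := by linarith
  set c2 : ℝ := A * C₀ * G with hc2
  have hc20 : 0 < c2 := by positivity
  have hc21 : 1 ≤ c2 := by
    have : 1 ≤ A * C₀ := one_le_mul_of_one_le_of_one_le hA hC₀
    exact one_le_mul_of_one_le_of_one_le this hG1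
  have hA' : 1 ≤ 2 * C₀ ^ 2 := by
    have h2 : 1 ≤ C₀ ^ 2 := one_le_pow₀ hC₀
    linarith
  set E : ℝ := dg K * Real.log c2 + c + ∑ v ∈ bad, Real.log (Gf v) with hE
  obtain ⟨C', hC', hpack⟩ := hq6_packing K (Fin m → K) m (2 * C₀ ^ 2) E hA'
  refine ⟨((⌊C'⌋₊ * Fintype.card (InfinitePlace K → Fin m) : ℕ) : ℝ) + 1, by positivity, ?_⟩
  intro W k U hBal hdiff hfin hinf hsum
  obtain ⟨l₀, hl₀⟩ := hΛ
  have hne : Λ.Nonempty := ⟨l₀, hl₀⟩
  have hm : ∃ i : Fin m, α l₀ i ≠ 0 := by
    by_contra h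
    push Not at h
    exact hα l₀ hl₀ (funext h)
  obtain ⟨i₀, _⟩ := hm
  haveI : Nonempty (Fin m) := ⟨i₀⟩
  choose l hl hlsup using fun w => Finset.exists_mem_eq_sup Λ hne (k w)
  have hmaxi : ∀ (u : Fin m → K) (w : InfinitePlace K), ∃ r : Fin m, ∀ i, w (u i) ≤ w (u r) :=
    fun u w => Finite.exists_max (fun i => w (u i))
  choose chart hchart using hmaxi
  have key : ∀ χ : InfinitePlace K → Fin m,
      ((U.filter fun u => chart u = χ).card : ℝ) ≤ C' := by
    intro χ
    set X := U.filter fun u => chart u = χ with hX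
    rcases X.eq_empty_or_nonempty with hXe | hXne
    · rw [hXe]
      simpa using hC'.le
    obtain ⟨u0, hu0, hmax⟩ := Finset.exists_max_image X logHeight hXne
    have hXU : ∀ u ∈ X, u ∈ U := fun u hu => (Finset.mem_filter.1 hu).1
    set lam : ℝ := logHeight u0 with hlam
    have hmaxr : ∀ u ∈ X, ∀ w : InfinitePlace K, ∀ i, w (u i) ≤ w (u (χ w)) := by
      intro u hu w i
      have h1 : chart u = χ := (Finset.mem_filter.1 hu).2
      rw [← h1]
      exact hchart u w i
    have hlow : ∀ u ∈ X, ∀ w : InfinitePlace K,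
        Real.exp (logHeight u / dg K) ≤ C₀ * w (u (χ w)) := by
      intro u hu w
      obtain ⟨i, hi⟩ := (hBal u (hXU u hu)).low w
      calc Real.exp (logHeight u / dg K) = C₀ * (C₀⁻¹ * Real.exp (logHeight u / dg K)) := by
            rw [← mul_assoc, mul_inv_cancel₀ hC0.ne', one_mul]
        _ ≤ C₀ * w (u (χ w)) :=
            mul_le_mul_of_nonneg_left (hi.trans (hmaxr u hu w i)) hC0.le
    have hrpos : ∀ u ∈ X, ∀ w : InfinitePlace K, 0 < w (u (χ w)) := by
      intro u hu w
      by_contra h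
      have h1 := hlow u hu w
      have h2 := Real.exp_pos (logHeight u / dg K)
      have h3 : w (u (χ w)) ≤ 0 := not_lt.1 h
      have h4 : C₀ * w (u (χ w)) ≤ 0 := mul_nonpos_of_nonneg_of_nonpos hC0.le h3
      linarith
    have hr0 : ∀ u ∈ X, ∀ w : InfinitePlace K, u (χ w) ≠ 0 := fun u hu w =>
      InfinitePlace.pos_iff.mp (hrpos u hu w)
    have hs1 : ∀ u ∈ X, ∀ w : InfinitePlace K, ∀ i, w (u i / u (χ w)) ≤ 1 := by
      intro u hu w i
      rw [map_div₀, div_le_one (hrpos u hu w)]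
      exact hmaxr u hu w i
    set M : InfinitePlace K → ℝ := fun w => ((Λ.sup (k w) : ℕ) : ℝ) with hM
    set r : InfinitePlace K → ℝ := fun w => c2 * Real.exp (-(M w / (w.mult : ℝ))) with hr
    set ρ : InfinitePlace K → ℝ := fun _ => Real.exp (2 * (lam / dg K)) with hρ
    -- the centers
    set ctr : InfinitePlace K → Fin m → K := fun w i =>
      if Λ.sup (k w) = 0 ∨ α (l w) (χ w) = 0 then 0 else α (l w) i / α (l w) (χ w) with hctr
    have hl_le : ∀ u ∈ X, ∀ w : InfinitePlace K, Λ.sup (k w) ≠ 0 → ∀ i,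
        w (u i / u (χ w) * α (l w) (χ w) - α (l w) i) ≤
        A * C₀ * Real.exp (-(M w / (w.mult : ℝ))) := by
      intro u hu w h0 i
      have h1 := hinf u (hXU u hu) w (l w) (hl w) (by rw [← hlsup w]; exact h0) i (χ w)
      have hrp := hrpos u hu w
      have hrn := hr0 u hu w
      have h2 : u i / u (χ w) * α (l w) (χ w) - α (l w) i = mi u (α (l w)) i (χ w) / u (χ w) := by
        simp only [mi]
        field_simp
      rw [h2, map_div₀, div_le_iff₀ hrp]
      refine h1.trans ?_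
      rw [sub_eq_add_neg, Real.exp_add, ← hlsup w]
      calc A * (Real.exp (logHeight u / dg K) *
            Real.exp (-(((Λ.sup (k w) : ℕ) : ℝ) / (w.mult : ℝ))))
          = (A * Real.exp (-(M w / (w.mult : ℝ)))) * Real.exp (logHeight u / dg K) := by
            simp only [hM]; ring
        _ ≤ (A * Real.exp (-(M w / (w.mult : ℝ)))) * (C₀ * w (u (χ w))) :=
            mul_le_mul_of_nonneg_left (hlow u hu w) (by positivity)
        _ = _ := by ring
    have hs : ∀ u ∈ X, ∀ w : InfinitePlace K, ∀ i,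
        w (u i / u (χ w) - ctr w i) ≤ r w := by
      intro u hu w i
      simp only [hctr]
      by_cases h0 : Λ.sup (k w) = 0
      · rw [if_pos (Or.inl h0), sub_zero]
        refine (hs1 u hu w i).trans ?_
        simp only [hr, hM, h0]
        simpa using hc21
      by_cases har : α (l w) (χ w) = 0
      · rw [if_pos (Or.inr har), sub_zero]
        refine (hs1 u hu w i).trans ?_
        obtain ⟨j, hj⟩ : ∃ j : Fin m, α (l w) j ≠ 0 := by
          by_contra h
          push Not at h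
          exact hα (l w) (hl w) (funext h)
        have h1 := hl_le u hu w h0 j
        rw [har, mul_zero, zero_sub] at h1
        have h2 : w (-(α (l w) j)) = w (α (l w) j) := w.1.map_neg _
        rw [h2] at h1
        calc 1 ≤ G * w (α (l w) j) := hGα w (l w) j hj
          _ ≤ G * (A * C₀ * Real.exp (-(M w / (w.mult : ℝ)))) :=
              mul_le_mul_of_nonneg_left h1 hG0.le
          _ = _ := by simp only [hr, hc2]; ring
      · rw [if_neg (by push Not; exact ⟨h0, har⟩)]
        have h1 := hl_le u hu w h0 i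
        have h3 : u i / u (χ w) - α (l w) i / α (l w) (χ w) =
            (u i / u (χ w) * α (l w) (χ w) - α (l w) i) / α (l w) (χ w) := by
          rw [sub_div, mul_div_cancel_right₀ _ har]
        have h4 : 0 < w (α (l w) (χ w)) := InfinitePlace.pos_iff.mpr har
        rw [h3, map_div₀, div_le_iff₀ h4]
        refine h1.trans ?_
        calc A * C₀ * Real.exp (-(M w / (w.mult : ℝ)))
            = (A * C₀ * Real.exp (-(M w / (w.mult : ℝ)))) * 1 := by ring
          _ ≤ (A * C₀ * Real.exp (-(M w / (w.mult : ℝ)))) * (G * w (α (l w) (χ w))) :=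
              mul_le_mul_of_nonneg_left (hGα w (l w) _ har) (by positivity)
          _ = _ := by simp only [hr, hc2]; ring
    have hDex : ∀ u u' : Fin m → K, ∃ p : Fin m × Fin m, (∃ i j, mi u u' i j ≠ 0) →
        mi u u' p.1 p.2 ≠ 0 := by
      intro u u'
      by_cases h : ∃ i j, mi u u' i j ≠ 0
      · obtain ⟨i, j, hij⟩ := h
        exact ⟨(i, j), fun _ => hij⟩
      · exact ⟨(i₀, i₀), fun h' => absurd h' h⟩
    choose P hP using hDex
    have hmain := hpack X (fun u u' => mi u u' (P u u').1 (P u u').2)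
      (fun w u i => u i / u (χ w) - ctr w i) r ρ W.support
      (fun v => ((Λ.sup (W v) : ℕ) : ℝ) * lnv v - Real.log (Gf v))
      (fun w => by positivity) (fun w => Real.exp_pos _)
      (fun u hu z hz hne => hP u z (hdiff u (hXU u hu) z (hXU z hz) hne))
      (fun u hu w i => hs u hu w i)
      (by
        intro u hu z hz hne w t ht0 ht
        have hB : ∀ y ∈ X, w (y (χ w)) ≤ C₀ * Real.exp (lam / dg K) := by
          intro y hy
          refine ((hBal y (hXU y hy)).up w _).trans ?_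
          apply mul_le_mul_of_nonneg_left _ hC0.le
          apply Real.exp_le_exp.2
          have := hmax y hy
          gcongr
        have hn : ∀ x : K, 0 ≤ w x := fun x => apply_nonneg w x
        have ht' : ∀ i, w (u i / u (χ w) - z i / z (χ w)) ≤ t := by
          intro i
          have := ht i
          rwa [sub_sub_sub_cancel_right] at this
        generalize (P u z).1 = i
        generalize (P u z).2 = j
        rw [hq6_id2 u z (χ w) i j (hr0 u hu w) (hr0 z hz w), map_mul, map_mul]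
        have h1 : w ((u i / u (χ w) - z i / z (χ w)) * (z j / z (χ w)) -
            (u j / u (χ w) - z j / z (χ w)) * (z i / z (χ w))) ≤ 2 * t := by
          refine (hq6_sub w _ _).trans ?_
          rw [map_mul, map_mul]
          have h2 := mul_le_mul (ht' i) (hs1 z hz w j) (hn _) ht0
          have h3 := mul_le_mul (ht' j) (hs1 z hz w i) (hn _) ht0
          linarith
        have h4 : w (u (χ w)) * w (z (χ w)) ≤
            (C₀ * Real.exp (lam / dg K)) * (C₀ * Real.exp (lam / dg K)) :=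
          mul_le_mul (hB u hu) (hB z hz) (hn _) (by positivity)
        have h5 : Real.exp (2 * (lam / dg K)) = Real.exp (lam / dg K) ^ 2 := by
          rw [← Real.exp_nat_mul]
          norm_num
        calc w (u (χ w)) * w (z (χ w)) * w ((u i / u (χ w) - z i / z (χ w)) * (z j / z (χ w)) -
            (u j / u (χ w) - z j / z (χ w)) * (z i / z (χ w)))
            ≤ ((C₀ * Real.exp (lam / dg K)) * (C₀ * Real.exp (lam / dg K))) * (2 * t) :=
              mul_le_mul h4 h1 (hn _) (by positivity)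
          _ = _ := by
              simp only [hρ]
              rw [h5]
              ring)
      (by
        intro u hu z hz hne v hv
        have hw0 := hP u z (hdiff u (hXU u hu) z (hXU z hz) hne)
        have hfa := Pool.Agent.Lib.MP_4d5ce1_nt.fa_pos v hw0
        have hG1v := hGf1 v
        have hG0v : 0 < Gf v := by linarith
        obtain ⟨g, hg, hgs⟩ := Finset.exists_mem_eq_sup Λ ⟨l₀, hl₀⟩ (W v)
        have hnv := Pool.Agent.Lib.MP_4d5ce1_nt.nv_pos v
        have h1 : fa v (mi u z (P u z).1 (P u z).2) ≤ Gf v * (nv v ^ (Λ.sup (W v)))⁻¹ := by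
          by_cases h0 : Λ.sup (W v) = 0
          · rw [h0, pow_zero, inv_one, mul_one]
            exact (hq6_fin v ((hBal u (hXU u hu)).int v) ((hBal z (hXU z hz)).int v) _ _).trans hG1v
          · rw [hgs] at h0 ⊢
            obtain ⟨j, hj⟩ : ∃ j : Fin m, α g j ≠ 0 := by
              by_contra h
              push Not at h
              exact hα g hg (funext h)
            exact hq6_fin2 v hG1v j (hGfα v g j hj) ((hBal u (hXU u hu)).int v)
              ((hBal z (hXU z hz)).int v) (by positivity)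
              (fun i j => hfin u (hXU u hu) v hv g hg h0 i j)
              (fun i j => hfin z (hXU z hz) v hv g hg h0 i j) _ _
        have h2 := Real.log_le_log hfa h1
        refine h2.trans (le_of_eq ?_)
        rw [Real.log_mul (by positivity) (by positivity), Real.log_inv, Real.log_pow]
        unfold lnv
        ring)
      (by
        intro u hu z hz _ v _
        exact hq6_fin v ((hBal u (hXU u hu)).int v) ((hBal z (hXU z hz)).int v) _ _)
    refine hmain ?_
    -- the exponent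
    have hmult : ∀ w : InfinitePlace K, (0 : ℝ) < (w.mult : ℝ) := by
      intro w
      exact_mod_cast InfinitePlace.mult_pos
    have hsumm : ∑ w : InfinitePlace K, (w.mult : ℝ) = dg K := by
      unfold dg
      exact_mod_cast InfinitePlace.sum_mult_eq (K := K)
    have h1 : ∑ w : InfinitePlace K, (w.mult : ℝ) * (Real.log (r w) + Real.log (ρ w)) =
        dg K * Real.log c2 - ∑ w, M w + 2 * lam := by
      have h2 : ∀ w : InfinitePlace K, (w.mult : ℝ) * (Real.log (r w) + Real.log (ρ w)) =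
          (w.mult : ℝ) * (Real.log c2 + 2 * (lam / dg K)) - M w := by
        intro w
        have := hmult w
        simp only [hr, hρ]
        rw [Real.log_mul hc20.ne' (Real.exp_pos _).ne', Real.log_exp, Real.log_exp]
        field_simp
        ring
      rw [Finset.sum_congr rfl (fun w _ => h2 w), Finset.sum_sub_distrib, ← Finset.sum_mul, hsumm]
      field_simp
      ring
    rw [h1, Finset.sum_sub_distrib]
    have h3 : ∑ v ∈ W.support, Real.log (Gf v) ≤ ∑ v ∈ bad, Real.log (Gf v) := by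
      have h4 : ∑ v ∈ W.support, Real.log (Gf v) = ∑ v ∈ W.support ∩ bad, Real.log (Gf v) := by
        symm
        apply Finset.sum_subset Finset.inter_subset_left
        intro v hv hvb
        have : v ∉ bad := fun h => hvb (Finset.mem_inter.2 ⟨hv, h⟩)
        rw [hGfb v this, Real.log_one]
      rw [h4]
      apply Finset.sum_le_sum_of_subset_of_nonneg Finset.inter_subset_right
      intro v _ _
      exact Real.log_nonneg (hGf1 v)
    have h4 := hsum u0 (hXU u0 hu0)
    simp only [hM]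
    linarith
  have h1 := Finset.card_le_mul_card_image (f := chart) U ⌊C'⌋₊ (fun χ _ => Nat.le_floor (key χ))
  have h2 : (U.image chart).card ≤ Fintype.card (InfinitePlace K → Fin m) := Finset.card_le_univ _
  have h3 : U.card ≤ ⌊C'⌋₊ * Fintype.card (InfinitePlace K → Fin m) :=
    h1.trans (Nat.mul_le_mul_left _ h2)
  have h4 : (U.card : ℝ) ≤ ((⌊C'⌋₊ * Fintype.card (InfinitePlace K → Fin m) : ℕ) : ℝ) := by
    exact_mod_cast h3
  linarith

end Pool.Agent.Lib.MP_44a246_nt.HQ
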