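import Pool.Agent.Lib.MP_44a246_nt.HQ.Defs
import Pool.Agent.Lib.MP_44a246_nt.HP.Local
import Pool.Agent.Lib.MP_44a246_nt.HP.Mid

set_option autoImplicit false

open NumberField IsDedekindDomain Height
open Pool.Agent.Lib.MP_4d5ce1_nt (ordv fa nv)
open Pool.Agent.Lib.MP_44a246_nt.HP

namespace Pool.Agent.Lib.MP_44a246_nt.HQ

/-! ## HQ-8 -/

/-- The identity between the minors of three vectors. -/
private lemma exW2_ident {K : Type*} [Field K] {m : ℕ} (H a a' : Fin m → K)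
    (i j r : Fin m) : H r * mi a a' i j =
      a' i * mi H a j r + (a r * mi H a' i j - a' j * mi H a i r) := by
  unfold mi
  ring

/-- Two of the forms are not proportional. -/
private lemma exW2_minor {K : Type*} [Field K] {q m : ℕ} (L : Finset (Fin q))
    (hL : m + 1 ≤ L.card) (hm : 1 ≤ m) (α : Fin q → Fin (m + 1) → K)
    (hα : ∀ s : Fin (m + 1) → Fin q, Function.Injective s → (∀ i, s i ∈ L) →
      LinearIndependent K fun i => α (s i)) (l l' : Fin q) (hl : l ∈ L) (hl' : l' ∈ L)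
    (hne : l ≠ l') : ∃ i j, mi (α l) (α l') i j ≠ 0 := by
  classical
  by_contra hcon
  push Not at hcon
  have hsub : ({l, l'} : Finset (Fin q)) ⊆ L := by
    intro x hx
    rw [Finset.mem_insert, Finset.mem_singleton] at hx
    rcases hx with rfl | rfl
    · exact hl
    · exact hl'
  obtain ⟨T, hT1, hT2, hT3⟩ := Finset.exists_subsuperset_card_eq hsub
    (by rw [Finset.card_pair hne]; omega : ({l, l'} : Finset (Fin q)).card ≤ m + 1) hL
  have hind := hα (T.orderEmbOfFin hT3) (T.orderEmbOfFin hT3).injective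
    (fun i => hT2 (T.orderEmbOfFin_mem hT3 i))
  have hmem : ∀ x ∈ T, ∃ a, T.orderEmbOfFin hT3 a = x := by
    intro x hx
    have : x ∈ Set.range (T.orderEmbOfFin hT3) := by
      rw [Finset.range_orderEmbOfFin]
      exact hx
    exact this
  obtain ⟨a, ha⟩ := hmem l (hT1 (Finset.mem_insert_self _ _))
  obtain ⟨b, hb⟩ := hmem l' (hT1 (Finset.mem_insert_of_mem (Finset.mem_singleton_self _)))
  have hab : a ≠ b := by
    rintro rfl
    exact hne (ha.symm.trans hb)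
  have hpair : LinearIndependent K ![α l, α l'] := by
    have hinj : Function.Injective ![a, b] := by
      intro x y hxy
      fin_cases x <;> fin_cases y <;> simp_all
    have h1 := hind.comp ![a, b] hinj
    have h2 : (fun i => α (T.orderEmbOfFin hT3 i)) ∘ ![a, b] = ![α l, α l'] := by
      funext x
      fin_cases x
      · simp [ha]
      · simp [hb]
    rwa [h2] at h1
  have hz : ∀ j, α l j = 0 := by
    intro j
    have h1 := (LinearIndependent.pair_iff.mp hpair) (α l' j) (-(α l j)) (by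
      funext i
      have := hcon i j
      unfold mi at this
      simp only [Pi.add_apply, Pi.smul_apply, smul_eq_mul, Pi.zero_apply]
      linear_combination this)
    have := h1.2
    rwa [neg_eq_zero] at this
  exact hpair.ne_zero 0 (funext hz)

section

variable {K : Type*} [Field K] [NumberField K]

/-- Few primes have a small norm. -/
private lemma exW2_small (C : ℝ) : {v : HeightOneSpectrum (𝓞 K) | nv v ≤ C}.Finite := by
  refine (Ring.HasFiniteQuotients.finite_absNorm_heightOneSpectrum_le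
    (R := 𝓞 K) ⌊C⌋₊).subset ?_
  intro v hv
  have hv' : nv v ≤ C := hv
  show v.asIdeal.absNorm ≤ ⌊C⌋₊
  exact Nat.le_floor hv'

private lemma exW2_ne_one (x : K) :
    {v : HeightOneSpectrum (𝓞 K) | x ≠ 0 ∧ fa v x ≠ 1}.Finite := by
  by_cases h : x = 0
  · convert! Set.finite_empty
    ext v
    simp [h]
  · exact (Pool.Agent.Lib.MP_4d5ce1_nt.finite_fa_ne_one h).subset fun v hv => hv.2

/-- A balanced vector is primitive at the good primes. -/
private lemma exW2_prim {m : ℕ} {C₀ : ℝ} (hC₀ : 1 ≤ C₀) {H : Fin m → K} (hH : Bal C₀ H)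
    (v : HeightOneSpectrum (𝓞 K)) (hv : C₀ < nv v) : ∃ r, fa v (H r) = 1 := by
  obtain ⟨i, hi⟩ := hH.cont v
  have hCpos : 0 < C₀ := by linarith
  refine ⟨i, ?_⟩
  have hui : H i ≠ 0 := by
    intro h0
    rw [h0, Pool.Agent.Lib.MP_4d5ce1_nt.fa_zero] at hi
    have := inv_pos.mpr hCpos
    linarith
  have h1 := (Pool.Agent.Lib.MP_4d5ce1_nt.fa_le_one_iff v hui).mp (hH.int v i)
  by_contra hlt
  have h2 : ordv v (H i) ≠ 0 := by
    intro h3
    exact hlt ((Pool.Agent.Lib.MP_4d5ce1_nt.fa_eq_one_iff v hui).mpr h3)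
  have h4 : fa v (H i) ≤ (nv v)⁻¹ := by
    rw [Pool.Agent.Lib.MP_4d5ce1_nt.fa_eq v hui]
    have : nv v ^ (-ordv v (H i)) ≤ nv v ^ (-1 : ℤ) :=
      zpow_le_zpow_right₀ (by linarith [Pool.Agent.Lib.MP_4d5ce1_nt.two_le_nv v]) (by omega)
    simpa using this
  have h5 : (nv v)⁻¹ < C₀⁻¹ := by
    have hp : 0 < nv v := by linarith [Pool.Agent.Lib.MP_4d5ce1_nt.two_le_nv v]
    exact (inv_lt_inv₀ hp hCpos).mpr hv
  linarith

/-- A nonzero common part gives a congruence. -/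
private lemma exW2_hp {q m : ℕ} (α : Fin q → Fin m → K) (H : Fin m → K)
    (κ : HeightOneSpectrum (𝓞 K) →₀ (Fin q → ℕ)) (v : HeightOneSpectrum (𝓞 K)) (l : Fin q)
    (h : hp α H κ v l ≠ 0) : ∀ i j, fa v (mi H (α l) i j) ≤ (nv v)⁻¹ := by
  classical
  intro i j
  have h1 : ∀ i j, fa v (mi H (α l) i j) ≤ (nv v ^ (hp α H κ v l))⁻¹ :=
    Nat.findGreatest_of_ne_zero (P := fun e => ∀ i j, fa v (mi H (α l) i j) ≤ (nv v ^ e)⁻¹)
      (n := κ v l) rfl h
  refine (h1 i j).trans ?_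
  have h2 := Pool.Agent.Lib.MP_4d5ce1_nt.two_le_nv v
  have h3 : nv v ≤ nv v ^ (hp α H κ v l) := by
    calc nv v = nv v ^ 1 := (pow_one _).symm
      _ ≤ _ := pow_le_pow_right₀ (by linarith) (by omega)
  exact inv_anti₀ (by linarith) h3

end

theorem exists_W2 (K : Type*) [Field K] [NumberField K] (q m : ℕ) (F : Finset (Fin q))
    (hm : 1 ≤ m) (hF : m + 1 ≤ Fᶜ.card) (α : Fin q → Fin (m + 1) → K)
    (hα : ∀ s : Fin (m + 1) → Fin q, Function.Injective s → (∀ i, s i ∈ Fᶜ) →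
      LinearIndependent K fun i => α (s i)) (C₀ : ℝ) (hC₀ : 1 ≤ C₀) :
    ∃ bad₀ : Finset (HeightOneSpectrum (𝓞 K)), ∀ bad, bad₀ ⊆ bad → ∃ c : ℝ, 0 ≤ c ∧
      ∀ (κ : HeightOneSpectrum (𝓞 K) →₀ (Fin q → ℕ)) (k : InfinitePlace K → Fin q → ℕ)
        (H : Fin (m + 1) → K), Bal C₀ H → (∀ v ∈ gsupp bad κ, Useful (κ v)) →
        Sel F (gsupp bad κ) lnv (fun v => κ v) →
        (∑ v ∈ κ.support, lnv v ≤ phi F κ k + ell2 Fᶜ α H κ k + c) ∨
        ((∀ l ∈ Fᶜ, ∃ i j, mi H (α l) i j ≠ 0) ∧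
          ∃ W ⊆ κ.support, (∀ v ∈ κ.support, v ∉ W → v ∉ bad ∧
              ∃ l ∈ Fᶜ, ∀ i j, fa v (mi H (α l) i j) ≤ (nv v)⁻¹) ∧
            2 * logHeight H - c ≤ ∑ v ∈ W, ((Fᶜ.sup (hp α H κ v) : ℕ) : ℝ) * lnv v +
              ∑ w, ((Fᶜ.sup (hi α H k w) : ℕ) : ℝ) ∧
            ∑ v ∈ W, lnv v ≤ phi F κ k + ell2 Fᶜ α H κ k + c) := by
  classical
  -- the bad primes
  set b1 : Finset (HeightOneSpectrum (𝓞 K)) := (exW2_small (K := K) C₀).toFinset with hb1
  set b2 : Finset (HeightOneSpectrum (𝓞 K)) := Finset.univ.biUnion fun p : Fin q × Fin (m + 1) =>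
    (exW2_ne_one (K := K) (α p.1 p.2)).toFinset with hb2
  set b3 : Finset (HeightOneSpectrum (𝓞 K)) :=
    Finset.univ.biUnion fun p : (Fin q × Fin q) × (Fin (m + 1) × Fin (m + 1)) =>
      (exW2_ne_one (K := K) (mi (α p.1.1) (α p.1.2) p.2.1 p.2.2)).toFinset with hb3
  refine ⟨b1 ∪ b2 ∪ b3, ?_⟩
  intro bad hbad
  have hnb1 : ∀ v, v ∉ bad → C₀ < nv v := by
    intro v hv
    by_contra hcon
    push Not at hcon
    exact hv (hbad (Finset.mem_union_left _ (Finset.mem_union_left _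
      ((Set.Finite.mem_toFinset _).mpr hcon))))
  have hnb2 : ∀ v, v ∉ bad → ∀ l i, fa v (α l i) ≤ 1 := by
    intro v hv l i
    by_cases h0 : α l i = 0
    · rw [h0, Pool.Agent.Lib.MP_4d5ce1_nt.fa_zero]
      exact zero_le_one
    · by_contra hcon
      refine hv (hbad (Finset.mem_union_left _ (Finset.mem_union_right _
        (Finset.mem_biUnion.mpr ⟨(l, i), Finset.mem_univ _, ?_⟩))))
      exact (Set.Finite.mem_toFinset _).mpr ⟨h0, fun h => hcon h.le⟩
  have hnb3 : ∀ v, v ∉ bad → ∀ l l' i j, mi (α l) (α l') i j ≠ 0 →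
      fa v (mi (α l) (α l') i j) = 1 := by
    intro v hv l l' i j h0
    by_contra hcon
    refine hv (hbad (Finset.mem_union_right _
      (Finset.mem_biUnion.mpr ⟨((l, l'), (i, j)), Finset.mem_univ _, ?_⟩)))
    exact (Set.Finite.mem_toFinset _).mpr ⟨h0, hcon⟩
  -- local analysis
  have hcong : ∀ H : Fin (m + 1) → K, Bal C₀ H → ∀ v ∉ bad, ∀ l ∈ Fᶜ, ∀ l' ∈ Fᶜ, l ≠ l' →
      (∀ i j, fa v (mi H (α l) i j) ≤ (nv v)⁻¹) → (∀ i j, fa v (mi H (α l') i j) ≤ (nv v)⁻¹) →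
      False := by
    intro H hH v hv l hl l' hl' hne h1 h2
    obtain ⟨r, hr⟩ := exW2_prim hC₀ hH v (hnb1 v hv)
    obtain ⟨i, j, hij⟩ := exW2_minor Fᶜ hF hm α hα l l' hl hl' hne
    have h3 := hnb3 v hv l l' i j hij
    have h4 : fa v (H r * mi (α l) (α l') i j) = 1 := by
      rw [Pool.Agent.Lib.MP_4d5ce1_nt.fa_mul, hr, h3, one_mul]
    have hn2 := Pool.Agent.Lib.MP_4d5ce1_nt.two_le_nv v
    have hpos : 0 ≤ (nv v)⁻¹ := inv_nonneg.mpr (by linarith)
    have hmul : ∀ x y : K, fa v x ≤ 1 → fa v y ≤ (nv v)⁻¹ → fa v (x * y) ≤ (nv v)⁻¹ := by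
      intro x y hx hy
      rw [Pool.Agent.Lib.MP_4d5ce1_nt.fa_mul]
      calc fa v x * fa v y ≤ 1 * (nv v)⁻¹ :=
            mul_le_mul hx hy (Pool.Agent.Lib.MP_4d5ce1_nt.fa_nonneg v _) zero_le_one
        _ = (nv v)⁻¹ := one_mul _
    have h5 : fa v (H r * mi (α l) (α l') i j) ≤ (nv v)⁻¹ := by
      rw [exW2_ident]
      refine (Pool.Agent.Lib.MP_4d5ce1_nt.fa_add_le v _ _).trans (max_le ?_ ?_)
      · exact hmul _ _ (hnb2 v hv l' i) (h1 j r)
      · refine (Pool.Agent.Lib.MP_4d5ce1_nt.fa_sub_le v _ _).trans (max_le ?_ ?_)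
        · exact hmul _ _ (hnb2 v hv l r) (h2 i j)
        · exact hmul _ _ (hnb2 v hv l' j) (h1 i r)
    rw [h4] at h5
    have h6 : (nv v)⁻¹ ≤ 2⁻¹ := inv_anti₀ (by norm_num) hn2
    norm_num at h6
    linarith
  have hgood : ∀ (κ : HeightOneSpectrum (𝓞 K) →₀ (Fin q → ℕ)) (H : Fin (m + 1) → K), Bal C₀ H →
      ∀ v ∉ bad, ∀ l ∈ Fᶜ, ∀ l' ∈ Fᶜ, l ≠ l' → hp α H κ v l = 0 ∨ hp α H κ v l' = 0 := by
    intro κ H hH v hv l hl l' hl' hne
    by_contra hcon
    push Not at hcon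
    exact hcong H hH v hv l hl l' hl' hne (exW2_hp α H κ v l hcon.1) (exW2_hp α H κ v l' hcon.2)
  -- constants
  have hSnn : 0 ≤ ∑ v ∈ bad, lnv (K := K) v := Finset.sum_nonneg fun v _ => (lnv_pos v).le
  refine ⟨∑ v ∈ bad, lnv v, hSnn, ?_⟩
  intro κ k H hH huse hsel
  have hh : 0 ≤ logHeight H := logHeight_nonneg H
  -- splitting of sums over the support
  have hsplit : ∀ f : HeightOneSpectrum (𝓞 K) → ℝ, ∑ v ∈ κ.support, f v =
      ∑ v ∈ gsupp bad κ, f v + ∑ v ∈ κ.support.filter (fun v => v ∈ bad), f v := by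
    intro f
    unfold gsupp
    rw [add_comm]
    exact (Finset.sum_filter_add_sum_filter_not _ _ _).symm
  have hbsub : κ.support.filter (fun v => v ∈ bad) ⊆ bad := fun v hv =>
    (Finset.mem_filter.mp hv).2
  have hbsum : ∑ v ∈ κ.support.filter (fun v => v ∈ bad), lnv v ≤ ∑ v ∈ bad, lnv v :=
    Finset.sum_le_sum_of_subset_of_nonneg hbsub fun v _ _ => (lnv_pos v).le
  have hgle : ∀ v, ∀ l, hp α H κ v l ≤ κ v l := by
    intro v l
    unfold hp
    exact Nat.findGreatest_le _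
  have hTgood : ∀ v ∈ gsupp bad κ, v ∉ bad := fun v hv => (Finset.mem_filter.mp hv).2
  have hTsub : gsupp bad κ ⊆ κ.support := Finset.filter_subset _ _
  -- the common size estimate
  have hsize : ∑ v ∈ gsupp bad κ, (((∑ l ∈ F, κ v l : ℕ) : ℝ) +
      ((Fᶜ.sup (fun l => κ v l - hp α H κ v l) : ℕ) : ℝ)) * lnv v + logHeight H ≤
      phi F κ k + ell2 Fᶜ α H κ k := by
    unfold phi ell2 jp2
    have h1 : ∑ v ∈ gsupp bad κ, (((∑ l ∈ F, κ v l : ℕ) : ℝ) +
        ((Fᶜ.sup (fun l => κ v l - hp α H κ v l) : ℕ) : ℝ)) * lnv v ≤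
        ∑ v ∈ κ.support, (((∑ l ∈ F, κ v l : ℕ) : ℝ) +
        ((Fᶜ.sup (fun l => κ v l - hp α H κ v l) : ℕ) : ℝ)) * lnv v :=
      Finset.sum_le_sum_of_subset_of_nonneg hTsub fun v _ _ => by
        have := lnv_pos v
        positivity
    have h2 : ∑ v ∈ κ.support, (((∑ l ∈ F, κ v l : ℕ) : ℝ) +
        ((Fᶜ.sup (fun l => κ v l - hp α H κ v l) : ℕ) : ℝ)) * lnv v =
        ∑ v ∈ κ.support, ((∑ l ∈ F, κ v l : ℕ) : ℝ) * lnv v +
        ∑ v ∈ κ.support, ((Fᶜ.sup (fun l => κ v l - hp α H κ v l) : ℕ) : ℝ) * lnv v := by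
      rw [← Finset.sum_add_distrib]
      exact Finset.sum_congr rfl fun v _ => by ring
    have h3 : 0 ≤ ∑ w : InfinitePlace K, ((∑ g ∈ F, k w g : ℕ) : ℝ) :=
      Finset.sum_nonneg fun _ _ => Nat.cast_nonneg _
    have h4 : 0 ≤ ∑ w : InfinitePlace K, (ji2 Fᶜ α H k w : ℝ) :=
      Finset.sum_nonneg fun _ _ => Nat.cast_nonneg _
    linarith
  by_cases hcase : ∃ l₀ ∈ Fᶜ, ∀ i j, mi H (α l₀) i j = 0
  · -- CASE 1
    obtain ⟨l₀, hl₀, h0⟩ := hcase
    left
    have hsp := special_lemma F (gsupp bad κ) lnv (fun v _ => lnv_pos v)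
      (fun v => κ v) huse hsel (hp α H κ) l₀ hl₀ (fun v _ l _ => hgle v l)
      (fun v hv l hl hll => by
        by_contra hne0
        refine hcong H hH v (hTgood v hv) l hl l₀ hl₀ hll (exW2_hp α H κ v l hne0) ?_
        intro i j
        rw [h0 i j, Pool.Agent.Lib.MP_4d5ce1_nt.fa_zero]
        have := Pool.Agent.Lib.MP_4d5ce1_nt.two_le_nv v
        exact inv_nonneg.mpr (by linarith))
    rw [hsplit (fun v => lnv v)]
    linarith
  · -- CASE 2
    push Not at hcase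
    have hnn1 : 0 ≤ ∑ v ∈ κ.support.filter (fun v => v ∈ bad),
        ((Fᶜ.sup (hp α H κ v) : ℕ) : ℝ) * lnv v :=
      Finset.sum_nonneg fun v _ => mul_nonneg (Nat.cast_nonneg _) (lnv_pos v).le
    have hnn2 : 0 ≤ ∑ w, ((Fᶜ.sup (hi α H k w) : ℕ) : ℝ) :=
      Finset.sum_nonneg fun w _ => Nat.cast_nonneg _
    by_cases htX : 2 * logHeight H -
        ∑ v ∈ κ.support.filter (fun v => v ∈ bad), ((Fᶜ.sup (hp α H κ v) : ℕ) : ℝ) * lnv v -
        ∑ w, ((Fᶜ.sup (hi α H k w) : ℕ) : ℝ) ≤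
        ∑ v ∈ gsupp bad κ, ((Fᶜ.sup (hp α H κ v) : ℕ) : ℝ) * lnv v
    · right
      obtain ⟨W₀, hW₀, hW1, hW2, hW3⟩ := mid_lemma F (gsupp bad κ) lnv (fun v _ => lnv_pos v)
        (fun v => κ v) huse hsel (hp α H κ) (fun v _ l _ => hgle v l)
        (fun v hv l hl l' hl' hll => hgood κ H hH v (hTgood v hv) l hl l' hl' hll)
        (logHeight H) _ hh (by linarith) htX
      have hdisj : Disjoint W₀ (κ.support.filter (fun v => v ∈ bad)) := by
        rw [Finset.disjoint_left]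
        intro v hv hv'
        exact hTgood v (hW₀ hv) (Finset.mem_filter.mp hv').2
      refine ⟨hcase, W₀ ∪ κ.support.filter (fun v => v ∈ bad),
        Finset.union_subset (hW₀.trans hTsub) (Finset.filter_subset _ _), ?_, ?_, ?_⟩
      · intro v hv hvW
        rw [Finset.mem_union, not_or] at hvW
        have hvb : v ∉ bad := fun h => hvW.2 (Finset.mem_filter.mpr ⟨hv, h⟩)
        refine ⟨hvb, ?_⟩
        have hvT : v ∈ gsupp bad κ := Finset.mem_filter.mpr ⟨hv, hvb⟩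
        obtain ⟨l, hl, hgl⟩ := hW1 v (Finset.mem_sdiff.mpr ⟨hvT, hvW.1⟩)
        exact ⟨l, hl, exW2_hp α H κ v l hgl⟩
      · rw [Finset.sum_union hdisj]
        linarith
      · rw [Finset.sum_union hdisj]
        linarith
    · left
      push Not at htX
      obtain ⟨W₀, hW₀, hW1, hW2, hW3⟩ := mid_lemma F (gsupp bad κ) lnv (fun v _ => lnv_pos v)
        (fun v => κ v) huse hsel (hp α H κ) (fun v _ l _ => hgle v l)
        (fun v hv l hl l' hl' hll => hgood κ H hH v (hTgood v hv) l hl l' hl' hll)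
        (logHeight H) (∑ v ∈ gsupp bad κ, ((Fᶜ.sup (hp α H κ v) : ℕ) : ℝ) * lnv v) hh
        (by linarith) le_rfl
      have hWeq : W₀ = gsupp bad κ := by
        refine Finset.Subset.antisymm hW₀ ?_
        intro v hv
        by_contra hvW
        obtain ⟨l, hl, hgl⟩ := hW1 v (Finset.mem_sdiff.mpr ⟨hv, hvW⟩)
        have h1 : 1 ≤ Fᶜ.sup (hp α H κ v) := by
          have : hp α H κ v l ≤ Fᶜ.sup (hp α H κ v) := Finset.le_sup hl
          omega
        have h2 : 0 < ((Fᶜ.sup (hp α H κ v) : ℕ) : ℝ) * lnv v := by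
          have h3 : (1 : ℝ) ≤ ((Fᶜ.sup (hp α H κ v) : ℕ) : ℝ) := by exact_mod_cast h1
          exact mul_pos (by linarith) (lnv_pos v)
        have h3 : ∑ v ∈ W₀, ((Fᶜ.sup (hp α H κ v) : ℕ) : ℝ) * lnv v <
            ∑ v ∈ gsupp bad κ, ((Fᶜ.sup (hp α H κ v) : ℕ) : ℝ) * lnv v :=
          Finset.sum_lt_sum_of_subset hW₀ hv hvW h2
            (fun v _ _ => mul_nonneg (Nat.cast_nonneg _) (lnv_pos v).le)
        linarith
      rw [hWeq] at hW3
      rw [hsplit (fun v => lnv v)]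
      linarith

end Pool.Agent.Lib.MP_44a246_nt.HQ
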