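import Pool.Agent.Lib.MP_44a246_nt.HQ.Volume
import Pool.Agent.Lib.MP_44a246_nt.HP.Local

set_option autoImplicit false

open NumberField IsDedekindDomain Height
open Pool.Agent.Lib.MP_4d5ce1_nt (ordv fa nv)
open Pool.Agent.Lib.MP_44a246_nt.HP

namespace Pool.Agent.Lib.MP_44a246_nt.HQ

/-! ## HQ-2 -/

section fullaux

variable {K : Type*} [Field K] [NumberField K]

private lemma full_dg_pos : 0 < dg K := by
  unfold dg
  exact_mod_cast Module.finrank_pos (R := ℚ) (M := K)

private lemma full_sum_mult : ∑ w : InfinitePlace K, (w.mult : ℝ) = dg K := by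
  unfold dg
  rw [← InfinitePlace.sum_mult_eq (K := K)]
  push_cast
  rfl

omit [NumberField K] in
private lemma full_det {n : ℕ} (a z : Fin n → Fin n → K) :
    Matrix.det (Matrix.of fun i j => lf (a j) (z i)) =
      Matrix.det (Matrix.of z) * Matrix.det (Matrix.of a) := by
  have h : (Matrix.of fun i j => lf (a j) (z i)) = Matrix.of z * (Matrix.of a).transpose := by
    ext i j
    simp only [Matrix.mul_apply, Matrix.transpose_apply, Matrix.of_apply, lf]
    exact Finset.sum_congr rfl fun k _ => mul_comm _ _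
  rw [h, Matrix.det_mul, Matrix.det_transpose]

private lemma full_fa_prod {ι : Type*} (v : HeightOneSpectrum (𝓞 K)) (s : Finset ι) (f : ι → K) :
    fa v (∏ i ∈ s, f i) = ∏ i ∈ s, fa v (f i) := by
  classical
  induction s using Finset.induction_on with
  | empty => simp
  | insert i s hi ih =>
    rw [Finset.prod_insert hi, Finset.prod_insert hi, Pool.Agent.Lib.MP_4d5ce1_nt.fa_mul, ih]

private lemma full_fin {n : ℕ} (v : HeightOneSpectrum (𝓞 K)) (M : Matrix (Fin n) (Fin n) K)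
    (b : Fin n → ℝ) (hb : ∀ j, 0 ≤ b j) (hM : ∀ i j, fa v (M i j) ≤ b j) :
    fa v M.det ≤ ∏ j, b j := by
  rw [Matrix.det_apply]
  refine Pool.Agent.Lib.MP_4d5ce1_nt.fa_sum_le v _ _ _ (Finset.prod_nonneg fun j _ => hb j)
    fun σ _ => ?_
  have h1 : fa v (Equiv.Perm.sign σ • ∏ i, M (σ i) i) = fa v (∏ i, M (σ i) i) := by
    rcases Int.units_eq_one_or (Equiv.Perm.sign σ) with h | h
    · rw [h, one_smul]
    · rw [h, Units.neg_smul, one_smul, Pool.Agent.Lib.MP_4d5ce1_nt.fa_neg]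
  rw [h1, full_fa_prod]
  exact Finset.prod_le_prod (fun i _ => Pool.Agent.Lib.MP_4d5ce1_nt.fa_nonneg v _)
    fun i _ => hM _ _

omit [NumberField K] in
private lemma full_inf {n : ℕ} (w : InfinitePlace K) (M : Matrix (Fin n) (Fin n) K)
    (b : Fin n → ℝ) (hM : ∀ i j, w (M i j) ≤ b j) :
    w M.det ≤ (n.factorial : ℝ) * ∏ j, b j := by
  rw [Matrix.det_apply]
  refine (w.1.sum_le _ _).trans ?_
  have h1 : ∀ σ ∈ (Finset.univ : Finset (Equiv.Perm (Fin n))),
      w.1 (Equiv.Perm.sign σ • ∏ i, M (σ i) i) ≤ ∏ j, b j := by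
    intro σ _
    have h2 : w.1 (Equiv.Perm.sign σ • ∏ i, M (σ i) i) = w.1 (∏ i, M (σ i) i) := by
      rcases Int.units_eq_one_or (Equiv.Perm.sign σ) with h | h
      · rw [h, one_smul]
      · rw [h, Units.neg_smul, one_smul]
        exact map_neg_eq_map w.1 _
    rw [h2, map_prod]
    exact Finset.prod_le_prod (fun i _ => apply_nonneg _ _) fun i _ => hM _ _
  refine (Finset.sum_le_sum h1).trans (le_of_eq ?_)
  rw [Finset.sum_const, Finset.card_univ, Fintype.card_perm, Fintype.card_fin, nsmul_eq_mul]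

private lemma full_attain {q : ℕ} (n : ℕ) (e : Fin q → ℕ) (Λ : Finset (Fin q))
    (h : n ≤ Λ.card) : ∃ s : Fin n → Fin q, Function.Injective s ∧ (∀ i, s i ∈ Λ) ∧
      ∑ i, e (s i) = tn n e Λ := by
  have hne : (Λ.powersetCard n).Nonempty := Finset.powersetCard_nonempty.2 h
  obtain ⟨t, ht, hte⟩ := Finset.exists_mem_eq_sup _ hne fun s => ∑ l ∈ s, e l
  rw [Finset.mem_powersetCard] at ht
  let f : Fin n ≃ t := (t.equivFinOfCardEq ht.2).symm
  refine ⟨fun i => (f i : Fin q), ?_, fun i => ht.1 (f i).2, ?_⟩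
  · intro i j hij
    exact f.injective (Subtype.ext hij)
  · unfold tn
    rw [hte, ← Finset.sum_coe_sort t]
    exact Equiv.sum_comp f fun x : t => e x

private lemma full_tn_zero {q : ℕ} (n : ℕ) (Λ : Finset (Fin q)) :
    tn n (0 : Fin q → ℕ) Λ = 0 := by
  unfold tn
  refine Nat.eq_zero_of_le_zero (Finset.sup_le fun s _ => ?_)
  simp

end fullaux

theorem full_bound (K : Type*) [Field K] [NumberField K] (q n : ℕ) (Λ : Finset (Fin q))
    (hΛ : n ≤ Λ.card) (α : Fin q → Fin n → K)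
    (hα : ∀ s : Fin n → Fin q, Function.Injective s → (∀ i, s i ∈ Λ) →
      LinearIndependent K fun i => α (s i)) (A : ℝ) (hA : 1 ≤ A) :
    ∃ C : ℝ, 0 < C ∧
      ∀ (β : ℝ) (κ : HeightOneSpectrum (𝓞 K) →₀ (Fin q → ℕ)) (k : InfinitePlace K → Fin q → ℕ)
      (Y Z : Finset (Fin n → K)), (∀ y ∈ Y, ∀ y' ∈ Y, y - y' ∈ Z) →
      (∀ z ∈ Z, InBox Λ α A β κ k z) →
      Submodule.span K (Z : Set (Fin n → K)) = ⊤ →
      (Y.card : ℝ) ≤ C * Real.exp (n * β - ind2 n Λ κ k) := by
  classical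
  obtain ⟨C₁, hC₁, hpack⟩ := adelic_packing K n
  -- the admissible choices
  let Adm : Finset (Fin n → Fin q) :=
    Finset.univ.filter fun s => Function.Injective s ∧ ∀ i, s i ∈ Λ
  let D : (Fin n → Fin q) → K := fun s => Matrix.det (Matrix.of fun i => α (s i))
  have hD : ∀ s ∈ Adm, D s ≠ 0 := by
    intro s hs
    have hs' := (Finset.mem_filter.1 hs).2
    have h1 := hα s hs'.1 hs'.2
    have hu : IsUnit (Matrix.of fun i => α (s i)) := by
      rw [← Matrix.linearIndependent_rows_iff_isUnit]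
      exact h1
    exact ((Matrix.isUnit_iff_isUnit_det _).1 hu).ne_zero
  have hfin : (⋃ s ∈ Adm, {v : HeightOneSpectrum (𝓞 K) | fa v (D s) ≠ 1}).Finite := by
    refine Set.Finite.biUnion (Finset.finite_toSet Adm) ?_
    intro s hs
    exact Pool.Agent.Lib.MP_4d5ce1_nt.finite_fa_ne_one (hD s hs)
  set bad : Finset (HeightOneSpectrum (𝓞 K)) := hfin.toFinset with hbad
  have hgood : ∀ v ∉ bad, ∀ s ∈ Adm, fa v (D s) = 1 := by
    intro v hv s hs
    by_contra hcon
    refine hv (hfin.mem_toFinset.2 ?_)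
    simp only [Set.mem_iUnion]
    exact ⟨s, hs, hcon⟩
  set c : ℝ := ∑ v ∈ bad, ∑ s ∈ Adm, |Real.log (fa v (D s))| with hc
  have hc0 : 0 ≤ c := Finset.sum_nonneg fun v _ => Finset.sum_nonneg fun s _ => abs_nonneg _
  have hcb : ∀ v ∈ bad, ∀ s ∈ Adm, -Real.log (fa v (D s)) ≤ c := by
    intro v hv s hs
    have e1 : |Real.log (fa v (D s))| ≤ ∑ s ∈ Adm, |Real.log (fa v (D s))| :=
      Finset.single_le_sum (f := fun s => |Real.log (fa v (D s))|)
        (fun s _ => abs_nonneg _) hs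
    have e2 : ∑ s ∈ Adm, |Real.log (fa v (D s))| ≤ c :=
      Finset.single_le_sum (f := fun v => ∑ s ∈ Adm, |Real.log (fa v (D s))|)
        (fun v _ => Finset.sum_nonneg fun s _ => abs_nonneg _) hv
    exact (neg_le_abs _).trans (e1.trans e2)
  set c₀ : ℝ := ∑ w : InfinitePlace K, ∑ s ∈ Adm, |Real.log (w (D s))| with hc₀
  have hc₀b : ∀ w : InfinitePlace K, ∀ s ∈ Adm, -Real.log (w (D s)) ≤ c₀ := by
    intro w s hs
    have e1 : |Real.log (w (D s))| ≤ ∑ s ∈ Adm, |Real.log (w (D s))| :=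
      Finset.single_le_sum (f := fun s => |Real.log (w (D s))|)
        (fun s _ => abs_nonneg _) hs
    have e2 : ∑ s ∈ Adm, |Real.log (w (D s))| ≤ c₀ :=
      Finset.single_le_sum (f := fun w : InfinitePlace K => ∑ s ∈ Adm, |Real.log (w (D s))|)
        (fun v _ => Finset.sum_nonneg fun s _ => abs_nonneg _) (Finset.mem_univ w)
    exact (neg_le_abs _).trans (e1.trans e2)
  set c' : ℝ := c₀ + Real.log ((n.factorial : ℝ) * A ^ n) with hc'
  refine ⟨C₁ * Real.exp (c' * dg K + c * bad.card), by positivity, ?_⟩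
  intro β κ k Y Z hYZ hZ hspan
  have hA0 : 0 < A := by linarith
  -- finite places
  have hfa : ∀ z : Fin n → Fin n → K, (∀ i, z i ∈ Z) → ∀ v : HeightOneSpectrum (𝓞 K),
      fa v (Matrix.det (Matrix.of z)) ≤
        Real.exp (-((tn n (κ v) Λ : ℝ) * lnv v - if v ∈ bad then c else 0)) := by
    intro z hz v
    obtain ⟨s, hs1, hs2, hs3⟩ := full_attain n (κ v) Λ hΛ
    have hs : s ∈ Adm := Finset.mem_filter.2 ⟨Finset.mem_univ _, hs1, hs2⟩
    have h1 := full_fin v (Matrix.of fun i j => lf (α (s j)) (z i))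
      (fun j => (nv v ^ (κ v (s j)))⁻¹)
      (fun j => inv_nonneg.2 (pow_nonneg (Pool.Agent.Lib.MP_4d5ce1_nt.nv_pos v).le _))
      (fun i j => (hZ (z i) (hz i)).fin v (s j) (hs2 j))
    rw [full_det (fun i => α (s i)) z, Pool.Agent.Lib.MP_4d5ce1_nt.fa_mul] at h1
    have hDpos := Pool.Agent.Lib.MP_4d5ce1_nt.fa_pos v (hD s hs)
    have h2 : ∏ j, (nv v ^ (κ v (s j)))⁻¹ = Real.exp (-((tn n (κ v) Λ : ℝ) * lnv v)) := by
      rw [Finset.prod_inv_distrib, Finset.prod_pow_eq_pow_sum, hs3, Real.exp_neg]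
      congr 1
      rw [← Real.exp_log (pow_pos (Pool.Agent.Lib.MP_4d5ce1_nt.nv_pos v) _), Real.log_pow]
      rfl
    rw [h2] at h1
    have h3 : fa v (Matrix.det (Matrix.of z)) ≤
        Real.exp (-((tn n (κ v) Λ : ℝ) * lnv v)) / fa v (D s) := by
      rw [le_div_iff₀ hDpos]
      exact h1
    refine h3.trans ?_
    have h4 : (fa v (D s))⁻¹ ≤ Real.exp (if v ∈ bad then c else 0) := by
      split_ifs with hv
      · rw [← Real.exp_log (inv_pos.2 hDpos), Real.log_inv]
        exact Real.exp_le_exp.2 (hcb v hv s hs)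
      · rw [hgood v hv s hs]
        simp
    rw [neg_sub, sub_eq_add_neg, add_comm, Real.exp_add, div_eq_mul_inv]
    exact mul_le_mul_of_nonneg_left h4 (Real.exp_pos _).le
  have hw : ∀ z : Fin n → Fin n → K, (∀ i, z i ∈ Z) → ∀ w : InfinitePlace K,
      w (Matrix.det (Matrix.of z)) ≤
        Real.exp (n * β / dg K - (tn n (k w) Λ : ℝ) / (w.mult : ℝ) + c') := by
    intro z hz w
    obtain ⟨s, hs1, hs2, hs3⟩ := full_attain n (k w) Λ hΛ
    have hs : s ∈ Adm := Finset.mem_filter.2 ⟨Finset.mem_univ _, hs1, hs2⟩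
    have h1 := full_inf w (Matrix.of fun i j => lf (α (s j)) (z i))
      (fun j => A * Real.exp (β / dg K - (k w (s j) : ℝ) / (w.mult : ℝ)))
      (fun i j => (hZ (z i) (hz i)).inf w (s j) (hs2 j))
    rw [full_det (fun i => α (s i)) z, map_mul] at h1
    have hDpos : 0 < w (D s) := w.1.pos (hD s hs)
    have h2 : (n.factorial : ℝ) * ∏ j : Fin n,
        (A * Real.exp (β / dg K - (k w (s j) : ℝ) / (w.mult : ℝ))) =
        Real.exp (Real.log ((n.factorial : ℝ) * A ^ n) + (n * β / dg K -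
          (tn n (k w) Λ : ℝ) / (w.mult : ℝ))) := by
      rw [Finset.prod_mul_distrib, Finset.prod_const, Finset.card_univ, Fintype.card_fin,
        ← Real.exp_sum, Real.exp_add, Real.exp_log (by positivity), Finset.sum_sub_distrib,
        Finset.sum_const, Finset.card_univ, Fintype.card_fin, ← Finset.sum_div, ← Nat.cast_sum,
        hs3, nsmul_eq_mul]
      rw [mul_assoc, mul_div_assoc]
    rw [h2] at h1
    have h3 : w (Matrix.det (Matrix.of z)) ≤ Real.exp (Real.log ((n.factorial : ℝ) * A ^ n) +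
        (n * β / dg K - (tn n (k w) Λ : ℝ) / (w.mult : ℝ))) / w (D s) := by
      rw [le_div_iff₀ hDpos]
      exact h1
    refine h3.trans ?_
    rw [div_eq_mul_inv, ← Real.exp_log (inv_pos.2 hDpos), ← Real.exp_add, Real.log_inv]
    refine Real.exp_le_exp.2 ?_
    have := hc₀b w s hs
    rw [hc']
    linarith
  have hcard := hpack Y Z (κ.support ∪ bad)
    (fun v => (tn n (κ v) Λ : ℝ) * lnv v - if v ∈ bad then c else 0)
    (fun w => n * β / dg K - (tn n (k w) Λ : ℝ) / (w.mult : ℝ) + c') hYZ hspan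
    (fun z hz v _ => hfa z hz v)
    (fun z hz v hv => by
      refine (hfa z hz v).trans (le_of_eq ?_)
      rw [Finset.mem_union, not_or] at hv
      rw [Finsupp.notMem_support_iff.1 hv.1, full_tn_zero, if_neg hv.2]
      simp)
    hw
  refine hcard.trans (le_of_eq ?_)
  have e1 : ∑ w : InfinitePlace K, (w.mult : ℝ) *
      (n * β / dg K - (tn n (k w) Λ : ℝ) / (w.mult : ℝ) + c') =
      n * β - ∑ w : InfinitePlace K, (tn n (k w) Λ : ℝ) + c' * dg K := by
    have h1 : ∀ w : InfinitePlace K, (w.mult : ℝ) *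
        (n * β / dg K - (tn n (k w) Λ : ℝ) / (w.mult : ℝ) + c') =
        (w.mult : ℝ) * (n * β / dg K + c') - (tn n (k w) Λ : ℝ) := by
      intro w
      have hm : (w.mult : ℝ) ≠ 0 := InfinitePlace.mult_coe_ne_zero
      field_simp
      ring
    rw [Finset.sum_congr rfl fun w _ => h1 w, Finset.sum_sub_distrib, ← Finset.sum_mul,
      full_sum_mult]
    have := (full_dg_pos (K := K)).ne'
    field_simp
    ring
  have e2 : ∑ v ∈ κ.support ∪ bad, ((tn n (κ v) Λ : ℝ) * lnv v - if v ∈ bad then c else 0) =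
      ∑ v ∈ κ.support, (tn n (κ v) Λ : ℝ) * lnv v - c * bad.card := by
    rw [Finset.sum_sub_distrib]
    congr 1
    · refine (Finset.sum_subset Finset.subset_union_left ?_).symm
      intro v _ hv
      rw [Finsupp.notMem_support_iff.1 hv, full_tn_zero]
      simp
    · rw [← Finset.sum_filter]
      have : (κ.support ∪ bad).filter (fun v => v ∈ bad) = bad := by
        ext v
        simp
      rw [this, Finset.sum_const, nsmul_eq_mul, mul_comm]
  rw [e1, e2, mul_assoc, ← Real.exp_add]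
  congr 2
  unfold ind2
  ring

end Pool.Agent.Lib.MP_44a246_nt.HQ
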