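import Pool.Agent.Lib.MP_44a246_nt.HQ.Defs
import Pool.Agent.Lib.MP_44a246_nt.HP.Local

set_option autoImplicit false

open NumberField IsDedekindDomain Height
open Pool.Agent.Lib.MP_4d5ce1_nt (ordv fa nv)
open Pool.Agent.Lib.MP_44a246_nt.HP

namespace Pool.Agent.Lib.MP_44a246_nt.HQ

/-! ## HQ-3 -/

/-- If all the maximal minors of `z` (with signs) are `t` times the coordinates of `H`. -/
def CrossEq {K : Type*} [Field K] {m : ℕ} (H : Fin (m + 1) → K) (z : Fin m → Fin (m + 1) → K)
    (t : K) : Prop :=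
  ∀ i : Fin (m + 1), Matrix.det (Matrix.of fun r c => z r (i.succAbove c)) =
    (-1) ^ (i : ℕ) * t * H i

private lemma hl_laplace {K : Type*} [Field K] {m : ℕ} (z : Fin m → Fin (m + 1) → K) (r : Fin m) :
    ∑ i : Fin (m + 1), ((-1) ^ (i : ℕ) *
      Matrix.det (Matrix.of fun r c => z r (i.succAbove c))) * z r i = 0 := by
  let A : Matrix (Fin (m + 1)) (Fin (m + 1)) K :=
    Matrix.of (Fin.cons (z r) z : Fin (m + 1) → Fin (m + 1) → K)
  have h0 : A.det = 0 := by
    apply Matrix.det_zero_of_row_eq (i := 0) (j := r.succ) (Fin.succ_ne_zero r).symm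
    rfl
  rw [Matrix.det_succ_row_zero] at h0
  rw [← h0]
  refine Finset.sum_congr rfl fun i _ => ?_
  have h1 : A.submatrix Fin.succ i.succAbove = Matrix.of fun r c => z r (i.succAbove c) := by
    ext a b
    rfl
  rw [h1]
  have h2 : A 0 i = z r i := rfl
  rw [h2]
  ring

theorem cross_exists (K : Type*) [Field K] (m : ℕ) (H : Fin (m + 1) → K) (hH : H ≠ 0)
    (z : Fin m → Fin (m + 1) → K) (hz : ∀ i, ∑ j, H j * z i j = 0) : ∃ t : K, CrossEq H z t := by
  classical
  by_cases hli : LinearIndependent K z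
  · let Z : Matrix (Fin m) (Fin (m + 1)) K := Matrix.of z
    have hrank : Z.rank = m := by
      have := LinearIndependent.rank_matrix (M := Z) hli
      simpa using this
    have hker : Module.finrank K (LinearMap.ker Z.mulVecLin) = 1 := by
      have h1 := LinearMap.finrank_range_add_finrank_ker Z.mulVecLin
      have h2 : Module.finrank K (LinearMap.range Z.mulVecLin) = m := hrank
      rw [h2, Module.finrank_fintype_fun_eq_card, Fintype.card_fin] at h1
      omega
    have hHk : H ∈ LinearMap.ker Z.mulVecLin := by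
      rw [LinearMap.mem_ker]
      funext r
      simp only [Matrix.mulVecLin_apply, Matrix.mulVec, dotProduct, Pi.zero_apply]
      rw [← hz r]
      exact Finset.sum_congr rfl fun j _ => mul_comm _ _
    set D : Fin (m + 1) → K := fun i => (-1) ^ (i : ℕ) *
      Matrix.det (Matrix.of fun r c => z r (i.succAbove c)) with hD
    have hDk : D ∈ LinearMap.ker Z.mulVecLin := by
      rw [LinearMap.mem_ker]
      funext r
      simp only [Matrix.mulVecLin_apply, Matrix.mulVec, dotProduct, Pi.zero_apply]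
      rw [← hl_laplace z r]
      exact Finset.sum_congr rfl fun j _ => mul_comm _ _
    obtain ⟨t, ht⟩ := exists_smul_eq_of_finrank_eq_one hker
      (x := ⟨H, hHk⟩) (fun h => hH (congrArg Subtype.val h)) ⟨D, hDk⟩
    refine ⟨t, fun i => ?_⟩
    have h1 : t * H i = D i := congrFun (congrArg Subtype.val ht) i
    rw [mul_assoc, h1, hD]
    simp only
    rw [← mul_assoc, ← pow_add, ← two_mul, pow_mul]
    simp
  · refine ⟨0, fun i => ?_⟩
    rw [mul_zero, zero_mul]
    by_contra hne
    have h1 : IsUnit (Matrix.of fun r c => z r (i.succAbove c)) :=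
      (Matrix.isUnit_iff_isUnit_det _).2 (isUnit_iff_ne_zero.2 hne)
    have h2 := Matrix.linearIndependent_rows_iff_isUnit.2 h1
    apply hli
    exact LinearIndependent.of_comp (LinearMap.funLeft K K i.succAbove) h2

private lemma hl_orth {K : Type*} [Field K] {m : ℕ} {H : Fin (m + 1) → K}
    {z : Fin m → Fin (m + 1) → K} {t : K} (h : CrossEq H z t) (ht : t ≠ 0) (r : Fin m) :
    ∑ i, H i * z r i = 0 := by
  have h1 := hl_laplace z r
  have h2 : ∑ i : Fin (m + 1), ((-1) ^ (i : ℕ) *
      Matrix.det (Matrix.of fun r c => z r (i.succAbove c))) * z r i = t * ∑ i, H i * z r i := by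
    rw [Finset.mul_sum]
    refine Finset.sum_congr rfl fun i _ => ?_
    rw [h i, ← mul_assoc, ← mul_assoc, ← pow_add, ← two_mul, pow_mul]
    simp [mul_assoc]
  rw [h1] at h2
  exact (mul_eq_zero.1 h2.symm).resolve_left ht

/-- The matrix of the minor `i` with the column `c₀` replaced by the values of the form `a`. -/
private def hlN {K : Type*} [Field K] {m : ℕ} (z : Fin m → Fin (m + 1) → K) (i : Fin (m + 1))
    (c₀ : Fin m) (a : Fin (m + 1) → K) : Matrix (Fin m) (Fin m) K :=
  (Matrix.of fun r c => z r (i.succAbove c)).updateCol c₀ fun r => lf a (z r)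

private lemma hl_det {K : Type*} [Field K] {m : ℕ} {H : Fin (m + 1) → K}
    {z : Fin m → Fin (m + 1) → K} {t : K} (h : CrossEq H z t) (ht : t ≠ 0) (i : Fin (m + 1))
    (c₀ : Fin m) (hi : H i ≠ 0) (a : Fin (m + 1) → K) :
    (hlN z i c₀ a).det = (-1) ^ (i : ℕ) * t * mi H a i (i.succAbove c₀) := by
  classical
  set A : Matrix (Fin m) (Fin m) K := Matrix.of fun r c => z r (i.succAbove c) with hA
  have h1 : H i • (fun r => lf a (z r)) =
      fun r => ∑ k, (mi H a i (i.succAbove k)) • A r k := by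
    funext r
    have h2 := hl_orth h ht r
    rw [Fin.sum_univ_succAbove _ i] at h2
    simp only [Pi.smul_apply, smul_eq_mul, lf, mi, hA, Matrix.of_apply]
    rw [Fin.sum_univ_succAbove _ i, mul_add, Finset.mul_sum]
    have h3 : H i * (a i * z r i) = - ∑ k, a i * (H (i.succAbove k) * z r (i.succAbove k)) := by
      rw [← Finset.mul_sum]
      have h4 : H i * z r i = - ∑ k, H (i.succAbove k) * z r (i.succAbove k) :=
        eq_neg_of_add_eq_zero_left h2
      calc H i * (a i * z r i) = a i * (H i * z r i) := by ring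
        _ = _ := by rw [h4]; ring
    rw [h3, ← Finset.sum_neg_distrib, ← Finset.sum_add_distrib]
    exact Finset.sum_congr rfl fun k _ => by ring
  have h5 := Matrix.det_updateCol_sum A c₀ fun k => mi H a i (i.succAbove k)
  rw [← h1, Matrix.det_updateCol_smul, smul_eq_mul, h i] at h5
  have h6 : H i * (hlN z i c₀ a).det = H i * ((-1) ^ (i : ℕ) * t * mi H a i (i.succAbove c₀)) := by
    unfold hlN
    rw [h5]; ring
  exact mul_left_cancel₀ hi h6

section bounds

variable {K : Type*} [Field K] [NumberField K]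

private lemma hl_prod_le {m : ℕ} (g : Fin m → ℝ) (c₀ : Fin m) (b e : ℝ) (hb : 0 ≤ b)
    (hg : ∀ c, 0 ≤ g c) (h1 : ∀ c, c ≠ c₀ → g c ≤ b) (h2 : g c₀ ≤ e) :
    ∏ c, g c ≤ b ^ (m - 1) * e := by
  classical
  rw [← Finset.mul_prod_erase Finset.univ g (Finset.mem_univ c₀), mul_comm]
  have h3 : ∏ c ∈ Finset.univ.erase c₀, g c ≤ b ^ (m - 1) := by
    have h4 : ∏ c ∈ Finset.univ.erase c₀, g c ≤ ∏ c ∈ Finset.univ.erase c₀, b :=
      Finset.prod_le_prod (fun c _ => hg c) fun c hc => h1 c (Finset.ne_of_mem_erase hc)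
    rw [Finset.prod_const, Finset.card_erase_of_mem (Finset.mem_univ _), Finset.card_univ,
      Fintype.card_fin] at h4
    exact h4
  exact mul_le_mul h3 h2 (hg c₀) (pow_nonneg hb _)

private lemma hl_fa_sign (v : HeightOneSpectrum (𝓞 K)) (u : ℤˣ) (x : K) :
    fa v (((u : ℤ) : K) * x) = fa v x := by
  rcases Int.units_eq_one_or u with h | h
  · rw [h]; simp
  · rw [h]
    simp only [Units.val_neg, Units.val_one, Int.cast_neg, Int.cast_one, neg_mul, one_mul]
    exact Pool.Agent.Lib.MP_4d5ce1_nt.fa_neg v x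

omit [NumberField K] in
private lemma hl_w_sign (w : InfinitePlace K) (u : ℤˣ) (x : K) :
    w (((u : ℤ) : K) * x) = w x := by
  rcases Int.units_eq_one_or u with h | h
  · rw [h]; simp
  · rw [h]
    simp only [Units.val_neg, Units.val_one, Int.cast_neg, Int.cast_one, neg_mul, one_mul]
    exact w.1.map_neg x

private lemma hl_det_fin {m : ℕ} (v : HeightOneSpectrum (𝓞 K)) (N : Matrix (Fin m) (Fin m) K)
    (c₀ : Fin m) (b e : ℝ) (hb : 0 ≤ b) (he : 0 ≤ e) (h1 : ∀ r c, c ≠ c₀ → fa v (N r c) ≤ b)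
    (h2 : ∀ r, fa v (N r c₀) ≤ e) : fa v N.det ≤ b ^ (m - 1) * e := by
  classical
  rw [Matrix.det_apply']
  refine Pool.Agent.Lib.MP_4d5ce1_nt.fa_sum_le v _ _ _ (mul_nonneg (pow_nonneg hb _) he)
    fun σ _ => ?_
  rw [hl_fa_sign]
  have h3 : fa v (∏ i, N (σ i) i) = ∏ i, fa v (N (σ i) i) := by
    unfold fa
    exact map_prod _ _ _
  rw [h3]
  exact hl_prod_le _ c₀ b e hb (fun c => Pool.Agent.Lib.MP_4d5ce1_nt.fa_nonneg v _)
    (fun c hc => h1 _ c hc) (h2 _)

private lemma hl_det_inf {m : ℕ} (w : InfinitePlace K) (N : Matrix (Fin m) (Fin m) K)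
    (c₀ : Fin m) (b e : ℝ) (hb : 0 ≤ b) (h1 : ∀ r c, c ≠ c₀ → w (N r c) ≤ b)
    (h2 : ∀ r, w (N r c₀) ≤ e) : w N.det ≤ (m.factorial : ℝ) * (b ^ (m - 1) * e) := by
  classical
  rw [Matrix.det_apply']
  refine (w.1.sum_le _ _).trans ?_
  have h3 : ∀ σ : Equiv.Perm (Fin m), w.1 (((Equiv.Perm.sign σ : ℤ) : K) * ∏ i, N (σ i) i) ≤
      b ^ (m - 1) * e := by
    intro σ
    have h4 : w.1 (((Equiv.Perm.sign σ : ℤ) : K) * ∏ i, N (σ i) i) = ∏ i, w (N (σ i) i) := by
      have := hl_w_sign w (Equiv.Perm.sign σ) (∏ i, N (σ i) i)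
      refine this.trans ?_
      exact map_prod _ _ _
    rw [h4]
    exact hl_prod_le _ c₀ b e hb (fun c => apply_nonneg _ _) (fun c hc => h1 _ c hc) (h2 _)
  refine (Finset.sum_le_sum fun σ _ => h3 σ).trans (le_of_eq ?_)
  rw [Finset.sum_const, Finset.card_univ, Fintype.card_perm, Fintype.card_fin, nsmul_eq_mul]

/-- discreteness of the value group -/
private lemma hl_disc (v : HeightOneSpectrum (𝓞 K)) {x : K} {e : ℕ}
    (h : ¬ fa v x ≤ (nv v ^ (e + 1))⁻¹) : x ≠ 0 ∧ (nv v ^ e)⁻¹ ≤ fa v x := by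
  have hn := Pool.Agent.Lib.MP_4d5ce1_nt.one_lt_nv v
  have hn0 := Pool.Agent.Lib.MP_4d5ce1_nt.nv_pos v
  have hx : x ≠ 0 := by
    rintro rfl
    apply h
    rw [Pool.Agent.Lib.MP_4d5ce1_nt.fa_zero]
    positivity
  refine ⟨hx, ?_⟩
  rw [not_le, Pool.Agent.Lib.MP_4d5ce1_nt.fa_eq v hx, ← zpow_natCast, ← zpow_neg,
    zpow_lt_zpow_iff_right₀ hn] at h
  rw [Pool.Agent.Lib.MP_4d5ce1_nt.fa_eq v hx, ← zpow_natCast, ← zpow_neg,
    zpow_le_zpow_iff_right₀ hn]
  push_cast at h
  omega

private lemma hl_small (C : ℝ) : {v : HeightOneSpectrum (𝓞 K) | nv v ≤ C}.Finite := by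
  refine (Ring.HasFiniteQuotients.finite_absNorm_heightOneSpectrum_le
    (R := 𝓞 K) ⌊C⌋₊).subset ?_
  intro v hv
  have hv' : nv v ≤ C := hv
  show v.asIdeal.absNorm ≤ ⌊C⌋₊
  exact Nat.le_floor hv'

private lemma hl_one (v : HeightOneSpectrum (𝓞 K)) {x : K} {C : ℝ} (hC : 0 < C) (hv : C < nv v)
    (h1 : fa v x ≤ 1) (h2 : C⁻¹ ≤ fa v x) : fa v x = 1 := by
  have hn := Pool.Agent.Lib.MP_4d5ce1_nt.one_lt_nv v
  have hn0 := Pool.Agent.Lib.MP_4d5ce1_nt.nv_pos v
  have h3 : ¬ fa v x ≤ (nv v ^ (0 + 1))⁻¹ := by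
    rw [zero_add, pow_one, not_le]
    exact lt_of_lt_of_le (inv_strictAnti₀ hC hv) h2
  have h4 := (hl_disc v h3).2
  rw [pow_zero, inv_one] at h4
  exact le_antisymm h1 h4

/-- a maximal element of a nonzero sup -/
private lemma hl_sup {ι : Type*} (Λ : Finset ι) (f : ι → ℕ) (h : Λ.sup f ≠ 0) :
    ∃ l ∈ Λ, Λ.sup f = f l := by
  have hne : Λ.Nonempty := by
    rw [Finset.nonempty_iff_ne_empty]
    rintro rfl
    exact h (by simp)
  obtain ⟨l, hl, h1⟩ := Finset.exists_mem_eq_sup Λ hne f
  exact ⟨l, hl, h1⟩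

end bounds

theorem hyper_local (K : Type*) [Field K] [NumberField K] (q m : ℕ) (hm : 1 ≤ m)
    (Λ : Finset (Fin q)) (hΛ : m + 1 ≤ Λ.card) (α : Fin q → Fin (m + 1) → K)
    (hα : ∀ s : Fin (m + 1) → Fin q, Function.Injective s → (∀ i, s i ∈ Λ) →
      LinearIndependent K fun i => α (s i)) (C₀ A : ℝ) (hC₀ : 1 ≤ C₀) (hA : 1 ≤ A) :
    ∃ (bad : Finset (HeightOneSpectrum (𝓞 K))) (c : ℝ), 0 ≤ c ∧
      ∀ H : Fin (m + 1) → K, Bal C₀ H → ∀ (z : Fin m → Fin (m + 1) → K) (t : K),
      CrossEq H z t → t ≠ 0 →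
      ∀ (β : ℝ) (κ : HeightOneSpectrum (𝓞 K) →₀ (Fin q → ℕ)) (k : InfinitePlace K → Fin q → ℕ),
      (∀ i, InBox Λ α A β κ k (z i)) →
      (∀ v, Real.log (fa v t) ≤ - (jp2 Λ α H κ v : ℝ) * lnv v +
        (open Classical in if v ∈ bad then c else 0)) ∧
      (∀ w : InfinitePlace K, Real.log (w t) ≤
        (m * β - logHeight H) / dg K - (ji2 Λ α H k w : ℝ) / (w.mult : ℝ) + c) := by
  classical
  -- the independent forms
  obtain ⟨Λ', hΛ', hcard⟩ := Finset.exists_subset_card_eq hΛ
  let s : Fin (m + 1) → Fin q := fun i => Λ'.orderEmbOfFin hcard i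
  have hs : Function.Injective s := (Λ'.orderEmbOfFin hcard).injective
  have hsΛ : ∀ i, s i ∈ Λ := fun i => hΛ' (Λ'.orderEmbOfFin_mem hcard i)
  obtain ⟨bad0, A₁, hA₁, hb1, hb2, hb3⟩ := indep_bound K (m + 1) (fun i => α (s i))
    (hα s hs hsΛ)
  have hC₀' : 0 < C₀ := by linarith
  have hA' : 0 < A := by linarith
  have hA₁' : 0 < A₁ := by linarith
  have hlogC : 0 ≤ Real.log C₀ := Real.log_nonneg hC₀
  have hlogA : 0 ≤ Real.log A := Real.log_nonneg hA
  have hlogA₁ : 0 ≤ Real.log A₁ := Real.log_nonneg hA₁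
  have hfac : (1 : ℝ) ≤ m.factorial := by exact_mod_cast Nat.one_le_iff_ne_zero.2 m.factorial_ne_zero
  have hlogf : 0 ≤ Real.log (m.factorial : ℝ) := Real.log_nonneg hfac
  have hm' : (1 : ℝ) ≤ m := by exact_mod_cast hm
  set c : ℝ := m * Real.log A₁ + Real.log C₀ + Real.log (m.factorial : ℝ) + m * (Real.log A₁ +
    Real.log A) + Real.log A + 1 with hc
  have hc0 : 0 ≤ c := by positivity
  refine ⟨bad0 ∪ (hl_small (K := K) C₀).toFinset, c, hc0, ?_⟩
  intro H hH z t hcr ht β κ k hbox
  -- the good pair of indices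
  have hpair : ∀ (a : Fin (m + 1) → K) (i j : Fin (m + 1)), mi H a i j ≠ 0 →
      ∃ (i' : Fin (m + 1)) (c₀ : Fin m), H i' ≠ 0 ∧
        (mi H a i' (i'.succAbove c₀) = mi H a i j ∨
          mi H a i' (i'.succAbove c₀) = - mi H a i j) := by
    intro a i j hne
    have hij : i ≠ j := by
      rintro rfl
      apply hne
      unfold mi
      ring
    by_cases hi : H i = 0
    · have hj : H j ≠ 0 := by
        intro hj
        apply hne
        unfold mi
        rw [hi, hj]; ring
      obtain ⟨c₀, hc₀⟩ := Fin.exists_succAbove_eq (x := i) (y := j) hij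
      refine ⟨j, c₀, hj, Or.inr ?_⟩
      rw [hc₀]
      unfold mi
      ring
    · obtain ⟨c₀, hc₀⟩ := Fin.exists_succAbove_eq (x := j) (y := i) (Ne.symm hij)
      exact ⟨i, c₀, hi, Or.inl (by rw [hc₀])⟩
  refine ⟨fun v => ?_, fun w => ?_⟩
  · -- finite places
    have hn := Pool.Agent.Lib.MP_4d5ce1_nt.one_lt_nv v
    have hn0 := Pool.Agent.Lib.MP_4d5ce1_nt.nv_pos v
    have hfat : 0 < fa v t := Pool.Agent.Lib.MP_4d5ce1_nt.fa_pos v ht
    have hlf1 : ∀ (r : Fin m) (l : Fin (m + 1)), fa v (lf (α (s l)) (z r)) ≤ 1 := by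
      intro r l
      refine ((hbox r).fin v (s l) (hsΛ l)).trans ?_
      exact inv_le_one_of_one_le₀ (one_le_pow₀ hn.le)
    -- bound of the coordinates
    obtain ⟨b, hb0, hbz, hblog, hbH⟩ : ∃ b : ℝ, 1 ≤ b ∧ (∀ r i, fa v (z r i) ≤ b) ∧
        (m * Real.log b + Real.log C₀ ≤ (if v ∈ bad0 ∪ (hl_small (K := K) C₀).toFinset then c
          else 0) ∨ (b = 1 ∧ ∀ i, C₀⁻¹ ≤ fa v (H i) → fa v (H i) = 1)) ∧
        (m * Real.log b ≤ (if v ∈ bad0 ∪ (hl_small (K := K) C₀).toFinset then c
          else 0)) := by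
      by_cases hv : v ∈ bad0 ∪ (hl_small (K := K) C₀).toFinset
      · refine ⟨A₁, hA₁, fun r i => ?_, Or.inl ?_, ?_⟩
        · obtain ⟨j, hj⟩ := hb2 v (z r) i
          refine hj.trans ?_
          have := hlf1 r j
          calc A₁ * fa v (lf (α (s j)) (z r)) ≤ A₁ * 1 := by gcongr
            _ = A₁ := mul_one _
        · rw [if_pos hv, hc]
          have : 0 ≤ (m : ℝ) * (Real.log A₁ + Real.log A) := by positivity
          linarith
        · rw [if_pos hv, hc]
          have : 0 ≤ (m : ℝ) * (Real.log A₁ + Real.log A) := by positivity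
          linarith
      · rw [Finset.mem_union, not_or] at hv
        refine ⟨1, le_refl 1, fun r i => ?_, Or.inr ⟨rfl, fun i hi => ?_⟩, ?_⟩
        · obtain ⟨j, hj⟩ := hb1 v hv.1 (z r) i
          exact hj.trans (hlf1 r j)
        · have h1 : C₀ < nv v := by
            by_contra hle
            exact hv.2 ((hl_small (K := K) C₀).mem_toFinset.2 (not_lt.1 hle))
          exact hl_one v hC₀' h1 (hH.int v i) hi
        · rw [Real.log_one, mul_zero]
          split_ifs
          · exact hc0
          · exact le_refl 0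
    have hb0' : 0 < b := by linarith
    by_cases hJ : jp2 Λ α H κ v = 0
    · obtain ⟨i, hi⟩ := hH.cont v
      have h1 : fa v t * fa v (H i) ≤ b ^ m := by
        have h2 := hcr i
        have h3 : fa v (Matrix.det (Matrix.of fun r c => z r (i.succAbove c))) =
            fa v t * fa v (H i) := by
          rw [h2, mul_assoc, Pool.Agent.Lib.MP_4d5ce1_nt.fa_mul,
            Pool.Agent.Lib.MP_4d5ce1_nt.fa_mul, Pool.Agent.Lib.MP_4d5ce1_nt.fa_pow,
            Pool.Agent.Lib.MP_4d5ce1_nt.fa_neg, Pool.Agent.Lib.MP_4d5ce1_nt.fa_one, one_pow,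
            one_mul]
        rw [← h3]
        refine (hl_det_fin v _ ⟨0, by omega⟩ b b hb0'.le hb0'.le (fun r c _ => hbz _ _)
          (fun r => hbz _ _)).trans (le_of_eq ?_)
        rw [← pow_succ]
        congr 1
        omega
      have hfaH : 0 < fa v (H i) := lt_of_lt_of_le (inv_pos.2 hC₀') hi
      have h4 : Real.log (fa v t) + Real.log (fa v (H i)) ≤ m * Real.log b := by
        rw [← Real.log_mul hfat.ne' hfaH.ne', ← Real.log_pow]
        exact Real.log_le_log (mul_pos hfat hfaH) h1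
      rw [hJ]
      simp only [Nat.cast_zero, neg_zero, zero_mul, zero_add]
      rcases hblog with h5 | ⟨h5, h6⟩
      · have h7 : -Real.log C₀ ≤ Real.log (fa v (H i)) := by
          rw [← Real.log_inv]
          exact Real.log_le_log (inv_pos.2 hC₀') hi
        linarith
      · rw [h6 i hi, Real.log_one] at h4
        linarith
    · obtain ⟨l, hl, hJl⟩ := hl_sup Λ (fun l => κ v l - hp α H κ v l) hJ
      have hJl' : jp2 Λ α H κ v = κ v l - hp α H κ v l := hJl
      have hlt : hp α H κ v l < κ v l := by omega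
      have hP : ¬ ∀ i j, fa v (mi H (α l) i j) ≤ (nv v ^ (hp α H κ v l + 1))⁻¹ := by
        intro hall
        have := Nat.le_findGreatest (P := fun e => ∀ i j, fa v (mi H (α l) i j) ≤ (nv v ^ e)⁻¹)
          (n := κ v l) (m := hp α H κ v l + 1) (by omega) hall
        have h2 : hp α H κ v l + 1 ≤ hp α H κ v l := this
        omega
      push Not at hP
      obtain ⟨i, j, hij⟩ := hP
      obtain ⟨hmi, hge⟩ := hl_disc v (not_le.2 hij)
      obtain ⟨i', c₀, hHi, hpm⟩ := hpair (α l) i j hmi
      have hmi' : fa v (mi H (α l) i' (i'.succAbove c₀)) = fa v (mi H (α l) i j) := by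
        rcases hpm with h | h <;> rw [h]
        exact Pool.Agent.Lib.MP_4d5ce1_nt.fa_neg v _
      have h1 : fa v t * fa v (mi H (α l) i j) ≤ b ^ (m - 1) * (nv v ^ (κ v l))⁻¹ := by
        have h2 := hl_det hcr ht i' c₀ hHi (α l)
        have h3 : fa v (hlN z i' c₀ (α l)).det = fa v t * fa v (mi H (α l) i j) := by
          rw [h2, mul_assoc, Pool.Agent.Lib.MP_4d5ce1_nt.fa_mul,
            Pool.Agent.Lib.MP_4d5ce1_nt.fa_mul, Pool.Agent.Lib.MP_4d5ce1_nt.fa_pow,
            Pool.Agent.Lib.MP_4d5ce1_nt.fa_neg, Pool.Agent.Lib.MP_4d5ce1_nt.fa_one, one_pow,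
            one_mul, hmi']
        rw [← h3]
        refine hl_det_fin v _ c₀ b _ hb0'.le (by positivity) (fun r c hc => ?_) (fun r => ?_)
        · unfold hlN
          rw [Matrix.updateCol_ne hc]
          exact hbz _ _
        · unfold hlN
          rw [Matrix.updateCol_self]
          exact (hbox r).fin v l hl
      have h4 : fa v t * (nv v ^ (hp α H κ v l))⁻¹ ≤ b ^ (m - 1) * (nv v ^ (κ v l))⁻¹ :=
        (mul_le_mul_of_nonneg_left hge hfat.le).trans h1
      have h5 := Real.log_le_log (by positivity) h4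
      rw [Real.log_mul hfat.ne' (by positivity), Real.log_mul (by positivity) (by positivity),
        Real.log_inv, Real.log_inv, Real.log_pow, Real.log_pow, Real.log_pow] at h5
      have h6 : ((jp2 Λ α H κ v : ℕ) : ℝ) = (κ v l : ℝ) - (hp α H κ v l : ℝ) := by
        rw [hJl', Nat.cast_sub hlt.le]
      have h7 : ((m - 1 : ℕ) : ℝ) * Real.log b ≤ m * Real.log b := by
        have h8 : ((m - 1 : ℕ) : ℝ) ≤ m := by exact_mod_cast Nat.sub_le m 1
        exact mul_le_mul_of_nonneg_right h8 (Real.log_nonneg hb0)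
      rw [h6]
      unfold lnv
      nlinarith
  · -- infinite places
    have hwt : 0 < w t := InfinitePlace.pos_iff.2 ht
    have hmult : (1 : ℝ) ≤ w.mult := by exact_mod_cast Nat.one_le_iff_ne_zero.2 w.mult_ne_zero
    set X : ℝ := β / dg K with hX
    set b : ℝ := A₁ * A * Real.exp X with hb
    have hb0 : 0 < b := by positivity
    have hbz : ∀ r i, w (z r i) ≤ b := by
      intro r i
      obtain ⟨j, hj⟩ := hb3 w (z r) i
      refine hj.trans ?_
      have h1 := (hbox r).inf w (s j) (hsΛ j)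
      have h2 : Real.exp (β / dg K - (k w (s j) : ℝ) / (w.mult : ℝ)) ≤ Real.exp X := by
        apply Real.exp_le_exp.2
        have : 0 ≤ (k w (s j) : ℝ) / (w.mult : ℝ) := by positivity
        linarith
      calc A₁ * w (lf (α (s j)) (z r)) ≤ A₁ * (A * Real.exp X) := by
            refine mul_le_mul_of_nonneg_left (h1.trans ?_) hA₁'.le
            exact mul_le_mul_of_nonneg_left h2 hA'.le
        _ = b := by rw [hb]; ring
    have hlogb : Real.log b = Real.log A₁ + Real.log A + X := by
      rw [hb, Real.log_mul (by positivity) (by positivity), Real.log_mul (by positivity)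
        (by positivity), Real.log_exp]
    have hsplit : (m * β - logHeight H) / dg K = m * X - logHeight H / dg K := by
      rw [hX]; ring
    rw [hsplit]
    by_cases hJ : ji2 Λ α H k w = 0
    · obtain ⟨i, hi⟩ := hH.low w
      have h1 : w t * w (H i) ≤ (m.factorial : ℝ) * b ^ m := by
        have h2 := hcr i
        have h3 : w (Matrix.det (Matrix.of fun r c => z r (i.succAbove c))) = w t * w (H i) := by
          rw [h2, mul_assoc, map_mul, map_mul, map_pow]
          have : w (-1 : K) = 1 := by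
            have := w.1.map_neg (1 : K)
            exact this.trans (map_one w)
          rw [this, one_pow, one_mul]
        rw [← h3]
        refine (hl_det_inf w _ ⟨0, by omega⟩ b b hb0.le (fun r c _ => hbz _ _)
          (fun r => hbz _ _)).trans (le_of_eq ?_)
        rw [← pow_succ]
        congr 2
        omega
      have hwH : 0 < w (H i) := lt_of_lt_of_le (by positivity) hi
      have h4 := Real.log_le_log (mul_pos hwt hwH) h1
      rw [Real.log_mul hwt.ne' hwH.ne', Real.log_mul (by positivity) (by positivity), Real.log_pow,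
        hlogb] at h4
      have h5 : -Real.log C₀ + logHeight H / dg K ≤ Real.log (w (H i)) := by
        have := Real.log_le_log (by positivity) hi
        rwa [Real.log_mul (by positivity) (by positivity), Real.log_inv, Real.log_exp] at this
      rw [hJ, hc]
      simp only [Nat.cast_zero, zero_div, sub_zero]
      have h6 : 0 ≤ (m : ℝ) * Real.log A₁ := by positivity
      nlinarith
    · obtain ⟨l, hl, hJl⟩ := hl_sup Λ (fun l => k w l - hi α H k w l) hJ
      have hJl' : ji2 Λ α H k w = k w l - hi α H k w l := hJl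
      have hlt : hi α H k w l < k w l := by omega
      have hP : ¬ ∀ i j, w (mi H (α l) i j) ≤
          Real.exp (logHeight H / dg K - ((hi α H k w l + 1 : ℕ) : ℝ) / (w.mult : ℝ)) := by
        intro hall
        have := Nat.le_findGreatest (P := fun e => ∀ i j, w (mi H (α l) i j) ≤
          Real.exp (logHeight H / dg K - (e : ℝ) / (w.mult : ℝ)))
          (n := k w l) (m := hi α H k w l + 1) (by omega) hall
        have h2 : hi α H k w l + 1 ≤ hi α H k w l := this
        omega
      push Not at hP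
      obtain ⟨i, j, hij⟩ := hP
      have hmi : mi H (α l) i j ≠ 0 := by
        intro h0
        rw [h0, map_zero] at hij
        exact absurd hij (not_lt.2 (Real.exp_pos _).le)
      obtain ⟨i', c₀, hHi, hpm⟩ := hpair (α l) i j hmi
      have hmi' : w (mi H (α l) i' (i'.succAbove c₀)) = w (mi H (α l) i j) := by
        rcases hpm with h | h <;> rw [h]
        exact w.1.map_neg _
      have h1 : w t * w (mi H (α l) i j) ≤ (m.factorial : ℝ) * (b ^ (m - 1) *
          (A * Real.exp (β / dg K - (k w l : ℝ) / (w.mult : ℝ)))) := by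
        have h2 := hl_det hcr ht i' c₀ hHi (α l)
        have h3 : w (hlN z i' c₀ (α l)).det = w t * w (mi H (α l) i j) := by
          rw [h2, mul_assoc, map_mul, map_mul, map_pow, hmi']
          have : w (-1 : K) = 1 := by
            have := w.1.map_neg (1 : K)
            exact this.trans (map_one w)
          rw [this, one_pow, one_mul]
        rw [← h3]
        refine hl_det_inf w _ c₀ b _ hb0.le (fun r c hc => ?_) (fun r => ?_)
        · unfold hlN
          rw [Matrix.updateCol_ne hc]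
          exact hbz _ _
        · unfold hlN
          rw [Matrix.updateCol_self]
          exact (hbox r).inf w l hl
      have h4 := (mul_le_mul_of_nonneg_left hij.le hwt.le).trans h1
      have h5 := Real.log_le_log (by positivity) h4
      rw [Real.log_mul hwt.ne' (by positivity), Real.log_exp, Real.log_mul (by positivity)
        (by positivity), Real.log_mul (by positivity) (by positivity), Real.log_pow, hlogb,
        Real.log_mul (by positivity) (by positivity), Real.log_exp] at h5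
      have h6 : ((ji2 Λ α H k w : ℕ) : ℝ) = (k w l : ℝ) - (hi α H k w l : ℝ) := by
        rw [hJl', Nat.cast_sub hlt.le]
      have h7 : ((m - 1 : ℕ) : ℝ) = (m : ℝ) - 1 := by
        rw [Nat.cast_sub hm, Nat.cast_one]
      rw [h7, ← hX] at h5
      rw [h6, hc]
      have h8 : (((hi α H k w l + 1 : ℕ) : ℝ)) / (w.mult : ℝ) =
          (hi α H k w l : ℝ) / (w.mult : ℝ) + 1 / (w.mult : ℝ) := by
        push_cast; ring
      have h9 : 1 / (w.mult : ℝ) ≤ 1 := by
        rw [div_le_one (by positivity)]; exact hmult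
      rw [h8] at h5
      have h10 : ((k w l : ℝ) - (hi α H k w l : ℝ)) / (w.mult : ℝ) =
          (k w l : ℝ) / (w.mult : ℝ) - (hi α H k w l : ℝ) / (w.mult : ℝ) := by ring
      rw [h10]
      have h11 : 0 ≤ (m : ℝ) * Real.log A₁ := by positivity
      nlinarith

end Pool.Agent.Lib.MP_44a246_nt.HQ
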