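import Pool.Agent.Lib.MP_44a246_nt.HQ.Volume
import Pool.Agent.Lib.MP_44a246_nt.HQ.HLocal

set_option autoImplicit false

open NumberField IsDedekindDomain Height
open Pool.Agent.Lib.MP_4d5ce1_nt (ordv fa nv)
open Pool.Agent.Lib.MP_44a246_nt.HP

namespace Pool.Agent.Lib.MP_44a246_nt.HQ

/-! ## HQ-4 -/

namespace HyperAux

section
variable {K : Type*} [Field K] [NumberField K]

open Classical in
/-- The error at the bad primes. -/
private noncomputable def err (bad : Finset (HeightOneSpectrum (𝓞 K))) (c : ℝ)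
    (v : HeightOneSpectrum (𝓞 K)) : ℝ := if v ∈ bad then c else 0

private lemma dg_pos : 0 < dg K := by
  unfold dg
  exact_mod_cast Module.finrank_pos

private lemma sum_mult : ∑ w : InfinitePlace K, (w.mult : ℝ) = dg K := by
  unfold dg
  exact_mod_cast InfinitePlace.sum_mult_eq (K := K)

private lemma sum_arch (X c : ℝ) (j : InfinitePlace K → ℝ) :
    ∑ w : InfinitePlace K, (w.mult : ℝ) * (X / dg K - j w / (w.mult : ℝ) + c) =
      X - ∑ w, j w + dg K * c := by
  have h1 : ∀ w : InfinitePlace K, (w.mult : ℝ) * (X / dg K - j w / (w.mult : ℝ) + c) =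
      (w.mult : ℝ) * (X / dg K) - j w + (w.mult : ℝ) * c := by
    intro w
    have hw : (w.mult : ℝ) ≠ 0 := InfinitePlace.mult_coe_ne_zero
    field_simp
  simp only [h1]
  rw [Finset.sum_add_distrib, Finset.sum_sub_distrib, ← Finset.sum_mul, ← Finset.sum_mul,
    sum_mult, mul_div_cancel₀ _ dg_pos.ne']

private lemma finsum_le {s : K} (hs : s ≠ 0) (T : Finset (HeightOneSpectrum (𝓞 K)))
    (g : HeightOneSpectrum (𝓞 K) → ℝ) (h : ∀ v, Real.log (fa v s) ≤ g v)
    (hg : ∀ v ∉ T, g v = 0) :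
    ∑ᶠ v : HeightOneSpectrum (𝓞 K), Real.log (fa v s) ≤ ∑ v ∈ T, g v := by
  classical
  have hfin : (Function.support fun v : HeightOneSpectrum (𝓞 K) => Real.log (fa v s)).Finite := by
    refine (Pool.Agent.Lib.MP_4d5ce1_nt.finite_fa_ne_one hs).subset ?_
    intro v hv h1
    exact hv (by simp only [h1, Real.log_one])
  rw [finsum_eq_sum_of_support_subset (s := hfin.toFinset ∪ T) _ (by
    intro v hv
    rw [Finset.coe_union, Set.Finite.coe_toFinset]
    exact Or.inl hv)]
  refine (Finset.sum_le_sum fun v _ => h v).trans (le_of_eq ?_)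
  exact (Finset.sum_subset Finset.subset_union_right (fun v _ hv => hg v hv)).symm

private lemma jp2_eq_zero {q m : ℕ} (Λ : Finset (Fin q)) (α : Fin q → Fin m → K) (H : Fin m → K)
    (κ : HeightOneSpectrum (𝓞 K) →₀ (Fin q → ℕ)) {v : HeightOneSpectrum (𝓞 K)}
    (hv : v ∉ κ.support) : jp2 Λ α H κ v = 0 := by
  have h0 : κ v = 0 := by simpa using hv
  unfold jp2
  rw [h0]
  simp

open Classical in
omit [NumberField K] in
private lemma sum_T (supp bad T : Finset (HeightOneSpectrum (𝓞 K))) (hT : supp ∪ bad ⊆ T)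
    (J : HeightOneSpectrum (𝓞 K) → ℝ) (hJ : ∀ v ∉ supp, J v = 0) (c : ℝ) :
    ∑ v ∈ T, (J v - err bad c v) = ∑ v ∈ supp, J v - bad.card * c := by
  rw [Finset.sum_sub_distrib]
  congr 1
  · exact (Finset.sum_subset (Finset.subset_union_left.trans hT) (fun v _ hv => hJ v hv)).symm
  · unfold err
    rw [Finset.sum_ite_mem, Finset.inter_eq_right.2 (Finset.subset_union_right.trans hT),
      Finset.sum_const, nsmul_eq_mul]

end

/-- deletion of a coordinate -/
private def del {K : Type*} [Field K] {m : ℕ} (i : Fin (m + 1)) :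
    (Fin (m + 1) → K) →ₗ[K] (Fin m → K) := LinearMap.funLeft K K i.succAbove

private lemma del_apply {K : Type*} [Field K] {m : ℕ} (i : Fin (m + 1)) (y : Fin (m + 1) → K)
    (c : Fin m) : del i y c = y (i.succAbove c) := rfl

private lemma eq_zero_of_del {K : Type*} [Field K] {m : ℕ} {H y : Fin (m + 1) → K}
    {i : Fin (m + 1)} (hi : H i ≠ 0) (hy : lf H y = 0) (hd : del i y = 0) : y = 0 := by
  have h1 : ∀ c, y (i.succAbove c) = 0 := fun c => congrFun hd c
  have h2 : y i = 0 := by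
    unfold lf at hy
    rw [Fin.sum_univ_succAbove _ i] at hy
    simp only [h1, mul_zero, Finset.sum_const_zero, add_zero] at hy
    exact (mul_eq_zero.1 hy).resolve_left hi
  funext j
  rcases eq_or_ne j i with rfl | hj
  · exact h2
  · obtain ⟨c, rfl⟩ := Fin.exists_succAbove_eq hj
    exact h1 c

private lemma lf_sub {K : Type*} [Field K] {m : ℕ} (H y y' : Fin m → K) :
    lf H (y - y') = lf H y - lf H y' := by
  simp only [lf, Pi.sub_apply, mul_sub, Finset.sum_sub_distrib]

end HyperAux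

open HyperAux in
theorem hyper_bound (K : Type*) [Field K] [NumberField K] (q m : ℕ) (hm : 1 ≤ m)
    (Λ : Finset (Fin q)) (hΛ : m + 1 ≤ Λ.card) (α : Fin q → Fin (m + 1) → K)
    (hα : ∀ s : Fin (m + 1) → Fin q, Function.Injective s → (∀ i, s i ∈ Λ) →
      LinearIndependent K fun i => α (s i)) (C₀ A : ℝ) (hC₀ : 1 ≤ C₀) (hA : 1 ≤ A) :
    ∃ C : ℝ, 0 < C ∧
      ∀ (β : ℝ) (κ : HeightOneSpectrum (𝓞 K) →₀ (Fin q → ℕ)) (k : InfinitePlace K → Fin q → ℕ)
      (Y Z : Finset (Fin (m + 1) → K)), (∀ y ∈ Y, ∀ y' ∈ Y, y - y' ∈ Z) →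
      (∀ z ∈ Z, InBox Λ α A β κ k z) →
      ∀ H : Fin (m + 1) → K, Bal C₀ H → (∀ z ∈ Z, lf H z = 0) →
      Module.finrank K (Submodule.span K (Z : Set (Fin (m + 1) → K))) = m →
      ell2 Λ α H κ k ≤ m * β + C ∧
      (Y.card : ℝ) ≤ C * Real.exp (m * β - ell2 Λ α H κ k) := by
  classical
  obtain ⟨bad, c, hc, hloc0⟩ := hyper_local K q m hm Λ hΛ α hα C₀ A hC₀ hA
  obtain ⟨C1, hC1, hpack⟩ := adelic_packing K m
  set M : ℝ := dg K * c + bad.card * c with hM
  have hdg : 0 < dg K := dg_pos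
  have hM0 : 0 ≤ M := by positivity
  refine ⟨M + 1 + C1 * Real.exp M, by positivity, ?_⟩
  intro β κ k Y Z hYZ hbox H hH hlf hrank
  set h := logHeight H with hh
  have hloc : ∀ (z : Fin m → Fin (m + 1) → K) (t : K), CrossEq H z t → t ≠ 0 →
      (∀ i, z i ∈ Z) →
      (∀ v, Real.log (fa v t) ≤ -((jp2 Λ α H κ v : ℝ) * lnv v - err bad c v)) ∧
      (∀ w : InfinitePlace K, Real.log (w t) ≤
        (m * β - h) / dg K - (ji2 Λ α H k w : ℝ) / (w.mult : ℝ) + c) := by
    intro z t hcr ht hz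
    obtain ⟨h1, h2⟩ := hloc0 H hH z t hcr ht β κ k fun i => hbox _ (hz i)
    refine ⟨fun v => ?_, fun w => h2 w⟩
    have h3 := h1 v
    have h5 : (if v ∈ bad then c else 0) = err bad c v := by
      unfold err
      split_ifs <;> rfl
    rw [h5] at h3
    linarith
  obtain ⟨i0, hi0⟩ : ∃ i, H i ≠ 0 := by
    by_contra hcon
    push Not at hcon
    exact hH.ne (funext hcon)
  -- the span of `Z` is contained in the hyperplane
  have hspan : ∀ y ∈ Submodule.span K (Z : Set (Fin (m + 1) → K)), lf H y = 0 := by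
    intro y hy
    induction hy using Submodule.span_induction with
    | mem x hx => exact hlf x hx
    | zero => simp [lf]
    | add x y _ _ hx hy =>
      have : lf H (x + y) = lf H x + lf H y := by
        simp only [lf, Pi.add_apply, mul_add, Finset.sum_add_distrib]
      rw [this, hx, hy, add_zero]
    | smul a x _ hx =>
      have : lf H (a • x) = a * lf H x := by
        simp only [lf, Pi.smul_apply, smul_eq_mul, Finset.mul_sum]
        exact Finset.sum_congr rfl fun i _ => by ring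
      rw [this, hx, mul_zero]
  have hdisj : Disjoint (Submodule.span K (Z : Set (Fin (m + 1) → K)))
      (LinearMap.ker (del (K := K) i0)) := by
    rw [Submodule.disjoint_def]
    intro x hx hx'
    exact eq_zero_of_del hi0 (hspan x hx) (LinearMap.mem_ker.1 hx')
  have hdet : ∀ (z : Fin m → Fin (m + 1) → K) (t : K), CrossEq H z t →
      Matrix.det (Matrix.of fun r c => z r (i0.succAbove c)) = (-1) ^ (i0 : ℕ) * t * H i0 :=
    fun z t hcr => hcr i0
  set T0 := κ.support ∪ bad with hT0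
  obtain ⟨z0, hz0, -, hzl0⟩ :=
    Submodule.exists_fun_fin_finrank_span_eq K (Z : Set (Fin (m + 1) → K))
  set z : Fin m → Fin (m + 1) → K := fun i => z0 (Fin.cast hrank.symm i) with hz
  have hzZ : ∀ i, z i ∈ Z := fun i => hz0 _
  have hzl : LinearIndependent K z :=
    hzl0.comp (fun i => Fin.cast hrank.symm i) (Fin.cast_injective _)
  have hli : LinearIndependent K (fun r => del (K := K) i0 (z r)) := by
    refine hzl.map (f := del (K := K) i0) (hdisj.mono_left ?_)
    rw [Submodule.span_le]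
    rintro _ ⟨i, rfl⟩
    exact Submodule.subset_span (hzZ i)
  -- (1)
  have hell : ell2 Λ α H κ k ≤ m * β + M := by
    obtain ⟨t, ht⟩ := cross_exists K m H hH.ne z fun i => hlf _ (hzZ i)
    have hdet0 : Matrix.det (Matrix.of fun r c => z r (i0.succAbove c)) ≠ 0 := by
      have h1 : IsUnit (Matrix.of fun r c => z r (i0.succAbove c)) :=
        Matrix.linearIndependent_rows_iff_isUnit.1 hli
      exact ((Matrix.isUnit_iff_isUnit_det _).1 h1).ne_zero
    have ht0 : t ≠ 0 := by
      rintro rfl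
      apply hdet0
      rw [hdet z 0 ht, mul_zero, zero_mul]
    obtain ⟨h1, h2⟩ := hloc z t ht ht0 hzZ
    have h3 := Pool.Agent.Lib.MP_4d5ce1_nt.product_formula ht0
    have h4 := finsum_le ht0 T0 (fun v => -((jp2 Λ α H κ v : ℝ) * lnv v - err bad c v)) h1 (by
      intro v hv
      rw [hT0, Finset.mem_union, not_or] at hv
      simp only [jp2_eq_zero Λ α H κ hv.1, Nat.cast_zero, zero_mul, err, if_neg hv.2, sub_zero,
        neg_zero])
    have h5 : ∑ w : InfinitePlace K, (w.mult : ℝ) * Real.log (w t) ≤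
        ∑ w : InfinitePlace K, (w.mult : ℝ) *
          ((m * β - h) / dg K - (ji2 Λ α H k w : ℝ) / (w.mult : ℝ) + c) :=
      Finset.sum_le_sum fun w _ => mul_le_mul_of_nonneg_left (h2 w) (Nat.cast_nonneg _)
    rw [Finset.sum_neg_distrib, sum_T κ.support bad T0 (Finset.Subset.refl _)
      (fun v => (jp2 Λ α H κ v : ℝ) * lnv v) (fun v hv => by
        simp only [jp2_eq_zero Λ α H κ hv, Nat.cast_zero, zero_mul]) c] at h4
    rw [sum_arch (m * β - h) c (fun w => (ji2 Λ α H k w : ℝ))] at h5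
    rw [ell2]
    linarith
  refine ⟨hell.trans ?_, ?_⟩
  · have : 0 ≤ C1 * Real.exp M := by positivity
    linarith
  -- (2)
  have hfin : {v : HeightOneSpectrum (𝓞 K) | fa v (H i0) ≠ 1}.Finite :=
    Pool.Agent.Lib.MP_4d5ce1_nt.finite_fa_ne_one hi0
  set T := T0 ∪ hfin.toFinset with hT
  set φ := del (K := K) i0 with hφ
  have hinjY : Set.InjOn φ (Y : Set (Fin (m + 1) → K)) := by
    intro y hy y' hy' hyy
    have h1 : φ (y - y') = 0 := by rw [map_sub, hyy, sub_self]
    exact sub_eq_zero.1 (eq_zero_of_del hi0 (hlf _ (hYZ y hy y' hy')) h1)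
  have hcardY : (Y.image φ).card = Y.card := Finset.card_image_of_injOn hinjY
  have hspanZ : Submodule.span K ((Z.image φ : Finset (Fin m → K)) : Set (Fin m → K)) = ⊤ := by
    have h1 : Submodule.span K (Set.range fun r => φ (z r)) = ⊤ :=
      hli.span_eq_top_of_card_eq_finrank' (by rw [Fintype.card_fin, Module.finrank_fin_fun])
    rw [eq_top_iff, ← h1, Submodule.span_le]
    rintro _ ⟨r, rfl⟩
    exact Submodule.subset_span (Finset.mem_coe.2 (Finset.mem_image_of_mem _ (hzZ r)))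
  have hlift : ∀ z' : Fin m → Fin m → K, (∀ i, z' i ∈ Z.image φ) →
      ∃ t : K, Matrix.det (Matrix.of z') = (-1) ^ (i0 : ℕ) * t * H i0 ∧
        (t ≠ 0 → (∀ v, Real.log (fa v t) ≤ -((jp2 Λ α H κ v : ℝ) * lnv v - err bad c v)) ∧
          (∀ w : InfinitePlace K, Real.log (w t) ≤
            (m * β - h) / dg K - (ji2 Λ α H k w : ℝ) / (w.mult : ℝ) + c)) := by
    intro z' hz'
    have h1 : ∀ i, ∃ z ∈ Z, φ z = z' i := fun i => Finset.mem_image.1 (hz' i)
    choose z hzZ hzφ using h1
    obtain ⟨t, ht⟩ := cross_exists K m H hH.ne z fun i => hlf _ (hzZ i)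
    refine ⟨t, ?_, fun ht0 => hloc z t ht ht0 hzZ⟩
    rw [← hdet z t ht]
    congr 1
    ext r c
    rw [Matrix.of_apply, Matrix.of_apply, ← hzφ r]
    rfl
  have hsign : ∀ v : HeightOneSpectrum (𝓞 K), fa v ((-1 : K) ^ (i0 : ℕ)) = 1 := by
    intro v
    rw [Pool.Agent.Lib.MP_4d5ce1_nt.fa_pow, Pool.Agent.Lib.MP_4d5ce1_nt.fa_neg,
      Pool.Agent.Lib.MP_4d5ce1_nt.fa_one, one_pow]
  have hmain := hpack (Y.image φ) (Z.image φ) T
    (fun v => (jp2 Λ α H κ v : ℝ) * lnv v - err bad c v - Real.log (fa v (H i0)))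
    (fun w => (m * β - h) / dg K - (ji2 Λ α H k w : ℝ) / (w.mult : ℝ) + c + Real.log (w (H i0)))
    (by
      intro y hy y' hy'
      obtain ⟨a, ha, rfl⟩ := Finset.mem_image.1 hy
      obtain ⟨b, hb, rfl⟩ := Finset.mem_image.1 hy'
      rw [← map_sub]
      exact Finset.mem_image_of_mem _ (hYZ a ha b hb))
    hspanZ
    (by
      intro z' hz' v _
      obtain ⟨t, ht, hb⟩ := hlift z' hz'
      rw [ht, Pool.Agent.Lib.MP_4d5ce1_nt.fa_mul, Pool.Agent.Lib.MP_4d5ce1_nt.fa_mul, hsign,
        one_mul]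
      rcases eq_or_ne t 0 with rfl | ht0
      · rw [Pool.Agent.Lib.MP_4d5ce1_nt.fa_zero, zero_mul]
        exact (Real.exp_pos _).le
      · have h1 := (hb ht0).1 v
        have h2 := Pool.Agent.Lib.MP_4d5ce1_nt.fa_pos v ht0
        have h3 := Pool.Agent.Lib.MP_4d5ce1_nt.fa_pos v hi0
        rw [← Real.log_le_iff_le_exp (mul_pos h2 h3), Real.log_mul h2.ne' h3.ne']
        linarith)
    (by
      intro z' hz' v hv
      obtain ⟨t, ht, hb⟩ := hlift z' hz'
      rw [hT, hT0, Finset.mem_union, Finset.mem_union, not_or, not_or] at hv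
      have h0 : fa v (H i0) = 1 := by
        by_contra hcon
        exact hv.2 ((Set.Finite.mem_toFinset _).2 hcon)
      rw [ht, Pool.Agent.Lib.MP_4d5ce1_nt.fa_mul, Pool.Agent.Lib.MP_4d5ce1_nt.fa_mul, hsign,
        one_mul, h0, mul_one]
      rcases eq_or_ne t 0 with rfl | ht0
      · rw [Pool.Agent.Lib.MP_4d5ce1_nt.fa_zero]
        exact zero_le_one
      · have h1 := (hb ht0).1 v
        rw [jp2_eq_zero Λ α H κ hv.1.1, err, if_neg hv.1.2] at h1
        simp only [Nat.cast_zero, zero_mul, sub_zero, neg_zero] at h1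
        exact (Real.log_nonpos_iff (Pool.Agent.Lib.MP_4d5ce1_nt.fa_nonneg v t)).1 h1)
    (by
      intro z' hz' w
      obtain ⟨t, ht, hb⟩ := hlift z' hz'
      have hw1 : w (-1 : K) = 1 := by
        have h1 : w (-1 : K) * w (-1 : K) = 1 := by
          rw [← map_mul, neg_one_mul, neg_neg, map_one]
        rcases mul_self_eq_one_iff.1 h1 with h2 | h2
        · exact h2
        · have h3 : 0 ≤ w (-1 : K) := apply_nonneg w _
          rw [h2] at h3
          norm_num at h3
      rw [ht, map_mul, map_mul, map_pow, hw1, one_pow, one_mul]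
      rcases eq_or_ne t 0 with rfl | ht0
      · rw [map_zero, zero_mul]
        exact (Real.exp_pos _).le
      · have h1 := (hb ht0).2 w
        have h2 : 0 < w t := InfinitePlace.pos_iff.2 ht0
        have h3 : 0 < w (H i0) := InfinitePlace.pos_iff.2 hi0
        rw [← Real.log_le_iff_le_exp (mul_pos h2 h3), Real.log_mul h2.ne' h3.ne']
        linarith)
  rw [hcardY] at hmain
  have hpf := Pool.Agent.Lib.MP_4d5ce1_nt.product_formula hi0
  have hfs : ∑ᶠ v : HeightOneSpectrum (𝓞 K), Real.log (fa v (H i0)) =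
      ∑ v ∈ T, Real.log (fa v (H i0)) := by
    refine finsum_eq_sum_of_support_subset _ ?_
    intro v hv
    rw [hT, Finset.coe_union]
    refine Or.inr ?_
    rw [Finset.mem_coe, Set.Finite.mem_toFinset]
    intro h1
    exact hv (by simp only [h1, Real.log_one])
  have hexp : ∑ w : InfinitePlace K, (w.mult : ℝ) *
      ((m * β - h) / dg K - (ji2 Λ α H k w : ℝ) / (w.mult : ℝ) + c + Real.log (w (H i0))) -
      ∑ v ∈ T, ((jp2 Λ α H κ v : ℝ) * lnv v - err bad c v - Real.log (fa v (H i0))) =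
      (m * β - ell2 Λ α H κ k) + M := by
    have h1 : ∑ w : InfinitePlace K, (w.mult : ℝ) *
        ((m * β - h) / dg K - (ji2 Λ α H k w : ℝ) / (w.mult : ℝ) + c + Real.log (w (H i0))) =
        (m * β - h - ∑ w, (ji2 Λ α H k w : ℝ) + dg K * c) +
          ∑ w : InfinitePlace K, (w.mult : ℝ) * Real.log (w (H i0)) := by
      rw [← sum_arch (m * β - h) c (fun w => (ji2 Λ α H k w : ℝ)), ← Finset.sum_add_distrib]
      exact Finset.sum_congr rfl fun w _ => by ring
    rw [h1, Finset.sum_sub_distrib, sum_T κ.support bad T Finset.subset_union_left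
      (fun v => (jp2 Λ α H κ v : ℝ) * lnv v) (fun v hv => by
        simp only [jp2_eq_zero Λ α H κ hv, Nat.cast_zero, zero_mul]) c, ell2, hM]
    rw [hfs] at hpf
    linarith
  rw [hexp, Real.exp_add] at hmain
  refine hmain.trans ?_
  have h1 : 0 < Real.exp (m * β - ell2 Λ α H κ k) := Real.exp_pos _
  nlinarith [hM0, hC1, Real.exp_pos M, mul_nonneg hM0 h1.le]

end Pool.Agent.Lib.MP_44a246_nt.HQ
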