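import Pool.Agent.Lib.MP_44a246_nt.HQ.Defs
import Pool.Agent.Lib.MP_44a246_nt.HP.Coord

set_option autoImplicit false

open NumberField IsDedekindDomain Height
open Pool.Agent.Lib.MP_4d5ce1_nt (ordv fa nv)
open Pool.Agent.Lib.MP_44a246_nt.HP

namespace Pool.Agent.Lib.MP_44a246_nt.HQ

/-! ## HQ-5 -/

private theorem low_coords {K : Type*} [Field K] {m : ℕ} : ∀ (r : ℕ)
    (U : Submodule K (Fin m → K)), Module.finrank K U ≤ r →
      ∃ I : Finset (Fin m), I.card ≤ r ∧ ∀ u ∈ U, (∀ i ∈ I, u i = 0) → u = 0 := by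
  intro r
  induction r with
  | zero =>
    intro U hU
    refine ⟨∅, by simp, fun u hu _ => ?_⟩
    have h1 : U = ⊥ := Submodule.finrank_eq_zero.1 (Nat.le_zero.1 hU)
    rw [h1] at hu
    exact (Submodule.mem_bot K).1 hu
  | succ r ih =>
    intro U hU
    by_cases hbot : U = ⊥
    · refine ⟨∅, by simp, fun u hu _ => ?_⟩
      rw [hbot] at hu
      exact (Submodule.mem_bot K).1 hu
    · obtain ⟨u, hu, hu0⟩ := (Submodule.ne_bot_iff U).1 hbot
      obtain ⟨i, hi⟩ : ∃ i, u i ≠ 0 := by
        by_contra hcon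
        push Not at hcon
        exact hu0 (funext hcon)
      have hlt : U ⊓ LinearMap.ker (LinearMap.proj i : (Fin m → K) →ₗ[K] K) < U := by
        refine lt_of_le_of_ne inf_le_left fun h => ?_
        rw [← h] at hu
        exact hi hu.2
      have h1 := Submodule.finrank_lt_finrank_of_lt hlt
      obtain ⟨I, hI, hI'⟩ := ih _ (by omega : Module.finrank K
        ↥(U ⊓ LinearMap.ker (LinearMap.proj i : (Fin m → K) →ₗ[K] K)) ≤ r)
      refine ⟨insert i I, (Finset.card_insert_le _ _).trans (by omega), fun z hz hz0 => ?_⟩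
      refine hI' z ⟨hz, ?_⟩ fun j hj => hz0 j (Finset.mem_insert_of_mem hj)
      exact hz0 i (Finset.mem_insert_self _ _)

theorem low_bound (K : Type*) [Field K] [NumberField K] (m r : ℕ) (A : ℝ) (hA : 1 ≤ A) :
    ∃ C : ℝ, 0 < C ∧ ∀ β : ℝ, 0 ≤ β → ∀ Y Z : Finset (Fin m → K),
      (∀ y ∈ Y, ∀ y' ∈ Y, y - y' ∈ Z) →
      (∀ y ∈ Y, ∀ i, y i ≠ 0) →
      (∀ y ∈ Y, ∀ v i, fa v (y i) ≤ 1) →
      (∀ y ∈ Y, ∀ (w : InfinitePlace K) i, w (y i) ≤ A * Real.exp (β / dg K)) →
      Module.finrank K (Submodule.span K (Z : Set (Fin m → K))) ≤ r →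
      (Y.card : ℝ) ≤ C * Real.exp (r * β) := by
  classical
  obtain ⟨C₁, hC₁, hcc⟩ := coord_card K A hA
  refine ⟨(max 1 C₁) ^ r, by positivity, ?_⟩
  intro β hβ Y Z hYZ hne hfin hinf hrank
  obtain ⟨I, hI, hI'⟩ := low_coords r _ hrank
  -- one coordinate
  have hone : ∀ i, ((Y.image fun y => y i).card : ℝ) ≤ max 1 C₁ * Real.exp β := by
    intro i
    have h1 := hcc β 0 (fun _ => 0) (Y.image fun y => y i) ?_ ?_ ?_
    · simp only [Finsupp.support_zero, Finset.sum_empty, sub_zero, Nat.cast_zero,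
        Finset.sum_const_zero] at h1
      refine h1.trans ?_
      gcongr
      exact le_max_right _ _
    · intro u hu
      obtain ⟨y, hy, rfl⟩ := Finset.mem_image.1 hu
      exact hne y hy i
    · intro u hu v
      obtain ⟨y, hy, rfl⟩ := Finset.mem_image.1 hu
      simpa using hfin y hy v i
    · intro u hu w
      obtain ⟨y, hy, rfl⟩ := Finset.mem_image.1 hu
      simpa using hinf y hy w i
  -- injectivity of the projection
  have hcard : Y.card ≤ (Fintype.piFinset fun i : I => Y.image fun y => y i).card := by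
    refine Finset.card_le_card_of_injOn (fun y (i : I) => y i) ?_ ?_
    · intro y hy
      rw [Finset.mem_coe, Fintype.mem_piFinset]
      intro i
      exact Finset.mem_image_of_mem _ hy
    · intro y hy y' hy' h
      have h1 : y - y' ∈ Submodule.span K (Z : Set (Fin m → K)) :=
        Submodule.subset_span (hYZ y hy y' hy')
      have h2 := hI' _ h1 fun i hi => by
        have := congrFun h ⟨i, hi⟩
        simp only at this
        rw [Pi.sub_apply, this, sub_self]
      exact sub_eq_zero.1 h2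
  rw [Fintype.card_piFinset] at hcard
  have hbase : 1 ≤ max 1 C₁ * Real.exp β := by
    have h1 : 1 ≤ max 1 C₁ := le_max_left _ _
    have h2 : 1 ≤ Real.exp β := Real.one_le_exp hβ
    nlinarith
  calc (Y.card : ℝ) ≤ ((∏ i : I, (Y.image fun y => y i).card : ℕ) : ℝ) := by exact_mod_cast hcard
    _ = ∏ i : I, ((Y.image fun y => y i).card : ℝ) := by push_cast; rfl
    _ ≤ ∏ _i : I, (max 1 C₁ * Real.exp β) :=
        Finset.prod_le_prod (fun i _ => Nat.cast_nonneg _) fun i _ => hone i
    _ = (max 1 C₁ * Real.exp β) ^ I.card := by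
        rw [Finset.prod_const, Finset.card_univ, Fintype.card_coe]
    _ ≤ (max 1 C₁ * Real.exp β) ^ r := pow_le_pow_right₀ hbase hI
    _ = (max 1 C₁) ^ r * Real.exp (r * β) := by
        rw [mul_pow, ← Real.exp_nat_mul]

end Pool.Agent.Lib.MP_44a246_nt.HQ
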