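import Pool.Agent.Lib.MP_44a246_nt.HQ.Dirs2
import Pool.Agent.Lib.MP_44a246_nt.HQ.ExistsW2
import Pool.Agent.Lib.MP_44a246_nt.HP.Codes

set_option autoImplicit false

open NumberField IsDedekindDomain Height
open Pool.Agent.Lib.MP_4d5ce1_nt (ordv fa nv)
open Pool.Agent.Lib.MP_44a246_nt.HP

namespace Pool.Agent.Lib.MP_44a246_nt.HQ

/-! ## HQ-9 -/

section aux

variable {K : Type*} [Field K] [NumberField K]

private lemma ms2_hp_le {q m : ℕ} (α : Fin q → Fin m → K) (H : Fin m → K)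
    (κ : HeightOneSpectrum (𝓞 K) →₀ (Fin q → ℕ)) (v : HeightOneSpectrum (𝓞 K)) (l : Fin q) :
    hp α H κ v l ≤ κ v l := by
  unfold hp
  exact Nat.findGreatest_le _

private lemma ms2_hi_le {q m : ℕ} (α : Fin q → Fin m → K) (H : Fin m → K)
    (k : InfinitePlace K → Fin q → ℕ) (w : InfinitePlace K) (l : Fin q) :
    hi α H k w l ≤ k w l := by
  unfold hi
  exact Nat.findGreatest_le _

private lemma ms2_fa_hp {q m : ℕ} (α : Fin q → Fin m → K) (H : Fin m → K)
    (κ : HeightOneSpectrum (𝓞 K) →₀ (Fin q → ℕ)) (v : HeightOneSpectrum (𝓞 K)) (l : Fin q)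
    (h : hp α H κ v l ≠ 0) : ∀ i j, fa v (mi H (α l) i j) ≤ (nv v ^ (hp α H κ v l))⁻¹ := by
  classical
  unfold hp at h ⊢
  exact Nat.findGreatest_of_ne_zero (P := fun e => ∀ i j, fa v (mi H (α l) i j) ≤ (nv v ^ e)⁻¹)
    rfl h

private lemma ms2_inf_hi {q m : ℕ} (α : Fin q → Fin m → K) (H : Fin m → K)
    (k : InfinitePlace K → Fin q → ℕ) (w : InfinitePlace K) (l : Fin q)
    (h : hi α H k w l ≠ 0) : ∀ i j, w (mi H (α l) i j) ≤
      1 * Real.exp (logHeight H / dg K - (hi α H k w l : ℝ) / (w.mult : ℝ)) := by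
  classical
  intro i j
  rw [one_mul]
  unfold hi at h ⊢
  exact Nat.findGreatest_of_ne_zero (P := fun e => ∀ i j, w (mi H (α l) i j) ≤
    Real.exp (logHeight H / dg K - (e : ℝ) / (w.mult : ℝ))) rfl h i j

private lemma ms2_up {q m : ℕ} (α : Fin q → Fin m → K) (C₀ : ℝ) (hC₀ : 1 ≤ C₀) :
    ∃ B : ℝ, 1 ≤ B ∧ ∀ H : Fin m → K, Bal C₀ H → ∀ (w : InfinitePlace K) (l : Fin q) (i j : Fin m),
      w (mi H (α l) i j) ≤ B * Real.exp (logHeight H / dg K) := by
  have hnn : ∀ (w : InfinitePlace K) (l : Fin q) (i : Fin m), 0 ≤ w (α l i) * C₀ := fun w l i =>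
    mul_nonneg (apply_nonneg w _) (by linarith)
  have hnn1 : ∀ (w : InfinitePlace K) (l : Fin q), 0 ≤ ∑ i, w (α l i) * C₀ := fun w l =>
    Finset.sum_nonneg fun i _ => hnn w l i
  have hnn2 : ∀ (w : InfinitePlace K), 0 ≤ ∑ l, ∑ i, w (α l i) * C₀ := fun w =>
    Finset.sum_nonneg fun i _ => hnn1 w i
  set M : ℝ := ∑ w : InfinitePlace K, ∑ l, ∑ i, w (α l i) * C₀ with hM
  have hM0 : 0 ≤ M := Finset.sum_nonneg fun w _ => hnn2 w
  have hle : ∀ (w : InfinitePlace K) (l : Fin q) (i : Fin m), w (α l i) * C₀ ≤ M := by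
    intro w l i
    exact (Finset.single_le_sum (f := fun i => w (α l i) * C₀) (fun i _ => hnn w l i)
      (Finset.mem_univ i)).trans
      ((Finset.single_le_sum (f := fun l => ∑ i, w (α l i) * C₀) (fun l _ => hnn1 w l)
        (Finset.mem_univ l)).trans
        (Finset.single_le_sum (f := fun w : InfinitePlace K => ∑ l, ∑ i, w (α l i) * C₀)
          (fun w _ => hnn2 w) (Finset.mem_univ w)))
  refine ⟨1 + 2 * M, by linarith, ?_⟩
  intro H hH w l i j
  have hE : 0 < Real.exp (logHeight H / dg K) := Real.exp_pos _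
  have h1 : w (mi H (α l) i j) ≤ w (H i) * w (α l j) + w (H j) * w (α l i) := by
    unfold mi
    rw [← map_mul, ← map_mul, sub_eq_add_neg]
    refine (w.1.add_le _ _).trans ?_
    have : w.1 (-(H j * α l i)) = w.1 (H j * α l i) := w.1.map_neg _
    rw [this]
    exact le_rfl
  have h2 : ∀ i j, w (H i) * w (α l j) ≤ M * Real.exp (logHeight H / dg K) := by
    intro i j
    calc w (H i) * w (α l j) ≤ (C₀ * Real.exp (logHeight H / dg K)) * w (α l j) :=
          mul_le_mul_of_nonneg_right (hH.up w i) (apply_nonneg w _)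
      _ = (w (α l j) * C₀) * Real.exp (logHeight H / dg K) := by ring
      _ ≤ _ := mul_le_mul_of_nonneg_right (hle w l j) hE.le
  have h3 := h2 i j
  have h4 := h2 j i
  nlinarith

private lemma ms2_fin_pos (x : K) : {v : HeightOneSpectrum (𝓞 K) | 0 < ordv v x}.Finite := by
  by_cases hx : x = 0
  · subst hx
    have : {v : HeightOneSpectrum (𝓞 K) | 0 < ordv v (0 : K)} = ∅ := by
      ext v
      simp [ordv]
    rw [this]
    exact Set.finite_empty
  · refine (Pool.Agent.Lib.MP_4d5ce1_nt.finite_ordv_ne_zero hx).subset ?_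
    intro v hv
    simp only [Set.mem_ofPred_eq] at hv ⊢
    omega

private lemma ms2_fa_int (v : HeightOneSpectrum (𝓞 K)) (x : 𝓞 K) :
    fa v (algebraMap (𝓞 K) K x) ≤ 1 := by
  by_cases hx : algebraMap (𝓞 K) K x = 0
  · rw [hx, Pool.Agent.Lib.MP_4d5ce1_nt.fa_zero]
    exact zero_le_one
  · rw [Pool.Agent.Lib.MP_4d5ce1_nt.fa_le_one_iff v hx]
    have h1 := v.valuation_le_one (K := K) x
    have h2 : v.valuation K (algebraMap (𝓞 K) K x) ≠ 0 := (Valuation.ne_zero_iff _).mpr hx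
    unfold ordv
    have h3 : WithZero.log (v.valuation K (algebraMap (𝓞 K) K x)) ≤ 0 := by
      have := WithZero.log_le_log h2 one_ne_zero |>.mpr h1
      simpa using this
    omega

private lemma ms2_primes {q m : ℕ} (α : Fin q → Fin m → K) (C₀ : ℝ) (hC₀ : 1 ≤ C₀) :
    ∃ c : ℝ, 0 ≤ c ∧ ∀ H : Fin m → K, Bal C₀ H → ∀ (l : Fin q) (i j : Fin m),
      mi H (α l) i j ≠ 0 →
      ∀ U : Finset (HeightOneSpectrum (𝓞 K)), (∀ v ∈ U, 0 < ordv v (mi H (α l) i j)) →
      ∑ v ∈ U, lnv v ≤ logHeight H + c := by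
  obtain ⟨B, hB, hup⟩ := ms2_up α C₀ hC₀
  obtain ⟨N, hN⟩ := IsLocalization.exist_integer_multiples (nonZeroDivisors (𝓞 K))
    (Finset.univ : Finset (Fin q × Fin m)) (fun p => α p.1 p.2)
  set n : K := algebraMap (𝓞 K) K (N : 𝓞 K) with hn
  have hn0 : n ≠ 0 := by
    rw [hn]
    simp
  have hint : ∀ v : HeightOneSpectrum (𝓞 K), ∀ l i, fa v (n * α l i) ≤ 1 := by
    intro v l i
    obtain ⟨y, hy⟩ := hN (l, i) (Finset.mem_univ _)
    have : n * α l i = algebraMap (𝓞 K) K y := by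
      rw [hy, hn, Algebra.smul_def]
    rw [this]
    exact ms2_fa_int v y
  have hdg : 0 < dg K := by
    unfold dg
    exact_mod_cast Module.finrank_pos
  have hlogB : 0 ≤ Real.log B := Real.log_nonneg hB
  refine ⟨|∑ w : InfinitePlace K, (w.mult : ℝ) * Real.log (w n)| + dg K * Real.log B,
    by positivity, ?_⟩
  intro u hu l i j hl U hU
  have hx0 : n * mi u (α l) i j ≠ 0 := mul_ne_zero hn0 hl
  have hxint : ∀ v : HeightOneSpectrum (𝓞 K), 0 ≤ ordv v (n * mi u (α l) i j) := by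
    intro v
    rw [← Pool.Agent.Lib.MP_4d5ce1_nt.fa_le_one_iff v hx0]
    have hterm : ∀ i j, fa v (u i * (n * α l j)) ≤ 1 := by
      intro i j
      rw [Pool.Agent.Lib.MP_4d5ce1_nt.fa_mul]
      exact mul_le_one₀ (hu.int v i) (Pool.Agent.Lib.MP_4d5ce1_nt.fa_nonneg v _) (hint v l j)
    have e : n * mi u (α l) i j = u i * (n * α l j) - u j * (n * α l i) := by
      unfold mi
      ring
    rw [e]
    exact (Pool.Agent.Lib.MP_4d5ce1_nt.fa_sub_le v _ _).trans (max_le (hterm i j) (hterm j i))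
  have hnint : ∀ v : HeightOneSpectrum (𝓞 K), 0 ≤ ordv v n := by
    intro v
    rw [← Pool.Agent.Lib.MP_4d5ce1_nt.fa_le_one_iff v hn0]
    exact ms2_fa_int v _
  have hge : ∀ v ∈ U, 1 ≤ ordv v (n * mi u (α l) i j) := by
    intro v hv
    rw [Pool.Agent.Lib.MP_4d5ce1_nt.ordv_mul v hn0 hl]
    have := hU v hv
    have := hnint v
    omega
  have hpf := Pool.Agent.Lib.MP_4d5ce1_nt.product_formula' hx0
  set S₀ := (Pool.Agent.Lib.MP_4d5ce1_nt.finite_ordv_ne_zero hx0).toFinset with hS₀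
  have hfs : ∑ᶠ v : HeightOneSpectrum (𝓞 K),
      (ordv v (n * mi u (α l) i j) : ℝ) * Real.log (nv v) =
      ∑ v ∈ S₀, (ordv v (n * mi u (α l) i j) : ℝ) * Real.log (nv v) := by
    apply finsum_eq_sum_of_support_subset
    intro v hv
    simp only [hS₀, Set.Finite.coe_toFinset, Set.mem_ofPred_eq]
    intro h
    apply hv
    simp [h]
  have hsub : U ⊆ S₀ := by
    intro v hv
    simp only [hS₀, Set.Finite.mem_toFinset, Set.mem_ofPred_eq]
    have := hge v hv
    omega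
  have h1 : ∑ v ∈ U, lnv v ≤ ∑ v ∈ S₀, (ordv v (n * mi u (α l) i j) : ℝ) * Real.log (nv v) := by
    calc ∑ v ∈ U, lnv v ≤ ∑ v ∈ U, (ordv v (n * mi u (α l) i j) : ℝ) * Real.log (nv v) := by
          refine Finset.sum_le_sum fun v hv => ?_
          have h2 : (1 : ℝ) ≤ (ordv v (n * mi u (α l) i j) : ℝ) := by exact_mod_cast hge v hv
          have h3 := lnv_pos v
          unfold lnv at h3 ⊢
          nlinarith
      _ ≤ _ := by
          refine Finset.sum_le_sum_of_subset_of_nonneg hsub fun v _ _ => ?_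
          have h2 : (0 : ℝ) ≤ (ordv v (n * mi u (α l) i j) : ℝ) := by exact_mod_cast hxint v
          have h3 := lnv_pos v
          unfold lnv at h3
          positivity
  have h2 : ∑ w : InfinitePlace K, (w.mult : ℝ) * Real.log (w (n * mi u (α l) i j)) ≤
      ∑ w : InfinitePlace K, (w.mult : ℝ) * Real.log (w n) + dg K * Real.log B + logHeight u := by
    have h3 : ∀ w : InfinitePlace K, (w.mult : ℝ) * Real.log (w (n * mi u (α l) i j)) ≤
        (w.mult : ℝ) * Real.log (w n) + (w.mult : ℝ) * (Real.log B + logHeight u / dg K) := by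
      intro w
      have hw : 0 < w (mi u (α l) i j) := InfinitePlace.pos_iff.mpr hl
      have hwn : 0 < w n := InfinitePlace.pos_iff.mpr hn0
      rw [map_mul, Real.log_mul hwn.ne' hw.ne', mul_add]
      have h4 : Real.log (w (mi u (α l) i j)) ≤ Real.log B + logHeight u / dg K := by
        have h5 := Real.log_le_log hw (hup u hu w l i j)
        rwa [Real.log_mul (by positivity) (Real.exp_pos _).ne', Real.log_exp] at h5
      have hm : (0 : ℝ) ≤ w.mult := Nat.cast_nonneg _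
      have := mul_le_mul_of_nonneg_left h4 hm
      linarith
    refine (Finset.sum_le_sum fun w _ => h3 w).trans ?_
    rw [Finset.sum_add_distrib, ← Finset.sum_mul]
    have h6 : ∑ w : InfinitePlace K, (w.mult : ℝ) = dg K := by
      unfold dg
      exact_mod_cast InfinitePlace.sum_mult_eq
    rw [h6]
    have h7 : dg K * (Real.log B + logHeight u / dg K) = dg K * Real.log B + logHeight u := by
      field_simp
    rw [h7]
    linarith
  have h8 := le_abs_self (∑ w : InfinitePlace K, (w.mult : ℝ) * Real.log (w n))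
  calc ∑ v ∈ U, lnv v ≤ _ := h1
    _ = ∑ w : InfinitePlace K, (w.mult : ℝ) * Real.log (w (n * mi u (α l) i j)) := by
        rw [hpf, hfs]
    _ ≤ _ := h2
    _ ≤ _ := by linarith

private lemma ms2_sum_biUnion_le {ι κ : Type*} [DecidableEq κ] (s : Finset ι) (t : ι → Finset κ)
    (f : κ → ℝ) (hf : ∀ x, 0 ≤ f x) :
    ∑ x ∈ s.biUnion t, f x ≤ ∑ i ∈ s, ∑ x ∈ t i, f x := by
  classical
  induction s using Finset.induction_on with
  | empty => simp
  | insert a s ha ih =>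
    rw [Finset.biUnion_insert, Finset.sum_insert ha]
    have h1 := Finset.sum_union_inter (s₁ := t a) (s₂ := s.biUnion t) (f := f)
    have h2 : 0 ≤ ∑ x ∈ t a ∩ s.biUnion t, f x := Finset.sum_nonneg fun x _ => hf x
    linarith

private lemma ms2_primes' {q m : ℕ} (Λ : Finset (Fin q)) (α : Fin q → Fin (m + 1) → K) (C₀ : ℝ)
    (hC₀ : 1 ≤ C₀) :
    ∃ c : ℝ, 0 ≤ c ∧ ∀ H : Fin (m + 1) → K, Bal C₀ H → (∀ l ∈ Λ, ∃ i j, mi H (α l) i j ≠ 0) →
      ∃ U : Finset (HeightOneSpectrum (𝓞 K)),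
        (∀ v, (∃ l ∈ Λ, ∀ i j, fa v (mi H (α l) i j) ≤ (nv v)⁻¹) → v ∈ U) ∧
        ∑ v ∈ U, lnv v ≤ q * (logHeight H + c) := by
  classical
  obtain ⟨c, hc, h⟩ := ms2_primes α C₀ hC₀
  refine ⟨c, hc, fun H hH hne => ?_⟩
  choose! I J hIJ using hne
  refine ⟨Λ.biUnion fun l => (ms2_fin_pos (mi H (α l) (I l) (J l))).toFinset, ?_, ?_⟩
  · rintro v ⟨l, hl, hv⟩
    simp only [Finset.mem_biUnion, Set.Finite.mem_toFinset, Set.mem_ofPred_eq]
    refine ⟨l, hl, ?_⟩
    have h1 := hv (I l) (J l)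
    have h2 : (nv v)⁻¹ < 1 := inv_lt_one_of_one_lt₀ (Pool.Agent.Lib.MP_4d5ce1_nt.one_lt_nv v)
    have h3 : fa v (mi H (α l) (I l) (J l)) < 1 := lt_of_le_of_lt h1 h2
    by_contra hcon
    rw [not_lt] at hcon
    have h4 : 1 ≤ fa v (mi H (α l) (I l) (J l)) := by
      rw [Pool.Agent.Lib.MP_4d5ce1_nt.fa_eq v (hIJ l hl)]
      exact one_le_zpow₀ (Pool.Agent.Lib.MP_4d5ce1_nt.one_lt_nv v).le (by omega)
    linarith
  · have h1 : ∑ v ∈ Λ.biUnion (fun l => (ms2_fin_pos (mi H (α l) (I l) (J l))).toFinset), lnv v ≤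
        ∑ l ∈ Λ, ∑ v ∈ (ms2_fin_pos (mi H (α l) (I l) (J l))).toFinset, lnv v :=
      ms2_sum_biUnion_le _ _ _ fun v => (lnv_pos v).le
    have h2 : ∑ l ∈ Λ, ∑ v ∈ (ms2_fin_pos (mi H (α l) (I l) (J l))).toFinset, lnv v ≤
        ∑ _l ∈ Λ, (logHeight H + c) := by
      refine Finset.sum_le_sum fun l hl => h H hH l (I l) (J l) (hIJ l hl) _ ?_
      intro v hv
      simpa using hv
    have h3 : ∑ _l ∈ Λ, (logHeight H + c) = Λ.card * (logHeight H + c) := by
      rw [Finset.sum_const, nsmul_eq_mul]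
    have h4 : (Λ.card : ℝ) ≤ q := by
      have := Finset.card_le_univ Λ
      rw [Fintype.card_fin] at this
      exact_mod_cast this
    have h5 : 0 ≤ logHeight H + c := add_nonneg (logHeight_nonneg H) hc
    calc _ ≤ _ := h1
      _ ≤ _ := h2
      _ = _ := h3
      _ ≤ _ := mul_le_mul_of_nonneg_right h4 h5

open Classical in
/-- The code recording the exponents `κ` and `g` on `W`. -/
private noncomputable def ms2Om {q : ℕ} (W : Finset (HeightOneSpectrum (𝓞 K)))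
    (κ : HeightOneSpectrum (𝓞 K) →₀ (Fin q → ℕ)) (g : HeightOneSpectrum (𝓞 K) → Fin q → ℕ) :
    HeightOneSpectrum (𝓞 K) →₀ (Fin q ⊕ Fin q → ℕ) :=
  Finsupp.onFinset W (fun v => if v ∈ W then Sum.elim (κ v) (g v) else 0) (by
    intro v hv
    by_contra h
    simp [h] at hv)

omit [NumberField K] in
private lemma ms2Om_mem {q : ℕ} (W : Finset (HeightOneSpectrum (𝓞 K)))
    (κ : HeightOneSpectrum (𝓞 K) →₀ (Fin q → ℕ)) (g : HeightOneSpectrum (𝓞 K) → Fin q → ℕ)
    {v : HeightOneSpectrum (𝓞 K)} (hv : v ∈ W) : ms2Om W κ g v = Sum.elim (κ v) (g v) := by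
  unfold ms2Om
  rw [Finsupp.onFinset_apply, if_pos hv]

omit [NumberField K] in
private lemma ms2Om_support {q : ℕ} (W : Finset (HeightOneSpectrum (𝓞 K)))
    (κ : HeightOneSpectrum (𝓞 K) →₀ (Fin q → ℕ)) (g : HeightOneSpectrum (𝓞 K) → Fin q → ℕ)
    (hW : W ⊆ κ.support) : (ms2Om W κ g).support = W := by
  ext v
  constructor
  · intro hv
    by_contra h
    rw [Finsupp.mem_support_iff] at hv
    apply hv
    unfold ms2Om
    rw [Finsupp.onFinset_apply, if_neg h]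
  · intro hv
    rw [Finsupp.mem_support_iff, ms2Om_mem W κ g hv]
    intro h
    have h1 := hW hv
    rw [Finsupp.mem_support_iff] at h1
    apply h1
    funext l
    exact congrFun h (Sum.inl l)

private lemma ms2_siz {q : ℕ} (W : Finset (HeightOneSpectrum (𝓞 K)))
    (κ : HeightOneSpectrum (𝓞 K) →₀ (Fin q → ℕ)) (g : HeightOneSpectrum (𝓞 K) → Fin q → ℕ)
    (k g' : InfinitePlace K → Fin q → ℕ)
    (hW : W ⊆ κ.support) (hg : ∀ v l, g v l ≤ κ v l) (hg' : ∀ w l, g' w l ≤ k w l) :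
    siz (ms2Om W κ g) (fun w => Sum.elim (k w) (g' w)) ≤ 2 * siz κ k := by
  unfold siz
  rw [ms2Om_support W κ g hW, mul_add]
  apply add_le_add
  · have h1 : ∑ v ∈ W, ((∑ l, ms2Om W κ g v l : ℕ) : ℝ) * lnv v ≤
        ∑ v ∈ W, 2 * (((∑ l, κ v l : ℕ) : ℝ) * lnv v) := by
      refine Finset.sum_le_sum fun v hv => ?_
      rw [ms2Om_mem W κ g hv, Fintype.sum_sum_type]
      simp only [Sum.elim_inl, Sum.elim_inr]
      have h2 : ∑ l, g v l ≤ ∑ l, κ v l := Finset.sum_le_sum fun l _ => hg v l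
      have h3 : ((∑ l, κ v l + ∑ l, g v l : ℕ) : ℝ) ≤ 2 * ((∑ l, κ v l : ℕ) : ℝ) := by
        have : (∑ l, κ v l + ∑ l, g v l : ℕ) ≤ 2 * (∑ l, κ v l : ℕ) := by omega
        exact_mod_cast this
      calc _ ≤ (2 * ((∑ l, κ v l : ℕ) : ℝ)) * lnv v :=
            mul_le_mul_of_nonneg_right h3 (lnv_pos v).le
        _ = _ := by ring
    refine h1.trans ?_
    rw [Finset.mul_sum]
    refine Finset.sum_le_sum_of_subset_of_nonneg hW fun v _ _ => ?_
    have := (lnv_pos v).le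
    positivity
  · rw [Finset.mul_sum]
    refine Finset.sum_le_sum fun w _ => ?_
    rw [Fintype.sum_sum_type]
    simp only [Sum.elim_inl, Sum.elim_inr]
    have h2 : ∑ l, g' w l ≤ ∑ l, k w l := Finset.sum_le_sum fun l _ => hg' w l
    have : (∑ l, k w l + ∑ l, g' w l : ℕ) ≤ 2 * (∑ l, k w l : ℕ) := by omega
    exact_mod_cast this

private lemma ms2_logHeight_le_ell {q m : ℕ} (Λ : Finset (Fin q)) (α : Fin q → Fin m → K)
    (u : Fin m → K) (κ : HeightOneSpectrum (𝓞 K) →₀ (Fin q → ℕ))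
    (k : InfinitePlace K → Fin q → ℕ) : logHeight u ≤ ell2 Λ α u κ k := by
  unfold ell2
  have h1 : 0 ≤ ∑ v ∈ κ.support, (jp2 Λ α u κ v : ℝ) * lnv v :=
    Finset.sum_nonneg fun v _ => mul_nonneg (Nat.cast_nonneg _) (lnv_pos v).le
  have h2 : 0 ≤ ∑ w, (ji2 Λ α u k w : ℝ) := Finset.sum_nonneg fun w _ => Nat.cast_nonneg _
  linarith

private lemma ms2_siz_fin_le {q : ℕ} (κ : HeightOneSpectrum (𝓞 K) →₀ (Fin q → ℕ))
    (k : InfinitePlace K → Fin q → ℕ) :
    ∑ v ∈ κ.support, ((∑ l, κ v l : ℕ) : ℝ) * lnv v ≤ siz κ k := by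
  unfold siz
  have h2 : 0 ≤ ∑ w, ((∑ l, k w l : ℕ) : ℝ) := Finset.sum_nonneg fun w _ => Nat.cast_nonneg _
  linarith

omit [NumberField K] in
private lemma ms2_ne_zero {q m : ℕ} (Λ : Finset (Fin q)) (α : Fin q → Fin (m + 1) → K)
    (hΛ : m + 1 ≤ Λ.card)
    (hα : ∀ s : Fin (m + 1) → Fin q, Function.Injective s → (∀ i, s i ∈ Λ) →
      LinearIndependent K fun i => α (s i)) : ∀ l ∈ Λ, α l ≠ 0 := by
  classical
  intro l hl
  have h1 : m ≤ (Λ.erase l).card := by
    rw [Finset.card_erase_of_mem hl]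
    omega
  obtain ⟨T, hT, hTc⟩ := Finset.exists_subset_card_eq h1
  have hlT : l ∉ T := fun h => by
    have := hT h
    simp at this
  let e := T.orderEmbOfFin hTc
  let s : Fin (m + 1) → Fin q := Fin.cons l (fun i => e i)
  have hinj : Function.Injective s := by
    rw [Fin.cons_injective_iff]
    refine ⟨?_, e.injective⟩
    rintro ⟨i, hi⟩
    exact hlT (hi ▸ Finset.orderEmbOfFin_mem T hTc i)
  have hmem : ∀ i, s i ∈ Λ := by
    intro i
    refine Fin.cases ?_ (fun i => ?_) i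
    · exact hl
    · exact Finset.mem_of_mem_erase (hT (Finset.orderEmbOfFin_mem T hTc i))
  have h2 := (hα s hinj hmem).ne_zero 0
  exact h2

end aux

theorem mid_sum2 (K : Type*) [Field K] [NumberField K] (q m : ℕ) (F : Finset (Fin q))
    (hm : 1 ≤ m) (hF : m + 1 ≤ Fᶜ.card) (α : Fin q → Fin (m + 1) → K)
    (hα : ∀ s : Fin (m + 1) → Fin q, Function.Injective s → (∀ i, s i ∈ Fᶜ) →
      LinearIndependent K fun i => α (s i)) (C₀ : ℝ) (hC₀ : 1 ≤ C₀) :
    ∃ bad₀ : Finset (HeightOneSpectrum (𝓞 K)), ∀ bad, bad₀ ⊆ bad → ∃ c : ℝ, 0 ≤ c ∧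
      ∀ A η : ℝ, 0 ≤ A → 0 < η →
      ∃ C : ℝ, 0 < C ∧ ∀ β D₂ : ℝ, 0 ≤ β →
      ∀ 𝒟 : Finset ((HeightOneSpectrum (𝓞 K) →₀ (Fin q → ℕ)) × (InfinitePlace K → Fin q → ℕ) ×
        (Fin (m + 1) → K)),
      (∀ p ∈ 𝒟, Bal C₀ p.2.2) →
      (∀ p ∈ 𝒟, ∀ p' ∈ 𝒟, p.2.2 ≠ p'.2.2 → ∃ i j, mi p.2.2 p'.2.2 i j ≠ 0) →
      (∀ p ∈ 𝒟, KeyOK2 (m + 1) F bad A β D₂ p.1 p.2.1) →
      (∀ p ∈ 𝒟, ell2 Fᶜ α p.2.2 p.1 p.2.1 ≤ A * (β + 1)) →
      (∀ p ∈ 𝒟, phi F p.1 p.2.1 + ell2 Fᶜ α p.2.2 p.1 p.2.1 + c < ∑ v ∈ p.1.support, lnv v) →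
      ∑ p ∈ 𝒟, Real.exp (- phi F p.1 p.2.1 - ell2 Fᶜ α p.2.2 p.1 p.2.1) ≤
        C * Real.exp (η * β) := by
  classical
  obtain ⟨bad₀, hbad₀⟩ := exists_W2 K q m F hm hF α hα C₀ hC₀
  refine ⟨bad₀, fun bad hbad => ?_⟩
  obtain ⟨c, hc, hW⟩ := hbad₀ bad hbad
  refine ⟨c, hc, fun A η hA hη => ?_⟩
  have hne : (Fᶜ : Finset (Fin q)).Nonempty := Finset.card_pos.mp (by omega)
  obtain ⟨c', hc', hpr⟩ := ms2_primes' Fᶜ α C₀ hC₀
  obtain ⟨Cd, hCd, hdir⟩ := dir_count2 K q (m + 1) Fᶜ hne α (ms2_ne_zero Fᶜ α hF hα) C₀ 1 c hC₀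
    le_rfl hc
  obtain ⟨Cs, hCs, hsum⟩ := key_sum K (Fin q ⊕ Fin q) (2 * A) (η / 2) (by positivity)
    (by positivity)
  obtain ⟨Cf, hCf, hfree⟩ := key_free K (Fin q) (q * (c' + A) + A) (η / 2) (by positivity)
    (by positivity)
  refine ⟨Real.exp c * (Cd * Cf * Cs), by positivity, ?_⟩
  intro β D₂ hβ 𝒟 hBal hwd hkey hell hlt
  have hex0 : ∀ p ∈ 𝒟, (∀ l ∈ Fᶜ, ∃ i j, mi p.2.2 (α l) i j ≠ 0) ∧
        ∃ W ⊆ p.1.support, (∀ v ∈ p.1.support, v ∉ W → v ∉ bad ∧
            ∃ l ∈ Fᶜ, ∀ i j, fa v (mi p.2.2 (α l) i j) ≤ (nv v)⁻¹) ∧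
          2 * logHeight p.2.2 - c ≤ ∑ v ∈ W, ((Fᶜ.sup (HQ.hp α p.2.2 p.1 v) : ℕ) : ℝ) * lnv v +
            ∑ w, ((Fᶜ.sup (hi α p.2.2 p.2.1 w) : ℕ) : ℝ) ∧
          ∑ v ∈ W, lnv v ≤ phi F p.1 p.2.1 + ell2 Fᶜ α p.2.2 p.1 p.2.1 + c := by
    intro p hp
    rcases hW p.1 p.2.1 p.2.2 (hBal p hp) (hkey p hp).useful (hkey p hp).sel with h | h
    · exact absurd h (not_le.mpr (hlt p hp))
    · exact h
  have hN0 : ∀ p ∈ 𝒟, ∀ l ∈ Fᶜ, ∃ i j, mi p.2.2 (α l) i j ≠ 0 := fun p hp => (hex0 p hp).1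
  have hex : ∀ p ∈ 𝒟, ∃ W ⊆ p.1.support, (∀ v ∈ p.1.support, v ∉ W → v ∉ bad ∧
            ∃ l ∈ Fᶜ, ∀ i j, fa v (mi p.2.2 (α l) i j) ≤ (nv v)⁻¹) ∧
          2 * logHeight p.2.2 - c ≤ ∑ v ∈ W, ((Fᶜ.sup (HQ.hp α p.2.2 p.1 v) : ℕ) : ℝ) * lnv v +
            ∑ w, ((Fᶜ.sup (hi α p.2.2 p.2.1 w) : ℕ) : ℝ) ∧
          ∑ v ∈ W, lnv v ≤ phi F p.1 p.2.1 + ell2 Fᶜ α p.2.2 p.1 p.2.1 + c :=
    fun p hp => (hex0 p hp).2
  choose! Wf hWf1 hWf2 hWf3 hWf4 using hex
  set Om : (HeightOneSpectrum (𝓞 K) →₀ (Fin q → ℕ)) × (InfinitePlace K → Fin q → ℕ) ×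
      (Fin (m + 1) → K) → (HeightOneSpectrum (𝓞 K) →₀ (Fin q ⊕ Fin q → ℕ)) ×
      (InfinitePlace K → Fin q ⊕ Fin q → ℕ) := fun p =>
    (ms2Om (Wf p) p.1 (HQ.hp α p.2.2 p.1), fun w => Sum.elim (p.2.1 w) (hi α p.2.2 p.2.1 w))
    with hOm
  have hOsupp : ∀ p ∈ 𝒟, (Om p).1.support = Wf p := fun p hp =>
    ms2Om_support (Wf p) p.1 _ (hWf1 p hp)
  set G : (HeightOneSpectrum (𝓞 K) →₀ (Fin q ⊕ Fin q → ℕ)) ×
      (InfinitePlace K → Fin q ⊕ Fin q → ℕ) → ℝ := fun ω =>
    Real.exp (- ∑ v ∈ ω.1.support, lnv v) with hG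
  have h1 : ∀ p ∈ 𝒟, Real.exp (- phi F p.1 p.2.1 - ell2 Fᶜ α p.2.2 p.1 p.2.1) ≤
      Real.exp c * G (Om p) := by
    intro p hp
    have h2 := hWf4 p hp
    rw [hG]
    simp only
    rw [hOsupp p hp, ← Real.exp_add]
    apply Real.exp_le_exp.mpr
    linarith
  have hfib : ∀ ω ∈ 𝒟.image Om, (((𝒟.filter (fun p => Om p = ω)).card : ℕ) : ℝ) ≤
      Cd * (Cf * Real.exp (η / 2 * β)) := by
    intro ω _
    set T := 𝒟.filter (fun p => Om p = ω) with hT
    have hTN : ∀ p ∈ T, p ∈ 𝒟 := fun p hp => (Finset.mem_filter.mp hp).1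
    have hTO : ∀ p ∈ T, Om p = ω := fun p hp => (Finset.mem_filter.mp hp).2
    have hTW : ∀ p ∈ T, Wf p = ω.1.support := by
      intro p hp
      rw [← hTO p hp, hOsupp p (hTN p hp)]
    have hT1 : ∀ p ∈ T, ∀ v ∈ ω.1.support, ω.1 v = Sum.elim (p.1 v) (HQ.hp α p.2.2 p.1 v) := by
      intro p hp v hv
      rw [← hTW p hp] at hv
      rw [← hTO p hp]
      exact ms2Om_mem (Wf p) p.1 _ hv
    have hT2 : ∀ p ∈ T, ∀ w, ω.2 w = Sum.elim (p.2.1 w) (hi α p.2.2 p.2.1 w) := by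
      intro p hp w
      rw [← hTO p hp]
    rw [Finset.card_eq_sum_card_image (fun p => p.2.2) T]
    push_cast
    have hfu : ∀ u ∈ T.image (fun p => p.2.2),
        (((T.filter (fun a => a.2.2 = u)).card : ℕ) : ℝ) ≤ Cf * Real.exp (η / 2 * β) := by
      intro u hu
      obtain ⟨p₀, hp₀, hpu⟩ := Finset.mem_image.mp hu
      have hp₀N := hTN p₀ hp₀
      have hp₀D := hp₀N
      obtain ⟨U, hU1, hU2⟩ := hpr u (hpu ▸ hBal p₀ hp₀D) (hpu ▸ hN0 p₀ hp₀N)
      have hinj : Set.InjOn (fun p : (HeightOneSpectrum (𝓞 K) →₀ (Fin q → ℕ)) ×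
          (InfinitePlace K → Fin q → ℕ) × (Fin (m + 1) → K) =>
            p.1.filter (fun v => v ∉ ω.1.support)) (T.filter (fun a => a.2.2 = u)) := by
        intro p hp p' hp' hpp
        obtain ⟨hpT, hpu⟩ := Finset.mem_filter.mp hp
        obtain ⟨hpT', hpu'⟩ := Finset.mem_filter.mp hp'
        simp only at hpp
        have e1 : p.1 = p'.1 := by
          ext v l
          by_cases hv : v ∈ ω.1.support
          · have a1 := hT1 p hpT v hv
            have a2 := hT1 p' hpT' v hv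
            rw [a1] at a2
            exact congrFun a2 (Sum.inl l)
          · have a1 := DFunLike.congr_fun hpp v
            rw [Finsupp.filter_apply_pos (fun v => v ∉ ω.1.support) _ hv,
              Finsupp.filter_apply_pos (fun v => v ∉ ω.1.support) _ hv] at a1
            rw [a1]
        have e2 : p.2.1 = p'.2.1 := by
          funext w l
          have a1 := hT2 p hpT w
          have a2 := hT2 p' hpT' w
          rw [a1] at a2
          exact congrFun a2 (Sum.inl l)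
        exact Prod.ext e1 (Prod.ext e2 (hpu.trans hpu'.symm))
      rw [← Finset.card_image_of_injOn hinj]
      have hq0 : (0 : ℝ) ≤ q := Nat.cast_nonneg _
      apply hfree β hβ U
      · refine hU2.trans ?_
        have a1 : logHeight u ≤ A * (β + 1) := by
          rw [← hpu]
          exact (ms2_logHeight_le_ell _ α p₀.2.2 p₀.1 p₀.2.1).trans (hell p₀ hp₀D)
        have a2 : (q : ℝ) * (logHeight u + c') ≤ q * (A * (β + 1) + c' * (β + 1)) := by
          apply mul_le_mul_of_nonneg_left _ hq0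
          nlinarith
        have a3 : 0 ≤ A * (β + 1) := by positivity
        nlinarith
      · intro κ hκ v hv
        obtain ⟨p, hp, rfl⟩ := Finset.mem_image.mp hκ
        obtain ⟨hpT, hpu⟩ := Finset.mem_filter.mp hp
        rw [Finsupp.support_filter, Finset.mem_filter] at hv
        have a1 := hWf2 p (hTN p hpT) v hv.1 (by rw [hTW p hpT]; exact hv.2)
        rw [hpu] at a1
        exact hU1 v a1.2
      · intro κ hκ
        obtain ⟨p, hp, rfl⟩ := Finset.mem_image.mp hκ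
        obtain ⟨hpT, hpu⟩ := Finset.mem_filter.mp hp
        have a1 : ∑ v ∈ (p.1.filter (fun v => v ∉ ω.1.support)).support,
            ((∑ l, (p.1.filter (fun v => v ∉ ω.1.support)) v l : ℕ) : ℝ) * lnv v ≤
            ∑ v ∈ p.1.support, ((∑ l, p.1 v l : ℕ) : ℝ) * lnv v := by
          have a2 : ∑ v ∈ (p.1.filter (fun v => v ∉ ω.1.support)).support,
              ((∑ l, (p.1.filter (fun v => v ∉ ω.1.support)) v l : ℕ) : ℝ) * lnv v =
              ∑ v ∈ (p.1.filter (fun v => v ∉ ω.1.support)).support,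
              ((∑ l, p.1 v l : ℕ) : ℝ) * lnv v := by
            refine Finset.sum_congr rfl fun v hv => ?_
            rw [Finsupp.support_filter, Finset.mem_filter] at hv
            rw [Finsupp.filter_apply_pos (fun v => v ∉ ω.1.support) _ hv.2]
          rw [a2]
          refine Finset.sum_le_sum_of_subset_of_nonneg ?_ fun v _ _ => ?_
          · rw [Finsupp.support_filter]
            exact Finset.filter_subset _ _
          · have := (lnv_pos v).le
            positivity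
        have a3 := ms2_siz_fin_le p.1 p.2.1
        have a4 := (hkey p (hTN p hpT)).size
        have a5 : 0 ≤ (q : ℝ) * (c' + A) * (β + 1) := by positivity
        calc _ ≤ _ := a1
          _ ≤ _ := a3
          _ ≤ _ := a4
          _ ≤ _ := by linarith
    have hdir' : ((T.image (fun p => p.2.2)).card : ℝ) ≤ Cd := by
      apply hdir (ω.1.mapRange (fun f l => f (Sum.inr l)) rfl) (fun w l => ω.2 w (Sum.inr l))
      · intro u hu
        obtain ⟨p, hp, rfl⟩ := Finset.mem_image.mp hu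
        exact hBal p (hTN p hp)
      · intro u hu u' hu' hne
        obtain ⟨p, hp, rfl⟩ := Finset.mem_image.mp hu
        obtain ⟨p', hp', rfl⟩ := Finset.mem_image.mp hu'
        exact hwd p (hTN p hp) p' (hTN p' hp') hne
      · intro u hu v hv l _ hne
        obtain ⟨p, hp, rfl⟩ := Finset.mem_image.mp hu
        have hv' : v ∈ ω.1.support := Finsupp.support_mapRange hv
        have a1 : (ω.1.mapRange (fun f l => f (Sum.inr l)) rfl : _ →₀ (Fin q → ℕ)) v l =
            HQ.hp α p.2.2 p.1 v l := by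
          rw [Finsupp.mapRange_apply, hT1 p hp v hv']
          rfl
        rw [a1] at hne ⊢
        exact ms2_fa_hp α p.2.2 p.1 v l hne
      · intro u hu w l _ hne
        obtain ⟨p, hp, rfl⟩ := Finset.mem_image.mp hu
        have a1 : ω.2 w (Sum.inr l) = hi α p.2.2 p.2.1 w l := by
          rw [hT2 p hp w]
          rfl
        rw [a1] at hne ⊢
        exact ms2_inf_hi α p.2.2 p.2.1 w l hne
      · intro u hu
        obtain ⟨p, hp, rfl⟩ := Finset.mem_image.mp hu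
        refine (hWf3 p (hTN p hp)).trans ?_
        apply add_le_add
        · rw [hTW p hp]
          apply le_of_eq
          symm
          rw [Finset.sum_subset (Finsupp.support_mapRange :
            (ω.1.mapRange (fun f l => f (Sum.inr l)) rfl : _ →₀ (Fin q → ℕ)).support ⊆
              ω.1.support)]
          · refine Finset.sum_congr rfl fun v hv => ?_
            congr 2
            refine Finset.sup_congr rfl fun l _ => ?_
            rw [Finsupp.mapRange_apply, hT1 p hp v hv]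
            rfl
          · intro v _ hv
            rw [Finsupp.notMem_support_iff] at hv
            rw [hv]
            have : Fᶜ.sup (0 : Fin q → ℕ) = 0 := by
              apply Nat.eq_zero_of_le_zero
              apply Finset.sup_le
              intro l _
              exact le_rfl
            rw [this]
            simp
        · apply le_of_eq
          refine Finset.sum_congr rfl fun w _ => ?_
          congr 1
          refine Finset.sup_congr rfl fun l _ => ?_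
          rw [hT2 p hp w]
          rfl
    calc ∑ u ∈ T.image (fun p => p.2.2), (((T.filter (fun a => a.2.2 = u)).card : ℕ) : ℝ)
        ≤ ∑ u ∈ T.image (fun p => p.2.2), Cf * Real.exp (η / 2 * β) :=
          Finset.sum_le_sum hfu
      _ = ((T.image (fun p => p.2.2)).card : ℝ) * (Cf * Real.exp (η / 2 * β)) := by
          rw [Finset.sum_const, nsmul_eq_mul]
      _ ≤ Cd * (Cf * Real.exp (η / 2 * β)) :=
          mul_le_mul_of_nonneg_right hdir' (by positivity)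
  have hsumO := hsum β hβ (𝒟.image Om) (by
    intro x hx
    obtain ⟨p, hp, rfl⟩ := Finset.mem_image.mp hx
    have a1 := ms2_siz (Wf p) p.1 (HQ.hp α p.2.2 p.1) p.2.1 (hi α p.2.2 p.2.1) (hWf1 p hp)
      (fun v l => ms2_hp_le α p.2.2 p.1 v l) (fun w l => ms2_hi_le α p.2.2 p.2.1 w l)
    have a2 := (hkey p (hp)).size
    calc siz (Om p).1 (Om p).2 ≤ 2 * siz p.1 p.2.1 := a1
      _ ≤ 2 * (A * (β + 1)) := by linarith
      _ = 2 * A * (β + 1) := by ring)
  calc ∑ p ∈ 𝒟, Real.exp (- phi F p.1 p.2.1 - ell2 Fᶜ α p.2.2 p.1 p.2.1)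
      ≤ ∑ p ∈ 𝒟, Real.exp c * G (Om p) := Finset.sum_le_sum h1
    _ = Real.exp c * ∑ p ∈ 𝒟, G (Om p) := by rw [Finset.mul_sum]
    _ = Real.exp c * ∑ ω ∈ 𝒟.image Om, (𝒟.filter (fun p => Om p = ω)).card • G ω := by
        rw [Finset.sum_comp G Om]
    _ ≤ Real.exp c * ∑ ω ∈ 𝒟.image Om, (Cd * (Cf * Real.exp (η / 2 * β))) * G ω := by
        apply mul_le_mul_of_nonneg_left _ (Real.exp_pos _).le
        refine Finset.sum_le_sum fun ω hω => ?_
        rw [nsmul_eq_mul]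
        exact mul_le_mul_of_nonneg_right (hfib ω hω) (Real.exp_pos _).le
    _ = Real.exp c * (Cd * (Cf * Real.exp (η / 2 * β))) * ∑ ω ∈ 𝒟.image Om, G ω := by
        rw [← Finset.mul_sum]
        ring
    _ ≤ Real.exp c * (Cd * (Cf * Real.exp (η / 2 * β))) * (Cs * Real.exp (η / 2 * β)) :=
        mul_le_mul_of_nonneg_left hsumO (by positivity)
    _ = Real.exp c * (Cd * Cf * Cs) * Real.exp (η * β) := by
        have : Real.exp (η * β) = Real.exp (η / 2 * β) * Real.exp (η / 2 * β) := by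
          rw [← Real.exp_add]
          congr 1
          ring
        rw [this]
        ring

end Pool.Agent.Lib.MP_44a246_nt.HQ
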