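import Pool.Agent.Lib.MP_44a246_nt.HQ.Defs

set_option autoImplicit false

open NumberField IsDedekindDomain Height
open Pool.Agent.Lib.MP_4d5ce1_nt (ordv fa nv)
open Pool.Agent.Lib.MP_44a246_nt.HP

namespace Pool.Agent.Lib.MP_44a246_nt.HQ

/-! ## HQ-10 -/

private lemma sc2_lf_sum {K : Type*} [Field K] {m k : ℕ} (c : Fin k → K) (b : Fin k → Fin m → K)
    (u : Fin m → K) : lf (∑ i, c i • b i) u = ∑ i, c i * lf (b i) u := by
  unfold lf
  simp only [Finset.sum_apply, Pi.smul_apply, smul_eq_mul, Finset.sum_mul, Finset.mul_sum]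
  rw [Finset.sum_comm]
  exact Finset.sum_congr rfl fun i _ => Finset.sum_congr rfl fun j _ => by ring

private lemma sc2_cons_inj {n q : ℕ} {f : Fin q} {s : Fin n → Fin q} (hs : Function.Injective s)
    (hf : ∀ i, s i ≠ f) : Function.Injective (Fin.cons f s : Fin (n + 1) → Fin q) := by
  rw [Fin.cons_injective_iff]
  refine ⟨?_, hs⟩
  rintro ⟨i, hi⟩
  exact hf i hi

theorem slice_coords2 (K : Type*) [Field K] (n q : ℕ) (hn : 1 ≤ n) (hq : n + 1 ≤ q)
    (a : Fin q → Fin (n + 1) → K)
    (ha : ∀ s : Fin (n + 1) → Fin q, Function.Injective s → LinearIndependent K fun i => a (s i))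
    (f : Fin q) :
    ∃ (s₀ : Fin n → Fin q) (α : Fin q → Fin n → K), Function.Injective s₀ ∧ (∀ i, s₀ i ≠ f) ∧
      (∀ u : Fin (n + 1) → K, lf (a f) u = 0 → ∀ l, l ≠ f →
        lf (a l) u = lf (α l) (fun i => lf (a (s₀ i)) u)) ∧
      (∀ s : Fin n → Fin q, Function.Injective s → (∀ i, s i ≠ f) →
        LinearIndependent K fun i => α (s i)) ∧
      (∀ u : Fin (n + 1) → K, lf (a f) u = 0 → (∀ i, lf (a (s₀ i)) u = 0) → u = 0) := by
  classical
  have hcard : n ≤ (Finset.univ.erase f).card := by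
    rw [Finset.card_erase_of_mem (Finset.mem_univ f), Finset.card_univ, Fintype.card_fin]
    omega
  obtain ⟨T', hT', hc⟩ := Finset.exists_subset_card_eq hcard
  set s₀ : Fin n → Fin q := fun i => T'.orderEmbOfFin hc i with hs₀
  have hs₀i : Function.Injective s₀ := (T'.orderEmbOfFin hc).injective
  have hs₀f : ∀ i, s₀ i ≠ f := fun i =>
    (Finset.mem_erase.mp (hT' (Finset.orderEmbOfFin_mem T' hc i))).1
  have hinj := sc2_cons_inj hs₀i hs₀f
  have hli := ha (Fin.cons f s₀) hinj
  set b := basisOfLinearIndependentOfCardEqFinrank hli (by simp) with hb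
  have hbv : ∀ i, b i = a ((Fin.cons f s₀ : Fin (n + 1) → Fin q) i) := fun i => by
    rw [hb, coe_basisOfLinearIndependentOfCardEqFinrank]
  have hexp : ∀ l, a l = ∑ i, b.repr (a l) i • a ((Fin.cons f s₀ : Fin (n + 1) → Fin q) i) := by
    intro l
    conv_lhs => rw [← b.sum_repr (a l)]
    exact Finset.sum_congr rfl fun i _ => by rw [hbv]
  have hexp2 : ∀ l, a l = b.repr (a l) 0 • a f + ∑ i : Fin n, b.repr (a l) i.succ • a (s₀ i) := by
    intro l
    conv_lhs => rw [hexp l]
    rw [Fin.sum_univ_succ]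
    simp only [Fin.cons_zero, Fin.cons_succ]
  refine ⟨s₀, fun l i => b.repr (a l) i.succ, hs₀i, hs₀f, ?_, ?_, ?_⟩
  · intro u hu l _
    conv_lhs => rw [hexp l]
    rw [sc2_lf_sum, Fin.sum_univ_succ]
    simp only [Fin.cons_zero, Fin.cons_succ]
    rw [hu, mul_zero, zero_add]
    rfl
  · intro s hs hsf
    rw [Fintype.linearIndependent_iff]
    intro g hg
    have hli2 := ha (Fin.cons f s) (sc2_cons_inj hs hsf)
    rw [Fintype.linearIndependent_iff] at hli2
    have h1 : ∑ i, g i • a (s i) = (∑ i, g i * b.repr (a (s i)) 0) • a f := by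
      have h2 : ∀ i, g i • a (s i) = (g i * b.repr (a (s i)) 0) • a f +
          ∑ j : Fin n, (g i * b.repr (a (s i)) j.succ) • a (s₀ j) := by
        intro i
        conv_lhs => rw [hexp2 (s i)]
        rw [smul_add, smul_smul, Finset.smul_sum]
        congr 1
        exact Finset.sum_congr rfl fun j _ => by rw [smul_smul]
      rw [Finset.sum_congr rfl fun i _ => h2 i, Finset.sum_add_distrib, ← Finset.sum_smul,
        Finset.sum_comm]
      have h3 : ∀ j : Fin n, ∑ i, (g i * b.repr (a (s i)) j.succ) • a (s₀ j) = 0 := by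
        intro j
        rw [← Finset.sum_smul]
        have h4 := congrFun hg j
        simp only [Finset.sum_apply, Pi.smul_apply, smul_eq_mul, Pi.zero_apply] at h4
        rw [h4, zero_smul]
      rw [Finset.sum_eq_zero fun j _ => h3 j, add_zero]
    have h5 := hli2 (Fin.cons (-(∑ i, g i * b.repr (a (s i)) 0)) g) (by
      rw [Fin.sum_univ_succ]
      simp only [Fin.cons_zero, Fin.cons_succ]
      rw [h1, neg_smul, neg_add_cancel])
    intro i
    have h6 := h5 i.succ
    simpa using h6
  · intro u hu hu2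
    set A : Matrix (Fin (n + 1)) (Fin (n + 1)) K :=
      Matrix.of (fun i => a ((Fin.cons f s₀ : Fin (n + 1) → Fin q) i)) with hA
    have hunit : IsUnit A := by
      rw [← Matrix.linearIndependent_rows_iff_isUnit]
      exact hli
    have hdet : IsUnit A.det := (Matrix.isUnit_iff_isUnit_det A).1 hunit
    have h1 : A.mulVec u = 0 := by
      funext i
      show lf (a ((Fin.cons f s₀ : Fin (n + 1) → Fin q) i)) u = 0
      refine Fin.cases ?_ (fun i => ?_) i
      · simpa using hu
      · simpa using hu2 i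
    have h2 : (A⁻¹).mulVec (A.mulVec u) = u := by
      rw [Matrix.mulVec_mulVec, Matrix.nonsing_inv_mul A hdet, Matrix.one_mulVec]
    rw [← h2, h1, Matrix.mulVec_zero]

end Pool.Agent.Lib.MP_44a246_nt.HQ
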