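import Pool.Agent.Lib.MP_44a246_nt.HP.Balance
import Pool.Agent.Lib.MP_44a246_nt.HQ.Full
import Pool.Agent.Lib.MP_44a246_nt.HQ.Hyper
import Pool.Agent.Lib.MP_44a246_nt.HQ.Low
import Pool.Agent.Lib.MP_44a246_nt.HQ.MidSum2
import Pool.Agent.Lib.MP_44a246_nt.HQ.SliceCoords2

set_option autoImplicit false

open NumberField IsDedekindDomain Height
open Pool.Agent.Lib.MP_4d5ce1_nt (ordv fa nv)
open Pool.Agent.Lib.MP_44a246_nt.HP

namespace Pool.Agent.Lib.MP_44a246_nt.HQ

/-! ## HQ-11 -/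

private lemma f2_lf_sub {K : Type*} [Field K] {m : ℕ} (a y y' : Fin m → K) :
    lf a (y - y') = lf a y - lf a y' := by
  simp only [lf, Pi.sub_apply, mul_sub, Finset.sum_sub_distrib]

private lemma f2_lf_smul {K : Type*} [Field K] {m : ℕ} (t : K) (a y : Fin m → K) :
    lf (t • a) y = t * lf a y := by
  simp only [lf, Pi.smul_apply, smul_eq_mul, Finset.mul_sum, mul_assoc]

private def f2_lin {K : Type*} [Field K] {m : ℕ} (a : Fin m → K) : (Fin m → K) →ₗ[K] K where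
  toFun := lf a
  map_add' x y := by simp only [lf, Pi.add_apply, mul_add, Finset.sum_add_distrib]
  map_smul' t x := by
    simp only [lf, Pi.smul_apply, smul_eq_mul, Finset.mul_sum, RingHom.id_apply]
    exact Finset.sum_congr rfl fun i _ => by ring

private lemma f2_orth {K : Type*} [Field K] {m : ℕ} (U : Submodule K (Fin (m + 1) → K))
    (hU : Module.finrank K U = m) : ∃ x : Fin (m + 1) → K, x ≠ 0 ∧ ∀ z ∈ U, lf x z = 0 := by
  have hlt : U < ⊤ := by
    rw [lt_top_iff_ne_top]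
    rintro rfl
    rw [finrank_top, Module.finrank_fin_fun] at hU
    omega
  obtain ⟨g, hg, hle⟩ := Submodule.exists_le_ker_of_lt_top U hlt
  refine ⟨fun i => g (Pi.single i 1), ?_, ?_⟩
  · intro h0
    apply hg
    refine LinearMap.pi_ext' fun i => ?_
    refine LinearMap.ext_ring ?_
    have := congrFun h0 i
    simpa using this
  · intro z hz
    have h1 : g z = 0 := hle hz
    rw [← h1]
    conv_rhs => rw [← Finset.univ_sum_single z, map_sum]
    simp only [lf]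
    refine Finset.sum_congr rfl fun i _ => ?_
    have : (Pi.single i (z i) : Fin (m + 1) → K) = z i • Pi.single i 1 := by
      rw [← Pi.single_smul, smul_eq_mul, mul_one]
    rw [this, map_smul, smul_eq_mul, mul_comm]

private lemma f2_ker {K : Type*} [Field K] {m : ℕ} (U : Submodule K (Fin (m + 1) → K))
    (hU : Module.finrank K U = m) (H : Fin (m + 1) → K) (hH : H ≠ 0)
    (h : ∀ z ∈ U, lf H z = 0) : U = LinearMap.ker (f2_lin H) := by
  apply Submodule.eq_of_le_of_finrank_le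
  · intro z hz
    exact h z hz
  · rw [hU]
    have hlt : LinearMap.ker (f2_lin H) < ⊤ := by
      rw [lt_top_iff_ne_top]
      intro htop
      apply hH
      funext i
      have h1 : (Pi.single i 1 : Fin (m + 1) → K) ∈ LinearMap.ker (f2_lin H) := by
        rw [htop]
        trivial
      have h2 : lf H (Pi.single i 1) = 0 := h1
      simpa [lf, Pi.single_apply] using h2
    have := Submodule.finrank_lt_finrank_of_lt hlt
    rw [finrank_top, Module.finrank_fin_fun] at this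
    omega

private lemma f2_hyp {K : Type*} [Field K] [NumberField K] {m : ℕ} {C₀ : ℝ}
    (hbal : ∀ x : Fin (m + 1) → K, x ≠ 0 → ∃ t : K, t ≠ 0 ∧ Bal C₀ (t • x)) :
    ∃ Hf : Submodule K (Fin (m + 1) → K) → (Fin (m + 1) → K),
      (∀ U : Submodule K (Fin (m + 1) → K), Module.finrank K U = m → Bal C₀ (Hf U) ∧ ∀ z ∈ U, lf (Hf U) z = 0) ∧
      (∀ U U' : Submodule K (Fin (m + 1) → K), Module.finrank K U = m → Module.finrank K U' = m → Hf U ≠ Hf U' →
        ∃ i j, mi (Hf U) (Hf U') i j ≠ 0) := by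
  classical
  have hex : ∀ U : Submodule K (Fin (m + 1) → K), Module.finrank K U = m →
      ∃ x : Fin (m + 1) → K, Bal C₀ x ∧ ∀ z ∈ U, lf x z = 0 := by
    intro U hU
    obtain ⟨x, hx, hxU⟩ := f2_orth U hU
    obtain ⟨t, ht, hb⟩ := hbal x hx
    exact ⟨t • x, hb, fun z hz => by rw [f2_lf_smul, hxU z hz, mul_zero]⟩
  let Hf : Submodule K (Fin (m + 1) → K) → (Fin (m + 1) → K) := fun U =>
    if hU : Module.finrank K U = m then (hex U hU).choose else 0
  have h1 : ∀ U : Submodule K (Fin (m + 1) → K), Module.finrank K U = m → Bal C₀ (Hf U) ∧ ∀ z ∈ U, lf (Hf U) z = 0 := by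
    intro U hU
    simp only [Hf, dif_pos hU]
    exact (hex U hU).choose_spec
  refine ⟨Hf, h1, ?_⟩
  intro U U' hU hU' hne
  by_contra hcon
  push Not at hcon
  apply hne
  obtain ⟨hb, hz⟩ := h1 U hU
  obtain ⟨hb', hz'⟩ := h1 U' hU'
  have hH : Hf U ≠ 0 := hb.ne
  have hH' : Hf U' ≠ 0 := hb'.ne
  obtain ⟨i, hi⟩ : ∃ i, Hf U i ≠ 0 := by
    by_contra h
    push Not at h
    exact hH (funext h)
  have hprop : ∀ z, Hf U i * lf (Hf U') z = Hf U' i * lf (Hf U) z := by
    intro z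
    simp only [lf, Finset.mul_sum]
    refine Finset.sum_congr rfl fun j _ => ?_
    have := hcon i j
    simp only [mi] at this
    linear_combination z j * this
  have h2 : ∀ z ∈ U, lf (Hf U') z = 0 := by
    intro z hzU
    have := hprop z
    rw [hz z hzU, mul_zero] at this
    exact (mul_eq_zero.1 this).resolve_left hi
  have e1 := f2_ker U hU (Hf U') hH' h2
  have e2 := f2_ker U' hU' (Hf U') hH' hz'
  rw [e1.trans e2.symm]

/-- one slice -/
private lemma f2_fibre (K : Type*) [Field K] [NumberField K] {m q : ℕ}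
    (a : Fin q → Fin (m + 1 + 1) → K) (f : Fin q) (s₀ : Fin (m + 1) → Fin q)
    (α : Fin q → Fin (m + 1) → K)
    (hc : ∀ u : Fin (m + 1 + 1) → K, lf (a f) u = 0 → ∀ l, l ≠ f →
        lf (a l) u = lf (α l) (fun i => lf (a (s₀ i)) u))
    (hi : ∀ u : Fin (m + 1 + 1) → K, lf (a f) u = 0 → (∀ i, lf (a (s₀ i)) u = 0) → u = 0)
    (C₀ A Cl Cf Ch Q : ℝ) (hCl : 0 < Cl) (hCf : 0 < Cf)
    (hQ1 : Cl ≤ Q) (hQ2 : Cf ≤ Q) (hQ3 : Ch ≤ Q)
    (Hf : Submodule K (Fin (m + 1) → K) → (Fin (m + 1) → K))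
    (hHf : ∀ U : Submodule K (Fin (m + 1) → K), Module.finrank K U = m → Bal C₀ (Hf U) ∧ ∀ z ∈ U, lf (Hf U) z = 0)
    (β : ℝ) (κ : HeightOneSpectrum (𝓞 K) →₀ (Fin q → ℕ)) (k : InfinitePlace K → Fin q → ℕ)
    (hA : 1 ≤ A)
    (hlow : ∀ Y Z : Finset (Fin (m + 1) → K),
      (∀ y ∈ Y, ∀ y' ∈ Y, y - y' ∈ Z) →
      (∀ y ∈ Y, ∀ i, y i ≠ 0) →
      (∀ y ∈ Y, ∀ v i, fa v (y i) ≤ 1) →
      (∀ y ∈ Y, ∀ (w : InfinitePlace K) i, w (y i) ≤ A * Real.exp (β / dg K)) →
      Module.finrank K (Submodule.span K (Z : Set (Fin (m + 1) → K))) ≤ m - 1 →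
      (Y.card : ℝ) ≤ Cl * Real.exp ((m - 1 : ℕ) * β))
    (hfull : ∀ Y Z : Finset (Fin (m + 1) → K), (∀ y ∈ Y, ∀ y' ∈ Y, y - y' ∈ Z) →
      (∀ z ∈ Z, InBox {f}ᶜ α (2 * A) β κ k z) →
      Submodule.span K (Z : Set (Fin (m + 1) → K)) = ⊤ →
      (Y.card : ℝ) ≤ Cf * Real.exp ((m + 1 : ℕ) * β - ind2 (m + 1) {f}ᶜ κ k))
    (hhyp : ∀ Y Z : Finset (Fin (m + 1) → K), (∀ y ∈ Y, ∀ y' ∈ Y, y - y' ∈ Z) →
      (∀ z ∈ Z, InBox {f}ᶜ α (2 * A) β κ k z) →
      ∀ H : Fin (m + 1) → K, Bal C₀ H → (∀ z ∈ Z, lf H z = 0) →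
      Module.finrank K (Submodule.span K (Z : Set (Fin (m + 1) → K))) = m →
      ell2 {f}ᶜ α H κ k ≤ m * β + Ch ∧
      (Y.card : ℝ) ≤ Ch * Real.exp (m * β - ell2 {f}ᶜ α H κ k))
    (Y : Finset (Fin (m + 1 + 1) → K))
    (hne : ∀ y ∈ Y, ∀ l, lf (a l) y ≠ 0)
    (hbox : ∀ y ∈ Y, InBox Finset.univ a A β κ k y)
    (hsl : ∀ y ∈ Y, ∀ y' ∈ Y, lf (a f) y = lf (a f) y') :
    ((Y.card : ℝ) ≤ Q * (Real.exp ((m - 1 : ℕ) * β) +
        Real.exp ((m + 1 : ℕ) * β - ind2 (m + 1) {f}ᶜ κ k))) ∨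
    ∃ U : Submodule K (Fin (m + 1) → K), Module.finrank K U = m ∧
      ell2 {f}ᶜ α (Hf U) κ k ≤ m * β + Ch ∧
      (Y.card : ℝ) ≤ Q * Real.exp (m * β - ell2 {f}ᶜ α (Hf U) κ k) := by
  classical
  set zf : (Fin (m + 1 + 1) → K) → (Fin (m + 1) → K) := fun y i => lf (a (s₀ i)) y with hzf
  have hzsub : ∀ y y', zf y - zf y' = fun i => lf (a (s₀ i)) (y - y') := by
    intro y y'
    funext i
    simp only [hzf, Pi.sub_apply, f2_lf_sub]
  have hker : ∀ y ∈ Y, ∀ y' ∈ Y, lf (a f) (y - y') = 0 := by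
    intro y hy y' hy'
    rw [f2_lf_sub, hsl y hy y' hy', sub_self]
  have hinj : Set.InjOn zf (Y : Set (Fin (m + 1 + 1) → K)) := by
    intro y hy y' hy' h
    have h0 : zf y - zf y' = 0 := sub_eq_zero.2 h
    rw [hzsub] at h0
    exact sub_eq_zero.1 (hi _ (hker y hy y' hy') fun i => congrFun h0 i)
  have hcardZ : (Y.image zf).card = Y.card := Finset.card_image_of_injOn hinj
  set Yz := Y.image zf with hYz
  set Z : Finset (Fin (m + 1) → K) := (Yz ×ˢ Yz).image (fun p => p.1 - p.2) with hZ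
  have hYZ : ∀ y ∈ Yz, ∀ y' ∈ Yz, y - y' ∈ Z := by
    intro y hy y' hy'
    exact Finset.mem_image.2 ⟨(y, y'), Finset.mem_product.2 ⟨hy, hy'⟩, rfl⟩
  have hboxZ : ∀ z ∈ Z, InBox {f}ᶜ α (2 * A) β κ k z := by
    intro z hz
    obtain ⟨⟨z1, z2⟩, hp, rfl⟩ := Finset.mem_image.1 hz
    obtain ⟨hz1, hz2⟩ := Finset.mem_product.1 hp
    obtain ⟨x, hx, hx1⟩ := Finset.mem_image.1 hz1
    obtain ⟨x', hx', hx2⟩ := Finset.mem_image.1 hz2
    simp only at hx1 hx2
    subst hx1 hx2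
    have hval : ∀ l ∈ ({f}ᶜ : Finset (Fin q)), lf (α l) (zf x - zf x') =
        lf (a l) x - lf (a l) x' := by
      intro l hl
      have hl' : l ≠ f := by simpa using hl
      rw [hzsub, ← hc _ (hker x hx x' hx') l hl', f2_lf_sub]
    constructor
    · intro v l hl
      simp only
      rw [hval l hl]
      exact (Pool.Agent.Lib.MP_4d5ce1_nt.fa_sub_le v _ _).trans (max_le
        ((hbox x hx).fin v l (Finset.mem_univ _)) ((hbox x' hx').fin v l (Finset.mem_univ _)))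
    · intro w l hl
      simp only
      rw [hval l hl]
      have h1 := (hbox x hx).inf w l (Finset.mem_univ _)
      have h2 := (hbox x' hx').inf w l (Finset.mem_univ _)
      have h3 : w (lf (a l) x - lf (a l) x') ≤ w (lf (a l) x) + w (lf (a l) x') := by
        have := w.1.add_le (lf (a l) x) (-(lf (a l) x'))
        rw [← sub_eq_add_neg, AbsoluteValue.map_neg] at this
        exact this
      linarith
  have hQ0 : 0 < Q := hCl.trans_le hQ1
  have hfr : Module.finrank K (Submodule.span K (Z : Set (Fin (m + 1) → K))) ≤ m + 1 := by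
    have := Submodule.finrank_le (Submodule.span K (Z : Set (Fin (m + 1) → K)))
    rwa [Module.finrank_fin_fun] at this
  have hE1 : 0 < Real.exp ((m - 1 : ℕ) * β) := Real.exp_pos _
  have hE2 : 0 < Real.exp ((m + 1 : ℕ) * β - ind2 (m + 1) {f}ᶜ κ k) := Real.exp_pos _
  rcases Nat.lt_or_ge (Module.finrank K (Submodule.span K (Z : Set (Fin (m + 1) → K)))) m with
    hlt | hge
  · left
    have h := hlow Yz Z hYZ ?_ ?_ ?_ (by omega)
    · rw [hcardZ] at h
      nlinarith [mul_le_mul_of_nonneg_right hQ1 hE1.le, mul_pos hQ0 hE2]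
    · intro y hy i
      obtain ⟨x, hx, rfl⟩ := Finset.mem_image.1 hy
      exact hne x hx _
    · intro y hy v i
      obtain ⟨x, hx, rfl⟩ := Finset.mem_image.1 hy
      refine ((hbox x hx).fin v (s₀ i) (Finset.mem_univ _)).trans ?_
      exact inv_le_one_of_one_le₀ (one_le_pow₀ (Pool.Agent.Lib.MP_4d5ce1_nt.one_lt_nv v).le)
    · intro y hy w i
      obtain ⟨x, hx, rfl⟩ := Finset.mem_image.1 hy
      refine ((hbox x hx).inf w (s₀ i) (Finset.mem_univ _)).trans ?_
      have : (0:ℝ) ≤ (k w (s₀ i) : ℝ) / (w.mult : ℝ) := by positivity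
      gcongr
      linarith
  · rcases hge.eq_or_lt with heq | hgt
    · right
      obtain ⟨hb, hz⟩ := hHf _ heq.symm
      have h := hhyp Yz Z hYZ hboxZ (Hf (Submodule.span K (Z : Set (Fin (m + 1) → K)))) hb
        (fun z hzZ => hz z (Submodule.subset_span hzZ)) heq.symm
      refine ⟨_, heq.symm, h.1, ?_⟩
      rw [hcardZ] at h
      refine h.2.trans ?_
      gcongr
    · left
      have htop : Submodule.span K (Z : Set (Fin (m + 1) → K)) = ⊤ := by
        apply Submodule.eq_top_of_finrank_eq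
        rw [Module.finrank_fin_fun]
        omega
      have h := hfull Yz Z hYZ hboxZ htop
      rw [hcardZ] at h
      nlinarith [mul_le_mul_of_nonneg_right hQ2 hE2.le, mul_pos hQ0 hE1]

theorem fixed_f (K : Type*) [Field K] [NumberField K] (n q : ℕ) (hn : 2 ≤ n) (hq : n + 1 ≤ q)
    (a : Fin q → Fin (n + 1) → K)
    (ha : ∀ s : Fin (n + 1) → Fin q, Function.Injective s → LinearIndependent K fun i => a (s i))
    (f : Fin q) :
    ∃ bad₀ : Finset (HeightOneSpectrum (𝓞 K)), ∀ bad, bad₀ ⊆ bad → ∀ A η : ℝ, 1 ≤ A → 0 < η →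
      ∃ C : ℝ, 0 < C ∧ ∀ β D₂ : ℝ, 0 ≤ β → D₂ ≤ 1 →
      ∀ (Y : Finset (Fin (n + 1) → K))
        (κ : (Fin (n + 1) → K) → HeightOneSpectrum (𝓞 K) →₀ (Fin q → ℕ))
        (k : (Fin (n + 1) → K) → InfinitePlace K → Fin q → ℕ),
      (∀ y ∈ Y, ∀ l, lf (a l) y ≠ 0) →
      (∀ y ∈ Y, InBox Finset.univ a A β (κ y) (k y) y) →
      (∀ y ∈ Y, KeyOK2 n {f} bad A β D₂ (κ y) (k y)) →
      (Y.card : ℝ) ≤ C * Real.exp ((n + 1 - D₂ + η) * β) := by
  classical
  obtain ⟨m, rfl⟩ : ∃ m, n = m + 1 := ⟨n - 1, by omega⟩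
  have hm : 1 ≤ m := by omega
  obtain ⟨s₀, α, -, -, hc, hα, hi⟩ := slice_coords2 K (m + 1) q (by omega) hq a ha f
  obtain ⟨C₀, hC₀, hbal⟩ := exists_bal K (m + 1)
  obtain ⟨Hf, hHf, hHf'⟩ := f2_hyp hbal
  have hFc : m + 1 ≤ ({f}ᶜ : Finset (Fin q)).card := by
    rw [Finset.card_compl, Fintype.card_fin, Finset.card_singleton]
    omega
  have hα' : ∀ s : Fin (m + 1) → Fin q, Function.Injective s →
      (∀ i, s i ∈ ({f}ᶜ : Finset (Fin q))) → LinearIndependent K fun i => α (s i) :=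
    fun s hs hsf => hα s hs fun i => by simpa using hsf i
  obtain ⟨bad₁, hmid⟩ := mid_sum2 K q m {f} hm hFc α hα' C₀ hC₀
  refine ⟨bad₁, fun bad hbad A η hA hη => ?_⟩
  obtain ⟨c, hc0, hmidc⟩ := hmid bad hbad
  obtain ⟨Cc, hCc, hcoord⟩ := coord_card K A hA
  obtain ⟨Cl, hCl, hlow⟩ := low_bound K (m + 1) (m - 1) A hA
  obtain ⟨Cf, hCf, hfull⟩ := full_bound K q (m + 1) {f}ᶜ hFc α hα' (2 * A) (by linarith)
  obtain ⟨Ch, hCh, hhyp⟩ := hyper_bound K q m hm {f}ᶜ hFc α hα' C₀ (2 * A) hC₀ (by linarith)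
  set A' : ℝ := A + m + Ch with hA'
  have hm0 : (1:ℝ) ≤ m := by exact_mod_cast hm
  have hA'1 : A ≤ A' := by linarith
  obtain ⟨Cm, hCm, hmid'⟩ := hmidc A' η (by linarith) hη
  obtain ⟨Ck, hCk, hkey⟩ := key_sum K (Fin q) A η (by linarith) hη
  set Bd : ℝ := Real.exp (∑ v ∈ bad, lnv v) with hBd
  have hBd0 : 0 < Bd := Real.exp_pos _
  set Q : ℝ := Cl + Cf + Ch with hQ
  have hQ0 : 0 < Q := by positivity
  refine ⟨Q * (Cc * (2 * Real.exp A * Bd * Ck)) + Q * (Cc * Real.exp c * Ck) + Q * (Cc * Cm),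
    by positivity, ?_⟩
  intro β D₂ hβ hD₂ Y κ k hne hbox hok
  -- keys and slices
  set kk : (Fin (m + 1 + 1) → K) → (HeightOneSpectrum (𝓞 K) →₀ (Fin q → ℕ)) ×
    (InfinitePlace K → Fin q → ℕ) := fun y => (κ y, k y) with hkk
  set R := Y.image (fun y => (kk y, lf (a f) y)) with hR
  have hYc : (Y.card : ℝ) =
      ∑ r ∈ R, (((Y.filter fun y => (kk y, lf (a f) y) = r).card : ℕ) : ℝ) := by
    rw [Finset.card_eq_sum_card_image (fun y => (kk y, lf (a f) y)) Y]
    push_cast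
    rfl
  -- keys are fine
  have hRok : ∀ r ∈ R, KeyOK2 (m + 1) {f} bad A β D₂ r.1.1 r.1.2 := by
    intro r hr
    obtain ⟨y, hy, rfl⟩ := Finset.mem_image.1 hr
    exact hok y hy
  -- number of slices
  have hN : ∀ (p : (HeightOneSpectrum (𝓞 K) →₀ (Fin q → ℕ)) × (InfinitePlace K → Fin q → ℕ))
      (T : Finset (((HeightOneSpectrum (𝓞 K) →₀ (Fin q → ℕ)) ×
        (InfinitePlace K → Fin q → ℕ)) × K)), T ⊆ R → (∀ r ∈ T, r.1 = p) →
      (T.card : ℝ) ≤ Cc * Real.exp (β - phi {f} p.1 p.2) := by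
    intro p T hT hTp
    have hinj : Set.InjOn Prod.snd (T : Set (((HeightOneSpectrum (𝓞 K) →₀ (Fin q → ℕ)) ×
        (InfinitePlace K → Fin q → ℕ)) × K)) := by
      intro r hr r' hr' h
      exact Prod.ext ((hTp r hr).trans (hTp r' hr').symm) h
    rw [← Finset.card_image_of_injOn hinj]
    have hex : ∀ u ∈ T.image Prod.snd, ∃ y ∈ Y, kk y = p ∧ lf (a f) y = u := by
      intro u hu
      obtain ⟨r, hr, rfl⟩ := Finset.mem_image.1 hu
      obtain ⟨y, hy, hyr⟩ := Finset.mem_image.1 (hT hr)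
      refine ⟨y, hy, ?_, ?_⟩
      · rw [← hTp r hr, ← hyr]
      · rw [← hyr]
    let κg : HeightOneSpectrum (𝓞 K) →₀ ℕ := p.1.mapRange (fun e => e f) rfl
    have hκg : ∀ v, κg v = p.1 v f := fun v => Finsupp.mapRange_apply ..
    have h := hcoord β κg (fun w => p.2 w f) (T.image Prod.snd) ?_ ?_ ?_
    · have hs : ∑ v ∈ κg.support, (κg v : ℝ) * lnv v =
          ∑ v ∈ p.1.support, (p.1 v f : ℝ) * lnv v := by
        have hsub' : κg.support ⊆ p.1.support := by
          intro v hv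
          rw [Finsupp.mem_support_iff] at hv ⊢
          intro h0
          apply hv
          rw [hκg, h0]
          rfl
        rw [Finset.sum_subset hsub']
        · refine Finset.sum_congr rfl fun v _ => ?_
          rw [hκg]
        · intro v _ hv
          rw [Finsupp.notMem_support_iff.1 hv]
          simp
      rw [hs] at h
      simp only [phi, Finset.sum_singleton]
      rw [← sub_sub]
      exact h
    · intro u hu
      obtain ⟨y, hy, -, rfl⟩ := hex u hu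
      exact hne y hy f
    · intro u hu v
      obtain ⟨y, hy, hyp, rfl⟩ := hex u hu
      rw [hκg, ← hyp]
      exact (hbox y hy).fin v f (Finset.mem_univ _)
    · intro u hu w
      obtain ⟨y, hy, hyp, rfl⟩ := hex u hu
      rw [← hyp]
      exact (hbox y hy).inf w f (Finset.mem_univ _)
  -- the bound for one slice
  have hfib : ∀ r ∈ R, ((((Y.filter fun y => (kk y, lf (a f) y) = r).card : ℕ) : ℝ) ≤
      Q * (Real.exp ((m - 1 : ℕ) * β) +
        Real.exp ((m + 1 : ℕ) * β - ind2 (m + 1) {f}ᶜ r.1.1 r.1.2))) ∨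
      ∃ U : Submodule K (Fin (m + 1) → K), Module.finrank K U = m ∧
      ell2 {f}ᶜ α (Hf U) r.1.1 r.1.2 ≤ m * β + Ch ∧
      (((Y.filter fun y => (kk y, lf (a f) y) = r).card : ℕ) : ℝ) ≤
        Q * Real.exp (m * β - ell2 {f}ᶜ α (Hf U) r.1.1 r.1.2) := by
    intro r hr
    refine f2_fibre K a f s₀ α hc hi C₀ A Cl Cf Ch Q hCl hCf (by linarith) (by linarith)
      (by linarith) Hf hHf β r.1.1 r.1.2 hA
      (fun Y Z h1 h2 h3 h4 h5 => hlow β hβ Y Z h1 h2 h3 h4 h5)
      (fun Y Z h1 h2 h3 => hfull β r.1.1 r.1.2 Y Z h1 h2 h3)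
      (fun Y Z h1 h2 H h3 h4 h5 => hhyp β r.1.1 r.1.2 Y Z h1 h2 H h3 h4 h5) _ ?_ ?_ ?_
    · intro y hy
      exact hne y (Finset.mem_filter.1 hy).1
    · intro y hy
      obtain ⟨hy1, hy2⟩ := Finset.mem_filter.1 hy
      have := hbox y hy1
      rw [← hy2]
      exact this
    · intro y hy y' hy'
      have h1 := (Finset.mem_filter.1 hy).2
      have h2 := (Finset.mem_filter.1 hy').2
      have := h1.trans h2.symm
      exact (Prod.ext_iff.1 this).2
  -- choose hyperplanes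
  set Bad : (((HeightOneSpectrum (𝓞 K) →₀ (Fin q → ℕ)) ×
        (InfinitePlace K → Fin q → ℕ)) × K) → Submodule K (Fin (m + 1) → K) → Prop := fun r U =>
      Module.finrank K U = m ∧ ell2 {f}ᶜ α (Hf U) r.1.1 r.1.2 ≤ m * β + Ch ∧
      (((Y.filter fun y => (kk y, lf (a f) y) = r).card : ℕ) : ℝ) ≤
        Q * Real.exp (m * β - ell2 {f}ᶜ α (Hf U) r.1.1 r.1.2) with hBad
  set R2 := R.filter (fun r => ∃ U, Bad r U) with hR2
  set uu : (((HeightOneSpectrum (𝓞 K) →₀ (Fin q → ℕ)) ×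
        (InfinitePlace K → Fin q → ℕ)) × K) → Submodule K (Fin (m + 1) → K) := fun r =>
      if h : ∃ U, Bad r U then h.choose else ⊥ with huu
  have huu' : ∀ r ∈ R2, Bad r (uu r) := by
    intro r hr
    have h := (Finset.mem_filter.1 hr).2
    simp only [huu, dif_pos h]
    exact h.choose_spec
  have hsplit : (Y.card : ℝ) ≤
      ∑ r ∈ R, Q * (Real.exp ((m - 1 : ℕ) * β) +
        Real.exp ((m + 1 : ℕ) * β - ind2 (m + 1) {f}ᶜ r.1.1 r.1.2)) +
      ∑ r ∈ R2, Q * Real.exp (m * β - ell2 {f}ᶜ α (Hf (uu r)) r.1.1 r.1.2) := by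
    rw [hYc, hR2, Finset.sum_filter, ← Finset.sum_add_distrib]
    refine Finset.sum_le_sum fun r hr => ?_
    by_cases h : ∃ U, Bad r U
    · rw [if_pos h]
      have h1 := (huu' r (Finset.mem_filter.2 ⟨hr, h⟩)).2.2
      have h2 : 0 ≤ Q * (Real.exp ((m - 1 : ℕ) * β) +
        Real.exp ((m + 1 : ℕ) * β - ind2 (m + 1) {f}ᶜ r.1.1 r.1.2)) := by positivity
      linarith
    · rw [if_neg h, add_zero]
      rcases hfib r hr with h1 | ⟨U, hU⟩
      · exact h1
      · exact absurd ⟨U, hU⟩ h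
  -- first sum
  have hcode : ∀ p ∈ R.image Prod.fst, Real.exp (- code bad p.1) ≤
      Bd * Real.exp (- ∑ v ∈ p.1.support, lnv v) := by
    intro p _
    rw [hBd, ← Real.exp_add]
    apply Real.exp_le_exp.2
    have h1 : ∑ v ∈ p.1.support, lnv v ≤ code bad p.1 + ∑ v ∈ bad, lnv v := by
      rw [code, gsupp, ← Finset.sum_filter_add_sum_filter_not p.1.support (fun v => v ∉ bad)]
      refine add_le_add ?_ ?_
      · exact le_of_eq (Finset.sum_congr (by ext; simp) fun _ _ => rfl)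
      · refine Finset.sum_le_sum_of_subset_of_nonneg ?_ fun v _ _ => (lnv_pos v).le
        intro v hv
        have := (Finset.mem_filter.1 hv).2
        push Not at this
        exact this
    linarith
  have hpk : ∀ p ∈ R.image Prod.fst, KeyOK2 (m + 1) {f} bad A β D₂ p.1 p.2 := by
    intro p hp
    obtain ⟨r, hr, rfl⟩ := Finset.mem_image.1 hp
    exact hRok r hr
  have hcast1 : ((m - 1 : ℕ) : ℝ) = (m : ℝ) - 1 := by
    rw [Nat.cast_sub hm, Nat.cast_one]
  have hcast2 : ((m + 1 : ℕ) : ℝ) = (m : ℝ) + 1 := by push_cast; ring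
  have hsum1 : ∑ r ∈ R, Q * (Real.exp ((m - 1 : ℕ) * β) +
        Real.exp ((m + 1 : ℕ) * β - ind2 (m + 1) {f}ᶜ r.1.1 r.1.2)) ≤
      Q * (Cc * (2 * Real.exp A * Bd * Ck)) *
        Real.exp (((m + 1 : ℕ) + 1 - D₂ + η) * β) := by
    have e1 : ∑ r ∈ R, Q * (Real.exp ((m - 1 : ℕ) * β) +
        Real.exp ((m + 1 : ℕ) * β - ind2 (m + 1) {f}ᶜ r.1.1 r.1.2)) =
        ∑ p ∈ R.image Prod.fst, ((R.filter fun r => r.1 = p).card : ℝ) *
          (Q * (Real.exp ((m - 1 : ℕ) * β) +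
            Real.exp ((m + 1 : ℕ) * β - ind2 (m + 1) {f}ᶜ p.1 p.2))) := by
      rw [Finset.sum_comp (fun p : (HeightOneSpectrum (𝓞 K) →₀ (Fin q → ℕ)) ×
        (InfinitePlace K → Fin q → ℕ) => Q * (Real.exp ((m - 1 : ℕ) * β) +
            Real.exp ((m + 1 : ℕ) * β - ind2 (m + 1) {f}ᶜ p.1 p.2)))
        Prod.fst]
      simp only [nsmul_eq_mul]
    rw [e1]
    have e2 : ∀ p ∈ R.image Prod.fst, ((R.filter fun r => r.1 = p).card : ℝ) *
          (Q * (Real.exp ((m - 1 : ℕ) * β) +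
            Real.exp ((m + 1 : ℕ) * β - ind2 (m + 1) {f}ᶜ p.1 p.2))) ≤
        Q * (Cc * (2 * Real.exp A * Bd)) * Real.exp (((m + 1 : ℕ) + 1 - D₂) * β) *
          Real.exp (- ∑ v ∈ p.1.support, lnv v) := by
      intro p hp
      have h1 := hN p (R.filter fun r => r.1 = p) (Finset.filter_subset _ _)
        (fun r hr => (Finset.mem_filter.1 hr).2)
      have h2 := hpk p hp
      have h3 : Real.exp (β - phi {f} p.1 p.2) * Real.exp ((m - 1 : ℕ) * β) ≤
          Real.exp A * Real.exp (((m + 1 : ℕ) + 1 - D₂) * β) * Real.exp (- code bad p.1) := by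
        rw [← Real.exp_add, ← Real.exp_add, ← Real.exp_add]
        apply Real.exp_le_exp.2
        have := h2.slack
        rw [hcast1, hcast2]
        nlinarith
      have h4 : Real.exp (β - phi {f} p.1 p.2) *
          Real.exp ((m + 1 : ℕ) * β - ind2 (m + 1) {f}ᶜ p.1 p.2) ≤
          Real.exp A * Real.exp (((m + 1 : ℕ) + 1 - D₂) * β) * Real.exp (- code bad p.1) := by
        rw [← Real.exp_add, ← Real.exp_add, ← Real.exp_add]
        apply Real.exp_le_exp.2
        have := h2.gain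
        rw [hcast2]
        nlinarith
      have h5 := hcode p hp
      calc ((R.filter fun r => r.1 = p).card : ℝ) *
            (Q * (Real.exp ((m - 1 : ℕ) * β) +
            Real.exp ((m + 1 : ℕ) * β - ind2 (m + 1) {f}ᶜ p.1 p.2)))
          ≤ (Cc * Real.exp (β - phi {f} p.1 p.2)) *
            (Q * (Real.exp ((m - 1 : ℕ) * β) +
            Real.exp ((m + 1 : ℕ) * β - ind2 (m + 1) {f}ᶜ p.1 p.2))) := by
            apply mul_le_mul_of_nonneg_right h1
            positivity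
        _ = Q * Cc * (Real.exp (β - phi {f} p.1 p.2) * Real.exp ((m - 1 : ℕ) * β) +
            Real.exp (β - phi {f} p.1 p.2) *
              Real.exp ((m + 1 : ℕ) * β - ind2 (m + 1) {f}ᶜ p.1 p.2)) := by
            ring
        _ ≤ Q * Cc * (Real.exp A * Real.exp (((m + 1 : ℕ) + 1 - D₂) * β) *
              Real.exp (- code bad p.1) +
            Real.exp A * Real.exp (((m + 1 : ℕ) + 1 - D₂) * β) *
              Real.exp (- code bad p.1)) := by
            gcongr
        _ = Q * (Cc * (2 * Real.exp A)) * Real.exp (((m + 1 : ℕ) + 1 - D₂) * β) *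
            Real.exp (- code bad p.1) := by ring
        _ ≤ Q * (Cc * (2 * Real.exp A)) * Real.exp (((m + 1 : ℕ) + 1 - D₂) * β) *
            (Bd * Real.exp (- ∑ v ∈ p.1.support, lnv v)) := by gcongr
        _ = Q * (Cc * (2 * Real.exp A * Bd)) * Real.exp (((m + 1 : ℕ) + 1 - D₂) * β) *
          Real.exp (- ∑ v ∈ p.1.support, lnv v) := by ring
    refine (Finset.sum_le_sum e2).trans ?_
    rw [← Finset.mul_sum]
    have h6 := hkey β hβ (R.image Prod.fst) (fun p hp => (hpk p hp).size)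
    calc Q * (Cc * (2 * Real.exp A * Bd)) * Real.exp (((m + 1 : ℕ) + 1 - D₂) * β) *
          ∑ p ∈ R.image Prod.fst, Real.exp (- ∑ v ∈ p.1.support, lnv v)
        ≤ Q * (Cc * (2 * Real.exp A * Bd)) * Real.exp (((m + 1 : ℕ) + 1 - D₂) * β) *
          (Ck * Real.exp (η * β)) := by gcongr
      _ = Q * (Cc * (2 * Real.exp A * Bd * Ck)) *
          (Real.exp (((m + 1 : ℕ) + 1 - D₂) * β) * Real.exp (η * β)) := by ring
      _ = Q * (Cc * (2 * Real.exp A * Bd * Ck)) *
          Real.exp (((m + 1 : ℕ) + 1 - D₂ + η) * β) := by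
          rw [← Real.exp_add]
          congr 2
          ring
  have hexpn : Real.exp ((m + 1) * β) * Real.exp (η * β) ≤
      Real.exp (((m + 1 : ℕ) + 1 - D₂ + η) * β) := by
    rw [← Real.exp_add]
    apply Real.exp_le_exp.2
    rw [hcast2]
    nlinarith
  -- second sum, split
  set P : (((HeightOneSpectrum (𝓞 K) →₀ (Fin q → ℕ)) ×
        (InfinitePlace K → Fin q → ℕ)) × K) → Prop := fun r =>
      ∑ v ∈ r.1.1.support, lnv v ≤
        phi {f} r.1.1 r.1.2 + ell2 {f}ᶜ α (Hf (uu r)) r.1.1 r.1.2 + c with hP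
  have hsplit2 : ∑ r ∈ R2, Q * Real.exp (m * β - ell2 {f}ᶜ α (Hf (uu r)) r.1.1 r.1.2) =
      ∑ r ∈ R2.filter P, Q * Real.exp (m * β - ell2 {f}ᶜ α (Hf (uu r)) r.1.1 r.1.2) +
      ∑ r ∈ R2.filter (fun r => ¬ P r),
        Q * Real.exp (m * β - ell2 {f}ᶜ α (Hf (uu r)) r.1.1 r.1.2) :=
    (Finset.sum_filter_add_sum_filter_not R2 P _).symm
  have hsum2a : ∑ r ∈ R2.filter P,
      Q * Real.exp (m * β - ell2 {f}ᶜ α (Hf (uu r)) r.1.1 r.1.2) ≤
      Q * (Cc * Real.exp c * Ck) * Real.exp (((m + 1 : ℕ) + 1 - D₂ + η) * β) := by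
    have e0 : ∑ r ∈ R2.filter P,
        Q * Real.exp (m * β - ell2 {f}ᶜ α (Hf (uu r)) r.1.1 r.1.2) ≤
        ∑ r ∈ R2.filter P,
        Q * Real.exp (m * β + phi {f} r.1.1 r.1.2 + c - ∑ v ∈ r.1.1.support, lnv v) := by
      refine Finset.sum_le_sum fun r hr => ?_
      have h := (Finset.mem_filter.1 hr).2
      simp only [hP] at h
      gcongr Q * Real.exp ?_
      linarith
    have e1 : ∑ r ∈ R2.filter P,
        Q * Real.exp (m * β + phi {f} r.1.1 r.1.2 + c - ∑ v ∈ r.1.1.support, lnv v) =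
        ∑ p ∈ (R2.filter P).image Prod.fst,
          (((R2.filter P).filter fun r => r.1 = p).card : ℝ) *
          (Q * Real.exp (m * β + phi {f} p.1 p.2 + c - ∑ v ∈ p.1.support, lnv v)) := by
      rw [Finset.sum_comp (fun p : (HeightOneSpectrum (𝓞 K) →₀ (Fin q → ℕ)) ×
        (InfinitePlace K → Fin q → ℕ) =>
          Q * Real.exp (m * β + phi {f} p.1 p.2 + c - ∑ v ∈ p.1.support, lnv v)) Prod.fst]
      simp only [nsmul_eq_mul]
    have hsubR : R2.filter P ⊆ R := (Finset.filter_subset _ _).trans (Finset.filter_subset _ _)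
    have e2 : ∀ p ∈ (R2.filter P).image Prod.fst,
          (((R2.filter P).filter fun r => r.1 = p).card : ℝ) *
          (Q * Real.exp (m * β + phi {f} p.1 p.2 + c - ∑ v ∈ p.1.support, lnv v)) ≤
          Q * (Cc * Real.exp c) * Real.exp ((m + 1) * β) *
            Real.exp (- ∑ v ∈ p.1.support, lnv v) := by
      intro p _
      have h1 := hN p ((R2.filter P).filter fun r => r.1 = p)
        ((Finset.filter_subset _ _).trans hsubR)
        (fun r hr => (Finset.mem_filter.1 hr).2)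
      calc (((R2.filter P).filter fun r => r.1 = p).card : ℝ) *
          (Q * Real.exp (m * β + phi {f} p.1 p.2 + c - ∑ v ∈ p.1.support, lnv v))
          ≤ (Cc * Real.exp (β - phi {f} p.1 p.2)) *
          (Q * Real.exp (m * β + phi {f} p.1 p.2 + c - ∑ v ∈ p.1.support, lnv v)) := by
            apply mul_le_mul_of_nonneg_right h1
            positivity
        _ = Q * Cc * (Real.exp (β - phi {f} p.1 p.2) *
            Real.exp (m * β + phi {f} p.1 p.2 + c - ∑ v ∈ p.1.support, lnv v)) := by ring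
        _ = Q * Cc * (Real.exp c * Real.exp ((m + 1) * β) *
            Real.exp (- ∑ v ∈ p.1.support, lnv v)) := by
            rw [← Real.exp_add, ← Real.exp_add, ← Real.exp_add]
            congr 2
            ring
        _ = _ := by ring
    refine e0.trans (e1.le.trans ((Finset.sum_le_sum e2).trans ?_))
    rw [← Finset.mul_sum]
    have h6 := hkey β hβ ((R2.filter P).image Prod.fst) (fun p hp =>
      (hpk p (Finset.image_subset_image hsubR hp)).size)
    calc Q * (Cc * Real.exp c) * Real.exp ((m + 1) * β) *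
            ∑ p ∈ (R2.filter P).image Prod.fst, Real.exp (- ∑ v ∈ p.1.support, lnv v)
        ≤ Q * (Cc * Real.exp c) * Real.exp ((m + 1) * β) * (Ck * Real.exp (η * β)) := by gcongr
      _ = Q * (Cc * Real.exp c * Ck) * (Real.exp ((m + 1) * β) * Real.exp (η * β)) := by ring
      _ ≤ Q * (Cc * Real.exp c * Ck) * Real.exp (((m + 1 : ℕ) + 1 - D₂ + η) * β) := by gcongr
  have hsum2b : ∑ r ∈ R2.filter (fun r => ¬ P r),
      Q * Real.exp (m * β - ell2 {f}ᶜ α (Hf (uu r)) r.1.1 r.1.2) ≤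
      Q * (Cc * Cm) * Real.exp (((m + 1 : ℕ) + 1 - D₂ + η) * β) := by
    set R3 := R2.filter (fun r => ¬ P r) with hR3
    have hR3R2 : R3 ⊆ R2 := Finset.filter_subset _ _
    have hR2R : R2 ⊆ R := Finset.filter_subset _ _
    set DD : (((HeightOneSpectrum (𝓞 K) →₀ (Fin q → ℕ)) ×
        (InfinitePlace K → Fin q → ℕ)) × K) →
        (HeightOneSpectrum (𝓞 K) →₀ (Fin q → ℕ)) × (InfinitePlace K → Fin q → ℕ) ×
        (Fin (m + 1) → K) := fun r => (r.1.1, r.1.2, Hf (uu r)) with hDD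
    have e1 : ∑ r ∈ R3, Q * Real.exp (m * β - ell2 {f}ᶜ α (Hf (uu r)) r.1.1 r.1.2) =
        ∑ d ∈ R3.image DD, ((R3.filter fun r => DD r = d).card : ℝ) *
          (Q * Real.exp (m * β - ell2 {f}ᶜ α d.2.2 d.1 d.2.1)) := by
      rw [Finset.sum_comp (fun d : (HeightOneSpectrum (𝓞 K) →₀ (Fin q → ℕ)) ×
        (InfinitePlace K → Fin q → ℕ) × (Fin (m + 1) → K) =>
          Q * Real.exp (m * β - ell2 {f}ᶜ α d.2.2 d.1 d.2.1)) DD]
      simp only [nsmul_eq_mul]
    rw [e1]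
    have e2 : ∀ d ∈ R3.image DD, ((R3.filter fun r => DD r = d).card : ℝ) *
          (Q * Real.exp (m * β - ell2 {f}ᶜ α d.2.2 d.1 d.2.1)) ≤
        Q * Cc * Real.exp ((m + 1) * β) *
          Real.exp (- phi {f} d.1 d.2.1 - ell2 {f}ᶜ α d.2.2 d.1 d.2.1) := by
      intro d _
      have h1 := hN (d.1, d.2.1) (R3.filter fun r => DD r = d)
        ((Finset.filter_subset _ _).trans (hR3R2.trans hR2R))
        (fun r hr => by
          have := (Finset.mem_filter.1 hr).2
          rw [← this])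
      calc ((R3.filter fun r => DD r = d).card : ℝ) *
          (Q * Real.exp (m * β - ell2 {f}ᶜ α d.2.2 d.1 d.2.1))
          ≤ (Cc * Real.exp (β - phi {f} d.1 d.2.1)) *
            (Q * Real.exp (m * β - ell2 {f}ᶜ α d.2.2 d.1 d.2.1)) := by
            apply mul_le_mul_of_nonneg_right h1
            positivity
        _ = Q * Cc * (Real.exp (β - phi {f} d.1 d.2.1) *
            Real.exp (m * β - ell2 {f}ᶜ α d.2.2 d.1 d.2.1)) := by ring
        _ = Q * Cc * (Real.exp ((m + 1) * β) *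
            Real.exp (- phi {f} d.1 d.2.1 - ell2 {f}ᶜ α d.2.2 d.1 d.2.1)) := by
            rw [← Real.exp_add, ← Real.exp_add]
            congr 2
            ring
        _ = _ := by ring
    refine (Finset.sum_le_sum e2).trans ?_
    rw [← Finset.mul_sum]
    have h6 := hmid' β D₂ hβ (R3.image DD) ?_ ?_ ?_ ?_ ?_
    · calc Q * Cc * Real.exp ((m + 1) * β) *
            ∑ d ∈ R3.image DD, Real.exp (- phi {f} d.1 d.2.1 - ell2 {f}ᶜ α d.2.2 d.1 d.2.1)
          ≤ Q * Cc * Real.exp ((m + 1) * β) * (Cm * Real.exp (η * β)) := by gcongr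
        _ = Q * (Cc * Cm) * (Real.exp ((m + 1) * β) * Real.exp (η * β)) := by ring
        _ ≤ Q * (Cc * Cm) * Real.exp (((m + 1 : ℕ) + 1 - D₂ + η) * β) := by gcongr
    · intro d hd
      obtain ⟨r, hr, rfl⟩ := Finset.mem_image.1 hd
      exact (hHf _ (huu' r (hR3R2 hr)).1).1
    · intro d hd d' hd' hdd
      obtain ⟨r, hr, rfl⟩ := Finset.mem_image.1 hd
      obtain ⟨r', hr', rfl⟩ := Finset.mem_image.1 hd'
      exact hHf' _ _ (huu' r (hR3R2 hr)).1 (huu' r' (hR3R2 hr')).1 hdd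
    · intro d hd
      obtain ⟨r, hr, rfl⟩ := Finset.mem_image.1 hd
      have h := hRok r (hR2R (hR3R2 hr))
      refine ⟨h.size.trans (by gcongr), ?_, ?_, h.useful, h.sel⟩
      · have := h.gain
        show D₂ * β - A' ≤ phi {f} r.1.1 r.1.2 + ind2 (m + 1) {f}ᶜ r.1.1 r.1.2 - code bad r.1.1
        linarith
      · have := h.slack
        show code bad r.1.1 - phi {f} r.1.1 r.1.2 ≤ D₂ * β + A'
        linarith
    · intro d hd
      obtain ⟨r, hr, rfl⟩ := Finset.mem_image.1 hd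
      have h := (huu' r (hR3R2 hr)).2.1
      show ell2 {f}ᶜ α (Hf (uu r)) r.1.1 r.1.2 ≤ A' * (β + 1)
      nlinarith
    · intro d hd
      obtain ⟨r, hr, rfl⟩ := Finset.mem_image.1 hd
      have h := (Finset.mem_filter.1 hr).2
      simp only [hP, not_le] at h
      exact h
  calc (Y.card : ℝ) ≤ _ := hsplit
    _ ≤ Q * (Cc * (2 * Real.exp A * Bd * Ck)) * Real.exp (((m + 1 : ℕ) + 1 - D₂ + η) * β) +
        (Q * (Cc * Real.exp c * Ck) * Real.exp (((m + 1 : ℕ) + 1 - D₂ + η) * β) +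
        Q * (Cc * Cm) * Real.exp (((m + 1 : ℕ) + 1 - D₂ + η) * β)) := by
        rw [hsplit2]
        exact add_le_add hsum1 (add_le_add hsum2a hsum2b)
    _ = _ := by ring

end Pool.Agent.Lib.MP_44a246_nt.HQ
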