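import Pool.Agent.Lib.MP_44a246_nt.HQ.Defs
import Pool.Agent.Lib.MP_44a246_nt.HP.Balance
import Pool.Agent.Lib.MP_44a246_nt.HP.Local

set_option autoImplicit false

open NumberField IsDedekindDomain Height
open Pool.Agent.Lib.MP_4d5ce1_nt (ordv fa nv)
open Pool.Agent.Lib.MP_44a246_nt.HP

namespace Pool.Agent.Lib.MP_44a246_nt.HQ

/-! ## HQ-12 -/

section pd

variable {K : Type*} [Field K] [NumberField K]

open Pool.Agent.Lib.MP_4d5ce1_nt

private lemma pd_finite_nv (C : ℝ) : {v : HeightOneSpectrum (𝓞 K) | nv v ≤ C}.Finite := by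
  have h1 : {I : Ideal (𝓞 K) | Ideal.absNorm I ≤ ⌊C⌋₊}.Finite :=
    Ideal.finite_setOfPred_absNorm_le _
  have h2 := h1.preimage (f := fun v : HeightOneSpectrum (𝓞 K) => v.asIdeal)
    (fun v _ w _ h => HeightOneSpectrum.ext h)
  refine h2.subset fun v hv => ?_
  simp only [Set.mem_preimage, Set.mem_ofPred_eq] at hv ⊢
  exact Nat.le_floor hv

private lemma pd_val_lt (v : HeightOneSpectrum (𝓞 K)) (x y : K) :
    v.valuation K x < v.valuation K y ↔ fa v x < fa v y := by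
  by_cases hy : y = 0
  · subst hy
    simp only [map_zero, fa_zero, not_lt_zero, false_iff, not_lt]
    exact fa_nonneg v x
  by_cases hx : x = 0
  · subst hx
    simp only [map_zero, fa_zero]
    constructor
    · intro _
      exact fa_pos v hy
    · intro _
      exact zero_lt_iff.2 ((Valuation.ne_zero_iff _).mpr hy)
  have hx' : v.valuation K x ≠ 0 := (Valuation.ne_zero_iff _).mpr hx
  have hy' : v.valuation K y ≠ 0 := (Valuation.ne_zero_iff _).mpr hy
  rw [← WithZero.log_lt_log hx' hy', fa_eq v hx, fa_eq v hy,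
    zpow_lt_zpow_iff_right₀ (one_lt_nv v), ordv, ordv, neg_neg, neg_neg]

private lemma pd_exists_inj {q m : ℕ} (T : Finset (Fin q)) (h : m ≤ T.card) :
    ∃ s : Fin m → Fin q, Function.Injective s ∧ ∀ i, s i ∈ T := by
  obtain ⟨T', hT', hc⟩ := Finset.exists_subset_card_eq h
  refine ⟨fun i => (T'.orderEmbOfFin hc i), (T'.orderEmbOfFin hc).injective, fun i => ?_⟩
  exact hT' (Finset.orderEmbOfFin_mem T' hc i)

private lemma pd_fa_eq (v : HeightOneSpectrum (𝓞 K)) {z : K} (hz : z ≠ 0) (h : fa v z ≤ 1) :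
    fa v z = (nv v ^ (ordv v z).toNat)⁻¹ := by
  have h1 : 0 ≤ ordv v z := (fa_le_one_iff v hz).1 h
  rw [fa_eq v hz, ← zpow_natCast, ← zpow_neg]
  congr 1
  omega

private lemma pd_prod {z : K} (hz : z ≠ 0) (hint : ∀ v, fa v z ≤ 1)
    (T : Finset (HeightOneSpectrum (𝓞 K))) (hT : ∀ v, ordv v z ≠ 0 → v ∈ T) :
    ∑ w : InfinitePlace K, (w.mult : ℝ) * Real.log (w z) =
      ∑ v ∈ T, ((ordv v z).toNat : ℝ) * lnv v := by
  rw [product_formula' hz, finsum_eq_sum_of_support_subset (s := T)]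
  · refine Finset.sum_congr rfl fun v _ => ?_
    have h1 : 0 ≤ ordv v z := (fa_le_one_iff v hz).1 (hint v)
    have h2 : ((ordv v z : ℤ) : ℝ) = ((ordv v z).toNat : ℝ) := by
      have : ((ordv v z).toNat : ℤ) = ordv v z := Int.toNat_of_nonneg h1
      exact_mod_cast this.symm
    rw [h2]
    rfl
  · intro v hv
    apply hT
    intro h0
    apply hv
    simp [h0]

private lemma pd_supp {q m : ℕ} {a : Fin q → Fin m → K} {y : Fin m → K}
    (h : ∀ l, lf (a l) y ≠ 0) :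
    (Function.support fun (v : HeightOneSpectrum (𝓞 K)) (l : Fin q) =>
      (ordv v (lf (a l) y)).toNat).Finite := by
  have h1 : (⋃ l : Fin q, {v : HeightOneSpectrum (𝓞 K) | ordv v (lf (a l) y) ≠ 0}).Finite :=
    Set.finite_iUnion fun l => finite_ordv_ne_zero (h l)
  refine h1.subset fun v hv => ?_
  obtain ⟨l, hl⟩ := Function.ne_iff.1 hv
  refine Set.mem_iUnion.2 ⟨l, ?_⟩
  intro h0
  apply hl
  simp [h0]

private lemma pd_sum_mult : ∑ w : InfinitePlace K, (w.mult : ℝ) = dg K := by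
  have := InfinitePlace.sum_mult_eq (K := K)
  rw [dg, ← this]
  push_cast
  rfl

private lemma pd_lf_int {m : ℕ} {a y : Fin m → K} {v : HeightOneSpectrum (𝓞 K)}
    (ha : ∀ i, fa v (a i) ≤ 1) (hy : ∀ i, fa v (y i) ≤ 1) : fa v (lf a y) ≤ 1 := by
  refine fa_sum_le v _ _ 1 zero_le_one fun i _ => ?_
  rw [fa_mul]
  exact mul_le_one₀ (ha i) (fa_nonneg _ _) (hy i)

private lemma pd_lf_smul {m : ℕ} (a x : Fin m → K) (t : K) : lf a (t • x) = t * lf a x := by
  simp only [lf, Pi.smul_apply, smul_eq_mul, Finset.mul_sum]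
  exact Finset.sum_congr rfl fun i _ => by ring

/-- the archimedean size of a form -/
private lemma pd_lf_le {m : ℕ} {a y : Fin m → K} (w : InfinitePlace K) {B : ℝ}
    (hy : ∀ i, w (y i) ≤ B) : w (lf a y) ≤ (∑ i, w (a i)) * B := by
  rw [lf, Finset.sum_mul]
  refine (w.1.sum_le _ _).trans ?_
  refine Finset.sum_le_sum fun i _ => ?_
  have : w (a i * y i) = w (a i) * w (y i) := map_mul _ _ _
  show w (a i * y i) ≤ _
  rw [this]
  exact mul_le_mul_of_nonneg_left (hy i) (apply_nonneg _ _)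

open Classical in
private lemma pd_indep {m q : ℕ} (a : Fin q → Fin m → K)
    (ha : ∀ s : Fin m → Fin q, Function.Injective s → LinearIndependent K fun i => a (s i)) :
    ∃ (bad : Finset (HeightOneSpectrum (𝓞 K))) (A : ℝ), 1 ≤ A ∧
      ∀ s : Fin m → Fin q, Function.Injective s →
      (∀ v ∉ bad, ∀ (y : Fin m → K) (i : Fin m), ∃ j, fa v (y i) ≤ fa v (lf (a (s j)) y)) ∧
      (∀ v, ∀ (y : Fin m → K) (i : Fin m), ∃ j, fa v (y i) ≤ A * fa v (lf (a (s j)) y)) ∧
      (∀ w : InfinitePlace K, ∀ (y : Fin m → K) (i : Fin m),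
        ∃ j, w (y i) ≤ A * w (lf (a (s j)) y)) := by
  have h : ∀ s : Fin m → Fin q, ∃ (bad : Finset (HeightOneSpectrum (𝓞 K))) (A : ℝ), 1 ≤ A ∧
      (Function.Injective s →
      (∀ v ∉ bad, ∀ (y : Fin m → K) (i : Fin m), ∃ j, fa v (y i) ≤ fa v (lf (a (s j)) y)) ∧
      (∀ v, ∀ (y : Fin m → K) (i : Fin m), ∃ j, fa v (y i) ≤ A * fa v (lf (a (s j)) y)) ∧
      (∀ w : InfinitePlace K, ∀ (y : Fin m → K) (i : Fin m),
        ∃ j, w (y i) ≤ A * w (lf (a (s j)) y))) := by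
    intro s
    by_cases hs : Function.Injective s
    · obtain ⟨bad, A, h1, h2, h3, h4⟩ := indep_bound K m (fun i => a (s i)) (ha s hs)
      exact ⟨bad, A, h1, fun _ => ⟨h2, h3, h4⟩⟩
    · exact ⟨∅, 1, le_rfl, fun h => absurd h hs⟩
  choose bad A h1 h2 using h
  refine ⟨Finset.univ.biUnion bad, 1 + ∑ s, A s, ?_, fun s hs => ?_⟩
  · have : 0 ≤ ∑ s, A s := Finset.sum_nonneg fun s _ => zero_le_one.trans (h1 s)
    linarith
  have hle : A s ≤ 1 + ∑ s, A s := by
    have := Finset.single_le_sum (f := A) (fun s _ => zero_le_one.trans (h1 s))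
      (Finset.mem_univ s)
    linarith
  obtain ⟨h3, h4, h5⟩ := h2 s hs
  refine ⟨fun v hv => h3 v fun h => hv ?_, fun v y i => ?_, fun w y i => ?_⟩
  · exact Finset.mem_biUnion.2 ⟨s, Finset.mem_univ _, h⟩
  · obtain ⟨j, hj⟩ := h4 v y i
    exact ⟨j, hj.trans (mul_le_mul_of_nonneg_right hle (fa_nonneg _ _))⟩
  · obtain ⟨j, hj⟩ := h5 w y i
    exact ⟨j, hj.trans (mul_le_mul_of_nonneg_right hle (apply_nonneg _ _))⟩

private lemma pd_badA {m q : ℕ} (a : Fin q → Fin m → K) :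
    {v : HeightOneSpectrum (𝓞 K) | ∃ l i, a l i ≠ 0 ∧ fa v (a l i) ≠ 1}.Finite := by
  have h1 : (⋃ l : Fin q, ⋃ i : Fin m,
      {v : HeightOneSpectrum (𝓞 K) | a l i ≠ 0 ∧ fa v (a l i) ≠ 1}).Finite := by
    refine Set.finite_iUnion fun l => Set.finite_iUnion fun i => ?_
    by_cases h : a l i = 0
    · refine Set.Finite.subset Set.finite_empty fun v hv => ?_
      exact hv.1 h
    · exact (finite_fa_ne_one h).subset fun v hv => hv.2
  refine h1.subset fun v hv => ?_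
  obtain ⟨l, i, h2⟩ := hv
  exact Set.mem_iUnion.2 ⟨l, Set.mem_iUnion.2 ⟨i, h2⟩⟩

/-- a coordinate of absolute value one -/
private lemma pd_unit {C₀ : ℝ} {m : ℕ} {y : Fin m → K} (hB : Bal C₀ y) (hC : 1 ≤ C₀)
    {v : HeightOneSpectrum (𝓞 K)} (hv : C₀ < nv v) : ∃ j, fa v (y j) = 1 := by
  obtain ⟨j, hj⟩ := hB.cont v
  refine ⟨j, ?_⟩
  have h0 : 0 < C₀⁻¹ := by positivity
  have hy : y j ≠ 0 := by
    intro h
    rw [h, fa_zero] at hj
    linarith
  have h1 := pd_fa_eq v hy (hB.int v j)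
  rw [h1] at hj ⊢
  have h2 : (ordv v (y j)).toNat = 0 := by
    by_contra h3
    have h4 : 1 ≤ (ordv v (y j)).toNat := Nat.one_le_iff_ne_zero.2 h3
    have h5 : nv v ≤ nv v ^ (ordv v (y j)).toNat := by
      calc nv v = nv v ^ 1 := (pow_one _).symm
        _ ≤ _ := pow_le_pow_right₀ (one_lt_nv v).le h4
    have h6 : nv v ^ (ordv v (y j)).toNat ≤ C₀ := by
      rwa [inv_le_inv₀ (by linarith) (pow_pos (nv_pos v) _)] at hj
    linarith
  rw [h2, pow_zero, inv_one]

private lemma pd_form {q m : ℕ} {a : Fin q → Fin m → K} {y : Fin m → K}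
    (h : ∀ l, lf (a l) y ≠ 0) (hf : ∀ (v : HeightOneSpectrum (𝓞 K)) l, fa v (lf (a l) y) ≤ 1)
    (E : HeightOneSpectrum (𝓞 K) →₀ (Fin q → ℕ))
    (hE : ∀ v l, E v l = (ordv v (lf (a l) y)).toNat) (l : Fin q) (B : ℝ) :
    ∑ v ∈ E.support, (E v l : ℝ) * lnv v +
      ∑ w : InfinitePlace K, (w.mult : ℝ) * (B - Real.log (w (lf (a l) y))) = dg K * B := by
  have h1 := pd_prod (h l) (fun v => hf v l) E.support (fun v hv => by
    rw [Finsupp.mem_support_iff]
    intro h0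
    apply hv
    have h2 : E v l = 0 := by rw [h0]; rfl
    rw [hE] at h2
    have h3 : 0 ≤ ordv v (lf (a l) y) := (fa_le_one_iff v (h l)).1 (hf v l)
    omega)
  simp only [hE, mul_sub, Finset.sum_sub_distrib]
  rw [h1, ← Finset.sum_mul, pd_sum_mult]
  ring

private lemma pd_siz {q : ℕ} (E : HeightOneSpectrum (𝓞 K) →₀ (Fin q → ℕ))
    (k : InfinitePlace K → Fin q → ℕ) :
    siz E k = ∑ l, (∑ v ∈ E.support, (E v l : ℝ) * lnv v + ∑ w, (k w l : ℝ)) := by
  rw [siz, Finset.sum_add_distrib, Finset.sum_comm, Finset.sum_comm (f := fun l w => (k w l : ℝ))]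
  congr 1
  · refine Finset.sum_congr rfl fun v _ => ?_
    rw [← Finset.sum_mul]
    push_cast
    rfl
  · refine Finset.sum_congr rfl fun w _ => ?_
    push_cast
    rfl

open Classical in
private lemma pd_trunc {q m : ℕ} {S : Set (HeightOneSpectrum (𝓞 K))} {a : Fin q → Fin m → K}
    {x y : Fin m → K} {t : K} (ht : t ≠ 0) (hy : y = t • x) {C₀ : ℝ} (hB : Bal C₀ y) (hC : 1 ≤ C₀)
    (hint : ∀ l i (v : HeightOneSpectrum (𝓞 K)), fa v (a l i) ≤ 1)
    (h : ∀ l, lf (a l) y ≠ 0)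
    (E : HeightOneSpectrum (𝓞 K) →₀ (Fin q → ℕ))
    (hE : ∀ v l, E v l = (ordv v (lf (a l) y)).toNat) (bad : Finset (HeightOneSpectrum (𝓞 K)))
    (b1 : ∀ v ∉ bad, v ∉ S) (b2 : ∀ v ∉ bad, C₀ < nv v)
    (b3 : ∀ v ∉ bad, ∀ l i, a l i ≠ 0 → fa v (a l i) = 1) :
    ∑ v ∈ gsupp bad E, lnv v ≤ truncCount S a x := by
  have key : ∀ (v : HeightOneSpectrum (𝓞 K)) l i j, (v.valuation K (∑ k, a l k * x k) <
      v.valuation K (a l i) * v.valuation K (x j)) ↔
      fa v (lf (a l) y) < fa v (a l i) * fa v (y j) := by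
    intro v l i j
    have h1 : v.valuation K (∑ k, a l k * x k) < v.valuation K (a l i) * v.valuation K (x j) ↔
        fa v (lf (a l) x) < fa v (a l i * x j) := by
      rw [← map_mul, pd_val_lt]
      rfl
    rw [h1, hy, pd_lf_smul, fa_mul, fa_mul, Pi.smul_apply, smul_eq_mul, fa_mul]
    have h2 := fa_pos v ht
    constructor
    · intro h3
      calc fa v t * fa v (lf (a l) x) < fa v t * (fa v (a l i) * fa v (x j)) := by gcongr
        _ = _ := by ring
    · intro h3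
      by_contra h4
      push Not at h4
      have : fa v (a l i) * (fa v t * fa v (x j)) ≤ fa v t * fa v (lf (a l) x) := by
        calc _ = fa v t * (fa v (a l i) * fa v (x j)) := by ring
          _ ≤ _ := by gcongr
      linarith
  have hfl : ∀ (v : HeightOneSpectrum (𝓞 K)) l, fa v (lf (a l) y) ≤ 1 :=
    fun v l => pd_lf_int (fun i => hint l i v) (fun i => hB.int v i)
  set P : HeightOneSpectrum (𝓞 K) → Prop := fun v => v ∉ S ∧ ∃ l i j,
    v.valuation K (∑ k, a l k * x k) < v.valuation K (a l i) * v.valuation K (x j) with hP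
  have hs : {v | P v} = ((E.support.filter P : Finset _) : Set (HeightOneSpectrum (𝓞 K))) := by
    ext v
    rw [Set.mem_ofPred_eq, Finset.coe_filter, Set.mem_ofPred_eq]
    refine ⟨fun hv => ⟨?_, hv⟩, fun hv => hv.2⟩
    obtain ⟨_, l, i, j, h1⟩ := hv
    rw [key] at h1
    have h2 : fa v (lf (a l) y) < 1 :=
      h1.trans_le (mul_le_one₀ (hint l i v) (fa_nonneg _ _) (hB.int v j))
    rw [Finsupp.mem_support_iff]
    intro h0
    have h3 : E v l = 0 := by rw [h0]; rfl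
    rw [hE] at h3
    have h4 := pd_fa_eq v (h l) (hfl v l)
    rw [h3, pow_zero, inv_one] at h4
    linarith
  have ht' : truncCount S a x = ∑ v ∈ E.support.filter P, lnv v := by
    rw [← finsum_mem_coe_finset, ← hs]
    rfl
  rw [ht']
  refine Finset.sum_le_sum_of_subset_of_nonneg (fun v hv => ?_) fun v _ _ => (lnv_pos v).le
  rw [gsupp, Finset.mem_filter] at hv
  rw [Finset.mem_filter]
  refine ⟨hv.1, b1 v hv.2, ?_⟩
  obtain ⟨l, hl⟩ := Function.ne_iff.1 (Finsupp.mem_support_iff.1 hv.1)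
  have hl' : (ordv v (lf (a l) y)).toNat ≠ 0 := by rw [← hE]; exact hl
  obtain ⟨i, hi⟩ : ∃ i, a l i ≠ 0 := by
    by_contra h0
    push Not at h0
    apply h l
    rw [lf]
    exact Finset.sum_eq_zero fun i _ => by rw [h0 i, zero_mul]
  obtain ⟨j, hj⟩ := pd_unit hB hC (b2 v hv.2)
  refine ⟨l, i, j, ?_⟩
  rw [key, hj, b3 v hv.2 l i hi, one_mul, pd_fa_eq v (h l) (hfl v l)]
  exact inv_lt_one_of_one_lt₀ (one_lt_pow₀ (one_lt_nv v) hl')

end pd

theorem point_data2 (K : Type*) [Field K] [NumberField K] (n q : ℕ)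
    (hq : n + 1 ≤ q) (a : Fin q → Fin (n + 1) → K)
    (ha : ∀ s : Fin (n + 1) → Fin q, Function.Injective s → LinearIndependent K fun i => a (s i))
    (hint : ∀ l i (v : HeightOneSpectrum (𝓞 K)), fa v (a l i) ≤ 1)
    (S : Set (HeightOneSpectrum (𝓞 K))) (hS : S.Finite) (D c : ℝ) :
    ∃ bad₀ : Finset (HeightOneSpectrum (𝓞 K)), ∀ bad, bad₀ ⊆ bad → ∃ A : ℝ, 1 ≤ A ∧
      ∀ x : Fin (n + 1) → K, (∀ l, lf (a l) x ≠ 0) →
      truncCount S a x ≤ (q - D) * logHeight x + c →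
      ∃ t : K, t ≠ 0 ∧ ∃ (E : HeightOneSpectrum (𝓞 K) →₀ (Fin q → ℕ))
        (k : InfinitePlace K → Fin q → ℕ),
        InBox Finset.univ a A (logHeight x) E k (t • x) ∧
        siz E k ≤ A * (logHeight x + 1) ∧
        D * logHeight x - A ≤
          ∑ v ∈ gsupp bad E, (((∑ l, E v l : ℕ) : ℝ) - 1) * lnv v +
          ∑ v ∈ bad, ((∑ l, E v l : ℕ) : ℝ) * lnv v + ∑ w, ((∑ l, k w l : ℕ) : ℝ) ∧
        (∀ v, v ∉ bad → (Finset.univ.filter fun l => E v l ≠ 0).card ≤ n) ∧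
        (∀ v ∈ bad, (Finset.univ.filter fun l => A < (E v l : ℝ)).card ≤ n) ∧
        (∀ w, (Finset.univ.filter fun l => A < (k w l : ℝ)).card ≤ n) := by
  classical
  obtain ⟨C₀, hC₀, hbal⟩ := exists_bal K (n + 1)
  obtain ⟨badI, A', hA', hI⟩ := pd_indep a ha
  have hdg : 0 < dg K := by
    rw [dg]
    exact_mod_cast Module.finrank_pos
  have hC₀p : 0 < C₀ := by linarith
  obtain ⟨C1, hC1, hC1'⟩ : ∃ C1 : ℝ, 1 ≤ C1 ∧ ∀ (w : InfinitePlace K) l,
      (∑ i, w (a l i)) * C₀ ≤ C1 := by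
    refine ⟨1 + ∑ w : InfinitePlace K, ∑ l, (∑ i, w (a l i)) * C₀, ?_, fun w l => ?_⟩
    · have : 0 ≤ ∑ w : InfinitePlace K, ∑ l, (∑ i, w (a l i)) * C₀ :=
        Finset.sum_nonneg fun w _ => Finset.sum_nonneg fun l _ =>
          mul_nonneg (Finset.sum_nonneg fun i _ => apply_nonneg _ _) hC₀p.le
      linarith
    · have h1 : (∑ i, w (a l i)) * C₀ ≤ ∑ l, (∑ i, w (a l i)) * C₀ :=
        Finset.single_le_sum (f := fun l => (∑ i, w (a l i)) * C₀)
          (fun l _ => mul_nonneg (Finset.sum_nonneg fun i _ => apply_nonneg _ _) hC₀p.le)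
          (Finset.mem_univ l)
      have h2 : ∑ l, (∑ i, w (a l i)) * C₀ ≤
          ∑ w : InfinitePlace K, ∑ l, (∑ i, w (a l i)) * C₀ :=
        Finset.single_le_sum (f := fun w : InfinitePlace K => ∑ l, (∑ i, w (a l i)) * C₀)
          (fun w _ => Finset.sum_nonneg fun l _ =>
            mul_nonneg (Finset.sum_nonneg fun i _ => apply_nonneg _ _) hC₀p.le)
          (Finset.mem_univ w)
      linarith
  obtain ⟨c0, hc0, hc0'⟩ : ∃ c0 : ℕ, A' * C₀ < 2 ^ c0 ∧ A' * C1 * C₀ < Real.exp ((c0 : ℝ) / 2) := by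
    obtain ⟨n1, h1⟩ := pow_unbounded_of_one_lt (A' * C₀) (one_lt_two)
    obtain ⟨n2, h2⟩ := exists_nat_gt (2 * (A' * C1 * C₀))
    refine ⟨max n1 n2, h1.trans_le (pow_le_pow_right₀ one_le_two (le_max_left _ _)), ?_⟩
    have h3 := Real.add_one_le_exp (((max n1 n2 : ℕ) : ℝ) / 2)
    have h4 : (n2 : ℝ) ≤ ((max n1 n2 : ℕ) : ℝ) := by exact_mod_cast le_max_right _ _
    linarith
  refine ⟨badI ∪ (pd_finite_nv C₀).toFinset ∪ (pd_badA a).toFinset ∪ hS.toFinset,
    fun bad hbad => ?_⟩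
  have b0 : ∀ v ∉ bad, v ∉ badI := fun v hv h => hv (hbad (by simp [h]))
  have b1 : ∀ v ∉ bad, v ∉ S := fun v hv h => hv (hbad (by simp [h]))
  have b2 : ∀ v ∉ bad, C₀ < nv v := fun v hv => by
    by_contra h
    push Not at h
    exact hv (hbad (by simp [h]))
  have b3 : ∀ v ∉ bad, ∀ l i, a l i ≠ 0 → fa v (a l i) = 1 := fun v hv l i h0 => by
    by_contra h
    refine hv (hbad ?_)
    simp only [Finset.mem_union, Set.Finite.mem_toFinset, Set.mem_ofPred_eq]
    exact Or.inl (Or.inr ⟨l, i, h0, h⟩)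
  have hlog : 0 ≤ Real.log C1 := Real.log_nonneg hC1
  obtain ⟨A, hA0, hA1, hA2, hA3, hA4, hA5⟩ : ∃ A : ℝ, 1 ≤ A ∧ C1 ≤ A ∧
      (q : ℝ) * (1 + dg K * Real.log C1) ≤ A ∧
      (q : ℝ) * (Fintype.card (InfinitePlace K)) + |c| ≤ A ∧
      (∀ v ∈ bad, (q : ℝ) * c0 * lnv v ≤ A) ∧ (c0 : ℝ) ≤ A := by
    have n1 : 0 ≤ (q : ℝ) * (1 + dg K * Real.log C1) := by positivity
    have n2 : 0 ≤ (q : ℝ) * (Fintype.card (InfinitePlace K)) + |c| := by positivity
    have n3 : 0 ≤ ∑ v ∈ bad, (q : ℝ) * c0 * lnv v :=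
      Finset.sum_nonneg fun v _ => mul_nonneg (by positivity) (lnv_pos v).le
    have n4 : 0 ≤ (c0 : ℝ) := by positivity
    refine ⟨C1 + (q : ℝ) * (1 + dg K * Real.log C1) +
      ((q : ℝ) * (Fintype.card (InfinitePlace K)) + |c|) + ∑ v ∈ bad, (q : ℝ) * c0 * lnv v +
      (c0 : ℝ), by linarith, by linarith, by linarith, by linarith, fun v hv => ?_,
      by linarith⟩
    have := Finset.single_le_sum (f := fun v => (q : ℝ) * c0 * lnv v)
      (fun v _ => mul_nonneg (by positivity) (lnv_pos v).le) hv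
    linarith
  refine ⟨A, hA0, fun x hx htr => ?_⟩
  have hx0 : x ≠ 0 := by
    rintro rfl
    exact hx ⟨0, by omega⟩ (by simp [lf])
  obtain ⟨t, ht, hB⟩ := hbal x hx0
  refine ⟨t, ht, ?_⟩
  have hh : logHeight (t • x) = logHeight x := logHeight_smul_eq_logHeight x ht
  have hh0 : 0 ≤ logHeight x := logHeight_nonneg x
  obtain ⟨y, hy⟩ : ∃ y, y = t • x := ⟨_, rfl⟩
  rw [← hy] at hB hh ⊢
  set h : ℝ := logHeight x with hhd
  have hly : ∀ l, lf (a l) y ≠ 0 := by
    intro l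
    rw [hy, pd_lf_smul]
    exact mul_ne_zero ht (hx l)
  have hfl : ∀ (v : HeightOneSpectrum (𝓞 K)) l, fa v (lf (a l) y) ≤ 1 :=
    fun v l => pd_lf_int (fun i => hint l i v) (fun i => hB.int v i)
  obtain ⟨E, hE⟩ : ∃ E : HeightOneSpectrum (𝓞 K) →₀ (Fin q → ℕ),
      ∀ v l, E v l = (ordv v (lf (a l) y)).toNat :=
    ⟨Finsupp.ofSupportFinite _ (pd_supp hly), fun v l => rfl⟩
  have hfE : ∀ v l, fa v (lf (a l) y) = (nv v ^ E v l)⁻¹ := by
    intro v l
    rw [pd_fa_eq v (hly l) (hfl v l), hE]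
  have hwp : ∀ (w : InfinitePlace K) l, 0 < w (lf (a l) y) :=
    fun w l => InfinitePlace.pos_iff.mpr (hly l)
  have hwle : ∀ (w : InfinitePlace K) l, w (lf (a l) y) ≤ C1 * Real.exp (h / dg K) := by
    intro w l
    have h1 := pd_lf_le (a := a l) w (fun i => hB.up w i)
    rw [hh] at h1
    refine h1.trans ?_
    rw [← mul_assoc]
    exact mul_le_mul_of_nonneg_right (hC1' w l) (Real.exp_pos _).le
  have hlogle : ∀ (w : InfinitePlace K) l, Real.log (w (lf (a l) y)) ≤ h / dg K + Real.log C1 := by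
    intro w l
    have h1 := Real.log_le_log (hwp w l) (hwle w l)
    rw [Real.log_mul (by linarith) (Real.exp_pos _).ne', Real.log_exp] at h1
    linarith
  have hmult : ∀ w : InfinitePlace K, 0 < (w.mult : ℝ) := fun w => by
    exact_mod_cast InfinitePlace.mult_pos
  obtain ⟨k, hk⟩ : ∃ k : InfinitePlace K → Fin q → ℕ, ∀ w l, k w l =
      ⌊(w.mult : ℝ) * (h / dg K + Real.log C1 - Real.log (w (lf (a l) y)))⌋₊ := ⟨_, fun _ _ => rfl⟩
  have harg : ∀ (w : InfinitePlace K) l,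
      0 ≤ (w.mult : ℝ) * (h / dg K + Real.log C1 - Real.log (w (lf (a l) y))) := fun w l =>
    mul_nonneg (hmult w).le (by linarith [hlogle w l])
  have hk1 : ∀ (w : InfinitePlace K) l, (k w l : ℝ) ≤
      (w.mult : ℝ) * (h / dg K + Real.log C1 - Real.log (w (lf (a l) y))) := by
    intro w l
    rw [hk]
    exact Nat.floor_le (harg w l)
  have hk2 : ∀ (w : InfinitePlace K) l,
      (w.mult : ℝ) * (h / dg K + Real.log C1 - Real.log (w (lf (a l) y))) ≤ k w l + 1 := by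
    intro w l
    rw [hk]
    exact (Nat.lt_floor_add_one _).le
  have hwk : ∀ (w : InfinitePlace K) l,
      w (lf (a l) y) ≤ C1 * Real.exp (h / dg K - (k w l : ℝ) / (w.mult : ℝ)) := by
    intro w l
    have h1 : (k w l : ℝ) / (w.mult : ℝ) ≤
        h / dg K + Real.log C1 - Real.log (w (lf (a l) y)) := by
      rw [div_le_iff₀ (hmult w), mul_comm]
      exact hk1 w l
    calc w (lf (a l) y) = Real.exp (Real.log (w (lf (a l) y))) := (Real.exp_log (hwp w l)).symm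
      _ ≤ Real.exp (Real.log C1 + (h / dg K - (k w l : ℝ) / (w.mult : ℝ))) :=
        Real.exp_le_exp.2 (by linarith)
      _ = _ := by rw [Real.exp_add, Real.exp_log (by linarith)]
  have hform : ∀ l, ∑ v ∈ E.support, (E v l : ℝ) * lnv v +
      ∑ w : InfinitePlace K, (w.mult : ℝ) * (h / dg K + Real.log C1 - Real.log (w (lf (a l) y))) =
      h + dg K * Real.log C1 := by
    intro l
    rw [pd_form hly hfl E hE l]
    field_simp
  have hup : ∀ l, ∑ v ∈ E.support, (E v l : ℝ) * lnv v + ∑ w, (k w l : ℝ) ≤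
      h + dg K * Real.log C1 := by
    intro l
    rw [← hform l]
    have := Finset.sum_le_sum fun (w : InfinitePlace K) (_ : w ∈ Finset.univ) => hk1 w l
    linarith
  have hlow : ∀ l, h - Fintype.card (InfinitePlace K) ≤
      ∑ v ∈ E.support, (E v l : ℝ) * lnv v + ∑ w, (k w l : ℝ) := by
    intro l
    have h1 := Finset.sum_le_sum fun (w : InfinitePlace K) (_ : w ∈ Finset.univ) => hk2 w l
    rw [Finset.sum_add_distrib, Finset.sum_const, Finset.card_univ, nsmul_eq_mul, mul_one] at h1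
    have h2 := hform l
    have h3 : 0 ≤ dg K * Real.log C1 := by positivity
    linarith
  have hsizup : siz E k ≤ q * (h + dg K * Real.log C1) := by
    rw [pd_siz]
    refine (Finset.sum_le_sum fun l _ => hup l).trans (le_of_eq ?_)
    rw [Finset.sum_const, Finset.card_univ, Fintype.card_fin, nsmul_eq_mul]
  have hsizlow : q * (h - Fintype.card (InfinitePlace K)) ≤ siz E k := by
    rw [pd_siz]
    refine le_trans (le_of_eq ?_) (Finset.sum_le_sum fun l _ => hlow l)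
    rw [Finset.sum_const, Finset.card_univ, Fintype.card_fin, nsmul_eq_mul]
  refine ⟨E, k, ⟨fun v l _ => (hfE v l).le, fun w l _ => ?_⟩, ?_, ?_, ?_, ?_, ?_⟩
  · exact (hwk w l).trans (mul_le_mul_of_nonneg_right hA1 (Real.exp_pos _).le)
  · refine hsizup.trans ?_
    have hq0 : (0 : ℝ) ≤ q := Nat.cast_nonneg q
    have e0 : (0 : ℝ) ≤ q * (dg K * Real.log C1) := by positivity
    have e1 : (q : ℝ) * (1 + dg K * Real.log C1) = q + q * (dg K * Real.log C1) := by ring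
    have e2 : (q : ℝ) * (h + dg K * Real.log C1) = q * h + q * (dg K * Real.log C1) := by ring
    have hA6 : (q : ℝ) ≤ A := by linarith
    have e3 := mul_le_mul_of_nonneg_right hA6 hh0
    linarith
  · have e1 : siz E k = ∑ v ∈ gsupp bad E, ((∑ l, E v l : ℕ) : ℝ) * lnv v +
        ∑ v ∈ E.support.filter (fun v => ¬ v ∉ bad), ((∑ l, E v l : ℕ) : ℝ) * lnv v +
        ∑ w, ((∑ l, k w l : ℕ) : ℝ) := by
      rw [siz, gsupp, Finset.sum_filter_add_sum_filter_not]
    have e2 : ∑ v ∈ E.support.filter (fun v => ¬ v ∉ bad), ((∑ l, E v l : ℕ) : ℝ) * lnv v ≤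
        ∑ v ∈ bad, ((∑ l, E v l : ℕ) : ℝ) * lnv v := by
      refine Finset.sum_le_sum_of_subset_of_nonneg (fun v hv => ?_) fun v _ _ =>
        mul_nonneg (Nat.cast_nonneg _) (lnv_pos v).le
      exact not_not.1 (Finset.mem_filter.1 hv).2
    have e3 : ∑ v ∈ gsupp bad E, (((∑ l, E v l : ℕ) : ℝ) - 1) * lnv v =
        ∑ v ∈ gsupp bad E, ((∑ l, E v l : ℕ) : ℝ) * lnv v - ∑ v ∈ gsupp bad E, lnv v := by
      rw [← Finset.sum_sub_distrib]
      exact Finset.sum_congr rfl fun v _ => by ring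
    have e4 := pd_trunc ht hy hB hC₀ hint hly E hE bad b1 b2 b3
    have e5 := le_abs_self c
    rw [e3]
    linarith
  · intro v hv
    by_contra hcon
    push Not at hcon
    obtain ⟨s, hs, hs'⟩ := pd_exists_inj (m := n + 1) _ hcon
    obtain ⟨j0, hj0⟩ := pd_unit hB hC₀ (b2 v hv)
    obtain ⟨j, hj⟩ := (hI s hs).1 v (b0 v hv) y j0
    rw [hj0, hfE] at hj
    have h1 := (Finset.mem_filter.1 (hs' j)).2
    have h2 := inv_lt_one_of_one_lt₀ (one_lt_pow₀ (Pool.Agent.Lib.MP_4d5ce1_nt.one_lt_nv v) h1)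
    linarith
  · intro v hv
    have hcard : (Finset.univ.filter fun l => c0 < E v l).card ≤ n := by
      by_contra hcon
      push Not at hcon
      obtain ⟨s, hs, hs'⟩ := pd_exists_inj (m := n + 1) _ hcon
      obtain ⟨j0, hj0⟩ := hB.cont v
      obtain ⟨j, hj⟩ := (hI s hs).2.1 v y j0
      rw [hfE] at hj
      have h1 := (Finset.mem_filter.1 (hs' j)).2
      have h2 : (2 : ℝ) ^ c0 ≤ nv v ^ E v (s j) := by
        calc (2 : ℝ) ^ c0 ≤ nv v ^ c0 :=
              pow_le_pow_left₀ (by norm_num) (Pool.Agent.Lib.MP_4d5ce1_nt.two_le_nv v) _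
          _ ≤ _ := pow_le_pow_right₀ (Pool.Agent.Lib.MP_4d5ce1_nt.one_lt_nv v).le h1.le
      have h3 : 0 < nv v ^ E v (s j) := pow_pos (Pool.Agent.Lib.MP_4d5ce1_nt.nv_pos v) _
      have h4 : C₀⁻¹ ≤ A' * (nv v ^ E v (s j))⁻¹ := hj0.trans hj
      rw [← div_eq_mul_inv, inv_le_iff_one_le_mul₀ hC₀p, div_mul_eq_mul_div, le_div_iff₀ h3] at h4
      linarith
    refine le_trans (Finset.card_le_card fun l hl => ?_) hcard
    rw [Finset.mem_filter] at hl ⊢
    refine ⟨hl.1, ?_⟩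
    have h1 : (c0 : ℝ) < (E v l : ℝ) := lt_of_le_of_lt hA5 hl.2
    exact_mod_cast h1
  · intro w
    have hcard : (Finset.univ.filter fun l => c0 < k w l).card ≤ n := by
      by_contra hcon
      push Not at hcon
      obtain ⟨s, hs, hs'⟩ := pd_exists_inj (m := n + 1) _ hcon
      obtain ⟨j0, hj0⟩ := hB.low w
      obtain ⟨j, hj⟩ := (hI s hs).2.2 w y j0
      rw [hh] at hj0
      have h1 := (Finset.mem_filter.1 (hs' j)).2
      have h2 : (w.mult : ℝ) ≤ 2 := by
        rw [InfinitePlace.mult]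
        split_ifs <;> norm_num
      have h3 : (c0 : ℝ) / 2 ≤ (k w (s j) : ℝ) / (w.mult : ℝ) := by
        have h5 : (c0 : ℝ) ≤ k w (s j) := by exact_mod_cast h1.le
        rw [div_le_div_iff₀ two_pos (hmult w)]
        exact mul_le_mul h5 h2 (hmult w).le (Nat.cast_nonneg _)
      have h6 : A' * w (lf (a (s j)) y) ≤
          A' * (C1 * (Real.exp (h / dg K) * (Real.exp ((c0 : ℝ) / 2))⁻¹)) := by
        refine mul_le_mul_of_nonneg_left ((hwk w (s j)).trans ?_) (by linarith)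
        refine mul_le_mul_of_nonneg_left ?_ (by linarith)
        rw [← Real.exp_neg, ← Real.exp_add]
        exact Real.exp_le_exp.2 (by linarith)
      have h7 := hj0.trans (hj.trans h6)
      have h8 : 0 < Real.exp (h / dg K) := Real.exp_pos _
      have h9 : 0 < Real.exp ((c0 : ℝ) / 2) := Real.exp_pos _
      have h10 : C₀⁻¹ ≤ A' * C1 * (Real.exp ((c0 : ℝ) / 2))⁻¹ := by
        by_contra h11
        push Not at h11
        have := mul_lt_mul_of_pos_right h11 h8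
        linarith
      rw [← div_eq_mul_inv, inv_le_iff_one_le_mul₀ hC₀p, div_mul_eq_mul_div, le_div_iff₀ h9] at h10
      linarith
    refine le_trans (Finset.card_le_card fun l hl => ?_) hcard
    rw [Finset.mem_filter] at hl ⊢
    refine ⟨hl.1, ?_⟩
    have h1 : (c0 : ℝ) < (k w l : ℝ) := lt_of_le_of_lt hA5 hl.2
    exact_mod_cast h1

end Pool.Agent.Lib.MP_44a246_nt.HQ
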