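import Pool.Agent.Lib.MP_44a246_nt.HQ.FinalAux2
import Pool.Agent.Lib.MP_44a246_nt.HQ.Fixed2
import Pool.Agent.Lib.MP_44a246_nt.HQ.PointData2
import Pool.Agent.Lib.MP_44a246_nt.HP.Final

set_option autoImplicit false

open NumberField IsDedekindDomain Height
open Pool.Agent.Lib.MP_4d5ce1_nt (ordv fa nv)
open Pool.Agent.Lib.MP_44a246_nt.HP

namespace Pool.Agent.Lib.MP_44a246_nt.HQ

/-! ## HQ-13 -/

theorem final_integral2 (K : Type*) [Field K] [NumberField K] (n q : ℕ) (hn : 2 ≤ n)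
    (hq : n + 1 ≤ q) (a : Fin q → Fin (n + 1) → K)
    (ha : ∀ s : Fin (n + 1) → Fin q, Function.Injective s → LinearIndependent K fun i => a (s i))
    (hint : ∀ l i (v : HeightOneSpectrum (𝓞 K)), fa v (a l i) ≤ 1)
    (S : Set (HeightOneSpectrum (𝓞 K))) (hS : S.Finite) (D c η : ℝ) (hD : 0 ≤ D) (hη : 0 < η) :
    ∃ C : ℝ, 0 < C ∧ ∀ β : ℝ, 0 ≤ β → ∀ X : Finset (Fin (n + 1) → K),
      (∀ x ∈ X, ∀ l, lf (a l) x ≠ 0) →
      (∀ x ∈ X, ∀ y ∈ X, x ≠ y → LinearIndependent K ![x, y]) →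
      (∀ x ∈ X, logHeight x ≤ β) →
      (∀ x ∈ X, truncCount S a x ≤ (q - D) * logHeight x + c) →
      (X.card : ℝ) ≤ C * Real.exp ((n + 1 - min 1 D + η) * β) := by
  classical
  set D₂ : ℝ := min 1 D with hD₂
  have hn1 : (1:ℝ) ≤ (n:ℝ) - 1 := by
    have : (2:ℝ) ≤ n := by exact_mod_cast hn
    linarith
  have hD₂1 : D₂ ≤ 1 := min_le_left _ _
  obtain ⟨badP, hP⟩ := point_data2 K n q hq a ha hint S hS D c
  choose badF hF using fun F : Fin q => fixed_f K n q hn hq a ha F
  set bad : Finset (HeightOneSpectrum (𝓞 K)) := badP ∪ Finset.univ.biUnion badF with hbad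
  obtain ⟨A, hA1, hpt⟩ := hP bad Finset.subset_union_left
  set A' : ℝ := A * (1 + q * ∑ v ∈ bad, lnv v + q * Fintype.card (InfinitePlace K)) + 1 with hA'
  have hAA' : A ≤ A' := by
    rw [hA']
    have hlb : 0 ≤ ∑ v ∈ bad, lnv v := Finset.sum_nonneg fun v _ => (lnv_pos v).le
    have : (0:ℝ) ≤ q * ∑ v ∈ bad, lnv v + q * Fintype.card (InfinitePlace K) := by positivity
    nlinarith
  have hA'1 : 1 ≤ A' := hA1.trans hAA'
  have hbadF : ∀ F, badF F ⊆ bad := fun F =>
    (Finset.subset_biUnion_of_mem badF (Finset.mem_univ F)).trans Finset.subset_union_right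
  choose CF hCF hFF using fun F : Fin q =>
    hF F bad (hbadF F) A' (η / 2) hA'1 (by positivity)
  obtain ⟨Cl, hCl, hlin⟩ := fin_lin_le (η / 2) (by positivity)
  set θ : ℝ := n + 1 - D₂ + η / 2 with hθ
  have hθ0 : 0 ≤ θ := by
    rw [hθ]
    linarith
  -- the data of a point
  have hdata : ∀ x : Fin (n + 1) → K, (∀ l, lf (a l) x ≠ 0) →
      truncCount S a x ≤ (q - D) * logHeight x + c →
      ∃ (t : K) (F : Fin q)
        (κ : HeightOneSpectrum (𝓞 K) →₀ (Fin q → ℕ)) (k : InfinitePlace K → Fin q → ℕ), t ≠ 0 ∧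
        ∀ β, logHeight x ≤ β → β ≤ logHeight x + 1 →
          InBox Finset.univ a A' β κ k (t • x) ∧ KeyOK2 n {F} bad A' β D₂ κ k := by
    intro x hx0 hx
    obtain ⟨t, ht, E, k, hbox, hsiz, hex, hg, hb, hi⟩ := hpt x hx0 hx
    obtain ⟨F, κ, hκ, hkey⟩ := key_of_data2 hq bad A D D₂ (logHeight x) hA1 hD hD₂
      (logHeight_nonneg x) E k hsiz hex hg hb hi
    refine ⟨t, F, κ, k, ht, ?_⟩
    intro β hβ1 hβ2
    exact ⟨fin_inBox_mono (by linarith) hAA' hβ1 hκ hbox, hkey β hβ1 hβ2⟩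
  have : Nonempty (Fin q) := ⟨⟨0, by omega⟩⟩
  choose! t F κ k ht hdat using hdata
  refine ⟨(∑ F, CF F) * Real.exp θ * Cl, by
    have : 0 < ∑ F, CF F := by
      exact Finset.sum_pos (fun F _ => hCF F) Finset.univ_nonempty
    positivity, ?_⟩
  intro β hβ X hX0 hXX hXh hXN
  -- the classes
  let cls : (Fin (n + 1) → K) → Fin q × ℕ :=
    fun x => (F x, ⌊logHeight x⌋₊)
  have hmaps : ∀ x ∈ X, cls x ∈ (Finset.univ : Finset (Fin q)) ×ˢ
      Finset.range (⌊β⌋₊ + 1) := by
    intro x hx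
    rw [Finset.mem_product, Finset.mem_range]
    refine ⟨Finset.mem_univ _, ?_⟩
    have : ⌊logHeight x⌋₊ ≤ ⌊β⌋₊ := Nat.floor_le_floor (hXh x hx)
    exact Nat.lt_succ_of_le this
  have hcard := Finset.card_eq_sum_card_fiberwise hmaps
  have hfib : ∀ p ∈ (Finset.univ : Finset (Fin q)) ×ˢ
      Finset.range (⌊β⌋₊ + 1), ((X.filter fun x => cls x = p).card : ℝ) ≤
      CF p.1 * Real.exp (θ * (β + 1)) := by
    rintro ⟨F₀, j⟩ hp
    rw [Finset.mem_product, Finset.mem_range] at hp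
    have hj : (j:ℝ) ≤ β := by
      have h1 : j ≤ ⌊β⌋₊ := Nat.lt_succ_iff.mp hp.2
      exact (Nat.cast_le.mpr h1).trans (Nat.floor_le hβ)
    set X₀ := X.filter fun x => cls x = (F₀, j) with hX₀
    have hX₀X : ∀ x ∈ X₀, x ∈ X := fun x hx => (Finset.mem_filter.mp hx).1
    have hX₀F : ∀ x ∈ X₀, F x = F₀ := fun x hx =>
      congrArg Prod.fst (Finset.mem_filter.mp hx).2
    have hX₀j : ∀ x ∈ X₀, ⌊logHeight x⌋₊ = j := fun x hx =>
      congrArg Prod.snd (Finset.mem_filter.mp hx).2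
    set g : (Fin (n + 1) → K) → (Fin (n + 1) → K) := fun x => t x • x with hg
    have hinj : Set.InjOn g (X₀ : Set (Fin (n + 1) → K)) := by
      intro x hx y hy hxy
      rw [Finset.mem_coe] at hx hy
      by_contra hne
      have h1 := hXX x (hX₀X x hx) y (hX₀X y hy) hne
      rw [LinearIndependent.pair_iff] at h1
      have h2 := h1 (t x) (-(t y)) (by
        have h3 : t x • x = t y • y := hxy
        rw [neg_smul, h3, add_neg_cancel])
      exact ht x (hX0 x (hX₀X x hx)) (hXN x (hX₀X x hx)) h2.1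
    set inv : (Fin (n + 1) → K) → (Fin (n + 1) → K) :=
      Function.invFunOn g (X₀ : Set (Fin (n + 1) → K)) with hinv
    have hinv1 : ∀ x ∈ X₀, inv (g x) = x := by
      intro x hx
      exact hinj.leftInvOn_invFunOn (Finset.mem_coe.mpr hx)
    have key := hFF F₀ (j + 1) D₂ (by positivity) hD₂1 (X₀.image g) (fun y => κ (inv y))
      (fun y => k (inv y)) ?_ ?_ ?_
    · rw [Finset.card_image_of_injOn hinj] at key
      refine key.trans ?_
      apply mul_le_mul_of_nonneg_left _ (hCF F₀).le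
      rw [Real.exp_le_exp, ← hθ]
      apply mul_le_mul_of_nonneg_left _ hθ0
      linarith
    · intro y hy l
      obtain ⟨x, hx, rfl⟩ := Finset.mem_image.mp hy
      rw [hg]
      simp only
      rw [fin_lf_smul]
      exact mul_ne_zero (ht x (hX0 x (hX₀X x hx)) (hXN x (hX₀X x hx))) (hX0 x (hX₀X x hx) l)
    · intro y hy
      obtain ⟨x, hx, rfl⟩ := Finset.mem_image.mp hy
      rw [hinv1 x hx]
      have hl0 := logHeight_nonneg x
      have h1 := Nat.floor_le hl0
      have h2 := Nat.lt_floor_add_one (logHeight x)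
      rw [hX₀j x hx] at h1 h2
      exact (hdat x (hX0 x (hX₀X x hx)) (hXN x (hX₀X x hx)) (j + 1) h2.le (by linarith)).1
    · intro y hy
      obtain ⟨x, hx, rfl⟩ := Finset.mem_image.mp hy
      rw [hinv1 x hx]
      have hl0 := logHeight_nonneg x
      have h1 := Nat.floor_le hl0
      have h2 := Nat.lt_floor_add_one (logHeight x)
      rw [hX₀j x hx] at h1 h2
      have h3 := (hdat x (hX0 x (hX₀X x hx)) (hXN x (hX₀X x hx)) (j + 1) h2.le (by linarith)).2
      rw [hX₀F x hx] at h3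
      exact h3
  have h1 : (X.card : ℝ) ≤ ∑ p ∈ (Finset.univ : Finset (Fin q)) ×ˢ
      Finset.range (⌊β⌋₊ + 1), CF p.1 * Real.exp (θ * (β + 1)) := by
    rw [hcard]
    push_cast
    exact Finset.sum_le_sum hfib
  rw [Finset.sum_product] at h1
  have h2 : ∑ x : Fin q, ∑ y ∈ Finset.range (⌊β⌋₊ + 1),
      CF x * Real.exp (θ * (β + 1)) = (∑ F, CF F) * Real.exp (θ * (β + 1)) * (⌊β⌋₊ + 1) := by
    rw [Finset.sum_mul, Finset.sum_mul]
    refine Finset.sum_congr rfl fun F _ => ?_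
    rw [Finset.sum_const, Finset.card_range, nsmul_eq_mul]
    push_cast
    ring
  rw [h2] at h1
  have hCFs : 0 ≤ ∑ F, CF F := Finset.sum_nonneg fun F _ => (hCF F).le
  have h3 : ((⌊β⌋₊ : ℝ) + 1) ≤ Cl * Real.exp (η / 2 * β) := by
    have := Nat.floor_le hβ
    have h4 := hlin β hβ
    linarith
  calc (X.card : ℝ) ≤ (∑ F, CF F) * Real.exp (θ * (β + 1)) * (⌊β⌋₊ + 1) := h1
    _ ≤ (∑ F, CF F) * Real.exp (θ * (β + 1)) * (Cl * Real.exp (η / 2 * β)) :=
        mul_le_mul_of_nonneg_left h3 (by positivity)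
    _ = (∑ F, CF F) * Real.exp θ * Cl * Real.exp ((n + 1 - D₂ + η) * β) := by
        have h5 : Real.exp (θ * (β + 1)) = Real.exp θ * Real.exp (θ * β) := by
          rw [← Real.exp_add]
          congr 1
          ring
        have h6 : Real.exp ((n + 1 - D₂ + η) * β) = Real.exp (θ * β) * Real.exp (η / 2 * β) := by
          rw [← Real.exp_add]
          congr 1
          rw [hθ]
          ring
        rw [h5, h6]
        ring

theorem upper_count (K : Type*) [Field K] [NumberField K] (n q : ℕ) (hn : 2 ≤ n)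
    (hq : n + 1 ≤ q) (a : Fin q → Fin (n + 1) → K)
    (ha : ∀ s : Fin (n + 1) → Fin q, Function.Injective s → LinearIndependent K fun i => a (s i))
    (S : Set (HeightOneSpectrum (𝓞 K))) (hS : S.Finite) (D c η : ℝ) (hD : 0 ≤ D) (hη : 0 < η) :
    ∃ C : ℝ, ∀ B : ℝ, 1 ≤ B → ∀ X : Finset (Fin (n + 1) → K),
      (∀ x ∈ X, ∀ l, ∑ i, a l i * x i ≠ 0) →
      (∀ x ∈ X, ∀ y ∈ X, x ≠ y → LinearIndependent K ![x, y]) →
      (∀ x ∈ X, mulHeight x ≤ B) →
      (∀ x ∈ X, truncCount S a x ≤ (q - D) * logHeight x + c) →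
      (X.card : ℝ) ≤ C * B ^ ((n : ℝ) + 1 - min 1 D + η) := by
  classical
  -- common denominator
  obtain ⟨b, hb⟩ := IsLocalization.exist_integer_multiples_of_finset (nonZeroDivisors (𝓞 K))
    (Finset.univ.image fun p : Fin q × Fin (n + 1) => a p.1 p.2)
  set b' : K := algebraMap (𝓞 K) K b with hb'
  have hb0 : b' ≠ 0 := by
    rw [hb']
    exact (map_ne_zero_iff _ (FaithfulSMul.algebraMap_injective (𝓞 K) K)).mpr
      (nonZeroDivisors.ne_zero b.2)
  set a' : Fin q → Fin (n + 1) → K := fun l i => b' * a l i with ha'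
  have hint : ∀ l i (v : HeightOneSpectrum (𝓞 K)), fa v (a' l i) ≤ 1 := by
    intro l i v
    obtain ⟨z, hz⟩ := hb (a l i) (Finset.mem_image.mpr ⟨(l, i), Finset.mem_univ _, rfl⟩)
    have h1 : a' l i = algebraMap (𝓞 K) K z := by
      rw [hz, ha', hb']
      simp only
      exact (Algebra.smul_def _ _).symm
    rw [h1]
    exact NumberField.FinitePlace.norm_le_one K v z
  have hlin : ∀ s : Fin (n + 1) → Fin q, Function.Injective s →
      LinearIndependent K fun i => a' (s i) := by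
    intro s hs
    have h1 := ha s hs
    have h2 : (fun i => a' (s i)) = (fun _ : Fin (n + 1) => Units.mk0 b' hb0) • fun i => a (s i) := by
      funext i j
      simp [ha', Pi.smul_apply', Units.smul_def]
    rw [h2]
    exact h1.units_smul _
  have hval : ∀ x : Fin (n + 1) → K, ∀ l, ∑ i, a' l i * x i = b' * ∑ i, a l i * x i := by
    intro x l
    rw [Finset.mul_sum]
    refine Finset.sum_congr rfl fun i _ => ?_
    rw [ha']
    ring
  have htr : ∀ x : Fin (n + 1) → K, truncCount S a' x = truncCount S a x := by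
    intro x
    unfold truncCount
    refine finsum_congr fun v => ?_
    have h1 : (v ∉ S ∧ ∃ l i j, v.valuation K (∑ k, a' l k * x k) <
        v.valuation K (a' l i) * v.valuation K (x j)) ↔
        (v ∉ S ∧ ∃ l i j, v.valuation K (∑ k, a l k * x k) <
        v.valuation K (a l i) * v.valuation K (x j)) := by
      have hv : v.valuation K b' ≠ 0 := (Valuation.ne_zero_iff _).mpr hb0
      have h2 : ∀ l i j, (v.valuation K (∑ k, a' l k * x k) <
          v.valuation K (a' l i) * v.valuation K (x j)) ↔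
          (v.valuation K (∑ k, a l k * x k) < v.valuation K (a l i) * v.valuation K (x j)) := by
        intro l i j
        rw [hval x l]
        simp only [ha']
        rw [map_mul, map_mul, mul_assoc]
        exact mul_lt_mul_iff_right₀ (zero_lt_iff.mpr hv)
      simp only [h2]
    exact finsum_congr_Prop (propext h1) (fun _ => rfl)
  obtain ⟨C, hC, h⟩ := final_integral2 K n q hn hq a' hlin hint S hS D c η hD hη
  refine ⟨C, ?_⟩
  intro B hB X hX0 hXX hXh hXN
  have hB0 : 0 < B := by linarith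
  have h1 := h (Real.log B) (Real.log_nonneg hB) X ?_ hXX ?_ ?_
  · rw [Real.rpow_def_of_pos hB0, mul_comm (Real.log B)]
    exact h1
  · intro x hx l
    unfold lf
    rw [hval x l]
    exact mul_ne_zero hb0 (hX0 x hx l)
  · intro x hx
    rw [logHeight_eq_log_mulHeight]
    exact Real.log_le_log (mulHeight_pos x) (hXh x hx)
  · intro x hx
    rw [htr x]
    exact hXN x hx

end Pool.Agent.Lib.MP_44a246_nt.HQ
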