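import Pool.Agent.Lib.MP_44a246_nt.HQ.Selection1
import Pool.Agent.Lib.MP_44a246_nt.HP.FinalAux

/-!
# From the exponent data of a point to its key, sharp version
-/

set_option autoImplicit false

open NumberField IsDedekindDomain Height
open Pool.Agent.Lib.MP_4d5ce1_nt (ordv fa nv)
open Pool.Agent.Lib.MP_44a246_nt.HP

namespace Pool.Agent.Lib.MP_44a246_nt.HQ

section finalaux2

lemma fb_tn_zero {q n : ℕ} (Λ : Finset (Fin q)) : tn n (0 : Fin q → ℕ) Λ = 0 := by
  unfold tn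
  simp

/-- A subset of `Λ` with at most `n` elements has sum at most `tn`. -/
lemma fb_sum_le_tn {q n : ℕ} (e : Fin q → ℕ) {Λ s : Finset (Fin q)} (hs : s ⊆ Λ)
    (hc : s.card ≤ n) (hΛ : n ≤ Λ.card) : ∑ l ∈ s, e l ≤ tn n e Λ := by
  obtain ⟨t, hst, htΛ, htc⟩ := Finset.exists_subsuperset_card_eq hs hc hΛ
  unfold tn
  calc ∑ l ∈ s, e l ≤ ∑ l ∈ t, e l :=
        Finset.sum_le_sum_of_subset_of_nonneg hst fun _ _ _ => Nat.zero_le _
    _ ≤ _ := Finset.le_sup (f := fun s : Finset (Fin q) => ∑ l ∈ s, e l)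
        (Finset.mem_powersetCard.mpr ⟨htΛ, htc⟩)

lemma fb_sum_le {q n : ℕ} (hq : n + 1 ≤ q) (e : Fin q → ℕ) (f : Fin q) (A : ℝ) (hA : 0 ≤ A)
    (h : (Finset.univ.filter fun l => A < (e l : ℝ)).card ≤ n) :
    ((∑ l, e l : ℕ) : ℝ) ≤ (e f : ℝ) + (tn n e ({f} : Finset (Fin q))ᶜ : ℝ) + q * A := by
  classical
  have h1 : (∑ l, e l : ℕ) = e f + ∑ l ∈ ({f} : Finset (Fin q))ᶜ, e l := by
    rw [Finset.compl_singleton, Finset.add_sum_erase _ _ (Finset.mem_univ f)]
  have h2 : ∑ l ∈ ({f} : Finset (Fin q))ᶜ, e l =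
      ∑ l ∈ ({f} : Finset (Fin q))ᶜ.filter (fun l => A < (e l : ℝ)), e l +
      ∑ l ∈ ({f} : Finset (Fin q))ᶜ.filter (fun l => ¬ A < (e l : ℝ)), e l :=
    (Finset.sum_filter_add_sum_filter_not _ _ _).symm
  have h3 : ∑ l ∈ ({f} : Finset (Fin q))ᶜ.filter (fun l => A < (e l : ℝ)), e l ≤
      tn n e ({f} : Finset (Fin q))ᶜ := by
    apply fb_sum_le_tn e (Finset.filter_subset _ _)
    · refine le_trans (Finset.card_le_card ?_) h
      exact Finset.filter_subset_filter _ (Finset.subset_univ _)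
    · rw [Finset.card_compl, Fintype.card_fin, Finset.card_singleton]
      omega
  have h4 : ((∑ l ∈ ({f} : Finset (Fin q))ᶜ.filter (fun l => ¬ A < (e l : ℝ)), e l : ℕ) : ℝ) ≤
      q * A := by
    push_cast
    calc ∑ l ∈ ({f} : Finset (Fin q))ᶜ.filter (fun l => ¬ A < (e l : ℝ)), (e l : ℝ) ≤
        ∑ _l ∈ ({f} : Finset (Fin q))ᶜ.filter (fun l => ¬ A < (e l : ℝ)), A :=
          Finset.sum_le_sum fun l hl => not_lt.mp (Finset.mem_filter.mp hl).2
      _ ≤ ∑ _l : Fin q, A :=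
          Finset.sum_le_sum_of_subset_of_nonneg (Finset.subset_univ _) fun _ _ _ => hA
      _ = q * A := by simp
  have h5 : ((∑ l, e l : ℕ) : ℝ) = (e f : ℝ) +
      ((∑ l ∈ ({f} : Finset (Fin q))ᶜ.filter (fun l => A < (e l : ℝ)), e l : ℕ) : ℝ) +
      ((∑ l ∈ ({f} : Finset (Fin q))ᶜ.filter (fun l => ¬ A < (e l : ℝ)), e l : ℕ) : ℝ) := by
    rw [h1, h2]
    push_cast
    ring
  have h6 : ((∑ l ∈ ({f} : Finset (Fin q))ᶜ.filter (fun l => A < (e l : ℝ)), e l : ℕ) : ℝ) ≤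
      (tn n e ({f} : Finset (Fin q))ᶜ : ℝ) := by exact_mod_cast h3
  rw [h5]
  linarith

variable {K : Type*} [Field K] [NumberField K]

open Classical in
/-- The key of a point. -/
theorem key_of_data2 {n q : ℕ} (hq : n + 1 ≤ q)
    (bad : Finset (HeightOneSpectrum (𝓞 K))) (A D D₂ h : ℝ) (hA : 1 ≤ A) (hD : 0 ≤ D)
    (hD₂ : D₂ = min 1 D) (hh : 0 ≤ h)
    (E : HeightOneSpectrum (𝓞 K) →₀ (Fin q → ℕ)) (k : InfinitePlace K → Fin q → ℕ)
    (hsiz : siz E k ≤ A * (h + 1))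
    (hex : D * h - A ≤
          ∑ v ∈ gsupp bad E, (((∑ l, E v l : ℕ) : ℝ) - 1) * lnv v +
          ∑ v ∈ bad, ((∑ l, E v l : ℕ) : ℝ) * lnv v + ∑ w, ((∑ l, k w l : ℕ) : ℝ))
    (hgood : ∀ v, v ∉ bad → (Finset.univ.filter fun l => E v l ≠ 0).card ≤ n)
    (hbad : ∀ v ∈ bad, (Finset.univ.filter fun l => A < (E v l : ℝ)).card ≤ n)
    (hinf : ∀ w, (Finset.univ.filter fun l => A < (k w l : ℝ)).card ≤ n) :
    ∃ f : Fin q, ∃ κ : HeightOneSpectrum (𝓞 K) →₀ (Fin q → ℕ),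
      (∀ v l, κ v l ≤ E v l) ∧ ∀ β, h ≤ β → β ≤ h + 1 →
      KeyOK2 n {f} bad
        (A * (1 + q * ∑ v ∈ bad, lnv v + q * Fintype.card (InfinitePlace K)) + 1) β D₂ κ k := by
  have hD₂0 : 0 ≤ D₂ := by rw [hD₂]; exact le_min zero_le_one hD
  have hD₂1 : D₂ ≤ 1 := by rw [hD₂]; exact min_le_left _ _
  have hD₂D : D₂ * h ≤ D * h := by
    have h1 : D₂ ≤ D := by rw [hD₂]; exact min_le_right _ _
    exact mul_le_mul_of_nonneg_right h1 hh
  set I : Finset (HeightOneSpectrum (𝓞 K)) := (gsupp bad E).filter fun v => Useful (E v) with hI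
  set xM : ℝ := ∑ v ∈ bad, ((∑ l, E v l : ℕ) : ℝ) * lnv v +
    ∑ w : InfinitePlace K, ((∑ l, k w l : ℕ) : ℝ) with hxM
  have hxM0 : 0 ≤ xM := by
    rw [hxM]
    apply add_nonneg
    · exact Finset.sum_nonneg fun v _ => mul_nonneg (Nat.cast_nonneg _) (lnv_pos v).le
    · exact Finset.sum_nonneg fun w _ => Nat.cast_nonneg _
  have hlb : 0 ≤ ∑ v ∈ bad, lnv v := Finset.sum_nonneg fun v _ => (lnv_pos v).le
  set A₁ : ℝ := A * (1 + q * ∑ v ∈ bad, lnv v + q * Fintype.card (InfinitePlace K)) with hA₁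
  have hA₁0 : 0 ≤ A₁ := by positivity
  have hAA₁ : A ≤ A₁ := by
    rw [hA₁]
    have h9 : (0:ℝ) ≤ q * ∑ v ∈ bad, lnv v + q * Fintype.card (InfinitePlace K) := by positivity
    nlinarith
  -- the excess of the useful items
  have h1 : ∑ v ∈ gsupp bad E, (((∑ l, E v l : ℕ) : ℝ) - 1) * lnv v ≤
      ∑ v ∈ I, (((∑ l, E v l : ℕ) : ℝ) - 1) * lnv v := by
    rw [← Finset.sum_filter_add_sum_filter_not (gsupp bad E) (fun v => Useful (E v))]
    have h3 : ∑ v ∈ (gsupp bad E).filter (fun v => ¬ Useful (E v)),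
        (((∑ l, E v l : ℕ) : ℝ) - 1) * lnv v ≤ 0 := by
      apply Finset.sum_nonpos
      intro v hv
      have h4 := fa_not_useful (Finset.mem_filter.mp hv).2
      have h5 : ((∑ l, E v l : ℕ) : ℝ) ≤ 1 := by exact_mod_cast h4
      exact mul_nonpos_of_nonpos_of_nonneg (by linarith) (lnv_pos v).le
    linarith
  have h5 : D₂ * h - A ≤ xM + ∑ v ∈ I, (((∑ l, E v l : ℕ) : ℝ) - 1) * lnv v := by
    rw [hxM]
    linarith
  obtain ⟨f, T, hT, ht1, ht2, ht3⟩ := selection1 q (by omega) I lnv (fun i _ => lnv_pos i)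
    (fun v => E v) (fun i hi => (Finset.mem_filter.mp hi).2) xM (D₂ * h - A) hxM0 h5
  have hTI : ∀ v ∈ T, E v ≠ 0 ∧ v ∉ bad ∧ Useful (E v) := by
    intro v hv
    have h6 := Finset.mem_filter.mp (hT hv)
    have h7 : v ∈ E.support ∧ v ∉ bad := by
      have := h6.1
      unfold gsupp at this
      exact Finset.mem_filter.mp this
    exact ⟨Finsupp.mem_support_iff.mp h7.1, h7.2, h6.2⟩
  set κ : HeightOneSpectrum (𝓞 K) →₀ (Fin q → ℕ) := E.filter (fun v => v ∈ T ∨ v ∈ bad) with hκ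
  have hκT : ∀ v ∈ T, κ v = E v := by
    intro v hv
    rw [hκ, Finsupp.filter_apply, if_pos (Or.inl hv)]
  have hκb : ∀ v ∈ bad, κ v = E v := by
    intro v hv
    rw [hκ, Finsupp.filter_apply, if_pos (Or.inr hv)]
  have hκle : ∀ v l, κ v l ≤ E v l := by
    intro v l
    rw [hκ, Finsupp.filter_apply]
    split_ifs
    · exact le_rfl
    · exact Nat.zero_le _
  have hgs : gsupp bad κ = T := by
    unfold gsupp
    ext v
    rw [Finset.mem_filter, hκ, Finsupp.support_filter, Finset.mem_filter]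
    constructor
    · rintro ⟨⟨_, h6⟩, h7⟩
      exact h6.resolve_right h7
    · intro hv
      obtain ⟨h6, h7, _⟩ := hTI v hv
      exact ⟨⟨Finsupp.mem_support_iff.mpr h6, Or.inl hv⟩, h7⟩
  -- sums over the support of κ
  have hsplit : ∀ f : HeightOneSpectrum (𝓞 K) → (Fin q → ℕ) → ℝ, (∀ v, f v 0 = 0) →
      ∑ v ∈ κ.support, f v (κ v) = ∑ v ∈ T, f v (E v) + ∑ v ∈ bad, f v (E v) := by
    intro f hf
    have h6 : ∑ v ∈ κ.support, f v (κ v) = ∑ v ∈ κ.support ∪ (T ∪ bad), f v (κ v) := by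
      apply Finset.sum_subset Finset.subset_union_left
      intro v _ hv
      rw [Finsupp.notMem_support_iff.mp hv]
      exact hf v
    have h7 : κ.support ∪ (T ∪ bad) = T ∪ bad := by
      apply Finset.union_eq_right.mpr
      intro v hv
      rw [hκ, Finsupp.support_filter, Finset.mem_filter] at hv
      rw [Finset.mem_union]
      exact hv.2
    rw [h6, h7, Finset.sum_union (by
      rw [Finset.disjoint_left]
      intro v hv hv'
      exact (hTI v hv).2.1 hv')]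
    congr 1
    · exact Finset.sum_congr rfl fun v hv => by rw [hκT v hv]
    · exact Finset.sum_congr rfl fun v hv => by rw [hκb v hv]
  refine ⟨f, κ, hκle, ?_⟩
  intro β hβ1 hβ2
  have hphi : phi {f} κ k = ∑ v ∈ T, (E v f : ℝ) * lnv v +
      ∑ v ∈ bad, (E v f : ℝ) * lnv v + ∑ w, (k w f : ℝ) := by
    unfold phi
    rw [hsplit (fun v e => ((∑ g ∈ ({f} : Finset (Fin q)), e g : ℕ) : ℝ) * lnv v)
      (by intro v; simp)]
    simp only [Finset.sum_singleton]
  have hind : ind2 n {f}ᶜ κ k = ∑ v ∈ T, (tn n (E v) {f}ᶜ : ℝ) * lnv v +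
      ∑ v ∈ bad, (tn n (E v) {f}ᶜ : ℝ) * lnv v + ∑ w, (tn n (k w) {f}ᶜ : ℝ) := by
    unfold ind2
    rw [hsplit (fun v e => (tn n e {f}ᶜ : ℝ) * lnv v) (by intro v; simp [fb_tn_zero])]
  have hcode : code bad κ = ∑ v ∈ T, lnv v := by
    unfold code
    rw [hgs]
  constructor
  · -- size
    have h6 : siz κ k ≤ siz E k := by
      unfold siz
      have h7 : ∑ v ∈ κ.support, ((∑ l, κ v l : ℕ) : ℝ) * lnv v ≤
          ∑ v ∈ E.support, ((∑ l, E v l : ℕ) : ℝ) * lnv v := by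
        have h8 : κ.support ⊆ E.support := by
          rw [hκ, Finsupp.support_filter]
          exact Finset.filter_subset _ _
        refine (Finset.sum_le_sum fun v _ => ?_).trans
          (Finset.sum_le_sum_of_subset_of_nonneg (f := fun v => ((∑ l, E v l : ℕ) : ℝ) * lnv v)
            h8 fun v _ _ => mul_nonneg (Nat.cast_nonneg _) (lnv_pos v).le)
        apply mul_le_mul_of_nonneg_right _ (lnv_pos v).le
        exact_mod_cast Finset.sum_le_sum fun l _ => hκle v l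
      linarith
    have h7 : A * (h + 1) ≤ (A₁ + 1) * (β + 1) := by
      apply mul_le_mul (by linarith) (by linarith) (by linarith) (by linarith)
    exact h6.trans (hsiz.trans h7)
  · -- gain
    rw [hphi, hind, hcode]
    have h6 : ∑ v ∈ bad, ((∑ l, E v l : ℕ) : ℝ) * lnv v ≤
        ∑ v ∈ bad, (E v f : ℝ) * lnv v + ∑ v ∈ bad, (tn n (E v) {f}ᶜ : ℝ) * lnv v +
          q * A * ∑ v ∈ bad, lnv v := by
      rw [Finset.mul_sum, ← Finset.sum_add_distrib, ← Finset.sum_add_distrib]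
      apply Finset.sum_le_sum
      intro v hv
      rw [← add_mul, ← add_mul]
      exact mul_le_mul_of_nonneg_right (fb_sum_le hq (E v) f A (by linarith) (hbad v hv))
        (lnv_pos v).le
    have h7 : ∑ w : InfinitePlace K, ((∑ l, k w l : ℕ) : ℝ) ≤
        ∑ w : InfinitePlace K, (k w f : ℝ) + ∑ w : InfinitePlace K, (tn n (k w) {f}ᶜ : ℝ) +
          Fintype.card (InfinitePlace K) * (q * A) := by
      rw [← Finset.card_univ, ← nsmul_eq_mul, ← Finset.sum_const, ← Finset.sum_add_distrib,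
        ← Finset.sum_add_distrib]
      apply Finset.sum_le_sum
      intro w _
      exact fb_sum_le hq (k w) f A (by linarith) (hinf w)
    have h8 : ∑ v ∈ T, (((∑ l, E v l : ℕ) : ℝ) - 1) * lnv v ≤
        ∑ v ∈ T, (E v f : ℝ) * lnv v + ∑ v ∈ T, (tn n (E v) {f}ᶜ : ℝ) * lnv v -
          ∑ v ∈ T, lnv v := by
      rw [← Finset.sum_add_distrib, ← Finset.sum_sub_distrib]
      apply Finset.sum_le_sum
      intro v hv
      have h9 : (Finset.univ.filter fun l => (0:ℝ) < (E v l : ℝ)).card ≤ n := by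
        have h10 := hgood v (hTI v hv).2.1
        have h11 : (Finset.univ.filter fun l => (0:ℝ) < (E v l : ℝ)) =
            (Finset.univ.filter fun l => E v l ≠ 0) := by
          apply Finset.filter_congr
          intro l _
          rw [Nat.cast_pos, Nat.pos_iff_ne_zero]
        rw [h11]
        exact h10
      have h12 := fb_sum_le hq (E v) f 0 le_rfl h9
      have h13 := (lnv_pos v).le
      have h14 : (((∑ l, E v l : ℕ) : ℝ) - 1) ≤ (E v f : ℝ) + (tn n (E v) {f}ᶜ : ℝ) - 1 := by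
        linarith
      have h15 := mul_le_mul_of_nonneg_right h14 h13
      linarith
    have h9 := ht1
    rw [hxM] at h9
    have h10 : D₂ * β ≤ D₂ * h + 1 := by nlinarith
    rw [hA₁]
    nlinarith
  · -- slack
    rw [hphi, hcode]
    have h6 : 0 ≤ ∑ v ∈ bad, (E v f : ℝ) * lnv v :=
      Finset.sum_nonneg fun v _ => mul_nonneg (Nat.cast_nonneg _) (lnv_pos v).le
    have h7 : 0 ≤ ∑ w : InfinitePlace K, (k w f : ℝ) :=
      Finset.sum_nonneg fun w _ => Nat.cast_nonneg _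
    have h8 : ∑ i ∈ T, (1 - (E i f : ℝ)) * lnv i =
        ∑ v ∈ T, lnv v - ∑ v ∈ T, (E v f : ℝ) * lnv v := by
      rw [← Finset.sum_sub_distrib]
      refine Finset.sum_congr rfl fun v _ => by ring
    have h9 := ht2
    rw [h8] at h9
    have h10 : max (D₂ * h - A) 0 ≤ D₂ * β := by
      apply max_le
      · have := mul_le_mul_of_nonneg_left hβ1 hD₂0
        linarith
      · exact mul_nonneg hD₂0 (hh.trans hβ1)
    linarith
  · intro v hv
    rw [hgs] at hv
    rw [hκT v hv]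
    exact (hTI v hv).2.2
  · rw [hgs]
    exact fa_sel_congr (fun v hv => (hκT v hv).symm) ht3

end finalaux2

end Pool.Agent.Lib.MP_44a246_nt.HQ
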