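import Pool.Agent.Lib.MP_44a246_nt.HQ.LowerPoint
import Pool.Agent.Lib.MP_4d5ce1_nt.LB.Box
import Pool.Agent.Lib.MP_4d5ce1_nt.LB.Ratios
import Pool.Agent.Lib.MP_4d5ce1_nt.LB.LowerAux

set_option autoImplicit false

open NumberField IsDedekindDomain Height
open Pool.Agent.Lib.MP_4d5ce1_nt (ordv fa nv)
open Pool.Agent.Lib.MP_44a246_nt.HP

namespace Pool.Agent.Lib.MP_44a246_nt.HQ

/-! ## HQ-15 -/

private lemma lc_dual {K : Type*} [Field K] {m : ℕ} (A : Fin m → Fin m → K)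
    (hA : LinearIndependent K A) :
    ∃ b : Fin m → Fin m → K, LinearIndependent K b ∧
      ∀ i j, lf (A i) (b j) = if i = j then 1 else 0 := by
  have hu : IsUnit (Matrix.of A) := by
    rw [← Matrix.linearIndependent_rows_iff_isUnit]
    exact hA
  have hdet : IsUnit (Matrix.of A).det := (Matrix.isUnit_iff_isUnit_det _).1 hu
  have hu2 : IsUnit (Matrix.transpose (Matrix.of A)⁻¹) := by
    rw [Matrix.isUnit_iff_isUnit_det, Matrix.det_transpose]
    exact Matrix.isUnit_nonsing_inv_det _ hdet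
  refine ⟨fun j k => (Matrix.of A)⁻¹ k j, ?_, fun i j => ?_⟩
  · exact Matrix.linearIndependent_rows_iff_isUnit.2 hu2
  · have h1 : ((Matrix.of A) * (Matrix.of A)⁻¹) i j = (1 : Matrix (Fin m) (Fin m) K) i j := by
      rw [Matrix.mul_nonsing_inv _ hdet]
    rw [Matrix.one_apply] at h1
    rw [← h1]
    simp only [Matrix.mul_apply, lf, Matrix.of_apply]

private lemma lc_zero {K : Type*} [Field K] {m : ℕ} (A : Fin m → Fin m → K)
    (hA : LinearIndependent K A) (y : Fin m → K) (h : ∀ i, lf (A i) y = 0) : y = 0 := by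
  have hu : IsUnit (Matrix.of A) := by
    rw [← Matrix.linearIndependent_rows_iff_isUnit]
    exact hA
  have hdet : IsUnit (Matrix.of A).det := (Matrix.isUnit_iff_isUnit_det _).1 hu
  have h1 : (Matrix.of A).mulVec y = 0 := by
    ext i
    exact h i
  have h2 : (Matrix.of A)⁻¹.mulVec ((Matrix.of A).mulVec y) = y := by
    rw [Matrix.mulVec_mulVec, Matrix.nonsing_inv_mul _ hdet, Matrix.one_mulVec]
  rw [h1, Matrix.mulVec_zero] at h2
  exact h2.symm

private lemma lc_lf_sum {K : Type*} [Field K] {m : ℕ} (c : Fin m → K) (z : Fin m → K)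
    (b : Fin m → Fin m → K) :
    lf c (fun j => ∑ i, z i * b i j) = ∑ i, z i * lf c (b i) := by
  unfold lf
  simp only [Finset.mul_sum]
  rw [Finset.sum_comm]
  refine Finset.sum_congr rfl fun i _ => Finset.sum_congr rfl fun j _ => ?_
  ring

private def lcz {R : Type*} [CommRing R] (M : ℕ) {m : ℕ} (t : R) (r : R × R) (u : Fin m → R) :
    Fin (m + 3) → R :=
  Fin.cons (2 ^ M * t) (Fin.cons (2 ^ M * r.2) (Fin.cons r.1 u))

private noncomputable def lcx {K : Type*} [Field K] [NumberField K] {m : ℕ}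
    (b : Fin (m + 3) → Fin (m + 3) → K) (z : Fin (m + 3) → 𝓞 K) : Fin (m + 3) → K :=
  fun j => ∑ i, (z i : K) * b i j

private lemma lcz_ne {K : Type*} [Field K] [NumberField K] (M : ℕ) {m : ℕ} {t : 𝓞 K}
    {r : 𝓞 K × 𝓞 K} {u : Fin m → 𝓞 K} (ht : t ≠ 0) (h1 : r.1 ≠ 0) (h2 : r.2 ≠ 0)
    (hu : ∀ i, u i ≠ 0) (i : Fin (m + 3)) : lcz M t r u i ≠ 0 := by
  have h20 : (2 : 𝓞 K) ^ M ≠ 0 := pow_ne_zero _ two_ne_zero
  unfold lcz
  refine Fin.cases ?_ (fun i => ?_) i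
  · simpa using ht
  · rw [Fin.cons_succ]
    refine Fin.cases ?_ (fun i => ?_) i
    · simpa using h2
    · rw [Fin.cons_succ]
      refine Fin.cases ?_ (fun i => ?_) i
      · simpa using h1
      · rw [Fin.cons_succ]; exact hu i

private lemma lc_cast {K : Type*} [Field K] [NumberField K] (M : ℕ) (t : 𝓞 K) :
    ((2 ^ M * t : 𝓞 K) : K) = 2 ^ M * (t : K) := by
  push_cast; rfl

private lemma lcx_lf {K : Type*} [Field K] [NumberField K] {m : ℕ}
    (b : Fin (m + 3) → Fin (m + 3) → K) (z : Fin (m + 3) → 𝓞 K) (c : Fin (m + 3) → K) :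
    lf c (lcx b z) = ∑ i, (z i : K) * lf c (b i) := lc_lf_sum c (fun i => (z i : K)) b

private lemma lcx_lf_dual {K : Type*} [Field K] [NumberField K] {m : ℕ}
    (A b : Fin (m + 3) → Fin (m + 3) → K) (hb : ∀ i j, lf (A i) (b j) = if i = j then 1 else 0)
    (z : Fin (m + 3) → 𝓞 K) (i : Fin (m + 3)) : lf (A i) (lcx b z) = (z i : K) := by
  rw [lcx_lf]
  simp [hb]

private lemma lc_lf_comb {K : Type*} [Field K] {m : ℕ} (c x y : Fin m → K) (s t : K)
    (h : s • x + t • y = 0) : s * lf c x + t * lf c y = 0 := by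
  have h1 : lf c (s • x + t • y) = s * lf c x + t * lf c y := by
    unfold lf
    rw [Finset.mul_sum, Finset.mul_sum, ← Finset.sum_add_distrib]
    refine Finset.sum_congr rfl fun i _ => ?_
    simp only [Pi.add_apply, Pi.smul_apply, smul_eq_mul]
    ring
  rw [← h1, h]
  unfold lf
  simp

/-- Points of the family are pairwise independent. -/
private lemma lc_indep {K : Type*} [Field K] [NumberField K] {m : ℕ}
    (A b : Fin (m + 3) → Fin (m + 3) → K) (hb : ∀ i j, lf (A i) (b j) = if i = j then 1 else 0)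
    (M : ℕ) (t t' : 𝓞 K) (r r' : 𝓞 K × 𝓞 K) (u u' : Fin m → 𝓞 K)
    (hz : ∀ i, lcz M t r u i ≠ 0) (hz' : ∀ i, lcz M t' r' u' i ≠ 0)
    (hr : (r.2 : K) / (r.1 : K) = (r'.2 : K) / (r'.1 : K) → r = r')
    (hne : ¬ (t = t' ∧ r = r' ∧ u = u')) :
    LinearIndependent K ![lcx b (lcz M t r u), lcx b (lcz M t' r' u')] := by
  rw [LinearIndependent.pair_iff]
  intro s s' h
  have h20 : (2 : K) ^ M ≠ 0 := pow_ne_zero _ two_ne_zero
  have h20' : (2 : 𝓞 K) ^ M ≠ 0 := pow_ne_zero _ two_ne_zero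
  have hi : ∀ i, s * ((lcz M t r u i : 𝓞 K) : K) + s' * ((lcz M t' r' u' i : 𝓞 K) : K) = 0 := by
    intro i
    have := lc_lf_comb (A i) _ _ s s' h
    rwa [lcx_lf_dual A b hb, lcx_lf_dual A b hb] at this
  have hz1 : ∀ i, ((lcz M t r u i : 𝓞 K) : K) ≠ 0 := fun i => by exact_mod_cast hz i
  have hz1' : ∀ i, ((lcz M t' r' u' i : 𝓞 K) : K) ≠ 0 := fun i => by exact_mod_cast hz' i
  by_cases hs : s = 0
  · refine ⟨hs, ?_⟩
    have := hi 0
    rw [hs, zero_mul, zero_add] at this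
    exact (mul_eq_zero.1 this).resolve_right (hz1' 0)
  exfalso
  have hs' : s' ≠ 0 := by
    intro h0
    have := hi 0
    rw [h0, zero_mul, add_zero] at this
    exact hs ((mul_eq_zero.1 this).resolve_right (hz1 0))
  have e1 : ∀ (t : 𝓞 K) (r : 𝓞 K × 𝓞 K) (u : Fin m → 𝓞 K),
      lcz M t r u (Fin.succ 0) = 2 ^ M * r.2 := fun t r u => by
    unfold lcz; rw [Fin.cons_succ, Fin.cons_zero]
  have e2 : ∀ (t : 𝓞 K) (r : 𝓞 K × 𝓞 K) (u : Fin m → 𝓞 K),
      lcz M t r u (Fin.succ (Fin.succ 0)) = r.1 := fun t r u => by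
    unfold lcz; rw [Fin.cons_succ, Fin.cons_succ, Fin.cons_zero]
  have g1 := hi (Fin.succ 0)
  have g2 := hi (Fin.succ (Fin.succ 0))
  have k1 := hz1 (Fin.succ (Fin.succ 0))
  have k1' := hz1' (Fin.succ (Fin.succ 0))
  rw [e1, e1] at g1
  rw [e2, e2] at g2
  rw [e2] at k1 k1'
  rw [lc_cast, lc_cast] at g1
  have g3 : s * (r.2 : K) + s' * (r'.2 : K) = 0 := by
    have : (2 : K) ^ M * (s * (r.2 : K) + s' * (r'.2 : K)) = 0 := by
      linear_combination g1
    exact (mul_eq_zero.1 this).resolve_left h20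
  have hrr : r = r' := by
    apply hr
    rw [div_eq_div_iff k1 k1']
    have : s * ((r.2 : K) * (r'.1 : K) - (r'.2 : K) * (r.1 : K)) = 0 := by
      linear_combination (r'.1 : K) * g3 - (r'.2 : K) * g2
    have h3 := (mul_eq_zero.1 this).resolve_left hs
    linear_combination h3
  subst hrr
  have hss : s + s' = 0 := by
    have : (s + s') * (r.1 : K) = 0 := by linear_combination g2
    exact (mul_eq_zero.1 this).resolve_right k1
  have hall : ∀ i, lcz M t r u i = lcz M t' r u' i := by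
    intro i
    have h3 := hi i
    have h4 : s * (((lcz M t r u i : 𝓞 K) : K) - ((lcz M t' r u' i : 𝓞 K) : K)) = 0 := by
      have h5 : s' = -s := by linear_combination hss
      rw [h5] at h3
      linear_combination h3
    have h6 := (mul_eq_zero.1 h4).resolve_left hs
    have h7 : ((lcz M t r u i : 𝓞 K) : K) = ((lcz M t' r u' i : 𝓞 K) : K) := by
      linear_combination h6
    exact_mod_cast h7
  apply hne
  refine ⟨?_, rfl, ?_⟩
  · have h3 := hall 0
    unfold lcz at h3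
    rw [Fin.cons_zero, Fin.cons_zero] at h3
    exact mul_left_cancel₀ h20' h3
  · funext i
    have h3 := hall (Fin.succ (Fin.succ (Fin.succ i)))
    unfold lcz at h3
    rwa [Fin.cons_succ, Fin.cons_succ, Fin.cons_succ, Fin.cons_succ, Fin.cons_succ,
      Fin.cons_succ] at h3

/-- The family of points, for a general choice of finite sets. -/
private lemma lc_build {K : Type*} [Field K] [NumberField K] {m q : ℕ} (hq : m + 3 ≤ q)
    (a : Fin q → Fin (m + 3) → K)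
    (ha : ∀ s : Fin (m + 3) → Fin q, Function.Injective s → LinearIndependent K fun i => a (s i))
    (b : Fin (m + 3) → Fin (m + 3) → K) (hbi : LinearIndependent K b)
    (hb : ∀ i j, lf (a (Fin.castLE hq i)) (b j) = if i = j then 1 else 0)
    (M : ℕ) (T₀ : Finset (𝓞 K)) (R : Finset (𝓞 K × 𝓞 K)) (T₃ : Finset (𝓞 K))
    (hT₀ : ∀ t ∈ T₀, t ≠ 0) (hT₃ : ∀ t ∈ T₃, t ≠ 0) (hR1 : ∀ r ∈ R, r.1 ≠ 0)
    (hR2 : ∀ r ∈ R, r.2 ≠ 0)
    (hR : ∀ r ∈ R, ∀ r' ∈ R, (r.2 : K) / (r.1 : K) = (r'.2 : K) / (r'.1 : K) → r = r') :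
    ∃ X : Finset (Fin (m + 3) → K),
      (∀ x ∈ X, ∃ t ∈ T₀, ∃ r ∈ R, ∃ u : Fin m → 𝓞 K, (∀ i, u i ∈ T₃) ∧
        x = lcx b (lcz M t r u)) ∧
      (∀ x ∈ X, ∀ l, lf (a l) x ≠ 0) ∧
      (∀ x ∈ X, ∀ y ∈ X, x ≠ y → LinearIndependent K ![x, y]) ∧
      T₀.card * (R.card * T₃.card ^ m) ≤ X.card + q * (R.card * T₃.card ^ m) := by
  classical
  set W : Finset ((𝓞 K × 𝓞 K) × (Fin m → 𝓞 K)) :=
    R ×ˢ (Fintype.piFinset fun _ : Fin m => T₃) with hW
  have hWc : W.card = R.card * T₃.card ^ m := by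
    rw [hW, Finset.card_product, Fintype.card_piFinset]
    simp
  set Y : Finset (𝓞 K × ((𝓞 K × 𝓞 K) × (Fin m → 𝓞 K))) := T₀ ×ˢ W with hY
  set f : 𝓞 K × ((𝓞 K × 𝓞 K) × (Fin m → 𝓞 K)) → Fin (m + 3) → K :=
    fun p => lcx b (lcz M p.1 p.2.1 p.2.2) with hf
  have hmem : ∀ p ∈ Y, p.1 ∈ T₀ ∧ p.2.1 ∈ R ∧ ∀ i, p.2.2 i ∈ T₃ := by
    intro p hp
    rw [hY, Finset.mem_product, hW, Finset.mem_product, Fintype.mem_piFinset] at hp
    exact ⟨hp.1, hp.2.1, hp.2.2⟩
  have hz : ∀ p ∈ Y, ∀ i, lcz M p.1 p.2.1 p.2.2 i ≠ 0 := by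
    intro p hp
    obtain ⟨h1, h2, h3⟩ := hmem p hp
    exact lcz_ne M (hT₀ _ h1) (hR1 _ h2) (hR2 _ h2) fun i => hT₃ _ (h3 i)
  have hind : ∀ p ∈ Y, ∀ p' ∈ Y, p ≠ p' → LinearIndependent K ![f p, f p'] := by
    intro p hp p' hp' hne
    refine lc_indep (fun i => a (Fin.castLE hq i)) b hb M _ _ _ _ _ _ (hz p hp) (hz p' hp')
      (hR _ (hmem p hp).2.1 _ (hmem p' hp').2.1) ?_
    rintro ⟨h1, h2, h3⟩
    exact hne (Prod.ext h1 (Prod.ext h2 h3))
  have hinj : ∀ p ∈ Y, ∀ p' ∈ Y, f p = f p' → p = p' := by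
    intro p hp p' hp' h
    by_contra hne
    have h1 := hind p hp p' hp' hne
    rw [h, LinearIndependent.pair_iff] at h1
    have h2 := h1 1 (-1) (by rw [one_smul, neg_smul, one_smul, add_neg_cancel])
    exact one_ne_zero h2.1
  have hgood : ∀ l : Fin q, lf (a l) (b 0) ≠ 0 ∨ ∃ i : Fin (m + 2), l = Fin.castLE hq i.succ := by
    intro l
    by_cases hl : ∃ i : Fin (m + 2), l = Fin.castLE hq i.succ
    · exact Or.inr hl
    left
    intro h0
    push Not at hl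
    have hs : Function.Injective
        (Fin.cons l (fun i : Fin (m + 2) => Fin.castLE hq i.succ) : Fin (m + 3) → Fin q) := by
      rw [Fin.cons_injective_iff]
      refine ⟨?_, ?_⟩
      · rintro ⟨i, hi⟩
        exact hl i hi.symm
      · intro i j hij
        exact Fin.succ_injective _ (Fin.castLE_injective hq hij)
    have h1 := lc_zero _ (ha _ hs) (b 0) (by
      intro i
      refine Fin.cases ?_ (fun i => ?_) i
      · simpa using h0
      · simp only [Fin.cons_succ]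
        rw [hb, if_neg (Fin.succ_ne_zero i)])
    exact hbi.ne_zero 0 h1
  have hE : ∀ l : Fin q, (Y.filter fun p => lf (a l) (f p) = 0).card ≤ W.card := by
    intro l
    rcases hgood l with h0 | ⟨i, rfl⟩
    · refine Finset.card_le_card_of_injOn (fun p => p.2) ?_ ?_
      · intro p hp
        have hp1 := (Finset.mem_filter.1 (Finset.mem_coe.1 hp)).1
        rw [hY, Finset.mem_product] at hp1
        exact hp1.2
      · intro p hp p' hp' h
        have hp1 := (Finset.mem_filter.1 (Finset.mem_coe.1 hp)).2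
        have hp1' := (Finset.mem_filter.1 (Finset.mem_coe.1 hp')).2
        simp only at h
        refine Prod.ext ?_ h
        rw [hf] at hp1 hp1'
        simp only at hp1 hp1'
        rw [lcx_lf, Fin.sum_univ_succ] at hp1 hp1'
        rw [h] at hp1
        have h3 : ∀ (t : 𝓞 K) (r : 𝓞 K × 𝓞 K) (u : Fin m → 𝓞 K),
            lcz M t r u 0 = 2 ^ M * t := fun t r u => by
          unfold lcz; rw [Fin.cons_zero]
        have h4 : ∀ (t t' : 𝓞 K) (r : 𝓞 K × 𝓞 K) (u : Fin m → 𝓞 K) (i : Fin (m + 2)),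
            lcz M t r u i.succ = lcz M t' r u i.succ := fun t t' r u i => by
          unfold lcz; rw [Fin.cons_succ, Fin.cons_succ]
        rw [h3] at hp1 hp1'
        rw [Finset.sum_congr rfl (fun i _ => by rw [h4 p.1 p'.1])] at hp1
        rw [lc_cast] at hp1 hp1'
        have h5 : (2 : K) ^ M * ((p.1 : K) - (p'.1 : K)) * lf (a l) (b 0) = 0 := by
          linear_combination hp1 - hp1'
        have h6 := (mul_eq_zero.1 h5).resolve_right h0
        have h7 := (mul_eq_zero.1 h6).resolve_left (pow_ne_zero _ two_ne_zero)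
        have h8 : (p.1 : K) = (p'.1 : K) := by linear_combination h7
        exact_mod_cast h8
    · rw [Finset.filter_eq_empty_iff.2, Finset.card_empty]
      · exact Nat.zero_le _
      · intro p hp h
        have h1 := lcx_lf_dual (fun i => a (Fin.castLE hq i)) b hb (lcz M p.1 p.2.1 p.2.2) i.succ
        rw [hf] at h
        simp only at h
        rw [h1] at h
        exact hz p hp i.succ (by exact_mod_cast h)
  set Y' := Y.filter (fun p => ∀ l, lf (a l) (f p) ≠ 0) with hY'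
  refine ⟨Y'.image f, ?_, ?_, ?_, ?_⟩
  · intro x hx
    obtain ⟨p, hp, rfl⟩ := Finset.mem_image.1 hx
    obtain ⟨h1, h2, h3⟩ := hmem p (Finset.mem_filter.1 hp).1
    exact ⟨p.1, h1, p.2.1, h2, p.2.2, h3, rfl⟩
  · intro x hx
    obtain ⟨p, hp, rfl⟩ := Finset.mem_image.1 hx
    exact (Finset.mem_filter.1 hp).2
  · intro x hx y hy hxy
    obtain ⟨p, hp, rfl⟩ := Finset.mem_image.1 hx
    obtain ⟨p', hp', rfl⟩ := Finset.mem_image.1 hy
    exact hind p (Finset.mem_filter.1 hp).1 p' (Finset.mem_filter.1 hp').1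
      (fun h => hxy (by rw [h]))
  · have hc1 : (Y'.image f).card = Y'.card := Finset.card_image_of_injOn (by
      intro p hp p' hp' h
      exact hinj p (Finset.mem_filter.1 (Finset.mem_coe.1 hp)).1 p'
        (Finset.mem_filter.1 (Finset.mem_coe.1 hp')).1 h)
    rw [hc1, ← hWc, ← Finset.card_product, ← hY,
      ← Finset.card_filter_add_card_filter_not (s := Y) (fun p => ∀ l, lf (a l) (f p) ≠ 0)]
    refine Nat.add_le_add_left ?_ _
    have hsub : Y.filter (fun p => ¬ ∀ l, lf (a l) (f p) ≠ 0) ⊆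
        (Finset.univ : Finset (Fin q)).biUnion
          (fun l => Y.filter (fun p => lf (a l) (f p) = 0)) := by
      intro x hx
      rw [Finset.mem_filter] at hx
      obtain ⟨hx1, hx2⟩ := hx
      push Not at hx2
      obtain ⟨l, hl⟩ := hx2
      exact Finset.mem_biUnion.2 ⟨l, Finset.mem_univ _, Finset.mem_filter.2 ⟨hx1, hl⟩⟩
    refine (Finset.card_le_card hsub).trans (Finset.card_biUnion_le.trans ?_)
    refine (Finset.sum_le_sum fun l _ => hE l).trans ?_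
    simp

private lemma lc_rho {K : Type*} [Field K] [NumberField K] {m : ℕ} (c : Fin m → K) :
    ∃ ρ : ℝ, 0 < ρ ∧ ∀ (x : Fin m → K) (s : 𝓞 K), lf c x = 1 + 2 * (s : K) →
      ∀ v : HeightOneSpectrum (𝓞 K), fa v (2 : K) < 1 → ∃ i, ρ ≤ fa v (x i) := by
  classical
  have hfin : {v : HeightOneSpectrum (𝓞 K) | fa v (2 : K) ≠ 1}.Finite :=
    Pool.Agent.Lib.MP_4d5ce1_nt.finite_fa_ne_one two_ne_zero
  have hnn : ∀ (v : HeightOneSpectrum (𝓞 K)) (y : K), 0 ≤ fa v y := fun v y =>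
    Pool.Agent.Lib.MP_4d5ce1_nt.fa_nonneg v y
  set R : ℝ := 1 + ∑ v ∈ hfin.toFinset, ∑ i, fa v (c i) with hR
  have hR0 : 0 ≤ ∑ v ∈ hfin.toFinset, ∑ i, fa v (c i) :=
    Finset.sum_nonneg fun v _ => Finset.sum_nonneg fun i _ => hnn v _
  have hR1 : 1 ≤ R := by linarith
  refine ⟨(2 * R)⁻¹, by positivity, fun x s hx v hv => ?_⟩
  by_contra h
  push Not at h
  have h1 : fa v (lf c x) ≤ 2⁻¹ := by
    unfold lf
    refine Pool.Agent.Lib.MP_4d5ce1_nt.fa_sum_le v _ _ _ (by norm_num) fun i _ => ?_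
    rw [Pool.Agent.Lib.MP_4d5ce1_nt.fa_mul]
    have h2 : fa v (c i) ≤ R := by
      have e1 : fa v (c i) ≤ ∑ i, fa v (c i) :=
        Finset.single_le_sum (f := fun i => fa v (c i)) (fun j _ => hnn v _) (Finset.mem_univ i)
      have e2 : ∑ i, fa v (c i) ≤ ∑ v ∈ hfin.toFinset, ∑ i, fa v (c i) :=
        Finset.single_le_sum (f := fun v => ∑ i, fa v (c i))
          (fun v _ => Finset.sum_nonneg fun j _ => hnn v _) (hfin.mem_toFinset.2 (ne_of_lt hv))
      linarith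
    calc fa v (c i) * fa v (x i) ≤ R * (2 * R)⁻¹ :=
          mul_le_mul h2 (h i).le (hnn v _) (by linarith)
      _ = 2⁻¹ := by
          have : R ≠ 0 := by linarith
          field_simp
  have h2 : fa v (lf c x) = 1 := by
    rw [hx, add_comm, Pool.Agent.Lib.MP_4d5ce1_nt.fa_add_eq_right,
      Pool.Agent.Lib.MP_4d5ce1_nt.fa_one]
    rw [Pool.Agent.Lib.MP_4d5ce1_nt.fa_one, Pool.Agent.Lib.MP_4d5ce1_nt.fa_mul]
    have h3 := Pool.Agent.Lib.MP_4d5ce1_nt.fa_int_le_one v s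
    exact lt_of_le_of_lt (mul_le_of_le_one_right (hnn v _) h3) hv
  rw [h2] at h1
  norm_num at h1

private lemma lc_real (d lam D ε η A C₁ C₃ q : ℝ) (m dd : ℕ) (hA : 0 < A) (hC₃ : 0 < C₃)
    (hC₁ : 0 ≤ C₁) (hD : 0 ≤ D) (hη : 0 < η) (hεη : ε ≤ η / 4) (hdl : 0 ≤ d * lam)
    (T₀ P T₃ R X : ℝ)
    (h0 : A * Real.exp (d * lam * (1 - (D + ε) / 2)) ≤ T₀)
    (hP : A / 4 ^ dd / 2 * Real.exp (d * lam) ≤ P)
    (h3 : A * Real.exp (d * lam) ≤ T₃)
    (hR : P * T₀ ≤ C₃ * Real.exp (d * (η / 4) * lam) * R)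
    (hq : 2 * q ≤ T₀)
    (hX : T₀ * (R * T₃ ^ m) ≤ X + q * (R * T₃ ^ m))
    (hbig : ((m : ℝ) + 3) * C₁ - Real.log (A ^ (m + 3) / (4 ^ (dd + 1) * C₃)) ≤
      d * lam * (η / 2)) :
    Real.exp (((m : ℝ) + 3 - D - η) * (d * lam + C₁)) ≤ X := by
  set E1 := Real.exp (d * lam * (1 - (D + ε) / 2)) with hE1
  set E2 := Real.exp (d * lam) with hE2
  set E3 := Real.exp (d * (η / 4) * lam) with hE3
  have p1 : 0 < E1 := Real.exp_pos _
  have p2 : 0 < E2 := Real.exp_pos _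
  have p3 : 0 < E3 := Real.exp_pos _
  have hT₀ : 0 < T₀ := lt_of_lt_of_le (by positivity) h0
  have hP0 : 0 < P := lt_of_lt_of_le (by positivity) hP
  have hT₃ : 0 < T₃ := lt_of_lt_of_le (by positivity) h3
  have hR' : (A / 4 ^ dd / 2 * E2) * (A * E1) / (C₃ * E3) ≤ R := by
    rw [div_le_iff₀ (by positivity)]
    calc (A / 4 ^ dd / 2 * E2) * (A * E1) ≤ P * T₀ :=
          mul_le_mul hP h0 (by positivity) hP0.le
      _ ≤ C₃ * E3 * R := hR
      _ = R * (C₃ * E3) := by ring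
  have hR0 : 0 < R := lt_of_lt_of_le (by positivity) hR'
  have hX2 : T₀ / 2 * (R * T₃ ^ m) ≤ X := by
    have h5 : 0 < R * T₃ ^ m := by positivity
    have h6 : 2 * q * (R * T₃ ^ m) ≤ T₀ * (R * T₃ ^ m) := mul_le_mul_of_nonneg_right hq h5.le
    linarith
  have hX3 : (A * E1) / 2 * ((A / 4 ^ dd / 2 * E2) * (A * E1) / (C₃ * E3) * (A * E2) ^ m) ≤ X := by
    refine le_trans ?_ hX2
    refine mul_le_mul (by linarith) ?_ (by positivity) (by positivity)
    exact mul_le_mul hR' (pow_le_pow_left₀ (by positivity) h3 m) (by positivity) hR0.le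
  have hκ : 0 < A ^ (m + 3) / (4 ^ (dd + 1) * C₃) := by positivity
  have e1 : (A * E1) / 2 * ((A / 4 ^ dd / 2 * E2) * (A * E1) / (C₃ * E3) * (A * E2) ^ m) =
      A ^ (m + 3) / (4 ^ (dd + 1) * C₃) * (E1 * E1 * E2 * E2 ^ m / E3) := by
    rw [mul_pow]
    field_simp
    ring
  have e2 : E1 * E1 * E2 * E2 ^ m / E3 = Real.exp (d * lam * ((m : ℝ) + 3 - D - ε - η / 4)) := by
    rw [hE1, hE2, hE3, ← Real.exp_nat_mul, ← Real.exp_add, ← Real.exp_add, ← Real.exp_add,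
      ← Real.exp_sub]
    congr 1
    ring
  rw [e1, e2, ← Real.exp_log hκ, ← Real.exp_add] at hX3
  refine le_trans (Real.exp_le_exp.2 ?_) hX3
  have h6 : d * lam * ε ≤ d * lam * (η / 4) := mul_le_mul_of_nonneg_left hεη hdl
  have h7 : 0 ≤ (D + η) * C₁ := by positivity
  have h8 : ((m : ℝ) + 3 - D - η) * (d * lam + C₁) = d * lam * ((m : ℝ) + 3 - D) -
      2 * (d * lam * (η / 2)) + ((m : ℝ) + 3) * C₁ - (D + η) * C₁ := by ring
  have h9 : d * lam * ((m : ℝ) + 3 - D - ε - η / 4) = d * lam * ((m : ℝ) + 3 - D) -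
      d * lam * ε - d * lam * (η / 4) := by ring
  have h10 : d * lam * (η / 2) = 2 * (d * lam * (η / 4)) := by ring
  rw [h8, h9]
  linarith

open Classical in
private lemma lc_reps {α β : Type*} (s : Finset α) (f : α → β) :
    ∃ R : Finset α, R ⊆ s ∧ (∀ r ∈ R, ∀ r' ∈ R, f r = f r' → r = r') ∧
      R.card = (s.image f).card := by
  obtain ⟨R, hR1, hR2, hR3⟩ := Finset.exists_subset_injOn_image_eq_of_surjOn
    (s : Set α) (s.image f) (f := f) (by
      rw [Finset.coe_image]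
      exact Set.surjOn_image f s)
  refine ⟨R, by exact_mod_cast hR1, fun r hr r' hr' h => hR2 hr hr' h, ?_⟩
  rw [← hR3, Finset.card_image_of_injOn hR2]

private lemma lc_main (K : Type*) [Field K] [NumberField K] (m q : ℕ)
    (hq : m + 3 ≤ q) (a : Fin q → Fin (m + 3) → K)
    (ha : ∀ s : Fin (m + 3) → Fin q, Function.Injective s → LinearIndependent K fun i => a (s i))
    (S : Set (HeightOneSpectrum (𝓞 K))) (D c η : ℝ) (hD : 0 ≤ D) (hD1 : D ≤ 1) (hη : 0 < η) :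
    ∃ B₀ : ℝ, ∀ B : ℝ, B₀ ≤ B → ∃ X : Finset (Fin (m + 3) → K),
      (∀ x ∈ X, ∀ l, lf (a l) x ≠ 0) ∧
      (∀ x ∈ X, ∀ y ∈ X, x ≠ y → LinearIndependent K ![x, y]) ∧
      (∀ x ∈ X, mulHeight x ≤ B) ∧
      (∀ x ∈ X, truncCount S a x ≤ (q - D) * logHeight x + c) ∧
      B ^ ((m : ℝ) + 3 - D - η) ≤ (X.card : ℝ) := by
  classical
  obtain ⟨b, hbi, hb⟩ := lc_dual (fun i => a (Fin.castLE hq i)) (ha _ (Fin.castLE_injective hq))
  obtain ⟨C₁, hC₁, hht⟩ := lower_height K (m + 3) b hbi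
  obtain ⟨ρ, hρ, hρ2⟩ := lc_rho (a (Fin.castLE hq (Fin.succ (Fin.succ 0))))
  have h01 : Fin.castLE hq 0 ≠ Fin.castLE hq (Fin.succ 0) := fun h =>
    (Fin.succ_ne_zero 0) (Fin.castLE_injective hq h).symm
  obtain ⟨C₂, hC₂, htr⟩ := lower_trunc K (m + 2) q hq a ha S (Fin.castLE hq 0)
    (Fin.castLE hq (Fin.succ 0)) h01 ρ hρ
  obtain ⟨c₁, Z₀, hc₁, hZ₀, hbox⟩ := Pool.Agent.Lib.MP_4d5ce1_nt.box_lower K
  set dd : ℕ := Module.finrank ℚ K with hdd
  have hdd1 : 1 ≤ dd := Module.finrank_pos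
  set d : ℝ := dg K with hd
  have hddd : d = (dd : ℝ) := rfl
  have hd1 : 1 ≤ d := by rw [hddd]; exact_mod_cast hdd1
  set ε : ℝ := min (η / 4) (1 / 2) with hε
  have hε0 : 0 < ε := lt_min (by positivity) (by norm_num)
  have hε1 : ε ≤ η / 4 := min_le_left _ _
  have hε2 : ε ≤ 1 / 2 := min_le_right _ _
  obtain ⟨C₃, hC₃, hratio⟩ := Pool.Agent.Lib.MP_4d5ce1_nt.ratio_count K d (d * (η / 4))
    (by positivity) (by positivity)
  have hlog2 : 0 < Real.log 2 := Real.log_pos one_lt_two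
  set A : ℝ := c₁ ^ dd with hA
  have hA0 : 0 < A := by positivity
  -- eventual conditions
  have ev4 : ∀ y : ℝ, ∀ᶠ lam : ℝ in Filter.atTop, y ≤ Real.exp (lam / 4) := fun y =>
    (Real.tendsto_exp_atTop.comp
      (Filter.tendsto_id.atTop_div_const (by norm_num : (0 : ℝ) < 4))).eventually_ge_atTop y
  have ev1 : ∀ y : ℝ, ∀ᶠ lam : ℝ in Filter.atTop, y ≤ Real.exp lam := fun y =>
    Real.tendsto_exp_atTop.eventually_ge_atTop y
  have evl : ∀ k y : ℝ, 0 < k → ∀ᶠ lam : ℝ in Filter.atTop, y ≤ k * lam := fun k y hk =>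
    (Filter.tendsto_id.const_mul_atTop hk).eventually_ge_atTop y
  have hev := (((ev4 Z₀).and (ev1 (4 * Z₀))).and ((ev1 (8 / c₁)).and
    (ev4 ((2 * q + 1) / c₁)))).and (((evl (d * ε) (C₁ + C₂ + |c| + 2 * d * Real.log 2)
    (by positivity)).and (evl (d * (η / 2)) (((m : ℝ) + 3) * C₁ -
    Real.log (A ^ (m + 3) / (4 ^ (dd + 1) * C₃))) (by positivity))).and
    (Filter.eventually_ge_atTop (0 : ℝ)))
  obtain ⟨lam₀, hlam₀⟩ := Filter.eventually_atTop.1 hev
  refine ⟨Real.exp (d * lam₀ + C₁), fun B hB => ?_⟩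
  have hB0 : 0 < B := (Real.exp_pos _).trans_le hB
  set lam : ℝ := (Real.log B - C₁) / d with hlam
  have hlamB : d * lam + C₁ = Real.log B := by
    rw [hlam]; field_simp; ring
  have hlamge : lam₀ ≤ lam := by
    have h1 : d * lam₀ + C₁ ≤ Real.log B := by
      rw [← Real.log_exp (d * lam₀ + C₁)]
      exact Real.log_le_log (Real.exp_pos _) hB
    rw [← hlamB] at h1
    have h2 : d * lam₀ ≤ d * lam := by linarith
    exact le_of_mul_le_mul_left h2 (by linarith)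
  obtain ⟨⟨⟨g1, g2⟩, g3, g4⟩, ⟨g5, g6⟩, g7⟩ := hlam₀ lam hlamge
  -- the power of two
  set M : ℕ := ⌊(D + ε) / 2 * lam / Real.log 2⌋₊ with hM
  have hMle : (M : ℝ) * Real.log 2 ≤ (D + ε) / 2 * lam := by
    rw [← le_div_iff₀ hlog2]
    exact Nat.floor_le (by positivity)
  have hMge : (D + ε) / 2 * lam - Real.log 2 ≤ (M : ℝ) * Real.log 2 := by
    have h1 : (D + ε) / 2 * lam / Real.log 2 < (M : ℝ) + 1 := Nat.lt_floor_add_one _
    rw [div_lt_iff₀ hlog2] at h1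
    linarith
  have h2M : (2 : ℝ) ^ M = Real.exp ((M : ℝ) * Real.log 2) := by
    rw [mul_comm, Real.exp_mul, Real.exp_log two_pos, Real.rpow_natCast]
  have h2Mpos : (0 : ℝ) < 2 ^ M := by positivity
  have h2M1 : (1 : ℝ) ≤ 2 ^ M := one_le_pow₀ one_le_two
  set Q : ℝ := Real.exp lam with hQ
  have hQ0 : 0 < Q := Real.exp_pos _
  have hQ1 : 4 ≤ Q := by linarith
  have hlogQ : Real.log Q = lam := Real.log_exp _
  have hQM : Real.exp (lam * (1 - (D + ε) / 2)) ≤ Q / 2 ^ M := by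
    rw [le_div_iff₀ h2Mpos, h2M, ← Real.exp_add]
    have e1 : lam * (1 - (D + ε) / 2) = lam - (D + ε) / 2 * lam := by ring
    rw [e1]
    exact Real.exp_le_exp.2 (by linarith)
  have hexp4 : Real.exp (lam / 4) ≤ Real.exp (lam * (1 - (D + ε) / 2)) :=
    Real.exp_le_exp.2 (by
      rw [div_eq_mul_inv]
      exact mul_le_mul_of_nonneg_left (by linarith) g7)
  have hQM4 : Real.exp (lam / 4) ≤ Q / 2 ^ M := hexp4.trans hQM
  -- the boxes
  obtain ⟨T₀, hT₀0, hT₀w, hT₀c⟩ := hbox (Q / 2 ^ M) (g1.trans hQM4)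
  obtain ⟨T₂, hT₂0, hT₂w, hT₂c⟩ := hbox (Q / 4) (by linarith)
  obtain ⟨T₃, hT₃0, hT₃w, hT₃c⟩ := hbox Q (by linarith)
  set P : Finset (𝓞 K) := (T₂.image fun s' => 1 + 2 * s').filter (fun s => s ≠ 0) with hP
  have hPmem : ∀ s ∈ P, s ≠ 0 ∧ (∃ s' : 𝓞 K, s = 1 + 2 * s') ∧
      ∀ w : InfinitePlace K, w (s : K) ≤ Q := by
    intro s hs
    obtain ⟨h4, h5⟩ := Finset.mem_filter.1 hs
    obtain ⟨s', hs', rfl⟩ := Finset.mem_image.1 h4
    refine ⟨h5, ⟨s', rfl⟩, fun w => ?_⟩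
    have e1 : ((1 + 2 * s' : 𝓞 K) : K) = 1 + 2 * (s' : K) := by push_cast; rfl
    rw [e1]
    refine (Pool.Agent.Lib.MP_4d5ce1_nt.w_add_le w _ _).trans ?_
    rw [map_one, map_mul, Pool.Agent.Lib.MP_4d5ce1_nt.w_two]
    have := hT₂w s' hs' w
    linarith
  have hPcard : A / 4 ^ dd / 2 * Real.exp (d * lam) ≤ (P.card : ℝ) := by
    have e1 : A / 4 ^ dd / 2 * Real.exp (d * lam) = (c₁ * (Q / 4)) ^ dd / 2 := by
      rw [mul_pow, div_pow, hA, hQ, ← Real.exp_nat_mul, ← hddd]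
      ring
    have e2 : T₂.card ≤ P.card + 1 := by
      have e3 : (T₂.image fun s' : 𝓞 K => 1 + 2 * s').card = T₂.card := by
        refine Finset.card_image_of_injective _ fun x y h => ?_
        have h4 : (2 : 𝓞 K) * x = 2 * y := add_left_cancel h
        exact mul_left_cancel₀ two_ne_zero h4
      rw [← e3, ← Finset.card_filter_add_card_filter_not (s := T₂.image fun s' : 𝓞 K => 1 + 2 * s')
        (fun s => s ≠ 0)]
      refine Nat.add_le_add_left ?_ _
      rw [Finset.card_le_one]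
      intro x hx y hy
      rw [Finset.mem_filter, not_not] at hx hy
      rw [hx.2, hy.2]
    have e4 : (T₂.card : ℝ) ≤ (P.card : ℝ) + 1 := by exact_mod_cast e2
    have e5 : (2 : ℝ) ≤ c₁ * (Q / 4) := by
      rw [div_le_iff₀ hc₁] at g3
      linarith
    have e6 : (2 : ℝ) ≤ (c₁ * (Q / 4)) ^ dd := by
      calc (2 : ℝ) ≤ c₁ * (Q / 4) := e5
        _ = (c₁ * (Q / 4)) ^ 1 := (pow_one _).symm
        _ ≤ (c₁ * (Q / 4)) ^ dd := pow_le_pow_right₀ (by linarith) hdd1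
    rw [e1]
    linarith
  have hT₀card : A * Real.exp (d * lam * (1 - (D + ε) / 2)) ≤ (T₀.card : ℝ) := by
    have e1 : A * Real.exp (d * lam * (1 - (D + ε) / 2)) =
        (c₁ * Real.exp (lam * (1 - (D + ε) / 2))) ^ dd := by
      rw [mul_pow, ← Real.exp_nat_mul, ← hddd, hA]
      congr 2
      ring
    rw [e1]
    refine le_trans (pow_le_pow_left₀ (by positivity) ?_ dd) hT₀c
    exact mul_le_mul_of_nonneg_left hQM hc₁.le
  have hT₃card : A * Real.exp (d * lam) ≤ (T₃.card : ℝ) := by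
    have e1 : A * Real.exp (d * lam) = (c₁ * Q) ^ dd := by
      rw [mul_pow, hQ, ← Real.exp_nat_mul, ← hddd, hA]
    rw [e1]
    exact hT₃c
  have hT₀q : 2 * (q : ℝ) ≤ (T₀.card : ℝ) := by
    have e5 : 2 * (q : ℝ) + 1 ≤ c₁ * (Q / 2 ^ M) := by
      rw [div_le_iff₀ hc₁] at g4
      refine (g4.trans (le_of_eq (mul_comm _ _))).trans ?_
      exact mul_le_mul_of_nonneg_left hQM4 hc₁.le
    have e6 : 2 * (q : ℝ) + 1 ≤ (c₁ * (Q / 2 ^ M)) ^ dd := by
      have hq0 : (0 : ℝ) ≤ q := Nat.cast_nonneg q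
      calc 2 * (q : ℝ) + 1 ≤ c₁ * (Q / 2 ^ M) := e5
        _ = (c₁ * (Q / 2 ^ M)) ^ 1 := (pow_one _).symm
        _ ≤ (c₁ * (Q / 2 ^ M)) ^ dd := pow_le_pow_right₀ (by linarith) hdd1
    linarith
  have hT₀wQ : ∀ t ∈ T₀, ∀ w : InfinitePlace K, 2 ^ M * w (t : K) ≤ Q := by
    intro t ht w
    have := hT₀w t ht w
    rw [le_div_iff₀ h2Mpos] at this
    linarith
  have hT₀wQ' : ∀ t ∈ T₀, ∀ w : InfinitePlace K, w (t : K) ≤ Q := by
    intro t ht w
    refine le_trans ?_ (hT₀wQ t ht w)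
    exact le_mul_of_one_le_left (apply_nonneg w _) h2M1
  have hlh : ∀ t : 𝓞 K, (∀ w : InfinitePlace K, w (t : K) ≤ Q) →
      logHeight₁ (t : K) ≤ d * (lam + 1) := by
    intro t ht
    refine (Pool.Agent.Lib.MP_4d5ce1_nt.logHeight_integral_le t Q (by linarith) ht).trans ?_
    rw [hlogQ, hddd]
    exact mul_le_mul_of_nonneg_left (by linarith) (Nat.cast_nonneg _)
  have hRat := hratio lam g7 P T₀ (fun s hs => (hPmem s hs).1) hT₀0
    (fun s hs => hlh s (hPmem s hs).2.2) (fun t ht => hlh t (hT₀wQ' t ht))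
  -- representatives of the ratios
  set F : 𝓞 K × 𝓞 K → K := fun p => (p.2 : K) / (p.1 : K) with hF
  obtain ⟨R, hRsub, hRinj, hRcard⟩ : ∃ R : Finset (𝓞 K × 𝓞 K), R ⊆ P ×ˢ T₀ ∧
      (∀ r ∈ R, ∀ r' ∈ R, F r = F r' → r = r') ∧ R.card = ((P ×ˢ T₀).image F).card := by
    exact lc_reps (P ×ˢ T₀) F
  obtain ⟨X, hX1, hX2, hX3, hX4⟩ := lc_build hq a ha b hbi hb M T₀ R T₃ hT₀0 hT₃0
    (fun r hr => (hPmem _ (Finset.mem_product.1 (hRsub hr)).1).1)
    (fun r hr => hT₀0 _ (Finset.mem_product.1 (hRsub hr)).2) hRinj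
  have h2w : ∀ (w : InfinitePlace K) (t : 𝓞 K), w ((2 ^ M * t : 𝓞 K) : K) = 2 ^ M * w (t : K) := by
    intro w t
    rw [lc_cast, map_mul, map_pow, Pool.Agent.Lib.MP_4d5ce1_nt.w_two]
  have hXht : ∀ x ∈ X, logHeight x ≤ d * lam + C₁ := by
    intro x hx
    obtain ⟨t, ht, r, hr, u, hu, rfl⟩ := hX1 x hx
    have hr1 := Finset.mem_product.1 (hRsub hr)
    have h5 := hht (lcz M t r u) Q (by linarith) (by
      intro h0
      exact lcz_ne M (hT₀0 t ht) (hPmem _ hr1.1).1 (hT₀0 _ hr1.2) (fun i => hT₃0 _ (hu i)) 0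
        (congrFun h0 0)) (by
      intro w i
      unfold lcz
      refine Fin.cases ?_ (fun i => ?_) i
      · rw [Fin.cons_zero, h2w]
        exact hT₀wQ t ht w
      · rw [Fin.cons_succ]
        refine Fin.cases ?_ (fun i => ?_) i
        · rw [Fin.cons_zero, h2w]
          exact hT₀wQ _ hr1.2 w
        · rw [Fin.cons_succ]
          refine Fin.cases ?_ (fun i => ?_) i
          · rw [Fin.cons_zero]
            exact (hPmem _ hr1.1).2.2 w
          · rw [Fin.cons_succ]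
            exact hT₃w _ (hu i) w)
    rw [hlogQ] at h5
    exact h5
  refine ⟨X, hX2, hX3, ?_, ?_, ?_⟩
  · intro x hx
    have h5 := hXht x hx
    rw [hlamB] at h5
    have h6 : 0 < mulHeight x := mulHeight_pos x
    exact (Real.log_le_log_iff h6 hB0).1 h5
  · intro x hx
    have h5 := hXht x hx
    have h6 := hX2 x hx
    obtain ⟨t, ht, r, hr, u, hu, rfl⟩ := hX1 x hx
    have hr1 := Finset.mem_product.1 (hRsub hr)
    obtain ⟨s', hs'⟩ := (hPmem _ hr1.1).2.1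
    have k0 := lcx_lf_dual (fun i => a (Fin.castLE hq i)) b hb (lcz M t r u) 0
    have k1 := lcx_lf_dual (fun i => a (Fin.castLE hq i)) b hb (lcz M t r u) (Fin.succ 0)
    have k2 := lcx_lf_dual (fun i => a (Fin.castLE hq i)) b hb (lcz M t r u)
      (Fin.succ (Fin.succ 0))
    have z0 : lcz M t r u 0 = 2 ^ M * t := by unfold lcz; rw [Fin.cons_zero]
    have z1 : lcz M t r u (Fin.succ 0) = 2 ^ M * r.2 := by
      unfold lcz; rw [Fin.cons_succ, Fin.cons_zero]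
    have z2 : lcz M t r u (Fin.succ (Fin.succ 0)) = r.1 := by
      unfold lcz; rw [Fin.cons_succ, Fin.cons_succ, Fin.cons_zero]
    rw [z0] at k0
    rw [z1] at k1
    rw [z2, hs'] at k2
    have k2' : lf (a (Fin.castLE hq (Fin.succ (Fin.succ 0)))) (lcx b (lcz M t r u)) =
        1 + 2 * (s' : K) := by
      rw [k2]; push_cast; rfl
    have h7 := htr M (lcx b (lcz M t r u)) h6 (fun v hv => hρ2 _ s' k2' v hv)
      ⟨t, by rw [k0, lc_cast]⟩ ⟨r.2, by rw [k1, lc_cast]⟩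
    have h8 : D * logHeight (lcx b (lcz M t r u)) ≤ D * (d * lam + C₁) :=
      mul_le_mul_of_nonneg_left h5 hD
    have h9 : d * ((D + ε) / 2 * lam - Real.log 2) ≤ d * ((M : ℝ) * Real.log 2) :=
      mul_le_mul_of_nonneg_left hMge (by linarith)
    have h10 := neg_abs_le c
    have h11 : D * C₁ ≤ C₁ := mul_le_of_le_one_left hC₁ hD1
    have h12 : 2 * (M : ℝ) * dg K * Real.log 2 = 2 * (d * ((M : ℝ) * Real.log 2)) := by
      rw [← hd]; ring
    rw [h12] at h7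
    have h13 : (q - D) * logHeight (lcx b (lcz M t r u)) =
      q * logHeight (lcx b (lcz M t r u)) - D * logHeight (lcx b (lcz M t r u)) := by ring
    rw [h13]
    have h14 : D * (d * lam + C₁) = d * (D * lam) + D * C₁ := by ring
    have h15 : 2 * (d * ((D + ε) / 2 * lam - Real.log 2)) =
      d * (D * lam) + d * ε * lam - 2 * d * Real.log 2 := by ring
    linarith
  · have h5 := lc_real d lam D ε η A C₁ C₃ q m dd hA0 hC₃ hC₁ hD hη hε1 (by positivity)
      (T₀.card : ℝ) (P.card : ℝ) (T₃.card : ℝ) (R.card : ℝ) (X.card : ℝ) hT₀card hPcard hT₃card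
      (by rw [hRcard]; exact hRat) hT₀q (by exact_mod_cast hX4)
      (by
        have : d * lam * (η / 2) = d * (η / 2) * lam := by ring
        rw [this]; exact g6)
    rw [hlamB] at h5
    rw [Real.rpow_def_of_pos hB0, mul_comm]
    exact h5

theorem lower_count (K : Type*) [Field K] [NumberField K] (n q : ℕ) (hn : 2 ≤ n)
    (hq : n + 1 ≤ q) (a : Fin q → Fin (n + 1) → K)
    (ha : ∀ s : Fin (n + 1) → Fin q, Function.Injective s → LinearIndependent K fun i => a (s i))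
    (S : Set (HeightOneSpectrum (𝓞 K))) (D c η : ℝ) (hD : 0 ≤ D) (hD1 : D ≤ 1) (hη : 0 < η) :
    ∃ B₀ : ℝ, ∀ B : ℝ, B₀ ≤ B → ∃ X : Finset (Fin (n + 1) → K),
      (∀ x ∈ X, ∀ l, ∑ i, a l i * x i ≠ 0) ∧
      (∀ x ∈ X, ∀ y ∈ X, x ≠ y → LinearIndependent K ![x, y]) ∧
      (∀ x ∈ X, mulHeight x ≤ B) ∧
      (∀ x ∈ X, truncCount S a x ≤ (q - D) * logHeight x + c) ∧
      B ^ ((n : ℝ) + 1 - D - η) ≤ (X.card : ℝ) := by
  obtain ⟨m, rfl⟩ : ∃ m, n = m + 2 := ⟨n - 2, by omega⟩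
  have h := lc_main K m q hq a ha S D c η hD hD1 hη
  have e : ((m + 2 : ℕ) : ℝ) + 1 = (m : ℝ) + 3 := by push_cast; ring
  rw [e]
  exact h

end Pool.Agent.Lib.MP_44a246_nt.HQ
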