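import Pool.Agent.Lib.MP_44a246_nt.HQ.Final2
import Pool.Agent.Lib.MP_44a246_nt.HQ.Lower2

set_option autoImplicit false

open NumberField IsDedekindDomain Height

open Pool.Agent.Lib.MP_44a246_nt.HP in
/-- Counting form of Vojta's conjecture with truncated counting for hyperplanes in general
position in projective space, with the exact exponent for defects `D ≤ 1`. -/
theorem Pool.Agent.Lib.MP_44a246_nt.HQ.hyperplaneCounting :
    ∀ (K : Type) [Field K] [NumberField K] (n q : ℕ), 2 ≤ n → n + 1 ≤ q →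
      ∀ (a : Fin q → Fin (n + 1) → K),
        (∀ s : Fin (n + 1) → Fin q, Function.Injective s →
          LinearIndependent K fun i => a (s i)) →
        ∀ S : Set (HeightOneSpectrum (𝓞 K)), S.Finite →
          ∀ D c η : ℝ, 0 ≤ D → 0 < η →
            (∃ C : ℝ, ∀ B : ℝ, 1 ≤ B → ∀ X : Finset (Fin (n + 1) → K),
              (∀ x ∈ X, ∀ l, ∑ i, a l i * x i ≠ 0) →
              (∀ x ∈ X, ∀ y ∈ X, x ≠ y → LinearIndependent K ![x, y]) →
              (∀ x ∈ X, mulHeight x ≤ B) →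
              (∀ x ∈ X, truncCount S a x ≤ (q - D) * logHeight x + c) →
              (X.card : ℝ) ≤ C * B ^ ((n : ℝ) + 1 - min 1 D + η)) ∧
            (D ≤ 1 → ∃ B₀ : ℝ, ∀ B : ℝ, B₀ ≤ B → ∃ X : Finset (Fin (n + 1) → K),
              (∀ x ∈ X, ∀ l, ∑ i, a l i * x i ≠ 0) ∧
              (∀ x ∈ X, ∀ y ∈ X, x ≠ y → LinearIndependent K ![x, y]) ∧
              (∀ x ∈ X, mulHeight x ≤ B) ∧
              (∀ x ∈ X, truncCount S a x ≤ (q - D) * logHeight x + c) ∧
              B ^ ((n : ℝ) + 1 - D - η) ≤ (X.card : ℝ)) := by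
  intro K _ _ n q hn hq a ha S hS D c η hD hη
  exact ⟨Pool.Agent.Lib.MP_44a246_nt.HQ.upper_count K n q hn hq a ha S hS D c η hD hη,
    fun hD1 => Pool.Agent.Lib.MP_44a246_nt.HQ.lower_count K n q hn hq a ha S D c η hD hD1 hη⟩
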