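import Pool.Agent.Lib.MP_44a246_nt.HQ.Defs
import Pool.Agent.Lib.MP_44a246_nt.HP.Local

set_option autoImplicit false
set_option linter.unusedSectionVars false
set_option linter.unusedVariables false

open NumberField IsDedekindDomain Height
open Pool.Agent.Lib.MP_4d5ce1_nt (ordv fa nv)
open Pool.Agent.Lib.MP_44a246_nt.HP

namespace Pool.Agent.Lib.MP_44a246_nt.HQ

/-! ## HQ-14 -/

section lowaux

variable {K : Type*} [Field K] [NumberField K]

open Pool.Agent.Lib.MP_4d5ce1_nt

/-- The size of a vector at a prime. -/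
private noncomputable def lowF {ι : Type*} (v : HeightOneSpectrum (𝓞 K)) (x : ι → K) : ℝ :=
  ⨆ i, fa v (x i)

/-- The size of a vector at an infinite place. -/
private noncomputable def lowI {ι : Type*} (w : InfinitePlace K) (x : ι → K) : ℝ := ⨆ i, w (x i)

private lemma low_le_F {ι : Type*} [Finite ι] (v : HeightOneSpectrum (𝓞 K)) (x : ι → K) (i : ι) :
    fa v (x i) ≤ lowF v x :=
  le_ciSup (f := fun i => fa v (x i)) (Set.finite_range _).bddAbove i

omit [NumberField K] in
private lemma low_le_I {ι : Type*} [Finite ι] (w : InfinitePlace K) (x : ι → K) (i : ι) :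
    w (x i) ≤ lowI w x :=
  le_ciSup (f := fun i => w (x i)) (Set.finite_range _).bddAbove i

private lemma low_F_le {ι : Type*} (v : HeightOneSpectrum (𝓞 K)) (x : ι → K) (c : ℝ) (hc : 0 ≤ c)
    (h : ∀ i, fa v (x i) ≤ c) : lowF v x ≤ c := Real.iSup_le h hc

omit [NumberField K] in
private lemma low_I_le {ι : Type*} (w : InfinitePlace K) (x : ι → K) (c : ℝ) (hc : 0 ≤ c)
    (h : ∀ i, w (x i) ≤ c) : lowI w x ≤ c := Real.iSup_le h hc

private lemma low_F_nonneg {ι : Type*} (v : HeightOneSpectrum (𝓞 K)) (x : ι → K) :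
    0 ≤ lowF v x := Real.iSup_nonneg fun _ => fa_nonneg v _

omit [NumberField K] in
private lemma low_I_nonneg {ι : Type*} (w : InfinitePlace K) (x : ι → K) :
    0 ≤ lowI w x := Real.iSup_nonneg fun _ => apply_nonneg w _

private lemma low_F_pos {ι : Type*} [Finite ι] (v : HeightOneSpectrum (𝓞 K)) {x : ι → K}
    (hx : x ≠ 0) : 0 < lowF v x := by
  obtain ⟨i, hi⟩ := Function.ne_iff.mp hx
  exact (fa_pos v hi).trans_le (low_le_F v x i)

omit [NumberField K] in
private lemma low_I_pos {ι : Type*} [Finite ι] (w : InfinitePlace K) {x : ι → K}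
    (hx : x ≠ 0) : 0 < lowI w x := by
  obtain ⟨i, hi⟩ := Function.ne_iff.mp hx
  exact (InfinitePlace.pos_iff.mpr hi).trans_le (low_le_I w x i)

private lemma low_F_eq {ι : Type*} [Finite ι] (v : HeightOneSpectrum (𝓞 K)) {x : ι → K}
    (hx : x ≠ 0) : ∃ i, x i ≠ 0 ∧ fa v (x i) = lowF v x := by
  obtain ⟨i₀, hi₀⟩ := Function.ne_iff.mp hx
  have : Nonempty ι := ⟨i₀⟩
  obtain ⟨i, hi⟩ := exists_eq_ciSup_of_finite (f := fun i => fa v (x i))
  refine ⟨i, ?_, hi⟩
  intro h
  have h1 := low_F_pos v hx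
  have h2 : fa v (x i) = lowF v x := hi
  rw [← h2, h, fa_zero] at h1
  exact lt_irrefl _ h1

private lemma low_F_fin {ι : Type*} [Finite ι] {x : ι → K} (hx : x ≠ 0) :
    {v : HeightOneSpectrum (𝓞 K) | lowF v x ≠ 1}.Finite := by
  have h1 : (⋃ i : ι, {v : HeightOneSpectrum (𝓞 K) | x i ≠ 0 ∧ fa v (x i) ≠ 1}).Finite := by
    refine Set.finite_iUnion fun i => ?_
    by_cases h : x i = 0
    · refine Set.Finite.subset Set.finite_empty fun v hv => ?_
      exact hv.1 h
    · exact (finite_fa_ne_one h).subset fun v hv => hv.2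
  refine h1.subset fun v hv => ?_
  obtain ⟨i, hi, hi'⟩ := low_F_eq v hx
  refine Set.mem_iUnion.2 ⟨i, hi, ?_⟩
  rw [hi']
  exact hv

private lemma low_log_fin {f : HeightOneSpectrum (𝓞 K) → ℝ} (h : {v | f v ≠ 1}.Finite) :
    (Function.support fun v : HeightOneSpectrum (𝓞 K) => Real.log (f v)).Finite := by
  refine h.subset fun v hv h1 => ?_
  exact hv (by simp only [h1, Real.log_one])

private lemma low_height {ι : Type*} [Finite ι] {x : ι → K} (hx : x ≠ 0) :
    logHeight x = ∑ w : InfinitePlace K, (w.mult : ℝ) * Real.log (lowI w x) +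
      ∑ᶠ v : HeightOneSpectrum (𝓞 K), Real.log (lowF v x) := by
  rw [logHeight_eq_log_mulHeight, NumberField.mulHeight_eq hx]
  have hfin : ∏ᶠ w : FinitePlace K, ⨆ i, w (x i) =
      ∏ᶠ v : HeightOneSpectrum (𝓞 K), lowF v x := by
    rw [← finprod_comp_equiv (FinitePlace.equivHeightOneSpectrum (K := K)).symm]
    rfl
  rw [hfin]
  have hpos1 : ∀ w : InfinitePlace K, 0 < ⨆ i, w (x i) := fun w => low_I_pos w hx
  rw [Real.log_mul]
  · rw [Real.log_prod (fun w _ => (pow_pos (hpos1 w) _).ne')]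
    rw [Real.log_finprod (fun v => low_F_pos v hx)]
    simp only [Real.log_pow, lowI]
  · exact (Finset.prod_pos fun w _ => pow_pos (hpos1 w) _).ne'
  · have hfs : (Function.mulSupport fun v : HeightOneSpectrum (𝓞 K) => lowF v x).Finite :=
      low_F_fin hx
    rw [finprod_eq_prod _ hfs]
    exact (Finset.prod_pos fun v _ => low_F_pos v hx).ne'

private lemma low_sum_mult : ∑ w : InfinitePlace K, (w.mult : ℝ) = dg K := by
  unfold dg
  exact_mod_cast InfinitePlace.sum_mult_eq (K := K)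

private lemma low_mult_nonneg (w : InfinitePlace K) : (0 : ℝ) ≤ (w.mult : ℝ) := Nat.cast_nonneg _

private lemma low_dg_nonneg : 0 ≤ dg K := by
  unfold dg
  exact Nat.cast_nonneg _

private lemma low_int (v : HeightOneSpectrum (𝓞 K)) (s : 𝓞 K) : fa v (s : K) ≤ 1 :=
  FinitePlace.norm_le_one K v s

/-- The local height. -/
private noncomputable def lowL {m : ℕ} (a x : Fin m → K) (v : HeightOneSpectrum (𝓞 K)) : ℝ :=
  Real.log (lowF v a) + Real.log (lowF v x) - Real.log (fa v (lf a x))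

private lemma low_lf_fa {m : ℕ} (a x : Fin m → K) (v : HeightOneSpectrum (𝓞 K)) :
    fa v (lf a x) ≤ lowF v a * lowF v x := by
  refine fa_sum_le v _ _ _ (mul_nonneg (low_F_nonneg v a) (low_F_nonneg v x)) fun i _ => ?_
  rw [fa_mul]
  exact mul_le_mul (low_le_F v a i) (low_le_F v x i) (fa_nonneg _ _) (low_F_nonneg v a)

private lemma low_lf_w {m : ℕ} (a x : Fin m → K) (w : InfinitePlace K) :
    w (lf a x) ≤ (m : ℝ) * (lowI w a * lowI w x) := by
  refine (w.1.sum_le _ _).trans ?_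
  have h : ∀ i ∈ (Finset.univ : Finset (Fin m)), w.1 (a i * x i) ≤ lowI w a * lowI w x := by
    intro i _
    have h1 : w.1 (a i * x i) = w (a i) * w (x i) := map_mul w.1 _ _
    rw [h1]
    exact mul_le_mul (low_le_I w a i) (low_le_I w x i) (apply_nonneg _ _) (low_I_nonneg w a)
  refine (Finset.sum_le_card_nsmul _ _ _ h).trans (le_of_eq ?_)
  rw [Finset.card_univ, Fintype.card_fin, nsmul_eq_mul]

private lemma low_ne {m : ℕ} {a x : Fin m → K} (h : lf a x ≠ 0) : a ≠ 0 ∧ x ≠ 0 := by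
  constructor
  · rintro rfl
    exact h (by simp [lf])
  · rintro rfl
    exact h (by simp [lf])

private lemma low_L_fin {m : ℕ} {a x : Fin m → K} (h : lf a x ≠ 0) :
    (Function.support (lowL a x)).Finite := by
  have hn := low_ne h
  refine (((low_F_fin hn.1).union (low_F_fin hn.2)).union (finite_fa_ne_one h)).subset ?_
  intro v hv
  by_contra hc
  rw [Set.mem_union, Set.mem_union, not_or, not_or] at hc
  obtain ⟨⟨h1, h2⟩, h3⟩ := hc
  rw [Set.mem_ofPred_eq, not_not] at h1 h2 h3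
  apply hv
  simp only [lowL, h1, h2, h3, Real.log_one, add_zero, sub_zero]

private lemma low_L_nonneg {m : ℕ} {a x : Fin m → K} (h : lf a x ≠ 0)
    (v : HeightOneSpectrum (𝓞 K)) : 0 ≤ lowL a x v := by
  have hn := low_ne h
  have h1 := Real.log_le_log (fa_pos v h) (low_lf_fa a x v)
  rw [Real.log_mul (low_F_pos v hn.1).ne' (low_F_pos v hn.2).ne'] at h1
  unfold lowL
  linarith

private lemma low_L_ge {m : ℕ} {a x : Fin m → K} (h : lf a x ≠ 0)
    (v : HeightOneSpectrum (𝓞 K)) {i j : Fin m}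
    (hij : fa v (lf a x) < fa v (a i) * fa v (x j)) : lnv v ≤ lowL a x v := by
  have hn := low_ne h
  obtain ⟨i', hi, hi'⟩ := low_F_eq v hn.1
  obtain ⟨j', hj, hj'⟩ := low_F_eq v hn.2
  have h1 : 0 < lowL a x v := by
    have h2 : fa v (lf a x) < lowF v a * lowF v x :=
      hij.trans_le (mul_le_mul (low_le_F v a i) (low_le_F v x j) (fa_nonneg _ _)
        (low_F_nonneg v a))
    have h3 := Real.log_lt_log (fa_pos v h) h2
    rw [Real.log_mul (low_F_pos v hn.1).ne' (low_F_pos v hn.2).ne'] at h3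
    unfold lowL
    linarith
  have h4 : lowL a x v = ((ordv v (lf a x) - ordv v (a i') - ordv v (x j') : ℤ) : ℝ) * lnv v := by
    unfold lowL
    rw [← hi', ← hj', log_fa v hi, log_fa v hj, log_fa v h]
    unfold lnv
    push_cast
    ring
  have h5 := lnv_pos v
  have h6 : 0 < ordv v (lf a x) - ordv v (a i') - ordv v (x j') := by
    rw [h4] at h1
    by_contra hc
    push Not at hc
    have h7 : ((ordv v (lf a x) - ordv v (a i') - ordv v (x j') : ℤ) : ℝ) ≤ 0 := by
      exact_mod_cast hc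
    have h8 := mul_nonpos_of_nonpos_of_nonneg h7 h5.le
    linarith
  have h9 : (1 : ℝ) ≤ ((ordv v (lf a x) - ordv v (a i') - ordv v (x j') : ℤ) : ℝ) := by
    exact_mod_cast h6
  rw [h4]
  have h10 := mul_le_mul_of_nonneg_right h9 h5.le
  linarith

/-- The sum of the local heights at the primes is at most the height plus a constant. -/
private lemma low_L_sum {m : ℕ} {a x : Fin m → K} (h : lf a x ≠ 0) :
    ∑ᶠ v : HeightOneSpectrum (𝓞 K), lowL a x v ≤
      logHeight x + (logHeight a + dg K * Real.log m) := by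
  have hn := low_ne h
  have hm : 0 < m := by
    by_contra hc
    have hm0 : m = 0 := by omega
    subst hm0
    exact h (by simp [lf])
  have hmr : (0 : ℝ) < m := by exact_mod_cast hm
  have f1 := low_log_fin (low_F_fin hn.1)
  have f2 := low_log_fin (low_F_fin hn.2)
  have f3 : (Function.support fun v : HeightOneSpectrum (𝓞 K) =>
      Real.log (fa v (lf a x))).Finite := low_log_fin (finite_fa_ne_one h)
  have e1 : ∑ᶠ v : HeightOneSpectrum (𝓞 K), lowL a x v =
      ∑ᶠ v : HeightOneSpectrum (𝓞 K), Real.log (lowF v a) +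
      ∑ᶠ v : HeightOneSpectrum (𝓞 K), Real.log (lowF v x) -
      ∑ᶠ v : HeightOneSpectrum (𝓞 K), Real.log (fa v (lf a x)) := by
    rw [← finsum_add_distrib f1 f2, ← finsum_sub_distrib _ f3]
    · rfl
    · exact (f1.union f2).subset (Function.support_add _ _)
  have e2 := low_height hn.1
  have e3 := low_height hn.2
  have e4 := product_formula h
  have e5 : ∑ w : InfinitePlace K, (w.mult : ℝ) * Real.log (w (lf a x)) ≤
      dg K * Real.log m + ∑ w : InfinitePlace K, (w.mult : ℝ) * Real.log (lowI w a) +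
        ∑ w : InfinitePlace K, (w.mult : ℝ) * Real.log (lowI w x) := by
    rw [← low_sum_mult, Finset.sum_mul, ← Finset.sum_add_distrib, ← Finset.sum_add_distrib]
    refine Finset.sum_le_sum fun w _ => ?_
    rw [← mul_add, ← mul_add]
    refine mul_le_mul_of_nonneg_left ?_ (low_mult_nonneg w)
    have h1 := Real.log_le_log (InfinitePlace.pos_iff.mpr h) (low_lf_w a x w)
    rw [Real.log_mul hmr.ne' (mul_pos (low_I_pos w hn.1) (low_I_pos w hn.2)).ne',
      Real.log_mul (low_I_pos w hn.1).ne' (low_I_pos w hn.2).ne'] at h1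
    linarith
  rw [e1]
  linarith

private lemma low_val_lt (v : HeightOneSpectrum (𝓞 K)) (x y : K) :
    v.valuation K x < v.valuation K y ↔ fa v x < fa v y := by
  by_cases hy : y = 0
  · subst hy
    simp only [map_zero, fa_zero, not_lt_zero, false_iff, not_lt]
    exact fa_nonneg v x
  by_cases hx : x = 0
  · subst hx
    simp only [map_zero, fa_zero]
    constructor
    · intro _
      exact fa_pos v hy
    · intro _
      exact zero_lt_iff.2 ((Valuation.ne_zero_iff _).mpr hy)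
  have hx' : v.valuation K x ≠ 0 := (Valuation.ne_zero_iff _).mpr hx
  have hy' : v.valuation K y ≠ 0 := (Valuation.ne_zero_iff _).mpr hy
  rw [← WithZero.log_lt_log hx' hy', fa_eq v hx, fa_eq v hy,
    zpow_lt_zpow_iff_right₀ (one_lt_nv v), ordv, ordv, neg_neg, neg_neg]

private lemma low_two (w : InfinitePlace K) : w (2 : K) = 2 := by
  have := InfinitePlace.map_natCast w 2
  simpa using this

private lemma low_pf2 (T : Finset (HeightOneSpectrum (𝓞 K)))
    (hT : ∀ v, v ∈ T ↔ fa v (2 : K) ≠ 1) :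
    ∑ v ∈ T, Real.log (fa v (2 : K)) = - (dg K * Real.log 2) := by
  have h1 := product_formula (two_ne_zero : (2 : K) ≠ 0)
  have h2 : ∑ᶠ v : HeightOneSpectrum (𝓞 K), Real.log (fa v (2 : K)) =
      ∑ v ∈ T, Real.log (fa v (2 : K)) := by
    refine finsum_eq_sum_of_support_subset _ ?_
    intro v hv
    rw [Finset.mem_coe, hT]
    intro h
    rw [Function.mem_support] at hv
    exact hv (by rw [h, Real.log_one])
  have h3 : ∑ w : InfinitePlace K, (w.mult : ℝ) * Real.log (w (2 : K)) = dg K * Real.log 2 := by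
    rw [← low_sum_mult (K := K), Finset.sum_mul]
    exact Finset.sum_congr rfl fun w _ => by rw [low_two]
  rw [h2, h3] at h1
  linarith

end lowaux

theorem lower_height (K : Type*) [Field K] [NumberField K] (m : ℕ) (b : Fin m → Fin m → K)
    (hb : LinearIndependent K b) :
    ∃ C : ℝ, 0 ≤ C ∧ ∀ (z : Fin m → 𝓞 K) (Q : ℝ), 1 ≤ Q → z ≠ 0 →
      (∀ (w : InfinitePlace K) i, w (z i : K) ≤ Q) →
      logHeight (fun j => ∑ i, (z i : K) * b i j) ≤ dg K * Real.log Q + C := by
  classical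
  set b' : Fin m × Fin m → K := fun p => b p.1 p.2 with hb'
  set A : ℝ := 1 + ∑ w : InfinitePlace K, ∑ j, ∑ i, w (b i j) with hA
  have hA0 : 0 ≤ ∑ w : InfinitePlace K, ∑ j, ∑ i, w (b i j) :=
    Finset.sum_nonneg fun w _ => Finset.sum_nonneg fun j _ => Finset.sum_nonneg fun i _ =>
      apply_nonneg _ _
  have hA1 : 1 ≤ A := by linarith
  have hAw : ∀ (w : InfinitePlace K) j, ∑ i, w (b i j) ≤ A := by
    intro w j
    have h1 : ∑ i, w (b i j) ≤ ∑ j, ∑ i, w (b i j) :=
      Finset.single_le_sum (f := fun j => ∑ i, w (b i j))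
        (fun j _ => Finset.sum_nonneg fun i _ => apply_nonneg _ _) (Finset.mem_univ j)
    have h2 : ∑ j, ∑ i, w (b i j) ≤ ∑ w : InfinitePlace K, ∑ j, ∑ i, w (b i j) :=
      Finset.single_le_sum (f := fun w : InfinitePlace K => ∑ j, ∑ i, w (b i j))
        (fun w _ => Finset.sum_nonneg fun j _ => Finset.sum_nonneg fun i _ => apply_nonneg _ _)
        (Finset.mem_univ w)
    linarith
  set B : HeightOneSpectrum (𝓞 K) → ℝ := fun v => max 1 (lowF v b') with hB
  have hB1 : ∀ v, 1 ≤ B v := fun v => le_max_left _ _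
  have hBfin : {v | B v ≠ 1}.Finite := by
    by_cases h0 : b' = 0
    · refine Set.Finite.subset Set.finite_empty fun v hv => ?_
      apply hv
      simp only [hB]
      refine max_eq_left ?_
      refine low_F_le v b' 1 zero_le_one fun p => ?_
      rw [h0, Pi.zero_apply, Pool.Agent.Lib.MP_4d5ce1_nt.fa_zero]
      exact zero_le_one
    · refine (low_F_fin h0).subset fun v hv h1 => ?_
      apply hv
      simp only [hB, h1, max_self]
  have hBs := low_log_fin hBfin
  have hBnn : 0 ≤ ∑ᶠ v, Real.log (B v) :=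
    finsum_nonneg fun v => Real.log_nonneg (hB1 v)
  have hAl : 0 ≤ Real.log A := Real.log_nonneg hA1
  refine ⟨dg K * Real.log A + ∑ᶠ v, Real.log (B v),
    add_nonneg (mul_nonneg low_dg_nonneg hAl) hBnn, ?_⟩
  intro z Q hQ hz hw
  have hQ0 : 0 < Q := by linarith
  set x : Fin m → K := fun j => ∑ i, (z i : K) * b i j with hx
  have hx0 : x ≠ 0 := by
    intro h
    apply hz
    funext i
    have h1 : ∑ i, (z i : K) • b i = 0 := by
      funext j
      have := congrFun h j
      simp only [hx, Pi.zero_apply] at this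
      rw [Finset.sum_apply, Pi.zero_apply]
      simpa only [Pi.smul_apply, smul_eq_mul] using this
    have h2 := Fintype.linearIndependent_iff.1 hb (fun i => (z i : K)) h1 i
    have h3 : (z i : K) = 0 := h2
    exact RingOfIntegers.coe_eq_zero_iff.mp h3
  rw [low_height hx0]
  have h1 : ∑ w : InfinitePlace K, (w.mult : ℝ) * Real.log (lowI w x) ≤
      dg K * Real.log Q + dg K * Real.log A := by
    rw [← mul_add, ← low_sum_mult, Finset.sum_mul]
    refine Finset.sum_le_sum fun w _ => ?_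
    refine mul_le_mul_of_nonneg_left ?_ (low_mult_nonneg w)
    rw [← Real.log_mul hQ0.ne' (by linarith)]
    refine Real.log_le_log (low_I_pos w hx0) ?_
    refine low_I_le w x _ (by positivity) fun j => ?_
    have h2 : w (x j) ≤ ∑ i, w (z i : K) * w (b i j) := by
      simp only [hx]
      refine (w.1.sum_le _ _).trans (le_of_eq ?_)
      exact Finset.sum_congr rfl fun i _ => map_mul w.1 _ _
    refine h2.trans ?_
    calc ∑ i, w (z i : K) * w (b i j) ≤ ∑ i, Q * w (b i j) :=
          Finset.sum_le_sum fun i _ => mul_le_mul_of_nonneg_right (hw w i) (apply_nonneg _ _)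
      _ = Q * ∑ i, w (b i j) := by rw [Finset.mul_sum]
      _ ≤ Q * A := mul_le_mul_of_nonneg_left (hAw w j) hQ0.le
  have h2 : ∑ᶠ v : HeightOneSpectrum (𝓞 K), Real.log (lowF v x) ≤ ∑ᶠ v, Real.log (B v) := by
    refine finsum_le_finsum' (low_log_fin (low_F_fin hx0)) hBs fun v => ?_
    refine Real.log_le_log (low_F_pos v hx0) ?_
    refine low_F_le v x _ (by linarith [hB1 v]) fun j => ?_
    refine Pool.Agent.Lib.MP_4d5ce1_nt.fa_sum_le v _ _ _ (by linarith [hB1 v]) fun i _ => ?_
    rw [Pool.Agent.Lib.MP_4d5ce1_nt.fa_mul]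
    calc fa v (z i : K) * fa v (b i j) ≤ 1 * fa v (b i j) :=
          mul_le_mul_of_nonneg_right (low_int v (z i))
            (Pool.Agent.Lib.MP_4d5ce1_nt.fa_nonneg _ _)
      _ = fa v (b' (i, j)) := one_mul _
      _ ≤ lowF v b' := low_le_F v b' (i, j)
      _ ≤ B v := le_max_right _ _
  linarith

theorem lower_trunc (K : Type*) [Field K] [NumberField K] (n q : ℕ)
    (hq : n + 1 ≤ q) (a : Fin q → Fin (n + 1) → K)
    (ha : ∀ s : Fin (n + 1) → Fin q, Function.Injective s → LinearIndependent K fun i => a (s i))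
    (S : Set (HeightOneSpectrum (𝓞 K))) (l₀ l₁ : Fin q) (h01 : l₀ ≠ l₁) (ρ : ℝ) (hρ : 0 < ρ) :
    ∃ C : ℝ, 0 ≤ C ∧ ∀ (M : ℕ) (x : Fin (n + 1) → K), (∀ l, lf (a l) x ≠ 0) →
      (∀ v : HeightOneSpectrum (𝓞 K), fa v (2 : K) < 1 → ∃ i, ρ ≤ fa v (x i)) →
      (∃ z : 𝓞 K, 2 ^ M * (z : K) = lf (a l₀) x) → (∃ z : 𝓞 K, 2 ^ M * (z : K) = lf (a l₁) x) →
      truncCount S a x ≤ q * logHeight x - 2 * M * dg K * Real.log 2 + C := by
  classical
  have h20 : (2 : K) ≠ 0 := two_ne_zero
  set T : Finset (HeightOneSpectrum (𝓞 K)) :=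
    (Pool.Agent.Lib.MP_4d5ce1_nt.finite_fa_ne_one h20).toFinset with hT
  have hmemT : ∀ v, v ∈ T ↔ fa v (2 : K) ≠ 1 := by
    intro v; rw [hT, Set.Finite.mem_toFinset]; rfl
  have hpf2 := low_pf2 T hmemT
  set c₀ : ℝ := ∑ v ∈ T, (Real.log (lowF v (a l₀)) + Real.log ρ) with hc₀
  set c₁ : ℝ := ∑ v ∈ T, (Real.log (lowF v (a l₁)) + Real.log ρ) with hc₁
  set C₁ : ℝ := ∑ l, (logHeight (a l) + dg K * Real.log ((n + 1 : ℕ) : ℝ)) + ∑ v ∈ T, lnv v
    - c₀ - c₁ with hC₁
  refine ⟨|C₁|, abs_nonneg _, ?_⟩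
  intro M x hx hcont hz0 hz1
  have hx0 : x ≠ 0 := (low_ne (hx l₀)).2
  -- lower bound of the local heights above `2`
  have hlow : ∀ l, (∃ z : 𝓞 K, 2 ^ M * (z : K) = lf (a l) x) →
      (M : ℝ) * (dg K * Real.log 2) + ∑ v ∈ T, (Real.log (lowF v (a l)) + Real.log ρ) ≤
      ∑ v ∈ T, lowL (a l) x v := by
    rintro l ⟨z, hz⟩
    have h1 : (M : ℝ) * (dg K * Real.log 2) = ∑ v ∈ T, (-(M : ℝ) * Real.log (fa v (2 : K))) := by
      rw [← Finset.mul_sum, hpf2]; ring
    rw [h1, ← Finset.sum_add_distrib]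
    refine Finset.sum_le_sum fun v hv => ?_
    have hle2 : fa v (2 : K) ≤ 1 := by
      have := Pool.Agent.Lib.MP_4d5ce1_nt.fa_natCast_le_one (K := K) v 2
      simpa using this
    have hv2 : fa v (2 : K) < 1 := lt_of_le_of_ne hle2 ((hmemT v).mp hv)
    have hv20 : 0 < fa v (2 : K) := Pool.Agent.Lib.MP_4d5ce1_nt.fa_pos v h20
    obtain ⟨i, hi⟩ := hcont v hv2
    have h3 : Real.log ρ ≤ Real.log (lowF v x) :=
      Real.log_le_log hρ (hi.trans (low_le_F v x i))
    have h4 : fa v (lf (a l) x) ≤ fa v (2 : K) ^ M := by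
      rw [← hz, Pool.Agent.Lib.MP_4d5ce1_nt.fa_mul, Pool.Agent.Lib.MP_4d5ce1_nt.fa_pow]
      calc fa v (2 : K) ^ M * fa v (z : K) ≤ fa v (2 : K) ^ M * 1 :=
            mul_le_mul_of_nonneg_left (low_int v z) (pow_nonneg hv20.le _)
        _ = _ := mul_one _
    have h5 := Real.log_le_log (Pool.Agent.Lib.MP_4d5ce1_nt.fa_pos v (hx l)) h4
    rw [Real.log_pow] at h5
    unfold lowL
    linarith
  have hlow0 := hlow l₀ hz0
  have hlow1 := hlow l₁ hz1
  -- the truncated sum
  set P : HeightOneSpectrum (𝓞 K) → Prop := fun v => v ∉ S ∧ ∃ l i j,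
    v.valuation K (∑ k, a l k * x k) < v.valuation K (a l i) * v.valuation K (x j) with hP
  have hPL : ∀ v, P v → ∃ l, lnv v ≤ lowL (a l) x v := by
    rintro v ⟨_, l, i, j, h⟩
    refine ⟨l, ?_⟩
    rw [← map_mul, low_val_lt, Pool.Agent.Lib.MP_4d5ce1_nt.fa_mul] at h
    exact low_L_ge (hx l) v h
  have hUf : (⋃ l, Function.support (lowL (a l) x)).Finite :=
    Set.finite_iUnion fun l => low_L_fin (hx l)
  set U : Finset (HeightOneSpectrum (𝓞 K)) := hUf.toFinset ∪ T with hU
  have hUs : ∀ l, Function.support (lowL (a l) x) ⊆ ↑U := by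
    intro l v hv
    rw [hU, Finset.coe_union, Set.Finite.coe_toFinset]
    exact Or.inl (Set.mem_iUnion.2 ⟨l, hv⟩)
  have hPU : {v | P v} = ((U.filter P : Finset _) : Set (HeightOneSpectrum (𝓞 K))) := by
    ext v
    rw [Set.mem_ofPred_eq, Finset.coe_filter, Set.mem_ofPred_eq]
    refine ⟨fun hv => ⟨?_, hv⟩, fun hv => hv.2⟩
    obtain ⟨l, hl⟩ := hPL v hv
    have h1 := lnv_pos v
    exact Finset.mem_coe.1 (hUs l (by
      rw [Function.mem_support]
      intro h0
      linarith))
  have ht' : truncCount S a x = ∑ v ∈ U.filter P, lnv v := by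
    rw [← finsum_mem_coe_finset, ← hPU]
    rfl
  have hterm : ∀ v l, 0 ≤ lowL (a l) x v := fun v l => low_L_nonneg (hx l) v
  have hpt : ∀ v ∈ U, (if P v then lnv v else 0) ≤ ∑ l, lowL (a l) x v -
      (if v ∈ T then lowL (a l₀) x v + lowL (a l₁) x v - lnv v else 0) := by
    intro v _
    have hv0 := lnv_pos v
    split_ifs with h1 h2 h2
    · have h3 : lowL (a l₀) x v + lowL (a l₁) x v ≤ ∑ l, lowL (a l) x v := by
        have h4 : ∑ l ∈ ({l₀, l₁} : Finset (Fin q)), lowL (a l) x v ≤ ∑ l, lowL (a l) x v :=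
          Finset.sum_le_sum_of_subset_of_nonneg (Finset.subset_univ _) fun l _ _ => hterm v l
        rwa [Finset.sum_pair h01] at h4
      linarith
    · obtain ⟨l, hl⟩ := hPL v h1
      have h3 : lowL (a l) x v ≤ ∑ l, lowL (a l) x v :=
        Finset.single_le_sum (f := fun l => lowL (a l) x v) (fun l _ => hterm v l)
          (Finset.mem_univ l)
      linarith
    · have h3 : lowL (a l₀) x v + lowL (a l₁) x v ≤ ∑ l, lowL (a l) x v := by
        have h4 : ∑ l ∈ ({l₀, l₁} : Finset (Fin q)), lowL (a l) x v ≤ ∑ l, lowL (a l) x v :=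
          Finset.sum_le_sum_of_subset_of_nonneg (Finset.subset_univ _) fun l _ _ => hterm v l
        rwa [Finset.sum_pair h01] at h4
      linarith
    · have h3 : 0 ≤ ∑ l, lowL (a l) x v := Finset.sum_nonneg fun l _ => hterm v l
      linarith
  have hsum := Finset.sum_le_sum hpt
  rw [← Finset.sum_filter, ← ht', Finset.sum_sub_distrib, Finset.sum_comm,
    Finset.sum_ite_mem, Finset.inter_eq_right.2 Finset.subset_union_right,
    Finset.sum_sub_distrib, Finset.sum_add_distrib] at hsum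
  have hmain : ∑ l, ∑ v ∈ U, lowL (a l) x v ≤
      (q : ℝ) * logHeight x + ∑ l, (logHeight (a l) + dg K * Real.log ((n + 1 : ℕ) : ℝ)) := by
    have h1 : ∀ l, ∑ v ∈ U, lowL (a l) x v ≤
        logHeight x + (logHeight (a l) + dg K * Real.log ((n + 1 : ℕ) : ℝ)) := by
      intro l
      rw [← finsum_eq_sum_of_support_subset _ (hUs l)]
      exact low_L_sum (hx l)
    refine (Finset.sum_le_sum fun l _ => h1 l).trans (le_of_eq ?_)
    rw [Finset.sum_add_distrib, Finset.sum_const, Finset.card_univ, Fintype.card_fin,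
      nsmul_eq_mul]
  have h2 := le_abs_self C₁
  rw [hC₁] at h2 ⊢
  linarith

end Pool.Agent.Lib.MP_44a246_nt.HQ
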