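import Pool.Agent.Lib.MP_44a246_nt.HQ.Defs

set_option autoImplicit false

open NumberField IsDedekindDomain Height
open Pool.Agent.Lib.MP_4d5ce1_nt (ordv fa nv)
open Pool.Agent.Lib.MP_44a246_nt.HP

namespace Pool.Agent.Lib.MP_44a246_nt.HQ

/-! ## HQ-7 -/

private theorem sl1_two_le {q : ℕ} (e : Fin q → ℕ) (hu : Useful e) : 2 ≤ ∑ l, e l := by
  classical
  rcases hu with ⟨l, l', h, h1, h2⟩ | ⟨l, hl⟩
  · have h3 : ∑ i ∈ ({l, l'} : Finset (Fin q)), e i ≤ ∑ i, e i :=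
      Finset.sum_le_sum_of_subset (Finset.subset_univ _)
    rw [Finset.sum_pair h] at h3
    omega
  · have h3 : e l ≤ ∑ i, e i := Finset.single_le_sum (fun _ _ => Nat.zero_le _) (Finset.mem_univ l)
    omega

private theorem sl1_single_sum {q : ℕ} (e : Fin q → ℕ) {l : Fin q}
    (h : ∀ l', l' ≠ l → e l' = 0) : ∑ l, e l = e l :=
  Finset.sum_eq_single l (fun l' _ hl' => h l' hl') (fun h => absurd (Finset.mem_univ l) h)

private theorem sl1_single_two {q : ℕ} {e : Fin q → ℕ} {l : Fin q} (hu : Useful e)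
    (h : ∀ l', l' ≠ l → e l' = 0) : 2 ≤ e l := by
  rcases hu with ⟨l₁, l₂, h0, h1, h2⟩ | ⟨l', hl⟩
  · exfalso
    by_cases h3 : l₁ = l
    · exact h2 (h l₂ (fun h4 => h0 (h3.trans h4.symm)))
    · exact h1 (h l₁ h3)
  · by_cases h3 : l' = l
    · rwa [← h3]
    · rw [h l' h3] at hl
      omega

private theorem sl1_single_or_multi {q : ℕ} {e : Fin q → ℕ} (hu : Useful e) :
    (∃ l l', l ≠ l' ∧ e l ≠ 0 ∧ e l' ≠ 0) ∨ ∃ l, ∀ l', l' ≠ l → e l' = 0 := by
  by_cases hm : ∃ l l', l ≠ l' ∧ e l ≠ 0 ∧ e l' ≠ 0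
  · exact Or.inl hm
  · right
    rcases hu with h | ⟨l, hl⟩
    · exact absurd h hm
    · refine ⟨l, fun l' hl' => ?_⟩
      by_contra h0
      exact hm ⟨l', l, hl', h0, by omega⟩

private theorem sl1_eps_mono {ι : Type*} {q : ℕ} {I T : Finset ι} (hTI : T ⊆ I)
    {b : ι → ℝ} (hb : ∀ i ∈ I, 0 < b i) {e : ι → Fin q → ℕ} (hu : ∀ i ∈ I, Useful (e i))
    (l : Fin q) : eps T b e l ≤ eps I b e l := by
  classical
  unfold eps
  apply Finset.sum_le_sum_of_subset_of_nonneg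
  · exact Finset.filter_subset_filter _ hTI
  · intro i hi _
    rw [Finset.mem_filter] at hi
    have h2 : (2 : ℝ) ≤ (e i l : ℝ) := by exact_mod_cast sl1_single_two (hu i hi.1) hi.2
    exact mul_nonneg (by linarith) (hb i hi.1).le

private theorem sl1_le_eps {ι : Type*} {q : ℕ} {I : Finset ι}
    {b : ι → ℝ} (hb : ∀ i ∈ I, 0 < b i) {e : ι → Fin q → ℕ} (hu : ∀ i ∈ I, Useful (e i))
    {l : Fin q} {i : ι} (hi : i ∈ I) (hs : ∀ l', l' ≠ l → e i l' = 0) :
    b i ≤ eps I b e l := by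
  classical
  have h2 : (2 : ℝ) ≤ (e i l : ℝ) := by exact_mod_cast sl1_single_two (hu i hi) hs
  have h3 : b i ≤ ((e i l : ℝ) - 1) * b i := by nlinarith [hb i hi]
  refine h3.trans ?_
  unfold eps
  refine Finset.single_le_sum (f := fun i => ((e i l : ℝ) - 1) * b i) ?_ ?_
  · intro j hj
    rw [Finset.mem_filter] at hj
    have h2 : (2 : ℝ) ≤ (e j l : ℝ) := by exact_mod_cast sl1_single_two (hu j hj.1) hj.2
    exact mul_nonneg (by linarith) (hb j hj.1).le
  · rw [Finset.mem_filter]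
    exact ⟨hi, hs⟩

/-- The common part of the two cases. -/
private theorem sl1_common (q : ℕ) {ι : Type*} (I : Finset ι)
    (b : ι → ℝ) (hb : ∀ i ∈ I, 0 < b i) (e : ι → Fin q → ℕ) (hu : ∀ i ∈ I, Useful (e i))
    (xM t : ℝ) (hx : 0 ≤ xM)
    (ht : t ≤ xM + ∑ i ∈ I, (((∑ l, e i l : ℕ) : ℝ) - 1) * b i)
    (T₀ : Finset ι) (hT₀ : T₀ ⊆ I) (f : Fin q)
    (h1 : ∀ i ∈ T₀, 1 ≤ e i f)
    (h2 : ∀ i ∈ I, b i ≤ ∑ i ∈ T₀, (((∑ l, e i l : ℕ) : ℝ) - 1) * b i) :
    ∃ T : Finset ι, T₀ ⊆ T ∧ T ⊆ I ∧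
      t ≤ xM + ∑ i ∈ T, (((∑ l, e i l : ℕ) : ℝ) - 1) * b i ∧
      ∑ i ∈ T, (1 - (e i f : ℝ)) * b i ≤ max t 0 := by
  classical
  set x : ι → ℝ := fun i => (((∑ l, e i l : ℕ) : ℝ) - 1) * b i with hxdef
  have hxb : ∀ i ∈ I, b i ≤ x i := by
    intro i hi
    have h3 : (2 : ℝ) ≤ ((∑ l, e i l : ℕ) : ℝ) := by
      exact_mod_cast sl1_two_le (e i) (hu i hi)
    have := hb i hi
    simp only [hxdef]
    nlinarith
  -- the minimal set
  set 𝒯 : Finset (Finset ι) := I.powerset.filter fun T => T₀ ⊆ T ∧ t ≤ xM + ∑ i ∈ T, x i with h𝒯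
  have hne : 𝒯.Nonempty := ⟨I, by
    rw [h𝒯, Finset.mem_filter]
    exact ⟨Finset.mem_powerset_self I, hT₀, ht⟩⟩
  obtain ⟨T, hT, hmin⟩ := Finset.exists_min_image 𝒯 Finset.card hne
  rw [h𝒯, Finset.mem_filter, Finset.mem_powerset] at hT
  obtain ⟨hTI, hT₀T, htT⟩ := hT
  refine ⟨T, hT₀T, hTI, htT, ?_⟩
  by_cases hTT : T = T₀
  · refine le_trans ?_ (le_max_right _ _)
    apply Finset.sum_nonpos
    intro i hi
    rw [hTT] at hi
    have h3 : (1 : ℝ) ≤ (e i f : ℝ) := by exact_mod_cast h1 i hi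
    exact mul_nonpos_of_nonpos_of_nonneg (by linarith) (hb i (hT₀ hi)).le
  · refine le_trans ?_ (le_max_left _ _)
    obtain ⟨i₀, hi₀, hi₀'⟩ : ∃ i₀ ∈ T, i₀ ∉ T₀ := by
      by_contra hcon
      push Not at hcon
      exact hTT (Finset.Subset.antisymm hcon hT₀T)
    have hsub : T₀ ⊆ T.erase i₀ := by
      intro i hi
      rw [Finset.mem_erase]
      exact ⟨fun h => hi₀' (h ▸ hi), hT₀T hi⟩
    have hlt : xM + ∑ i ∈ T.erase i₀, x i < t := by
      by_contra hcon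
      push Not at hcon
      have hmem : T.erase i₀ ∈ 𝒯 := by
        rw [h𝒯, Finset.mem_filter, Finset.mem_powerset]
        exact ⟨(Finset.erase_subset _ _).trans hTI, hsub, hcon⟩
      have := hmin _ hmem
      have h4 := Finset.card_erase_lt_of_mem hi₀
      omega
    have e1 : ∑ i ∈ T, (1 - (e i f : ℝ)) * b i =
        ∑ i ∈ T \ T₀, (1 - (e i f : ℝ)) * b i + ∑ i ∈ T₀, (1 - (e i f : ℝ)) * b i :=
      (Finset.sum_sdiff hT₀T).symm
    have e2 : ∑ i ∈ T₀, (1 - (e i f : ℝ)) * b i ≤ 0 := by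
      apply Finset.sum_nonpos
      intro i hi
      have h3 : (1 : ℝ) ≤ (e i f : ℝ) := by exact_mod_cast h1 i hi
      exact mul_nonpos_of_nonpos_of_nonneg (by linarith) (hb i (hT₀ hi)).le
    have e3 : ∑ i ∈ T \ T₀, (1 - (e i f : ℝ)) * b i ≤ ∑ i ∈ T \ T₀, b i := by
      apply Finset.sum_le_sum
      intro i hi
      have hi' := hTI (Finset.sdiff_subset hi)
      have h3 : (0 : ℝ) ≤ (e i f : ℝ) := Nat.cast_nonneg _
      nlinarith [hb i hi']
    have hi₀m : i₀ ∈ T \ T₀ := Finset.mem_sdiff.2 ⟨hi₀, hi₀'⟩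
    have e4 : ∑ i ∈ T \ T₀, b i = b i₀ + ∑ i ∈ (T \ T₀).erase i₀, b i :=
      (Finset.add_sum_erase _ _ hi₀m).symm
    have e5 : ∑ i ∈ (T \ T₀).erase i₀, b i ≤ ∑ i ∈ (T \ T₀).erase i₀, x i := by
      apply Finset.sum_le_sum
      intro i hi
      exact hxb i (hTI (Finset.sdiff_subset (Finset.erase_subset _ _ hi)))
    have e6 : (T \ T₀).erase i₀ = (T.erase i₀) \ T₀ := by
      ext i
      simp only [Finset.mem_erase, Finset.mem_sdiff]
      tauto
    have e7 : ∑ i ∈ (T.erase i₀) \ T₀, x i + ∑ i ∈ T₀, x i = ∑ i ∈ T.erase i₀, x i :=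
      Finset.sum_sdiff hsub
    have e8 := h2 i₀ (hTI hi₀)
    rw [e6] at e4 e5
    have e9 : ∑ i ∈ T₀, x i = ∑ i ∈ T₀, (((∑ l, e i l : ℕ) : ℝ) - 1) * b i := rfl
    linarith

theorem selection1 (q : ℕ) (hq : 1 ≤ q) {ι : Type*} (I : Finset ι)
    (b : ι → ℝ) (hb : ∀ i ∈ I, 0 < b i) (e : ι → Fin q → ℕ) (hu : ∀ i ∈ I, Useful (e i))
    (xM t : ℝ) (hx : 0 ≤ xM)
    (ht : t ≤ xM + ∑ i ∈ I, (((∑ l, e i l : ℕ) : ℝ) - 1) * b i) :
    ∃ f : Fin q, ∃ T ⊆ I,
      t ≤ xM + ∑ i ∈ T, (((∑ l, e i l : ℕ) : ℝ) - 1) * b i ∧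
      ∑ i ∈ T, (1 - (e i f : ℝ)) * b i ≤ max t 0 ∧
      Sel {f} T b e := by
  classical
  have hfin : (Finset.univ : Finset (Fin q)).Nonempty := ⟨⟨0, by omega⟩, Finset.mem_univ _⟩
  obtain ⟨f, -, hf⟩ := Finset.exists_max_image Finset.univ (eps I b e) hfin
  have hf' : ∀ l, eps I b e l ≤ eps I b e f := fun l => hf l (Finset.mem_univ l)
  -- singles of a form
  have hxs : ∀ l, ∑ i ∈ I.filter (fun i => ∀ l', l' ≠ l → e i l' = 0),
      (((∑ l, e i l : ℕ) : ℝ) - 1) * b i = eps I b e l := by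
    intro l
    unfold eps
    apply Finset.sum_congr rfl
    intro i hi
    rw [Finset.mem_filter] at hi
    rw [sl1_single_sum (e i) hi.2]
  have hepsT : ∀ (T : Finset ι) (l : Fin q),
      I.filter (fun i => ∀ l', l' ≠ l → e i l' = 0) ⊆ T → T ⊆ I → eps T b e l = eps I b e l := by
    intro T l h1 h2
    unfold eps
    congr 1
    apply Finset.Subset.antisymm
    · exact Finset.filter_subset_filter _ h2
    · intro i hi
      rw [Finset.mem_filter]
      exact ⟨h1 hi, (Finset.mem_filter.1 hi).2⟩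
  have hsingle : ∀ i ∈ I, (∃ l l', l ≠ l' ∧ e i l ≠ 0 ∧ e i l' ≠ 0) ∨ b i ≤ eps I b e f := by
    intro i hi
    rcases sl1_single_or_multi (hu i hi) with h | ⟨l, hl⟩
    · exact Or.inl h
    · exact Or.inr ((sl1_le_eps hb hu hi hl).trans (hf' l))
  by_cases hA : ∀ i ∈ I, (∃ l l', l ≠ l' ∧ e i l ≠ 0 ∧ e i l' ≠ 0) → b i ≤ eps I b e f
  · -- case A
    set T₀ := I.filter (fun i => ∀ l', l' ≠ f → e i l' = 0) with hT₀
    obtain ⟨T, h1, h2, h3, h4⟩ := sl1_common q I b hb e hu xM t hx ht T₀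
      (Finset.filter_subset _ _) f (by
        intro i hi
        rw [hT₀, Finset.mem_filter] at hi
        have h5 := sl1_single_two (hu i hi.1) hi.2
        omega) (by
        intro i hi
        rw [hT₀, hxs f]
        rcases hsingle i hi with h | h
        · exact hA i hi h
        · exact h)
    refine ⟨f, T, h2, h3, h4, Or.inl ⟨f, Finset.mem_singleton_self f, fun l => ?_⟩⟩
    rw [hepsT T f h1 h2]
    exact (sl1_eps_mono h2 hb hu l).trans (hf' l)
  · -- case B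
    push Not at hA
    obtain ⟨p₀, hp₀, hp₀m, hp₀b⟩ := hA
    set M := I.filter (fun i => ∃ l l', l ≠ l' ∧ e i l ≠ 0 ∧ e i l' ≠ 0) with hM
    have hMne : M.Nonempty := ⟨p₀, by rw [hM, Finset.mem_filter]; exact ⟨hp₀, hp₀m⟩⟩
    obtain ⟨p, hpM, hpmax⟩ := Finset.exists_max_image M b hMne
    have hpM' := hpM
    rw [hM, Finset.mem_filter] at hpM'
    obtain ⟨hpI, hpm⟩ := hpM'
    have hpb : eps I b e f < b p :=
      lt_of_lt_of_le hp₀b (hpmax p₀ (by rw [hM, Finset.mem_filter]; exact ⟨hp₀, hp₀m⟩))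
    set P := (Finset.univ : Finset (Fin q)).filter (fun l => e p l ≠ 0) with hP
    have hPne : P.Nonempty := by
      obtain ⟨l, -, -, hl, -⟩ := hpm
      exact ⟨l, by rw [hP, Finset.mem_filter]; exact ⟨Finset.mem_univ l, hl⟩⟩
    obtain ⟨f', hf'P, hf'max⟩ := Finset.exists_max_image P (eps I b e) hPne
    rw [hP, Finset.mem_filter] at hf'P
    have hother : ∃ l, l ≠ f' ∧ e p l ≠ 0 := by
      obtain ⟨l, l', hll, hl, hl'⟩ := hpm
      by_cases h : l = f'
      · exact ⟨l', fun h' => hll (h.trans h'.symm), hl'⟩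
      · exact ⟨l, h, hl⟩
    set S := I.filter (fun i => ∀ l', l' ≠ f' → e i l' = 0) with hS
    have hpS : p ∉ S := by
      rw [hS, Finset.mem_filter]
      rintro ⟨-, h⟩
      obtain ⟨l, hl, hl0⟩ := hother
      exact hl0 (h l hl)
    have hT₀I : insert p S ⊆ I := by
      intro i hi
      rw [Finset.mem_insert] at hi
      rcases hi with rfl | hi
      · exact hpI
      · exact Finset.filter_subset _ _ hi
    have hxp : b p ≤ ∑ i ∈ insert p S, (((∑ l, e i l : ℕ) : ℝ) - 1) * b i := by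
      rw [Finset.sum_insert hpS]
      have h3 : (2 : ℝ) ≤ ((∑ l, e p l : ℕ) : ℝ) := by
        exact_mod_cast sl1_two_le (e p) (hu p hpI)
      have h4 : 0 ≤ ∑ i ∈ S, (((∑ l, e i l : ℕ) : ℝ) - 1) * b i := by
        apply Finset.sum_nonneg
        intro i hi
        have hiI : i ∈ I := Finset.filter_subset _ _ hi
        have h5 : (2 : ℝ) ≤ ((∑ l, e i l : ℕ) : ℝ) := by
          exact_mod_cast sl1_two_le (e i) (hu i hiI)
        exact mul_nonneg (by linarith) (hb i hiI).le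
      have := hb p hpI
      nlinarith
    obtain ⟨T, h1, h2, h3, h4⟩ := sl1_common q I b hb e hu xM t hx ht (insert p S)
      hT₀I f' (by
        intro i hi
        rw [Finset.mem_insert] at hi
        rcases hi with rfl | hi
        · have h7 := hf'P.2
          omega
        · rw [hS, Finset.mem_filter] at hi
          have h5 := sl1_single_two (hu i hi.1) hi.2
          omega) (by
        intro i hi
        refine le_trans ?_ hxp
        rcases hsingle i hi with h | h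
        · exact hpmax i (by rw [hM, Finset.mem_filter]; exact ⟨hi, h⟩)
        · linarith)
    refine ⟨f', T, h2, h3, h4, Or.inr ⟨p, h1 (Finset.mem_insert_self _ _), f',
      Finset.mem_singleton_self f', hf'P.2, hother, fun l => ?_, fun l hl => ?_⟩⟩
    · exact ((sl1_eps_mono h2 hb hu l).trans (hf' l)).trans hpb.le
    · rw [hepsT T f' ((Finset.subset_insert _ _).trans h1) h2]
      exact (sl1_eps_mono h2 hb hu l).trans
        (hf'max l (by rw [hP, Finset.mem_filter]; exact ⟨Finset.mem_univ l, hl⟩))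

end Pool.Agent.Lib.MP_44a246_nt.HQ
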