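import Pool.Agent.Lib.MP_44a246_nt.HQ.Defs
import Pool.Agent.Lib.MP_44a246_nt.HP.Packing

set_option autoImplicit false

open NumberField IsDedekindDomain Height
open Pool.Agent.Lib.MP_4d5ce1_nt (ordv fa nv)
open Pool.Agent.Lib.MP_44a246_nt.HP

namespace Pool.Agent.Lib.MP_44a246_nt.HQ

/-! ## HQ-1 -/

open Module in
/-- A spanning finite set contains a basis. -/
private lemma hq1_basis {K : Type*} [Field K] {V : Type*} [AddCommGroup V] [Module K V] {k : ℕ}
    (b : Basis (Fin k) K V) (Z : Finset V) (hZ : Submodule.span K (Z : Set V) = ⊤) :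
    ∃ u : Basis (Fin k) K V, ∀ i, u i ∈ Z := by
  classical
  obtain ⟨s, hs, hsp, hli⟩ := exists_linearIndependent K (Z : Set V)
  have hsp' : ⊤ ≤ Submodule.span K (Set.range ((↑) : s → V)) := by
    rw [Subtype.range_coe_subtype, Set.ofPred_mem_eq, hsp, hZ]
  let B : Basis s K V := Basis.mk hli hsp'
  have hfin : Finite s := (Z.finite_toSet.subset hs).to_subtype
  have hcard : Nat.card s = k := by
    have h1 := Module.finrank_eq_nat_card_basis B
    have h2 := Module.finrank_eq_nat_card_basis b
    rw [Nat.card_fin] at h2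
    omega
  let E := Finite.equivFinOfCardEq hcard
  refine ⟨B.reindex E, fun i => ?_⟩
  rw [Basis.reindex_apply]
  have : B (E.symm i) = (E.symm i : V) := Basis.mk_apply _ _ _
  rw [this]
  exact hs (E.symm i).2

open Module in
/-- The linear form `z ↦ det (z, u₁, …, u_k)`. -/
private noncomputable def hq1_pi {K : Type*} [Field K] {V : Type*} [AddCommGroup V] [Module K V]
    {k : ℕ} (b : Basis (Fin (k + 1)) K V) (u : Fin k → V) : V →ₗ[K] K where
  toFun z := b.det.curryLeft z u
  map_add' x y := by rw [map_add]; rfl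
  map_smul' c x := by rw [map_smul]; rfl

open Module in
private lemma hq1_pi_apply {K : Type*} [Field K] {V : Type*} [AddCommGroup V] [Module K V]
    {k : ℕ} (b : Basis (Fin (k + 1)) K V) (u : Fin k → V) (z : V) :
    hq1_pi b u z = b.det (Matrix.vecCons z u) := rfl

open Module in
private lemma hq1_pi_mem {K : Type*} [Field K] {V : Type*} [AddCommGroup V] [Module K V]
    {k : ℕ} (b : Basis (Fin (k + 1)) K V) (u : Basis (Fin (k + 1)) K V) (z : V)
    (hz : hq1_pi b (fun i => u i.succ) z = 0) :
    z ∈ Submodule.span K (Set.range fun i : Fin k => u i.succ) := by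
  have h1 := u.sum_repr z
  rw [Fin.sum_univ_succ] at h1
  have hp : ∀ i : Fin k, hq1_pi b (fun i => u i.succ) (u i.succ) = 0 := by
    intro i
    rw [hq1_pi_apply]
    refine AlternatingMap.map_eq_zero_of_eq _ _ (i := 0) (j := i.succ) ?_ (Fin.succ_ne_zero i).symm
    simp
  have h0 : hq1_pi b (fun i => u i.succ) (u 0) ≠ 0 := by
    rw [hq1_pi_apply]
    have : Matrix.vecCons (u 0) (fun i => u i.succ) = u := by
      funext i
      refine Fin.cases ?_ (fun j => ?_) i
      · simp
      · simp
    rw [this]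
    exact (b.isUnit_det u).ne_zero
  have h2 := congrArg (hq1_pi b (fun i => u i.succ)) h1
  rw [map_add, map_sum, map_smul, hz] at h2
  simp only [map_smul, hp, smul_eq_mul, mul_zero, Finset.sum_const_zero, add_zero,
    mul_eq_zero, h0, or_false] at h2
  rw [h2, zero_smul, zero_add] at h1
  rw [← h1]
  exact Submodule.sum_mem _ fun i _ => Submodule.smul_mem _ _
    (Submodule.subset_span ⟨i, rfl⟩)

open Module in
private lemma hq1_split {K : Type*} [Field K] {V : Type*} [AddCommGroup V] [Module K V]
    {k : ℕ} (b : Basis (Fin (k + 1)) K V) (u : Fin k → V) (hu : LinearIndependent K u) (z : V)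
    (zs : Fin k → Submodule.span K (Set.range u)) :
    b.det (Matrix.vecCons z (fun i => (zs i : V))) = hq1_pi b u z * (Basis.span hu).det zs := by
  have h := AlternatingMap.eq_smul_basis_det (Basis.span hu)
    ((b.det.curryLeft z).compLinearMap (Submodule.subtype _))
  have h1 := congrArg (fun f => f zs) h
  simp only [AlternatingMap.compLinearMap_apply, AlternatingMap.smul_apply, smul_eq_mul,
    AlternatingMap.curryLeft_apply_apply] at h1
  have h2 : (fun i => (Submodule.subtype (Submodule.span K (Set.range u)))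
      ((Basis.span hu) i)) = u := by
    funext i
    rw [Basis.span_apply]
    rfl
  rw [hq1_pi_apply]
  rw [h2] at h1
  exact h1

universe un

open Module in
private theorem hq1_abstract (K : Type un) [Field K] [NumberField K] (k : ℕ) :
    ∃ C : ℝ, 0 < C ∧ ∀ (V : Type un) [AddCommGroup V] [Module K V] (b : Basis (Fin k) K V)
      (Y Z : Finset V) (T : Finset (HeightOneSpectrum (𝓞 K)))
      (e : HeightOneSpectrum (𝓞 K) → ℝ) (R : InfinitePlace K → ℝ),
      (∀ y ∈ Y, ∀ y' ∈ Y, y - y' ∈ Z) →
      Submodule.span K (Z : Set V) = ⊤ →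
      (∀ z : Fin k → V, (∀ i, z i ∈ Z) → ∀ v ∈ T, fa v (b.det z) ≤ Real.exp (- e v)) →
      (∀ z : Fin k → V, (∀ i, z i ∈ Z) → ∀ v ∉ T, fa v (b.det z) ≤ 1) →
      (∀ z : Fin k → V, (∀ i, z i ∈ Z) → ∀ w : InfinitePlace K, w (b.det z) ≤ Real.exp (R w)) →
      (Y.card : ℝ) ≤ C * Real.exp (∑ w : InfinitePlace K, (w.mult : ℝ) * R w - ∑ v ∈ T, e v) := by
  classical
  induction k with
  | zero =>
    refine ⟨1, one_pos, ?_⟩
    intro V _ _ b Y Z T e R _ _ hT _ hR
    have hsub : Subsingleton V := by
      have h := b.repr.toEquiv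
      refine ⟨fun x y => h.injective ?_⟩
      exact Finsupp.ext fun i => i.elim0
    have hY : Y.card ≤ 1 := Finset.card_le_one_of_subsingleton Y
    have hd : ∀ z : Fin 0 → V, b.det z = 1 := by
      intro z
      rw [Basis.det_apply]
      exact Matrix.det_isEmpty
    have h1 : ∀ v ∈ T, e v ≤ 0 := by
      intro v hv
      have := hT (fun i => i.elim0) (fun i => i.elim0) v hv
      rw [hd, Pool.Agent.Lib.MP_4d5ce1_nt.fa_one, Real.one_le_exp_iff] at this
      linarith
    have h2 : ∀ w, 0 ≤ R w := by
      intro w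
      have := hR (fun i => i.elim0) (fun i => i.elim0) w
      rw [hd, map_one, Real.one_le_exp_iff] at this
      exact this
    have h3 : 0 ≤ ∑ w : InfinitePlace K, (w.mult : ℝ) * R w :=
      Finset.sum_nonneg fun w _ => mul_nonneg (Nat.cast_nonneg _) (h2 w)
    have h4 : ∑ v ∈ T, e v ≤ 0 := Finset.sum_nonpos h1
    have h5 : (1 : ℝ) ≤ Real.exp (∑ w : InfinitePlace K, (w.mult : ℝ) * R w - ∑ v ∈ T, e v) := by
      rw [Real.one_le_exp_iff]; linarith
    have h6 : (Y.card : ℝ) ≤ 1 := by exact_mod_cast hY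
    linarith
  | succ k ih =>
    obtain ⟨C2, hC2, ih⟩ := ih
    obtain ⟨C1, hC1, hpack⟩ := packing_principle K K 1 le_rfl
    refine ⟨C1 * C2, mul_pos hC1 hC2, ?_⟩
    intro V _ _ b Y Z T e R hYZ hZ hT hnT hR
    rcases Y.eq_empty_or_nonempty with hYe | ⟨y₀, hy₀⟩
    · rw [hYe, Finset.card_empty, Nat.cast_zero]
      positivity
    obtain ⟨u, hu⟩ := hq1_basis b Z hZ
    set u' : Fin k → V := fun i => u i.succ with hu'
    have hli : LinearIndependent K u' := u.linearIndependent.comp _ (Fin.succ_injective k)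
    set U : Submodule K V := Submodule.span K (Set.range u') with hU
    set B : Basis (Fin k) K U := Basis.span hli with hB
    set π : V →ₗ[K] K := hq1_pi b u' with hπ
    set δ : K := π (u 0) with hδ
    have hδ0 : δ ≠ 0 := by
      rw [hδ, hπ, hq1_pi_apply]
      have : Matrix.vecCons (u 0) u' = u := by
        funext i
        refine Fin.cases ?_ (fun j => ?_) i
        · simp
        · simp [hu']
      rw [this]
      exact (b.isUnit_det u).ne_zero
    have hker : ∀ z, π z = 0 → z ∈ U := fun z hz => hq1_pi_mem b u z hz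
    set Z' : Finset U := Z.subtype (· ∈ U) with hZ'
    have hBmem : ∀ i, B i ∈ Z' := by
      intro i
      rw [hZ', Finset.mem_subtype, hB, Basis.span_apply]
      exact hu i.succ
    have hZne : Z.Nonempty := ⟨u 0, hu 0⟩
    set Q : Finset (Fin k → U) := Fintype.piFinset (fun _ => Z') with hQ
    have hQne : Q.Nonempty := ⟨B, by rw [hQ, Fintype.mem_piFinset]; exact hBmem⟩
    choose mz hmz hmz' using fun v : HeightOneSpectrum (𝓞 K) =>
      Finset.exists_max_image Z (fun z => fa v (π z)) hZne
    choose ms hms hms' using fun v : HeightOneSpectrum (𝓞 K) =>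
      Finset.exists_max_image Q (fun zs => fa v (B.det zs)) hQne
    choose mzw hmzw hmzw' using fun w : InfinitePlace K =>
      Finset.exists_max_image Z (fun z => w (π z)) hZne
    choose msw hmsw hmsw' using fun w : InfinitePlace K =>
      Finset.exists_max_image Q (fun zs => w (B.det zs)) hQne
    have hcons : ∀ z ∈ Z, ∀ zs ∈ Q, ∀ i, Matrix.vecCons z (fun i => (zs i : V)) i ∈ Z := by
      intro z hz zs hzs i
      rw [hQ, Fintype.mem_piFinset] at hzs
      refine Fin.cases ?_ (fun j => ?_) i
      · simpa using hz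
      · have := hzs j
        rw [hZ', Finset.mem_subtype] at this
        simpa using this
    have hprodv : ∀ v, fa v (π (mz v)) * fa v (B.det (ms v)) =
        fa v (b.det (Matrix.vecCons (mz v) (fun i => (ms v i : V)))) := by
      intro v
      rw [hq1_split b u' hli, Pool.Agent.Lib.MP_4d5ce1_nt.fa_mul]
    have hprodw : ∀ w : InfinitePlace K, w (π (mzw w)) * w (B.det (msw w)) =
        w (b.det (Matrix.vecCons (mzw w) (fun i => (msw w i : V)))) := by
      intro w
      rw [hq1_split b u' hli, map_mul]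
    -- lower bounds
    have hMv : ∀ v, fa v δ ≤ fa v (π (mz v)) := fun v => hmz' v (u 0) (hu 0)
    have hMw : ∀ w : InfinitePlace K, w δ ≤ w (π (mzw w)) := fun w => hmzw' w (u 0) (hu 0)
    have hBQ : (fun i => B i) ∈ Q := by rw [hQ, Fintype.mem_piFinset]; exact hBmem
    have hM'v : ∀ v, 1 ≤ fa v (B.det (ms v)) := by
      intro v
      have := hms' v (fun i => B i) hBQ
      rwa [Basis.det_self, Pool.Agent.Lib.MP_4d5ce1_nt.fa_one] at this
    have hM'w : ∀ w : InfinitePlace K, 1 ≤ w (B.det (msw w)) := by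
      intro w
      have := hmsw' w (fun i => B i) hBQ
      rwa [Basis.det_self, map_one] at this
    have hδv : ∀ v, 0 < fa v δ := fun v => Pool.Agent.Lib.MP_4d5ce1_nt.fa_pos v hδ0
    have hδw : ∀ w : InfinitePlace K, 0 < w δ := fun w => InfinitePlace.pos_iff.mpr hδ0
    have hMv0 : ∀ v, 0 < fa v (π (mz v)) := fun v => (hδv v).trans_le (hMv v)
    have hMw0 : ∀ w : InfinitePlace K, 0 < w (π (mzw w)) := fun w => (hδw w).trans_le (hMw w)
    have hfin := Pool.Agent.Lib.MP_4d5ce1_nt.finite_fa_ne_one hδ0
    set T' : Finset (HeightOneSpectrum (𝓞 K)) := T ∪ hfin.toFinset with hT'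
    have hoff : ∀ v ∉ T', fa v (π (mz v)) ≤ 1 ∧ fa v (B.det (ms v)) ≤ 1 := by
      intro v hv
      rw [hT', Finset.mem_union, not_or, Set.Finite.mem_toFinset] at hv
      have h1 : fa v δ = 1 := by
        by_contra h
        exact hv.2 h
      have h2 := hnT _ (hcons _ (hmz v) _ (hms v)) v hv.1
      rw [← hprodv v] at h2
      have h3 := hMv v
      have h4 := hM'v v
      rw [h1] at h3
      constructor
      · nlinarith
      · nlinarith
    -- step 1: the image
    set X : Finset K := Y.image π with hX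
    set E1 : ℝ := ∑ w : InfinitePlace K, (w.mult : ℝ) * Real.log (w (π (mzw w))) +
      ∑ v ∈ T', Real.log (fa v (π (mz v))) with hE1
    have hE1nn : 0 ≤ E1 := by
      have hpf := Pool.Agent.Lib.MP_4d5ce1_nt.product_formula hδ0
      have hfs : ∑ᶠ v : HeightOneSpectrum (𝓞 K), Real.log (fa v δ) =
          ∑ v ∈ T', Real.log (fa v δ) := by
        rw [finsum_eq_sum_of_support_subset]
        intro v hv
        rw [Function.mem_support] at hv
        rw [hT', Finset.coe_union, Set.mem_union]
        right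
        rw [Set.Finite.coe_toFinset]
        intro h
        apply hv
        rw [h, Real.log_one]
      rw [hfs] at hpf
      have h1 : ∑ w : InfinitePlace K, (w.mult : ℝ) * Real.log (w δ) ≤
          ∑ w : InfinitePlace K, (w.mult : ℝ) * Real.log (w (π (mzw w))) :=
        Finset.sum_le_sum fun w _ => mul_le_mul_of_nonneg_left
          (Real.log_le_log (hδw w) (hMw w)) (Nat.cast_nonneg _)
      have h2 : ∑ v ∈ T', Real.log (fa v δ) ≤ ∑ v ∈ T', Real.log (fa v (π (mz v))) :=
        Finset.sum_le_sum fun v _ => Real.log_le_log (hδv v) (hMv v)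
      linarith
    have hcardX : (X.card : ℝ) ≤ C1 * Real.exp E1 := by
      have h := hpack X (fun x y => x - y) (fun _ x => x - π y₀)
        (fun w => w (π (mzw w))) (fun _ => 1) T' (fun v => - Real.log (fa v (π (mz v))))
        hMw0 (fun _ => one_pos) (fun x _ y _ hxy => sub_ne_zero.mpr hxy) ?_ ?_ ?_ ?_
      · rw [max_eq_right] at h
        · refine h.trans (le_of_eq ?_)
          congr 2
          rw [hE1, Finset.sum_neg_distrib]
          simp
        · rw [Real.one_le_exp_iff, Finset.sum_neg_distrib, sub_neg_eq_add]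
          simpa [hE1] using hE1nn
      · intro x hx w
        rw [hX, Finset.mem_image] at hx
        obtain ⟨y, hy, rfl⟩ := hx
        rw [← map_sub]
        exact hmzw' w _ (hYZ y hy y₀ hy₀)
      · intro x _ y _ w
        rw [sub_sub_sub_cancel_right, mul_one, one_mul]
      · intro x hx y hy hxy v _
        rw [neg_neg]
        rw [hX, Finset.mem_image] at hx hy
        obtain ⟨x, hx, rfl⟩ := hx
        obtain ⟨y, hy, rfl⟩ := hy
        rw [← map_sub]
        have hne : π (x - y) ≠ 0 := by rw [map_sub]; exact sub_ne_zero.mpr hxy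
        exact Real.log_le_log (Pool.Agent.Lib.MP_4d5ce1_nt.fa_pos v hne)
          (hmz' v _ (hYZ x hx y hy))
      · intro x hx y hy hxy v hv
        rw [hX, Finset.mem_image] at hx hy
        obtain ⟨x, hx, rfl⟩ := hx
        obtain ⟨y, hy, rfl⟩ := hy
        rw [← map_sub]
        exact (hmz' v _ (hYZ x hx y hy)).trans (hoff v hv).1
    -- step 2: the fibres
    set E2 : ℝ := ∑ w : InfinitePlace K, (w.mult : ℝ) * Real.log (w (B.det (msw w))) +
      ∑ v ∈ T', Real.log (fa v (B.det (ms v))) with hE2
    have hfib : ∀ c ∈ X, (((Y.filter fun y => π y = c)).card : ℝ) ≤ C2 * Real.exp E2 := by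
      intro c hc
      rw [hX, Finset.mem_image] at hc
      obtain ⟨y₁, hy₁, rfl⟩ := hc
      set Yc := Y.filter fun y => π y = π y₁ with hYc
      have hmemU : ∀ y ∈ Yc, y - y₁ ∈ U := by
        intro y hy
        rw [hYc, Finset.mem_filter] at hy
        apply hker
        rw [map_sub, hy.2, sub_self]
      set Y' : Finset U := Yc.attach.image fun y => (⟨y.1 - y₁, hmemU y.1 y.2⟩ : U) with hY'
      have hcard : Y'.card = Yc.card := by
        rw [hY', Finset.card_image_of_injective, Finset.card_attach]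
        intro x y hxy
        have := congrArg Subtype.val hxy
        simp only [sub_left_inj] at this
        exact Subtype.ext this
      rw [← hcard]
      have h := ih U B Y' Z' T' (fun v => - Real.log (fa v (B.det (ms v))))
        (fun w => Real.log (w (B.det (msw w)))) ?_ ?_ ?_ ?_ ?_
      · refine h.trans (le_of_eq ?_)
        congr 2
        rw [hE2, Finset.sum_neg_distrib, sub_neg_eq_add]
      · intro y hy y' hy'
        rw [hY', Finset.mem_image] at hy hy'
        obtain ⟨y, _, rfl⟩ := hy
        obtain ⟨y', _, rfl⟩ := hy'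
        rw [hZ', Finset.mem_subtype]
        have h1 := (Finset.mem_filter.mp y.2).1
        have h2 := (Finset.mem_filter.mp y'.2).1
        have h3 := hYZ _ h1 _ h2
        simpa using h3
      · rw [eq_top_iff, ← B.span_eq]
        apply Submodule.span_mono
        rintro _ ⟨i, rfl⟩
        exact hBmem i
      · intro zs hzs v _
        rw [neg_neg, Real.exp_log (one_pos.trans_le (hM'v v))]
        exact hms' v zs (by rw [hQ, Fintype.mem_piFinset]; exact hzs)
      · intro zs hzs v hv
        exact (hms' v zs (by rw [hQ, Fintype.mem_piFinset]; exact hzs)).trans (hoff v hv).2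
      · intro zs hzs w
        rw [Real.exp_log (one_pos.trans_le (hM'w w))]
        exact hmsw' w zs (by rw [hQ, Fintype.mem_piFinset]; exact hzs)
    -- step 3
    have hsum : (Y.card : ℝ) ≤ X.card * (C2 * Real.exp E2) := by
      have h1 := Finset.card_eq_sum_card_image (fun y => π y) Y
      have h2 : (Y.card : ℝ) = ∑ c ∈ X, (((Y.filter fun y => π y = c)).card : ℝ) := by
        rw [h1, Nat.cast_sum]
      rw [h2, ← nsmul_eq_mul]
      exact Finset.sum_le_card_nsmul _ _ _ hfib
    have hE12 : E1 + E2 ≤ ∑ w : InfinitePlace K, (w.mult : ℝ) * R w - ∑ v ∈ T, e v := by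
      have h1 : ∑ w : InfinitePlace K, (w.mult : ℝ) * Real.log (w (π (mzw w))) +
          ∑ w : InfinitePlace K, (w.mult : ℝ) * Real.log (w (B.det (msw w))) ≤
          ∑ w : InfinitePlace K, (w.mult : ℝ) * R w := by
        rw [← Finset.sum_add_distrib]
        apply Finset.sum_le_sum
        intro w _
        rw [← mul_add]
        apply mul_le_mul_of_nonneg_left _ (Nat.cast_nonneg _)
        rw [← Real.log_mul (hMw0 w).ne' (one_pos.trans_le (hM'w w)).ne', hprodw w]
        rw [Real.log_le_iff_le_exp]
        · exact hR _ (hcons _ (hmzw w) _ (hmsw w)) w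
        · rw [← hprodw w]
          exact mul_pos (hMw0 w) (one_pos.trans_le (hM'w w))
      have h2 : ∑ v ∈ T', Real.log (fa v (π (mz v))) + ∑ v ∈ T', Real.log (fa v (B.det (ms v))) ≤
          - ∑ v ∈ T, e v := by
        rw [← Finset.sum_add_distrib, ← Finset.sum_neg_distrib]
        have h3 : ∑ v ∈ T', (if v ∈ T then - e v else 0) = ∑ v ∈ T, - e v := by
          rw [← Finset.sum_filter]
          congr 1
          ext v
          rw [Finset.mem_filter, hT', Finset.mem_union]
          tauto
        rw [← h3]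
        apply Finset.sum_le_sum
        intro v _
        have hpos : 0 < fa v (π (mz v)) * fa v (B.det (ms v)) :=
          mul_pos (hMv0 v) (one_pos.trans_le (hM'v v))
        rw [← Real.log_mul (hMv0 v).ne' (one_pos.trans_le (hM'v v)).ne']
        split_ifs with hv
        · rw [Real.log_le_iff_le_exp hpos, hprodv v]
          exact hT _ (hcons _ (hmz v) _ (hms v)) v hv
        · apply Real.log_nonpos hpos.le
          rw [hprodv v]
          exact hnT _ (hcons _ (hmz v) _ (hms v)) v hv
      rw [hE1, hE2]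
      linarith
    calc (Y.card : ℝ) ≤ X.card * (C2 * Real.exp E2) := hsum
      _ ≤ (C1 * Real.exp E1) * (C2 * Real.exp E2) :=
          mul_le_mul_of_nonneg_right hcardX (by positivity)
      _ = C1 * C2 * Real.exp (E1 + E2) := by rw [Real.exp_add E1 E2]; ring
      _ ≤ _ := by
          apply mul_le_mul_of_nonneg_left _ (by positivity)
          exact Real.exp_le_exp.mpr hE12

theorem adelic_packing (K : Type*) [Field K] [NumberField K] (k : ℕ) :
    ∃ C : ℝ, 0 < C ∧ ∀ (Y Z : Finset (Fin k → K)) (T : Finset (HeightOneSpectrum (𝓞 K)))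
      (e : HeightOneSpectrum (𝓞 K) → ℝ) (R : InfinitePlace K → ℝ),
      (∀ y ∈ Y, ∀ y' ∈ Y, y - y' ∈ Z) →
      Submodule.span K (Z : Set (Fin k → K)) = ⊤ →
      (∀ z : Fin k → Fin k → K, (∀ i, z i ∈ Z) → ∀ v ∈ T,
        fa v (Matrix.det (Matrix.of z)) ≤ Real.exp (- e v)) →
      (∀ z : Fin k → Fin k → K, (∀ i, z i ∈ Z) → ∀ v ∉ T, fa v (Matrix.det (Matrix.of z)) ≤ 1) →
      (∀ z : Fin k → Fin k → K, (∀ i, z i ∈ Z) → ∀ w : InfinitePlace K,
        w (Matrix.det (Matrix.of z)) ≤ Real.exp (R w)) →
      (Y.card : ℝ) ≤ C * Real.exp (∑ w : InfinitePlace K, (w.mult : ℝ) * R w - ∑ v ∈ T, e v) := by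
  obtain ⟨C, hC, h⟩ := hq1_abstract K k
  refine ⟨C, hC, ?_⟩
  intro Y Z T e R h1 h2 h3 h4 h5
  have hdet : ∀ z : Fin k → Fin k → K, (Pi.basisFun K (Fin k)).det z =
      Matrix.det (Matrix.of z) := by
    intro z
    rw [Pi.basisFun_det]
    rfl
  refine h (Fin k → K) (Pi.basisFun K (Fin k)) Y Z T e R h1 h2 ?_ ?_ ?_
  · intro z hz v hv
    rw [hdet]; exact h3 z hz v hv
  · intro z hz v hv
    rw [hdet]; exact h4 z hz v hv
  · intro z hz w
    rw [hdet]; exact h5 z hz w

end Pool.Agent.Lib.MP_44a246_nt.HQ
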